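import Mathlib

/-!
The class of composition factors that is treated.
-/

set_option autoImplicit false

namespace Pool.Agent.MP_3e257e_al

/-- The isometry group of a sesquilinear form. -/
def isom {F V : Type} [Field F] [AddCommGroup V] [Module F V] {σ : F →+* F}
    (B : V →ₗ[F] V →ₛₗ[σ] F) : Subgroup (V ≃ₗ[F] V) where
  carrier := {g | ∀ v w, B (g v) (g w) = B v w}
  one_mem' := fun _ _ => rfl
  mul_mem' := fun h h' _ _ => (h _ _).trans (h' _ _)
  inv_mem' := fun {g} h v w => by rw [← h]; simp

/-- `T` is a quotient of a subnormal subgroup of `G`. -/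
def SubQuot (G T : Type) [Group G] [Group T] : Prop :=
  ∃ (H : Subgroup G) (f : H →* T), H.IsSubnormal ∧ Function.Surjective f

/-- `T` has cyclic Sylow `p`-subgroups, or has no element of order `p ^ 2`, or is a quotient of a
subnormal subgroup of a finite symmetric group, of a finite general linear group in characteristic
`p`, or, for odd `p`, of the isometry group of a non-degenerate symmetric, alternating or hermitian
form on a finite vector space in characteristic `p`. -/
def Allowed (p : ℕ) (T : Type) [Group T] : Prop :=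
  (∀ R : Sylow p T, IsCyclic R) ∨ (∀ s : T, orderOf s ≠ p ^ 2) ∨
    (∃ n, SubQuot (Equiv.Perm (Fin n)) T) ∨
    ∃ (F V : Type) (_ : Field F) (_ : CharP F p) (_ : AddCommGroup V) (_ : Module F V),
      Finite V ∧ (SubQuot (V ≃ₗ[F] V) T ∨ p ≠ 2 ∧
        ∃ (σ : F →+* F) (B : V →ₗ[F] V →ₛₗ[σ] F) (ε : F), (ε = 1 ∨ ε = -1) ∧
          (∀ a, σ (σ a) = a) ∧ (∀ v w, B w v = ε * σ (B v w)) ∧
          (∀ v, (∀ w, B w v = 0) → v = 0) ∧ SubQuot (isom B) T)

end Pool.Agent.MP_3e257e_al
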