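import Pool.Agent.MP_3e257e_al.Gal

/-!
Elementary character theory.
-/

set_option autoImplicit false

namespace Pool.Agent.MP_3e257e_al

open Module

variable {X : Type} [Group X]

/-- Characters of finite-dimensional representations. -/
def IsChar (θ : X → ℂ) : Prop := ∃ V : FDRep ℂ X, V.character = θ

theorem isChar_rep {V : Type} [AddCommGroup V] [Module ℂ V] [FiniteDimensional ℂ V]
    (ρ : Representation ℂ X V) : IsChar ρ.character := ⟨FDRep.of ρ, rfl⟩

theorem IsIrr.isChar {θ : X → ℂ} (h : IsIrr θ) : IsChar θ := by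
  obtain ⟨V, -, hV⟩ := h
  exact ⟨V, hV⟩

theorem IsChar.mul {θ θ' : X → ℂ} (h : IsChar θ) (h' : IsChar θ') :
    IsChar fun g => θ g * θ' g := by
  obtain ⟨V, rfl⟩ := h
  obtain ⟨W, rfl⟩ := h'
  exact ⟨CategoryTheory.MonoidalCategoryStruct.tensorObj V W, FDRep.char_tensor V W⟩

theorem IsChar.inv {θ : X → ℂ} (h : IsChar θ) : IsChar fun g => θ g⁻¹ := by
  obtain ⟨V, rfl⟩ := h
  exact ⟨_, funext (FDRep.char_dual V)⟩

theorem IsChar.comp {Y : Type} [Group Y] {θ : X → ℂ} (h : IsChar θ) (φ : Y →* X) :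
    IsChar fun y => θ (φ y) := by
  obtain ⟨V, rfl⟩ := h
  exact isChar_rep (V := V) (V.ρ.comp φ)

theorem IsChar.map {θ : X → ℂ} (h : IsChar θ) (τ : ℂ ≃+* ℂ) : IsChar fun g => τ (θ g) := by
  classical
  obtain ⟨V, rfl⟩ := h
  let b := Module.Free.chooseBasis ℂ V
  let ρ : Representation ℂ X (Module.Free.ChooseBasisIndex ℂ V → ℂ) :=
    (Matrix.toLinAlgEquiv' (R := ℂ)).toMulEquiv.toMonoidHom.comp
      ((τ.toRingHom.mapMatrix).toMonoidHom.comp
        ((LinearMap.toMatrixAlgEquiv b).toMulEquiv.toMonoidHom.comp V.ρ))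
  have := isChar_rep ρ
  convert this using 1
  funext g
  have h1 : ρ g = Matrix.toLin' ((LinearMap.toMatrix b b (V.ρ g)).map τ) := rfl
  rw [Representation.character, h1, Matrix.trace_toLin'_eq, FDRep.character,
    LinearMap.trace_eq_matrix_trace ℂ b, AddMonoidHom.map_trace τ]

theorem IsChar.comm {θ : X → ℂ} (h : IsChar θ) (a b : X) : θ (a * b) = θ (b * a) := by
  obtain ⟨V, rfl⟩ := h
  exact V.char_mul_comm b a

theorem IsChar.conj {θ : X → ℂ} (h : IsChar θ) (a b : X) : θ (a * b * a⁻¹) = θ b := by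
  rw [h.comm, inv_mul_cancel_left]

theorem IsChar.one {θ : X → ℂ} (h : IsChar θ) : ∃ d : ℕ, θ 1 = d := by
  obtain ⟨V, rfl⟩ := h
  exact ⟨_, V.char_one⟩

theorem IsChar.mul_of_one {θ : X → ℂ} (h : IsChar θ) (h1 : θ 1 = 1) (a b : X) :
    θ (a * b) = θ a * θ b := by
  obtain ⟨V, rfl⟩ := h
  have h2 : finrank ℂ V = 1 := by
    rw [V.char_one] at h1
    exact_mod_cast h1
  obtain ⟨c, hc, -⟩ := (V.ρ a).existsUnique_eq_smul_id_of_finrank_eq_one h2
  simp only [FDRep.character, map_mul, hc]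
  rw [smul_mul_assoc, map_smul, map_smul, LinearMap.trace_id, h2, ← Module.End.one_eq_id, one_mul]
  simp

theorem trace_compl {V : Type} [AddCommGroup V] [Module ℂ V] [FiniteDimensional ℂ V]
    {p q : Submodule ℂ V} (h : IsCompl p q) {f : V →ₗ[ℂ] V} (hp : ∀ x ∈ p, f x ∈ p)
    (hq : ∀ x ∈ q, f x ∈ q) :
    LinearMap.trace ℂ V f = LinearMap.trace ℂ p (f.restrict hp) +
      LinearMap.trace ℂ q (f.restrict hq) := by
  rw [← LinearMap.trace_prodMap', ← LinearMap.trace_conj' _ (p.prodEquivOfIsCompl q h)]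
  congr 1
  ext x
  obtain ⟨y, rfl⟩ := (p.prodEquivOfIsCompl q h).surjective x
  rw [LinearEquiv.conj_apply_apply, LinearEquiv.symm_apply_apply]
  simp

section Fin

variable [Fintype X]

/-- The bilinear pairing of class functions. -/
noncomputable def ip (f h : X → ℂ) : ℂ := (Nat.card X : ℂ)⁻¹ * ∑ g, f g * h g⁻¹

omit [Group X] in
theorem cardX_ne [Nonempty X] : (Nat.card X : ℂ) ≠ 0 := Nat.cast_ne_zero.mpr Nat.card_pos.ne'

theorem isIrr_iff {θ : X → ℂ} : IsIrr θ ↔ IsChar θ ∧ ip θ θ = 1 := by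
  have key : ∀ V : FDRep ℂ X, CategoryTheory.Simple V ↔ ip V.character V.character = 1 := by
    intro V
    rw [FDRep.simple_iff_char_is_norm_one, ip, inv_mul_eq_one₀ cardX_ne, eq_comm]
  constructor
  · rintro ⟨V, h, rfl⟩
    exact ⟨⟨V, rfl⟩, (key V).mp h⟩
  · rintro ⟨⟨V, rfl⟩, h⟩
    exact ⟨V, (key V).mpr h, rfl⟩

theorem ip_ne {θ θ' : X → ℂ} (h : IsIrr θ) (h' : IsIrr θ') (hne : θ ≠ θ') : ip θ θ' = 0 := by
  obtain ⟨V, hV, rfl⟩ := h
  obtain ⟨W, hW, rfl⟩ := h'
  have := invertibleOfNonzero (cardX_ne (X := X))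
  rw [ip, FDRep.char_orthonormal, if_neg]
  rintro ⟨i⟩
  exact hne (FDRep.char_iso i)

theorem IsIrr.map {θ : X → ℂ} (h : IsIrr θ) (τ : ℂ ≃+* ℂ) : IsIrr fun g => τ (θ g) := by
  rw [isIrr_iff] at h ⊢
  refine ⟨h.1.map τ, ?_⟩
  have := congrArg τ h.2
  simpa [ip] using this

theorem decomp_rep (n : ℕ) : ∀ (V : Type) [AddCommGroup V] [Module ℂ V] [FiniteDimensional ℂ V]
    (ρ : Representation ℂ X V), finrank ℂ V = n →
    ∃ s : Multiset (X → ℂ), (∀ ψ ∈ s, IsIrr ψ) ∧ ρ.character = s.sum := by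
  have := invertibleOfNonzero (cardX_ne (X := X))
  have : NeZero (Nat.card X : ℂ) := ⟨cardX_ne⟩
  induction n using Nat.strong_induction_on with
  | _ n ih =>
  intro V _ _ _ ρ hn
  by_cases hi : ρ.IsIrreducible
  · refine ⟨{ρ.character}, fun ψ hψ => ?_, by simp⟩
    rw [Multiset.mem_singleton.mp hψ, isIrr_iff]
    refine ⟨isChar_rep ρ, ?_⟩
    rw [ip, Representation.char_orthonormal, if_pos ⟨Representation.Equiv.refl ρ⟩]
  by_cases h0 : n = 0
  · refine ⟨0, by simp, ?_⟩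
    have : Subsingleton V := Module.finrank_zero_iff.mp (hn.trans h0)
    funext g
    simp [Representation.character, Subsingleton.elim (ρ g) 0]
  have hnt : Nontrivial V := Module.nontrivial_of_finrank_pos (R := ℂ) (by omega)
  have hnt' : Nontrivial (Subrepresentation ρ) :=
    ⟨⊥, ⊤, fun h => bot_ne_top (congrArg Subrepresentation.toSubmodule h)⟩
  obtain ⟨W, hW1, hW2⟩ : ∃ W : Subrepresentation ρ, W ≠ ⊥ ∧ W ≠ ⊤ := by
    by_contra hc
    push Not at hc
    exact hi ⟨fun a => or_iff_not_imp_left.mpr (hc a)⟩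
  obtain ⟨W', hc⟩ := exists_isCompl W
  have hc' : IsCompl W.toSubmodule W'.toSubmodule :=
    ⟨disjoint_iff.mpr (congrArg Subrepresentation.toSubmodule hc.inf_eq_bot),
      codisjoint_iff.mpr (congrArg Subrepresentation.toSubmodule hc.sup_eq_top)⟩
  have l1 : finrank ℂ W.toSubmodule < n := hn ▸ Submodule.finrank_lt fun h =>
    hW2 (Subrepresentation.toSubmodule_injective h)
  have l2 : finrank ℂ W'.toSubmodule < n := hn ▸ Submodule.finrank_lt fun h => by
    have h' : W' = ⊤ := Subrepresentation.toSubmodule_injective h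
    rw [h'] at hc
    exact hW1 (eq_bot_of_isCompl_top hc)
  obtain ⟨s, hs, e⟩ := ih _ l1 _ W.toRepresentation rfl
  obtain ⟨s', hs', e'⟩ := ih _ l2 _ W'.toRepresentation rfl
  refine ⟨s + s', fun ψ hψ => (Multiset.mem_add.mp hψ).elim (hs ψ) (hs' ψ), ?_⟩
  rw [Multiset.sum_add, ← e, ← e']
  funext g
  exact trace_compl hc' (W.apply_mem_toSubmodule g) (W'.apply_mem_toSubmodule g)

theorem IsChar.decomp {θ : X → ℂ} (h : IsChar θ) :
    ∃ s : Multiset (X → ℂ), (∀ ψ ∈ s, IsIrr ψ) ∧ θ = s.sum := by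
  obtain ⟨V, rfl⟩ := h
  exact decomp_rep _ V V.ρ rfl

theorem IsIrr.one_ne {θ : X → ℂ} (h : IsIrr θ) : θ 1 ≠ 0 := by
  intro h0
  have h1 := (isIrr_iff.mp h).2
  obtain ⟨V, -, rfl⟩ := h
  rw [V.char_one, Nat.cast_eq_zero] at h0
  have : Subsingleton V := Module.finrank_zero_iff.mp h0
  simp [ip, FDRep.character, Subsingleton.elim (V.ρ _) 0] at h1

/-- Schur's lemma for convolution by a class function. -/
theorem IsIrr.conv {θ : X → ℂ} (h : IsIrr θ) {f : X → ℂ} (hf : ∀ a b, f (a * b * a⁻¹) = f b) :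
    ∃ c, ∀ y, ∑ x, f x * θ (x * y) = c * θ y := by
  have h1 := (isIrr_iff.mp h).2
  obtain ⟨V, -, rfl⟩ := h
  have := invertibleOfNonzero (cardX_ne (X := X))
  have h2 : finrank ℂ (Representation.IntertwiningMap V.ρ V.ρ) = 1 := by
    have h3 := Representation.card_inv_mul_sum_char_mul_char_eq_finrank V.ρ V.ρ
    have h4 : (finrank ℂ (Representation.IntertwiningMap V.ρ V.ρ) : ℂ) = 1 := h3.symm.trans h1
    exact_mod_cast h4
  let A : V →ₗ[ℂ] V := ∑ x, f x • V.ρ x
  have hA : ∀ g, A * V.ρ g = V.ρ g * A := by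
    intro g
    simp only [A, Finset.sum_mul, Finset.mul_sum, smul_mul_assoc, mul_smul_comm, ← map_mul]
    refine Fintype.sum_equiv (MulAut.conj g).symm.toEquiv _ _ fun x => ?_
    have h5 := hf g⁻¹ x
    rw [inv_inv, mul_assoc] at h5
    simp [h5, mul_assoc]
  let B : Representation.IntertwiningMap V.ρ V.ρ := ⟨A, hA⟩
  let J : Representation.IntertwiningMap V.ρ V.ρ := ⟨LinearMap.id, fun _ => rfl⟩
  by_cases hJ : J = 0
  · have h6 : (LinearMap.id : V →ₗ[ℂ] V) = 0 :=
      congrArg Representation.IntertwiningMap.toLinearMap hJ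
    have h7 : ∀ y, V.character y = 0 := by
      intro y
      rw [FDRep.character, ← LinearMap.id_comp (V.ρ y), h6]
      simp
    exact ⟨0, fun y => by simp [h7]⟩
  obtain ⟨c, hc⟩ := (finrank_eq_one_iff_of_nonzero' J hJ).mp h2 B
  have h8 : c • LinearMap.id = A := congrArg Representation.IntertwiningMap.toLinearMap hc
  refine ⟨c, fun y => ?_⟩
  have h9 := congrArg (fun T => LinearMap.trace ℂ V (T * V.ρ y)) h8
  simp only [A, Finset.sum_mul, smul_mul_assoc, ← map_mul, map_sum, map_smul, smul_eq_mul,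
    ← Module.End.one_eq_id, one_mul] at h9
  exact h9.symm

theorem IsIrr.conv_class {θ : X → ℂ} (h : IsIrr θ) (a : X) :
    ∃ c, ∀ y, ∑ g, θ (g * a * g⁻¹ * y) = c * θ y := by
  classical
  obtain ⟨c, hc⟩ := h.conv (f := fun x => ∑ g, if g * a * g⁻¹ = x then 1 else 0) (fun u v => by
    refine (Fintype.sum_equiv (Equiv.mulLeft u) _ _ fun g => ?_).symm
    refine if_congr ?_ rfl rfl
    rw [Equiv.coe_mulLeft, show u * g * a * (u * g)⁻¹ = u * (g * a * g⁻¹) * u⁻¹ by group]
    simp)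
  refine ⟨c, fun y => ?_⟩
  rw [← hc y]
  simp only [Finset.sum_mul]
  rw [Finset.sum_comm]
  simp

theorem IsIrr.one_eq_of_comm {θ : X → ℂ} (h : IsIrr θ)
    (hc : ∀ g a y, θ (g * a * g⁻¹ * y) = θ (a * y)) : θ 1 = 1 := by
  have h1 : ∀ a, θ a * θ a⁻¹ = θ 1 * θ 1 := by
    intro a
    obtain ⟨c, h2⟩ := h.conv_class a
    have h3 := h2 1
    have h4 := h2 a⁻¹
    simp only [hc, mul_one, mul_inv_cancel, Finset.sum_const, Finset.card_univ, nsmul_eq_mul,
      ← Nat.card_eq_fintype_card] at h3 h4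
    have h5 : ∀ g, θ (g * a * g⁻¹) = θ a := fun g => h.isChar.conj g a
    simp only [h5, Finset.sum_const, Finset.card_univ, nsmul_eq_mul,
      ← Nat.card_eq_fintype_card] at h3
    apply mul_left_cancel₀ (cardX_ne (X := X))
    linear_combination θ a⁻¹ * h3 - θ 1 * h4
  have h2 := (isIrr_iff.mp h).2
  simp only [ip, h1, Finset.sum_const, Finset.card_univ, nsmul_eq_mul,
    ← Nat.card_eq_fintype_card, inv_mul_cancel_left₀ (cardX_ne (X := X))] at h2
  obtain ⟨d, hd⟩ := h.isChar.one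
  rw [hd] at h2 ⊢
  have h3 : d * d = 1 := by exact_mod_cast h2
  exact_mod_cast Nat.eq_one_of_mul_eq_one_left h3

theorem IsIrr.dich {θ : X → ℂ} (h : IsIrr θ) (Q : Subgroup X) [hQ : Q.Normal] [Fintype Q] :
    (∀ y, ∑ q : Q, θ (q * y) = 0) ∨ ∀ q ∈ Q, ∀ y, θ (q * y) = θ y := by
  classical
  obtain ⟨c, hc⟩ := h.conv (f := fun x => if x ∈ Q then 1 else 0) (fun u v =>
    if_congr ⟨fun h1 => by simpa [mul_assoc] using hQ.conj_mem _ h1 u⁻¹,
      fun h1 => hQ.conj_mem _ h1 u⟩ rfl rfl)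
  have h1 : ∀ y, ∑ q : Q, θ (q * y) = c * θ y := by
    intro y
    rw [← hc y]
    simp only [ite_mul, one_mul, zero_mul]
    rw [← Finset.sum_filter]
    exact (Finset.sum_subtype _ (by simp) fun x => θ (x * y)).symm
  by_cases h0 : c = 0
  · exact Or.inl fun y => by rw [h1, h0, zero_mul]
  · refine Or.inr fun q hq y => mul_left_cancel₀ h0 ?_
    rw [← h1, ← h1]
    exact Fintype.sum_equiv (Equiv.mulRight (⟨q, hq⟩ : Q)) _ _ fun x => by simp [mul_assoc]

end Fin

theorem IsChar.roots [Finite X] {θ : X → ℂ} (h : IsChar θ) (g : X) :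
    ∃ s : Multiset ℂ, (∀ m : ℕ, θ (g ^ m) = (s.map (· ^ m)).sum) ∧
      ∀ ξ ∈ s, ∀ k : ℕ, g ^ k = 1 → ξ ^ k = 1 := by
  classical
  have := Fintype.ofFinite (Subgroup.zpowers g)
  obtain ⟨s, hs, e⟩ := (h.comp (Subgroup.zpowers g).subtype).decomp
  let a : Subgroup.zpowers g := ⟨g, Subgroup.mem_zpowers g⟩
  have h1 : ∀ ψ ∈ s, ∀ m : ℕ, ψ (a ^ m) = ψ a ^ m := by
    intro ψ hψ m
    have h2 : ψ 1 = 1 := (hs ψ hψ).one_eq_of_comm fun u v y => by
      rw [mul_comm' u v, mul_inv_cancel_right]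
    induction m with
    | zero => simpa using h2
    | succ m ih => rw [pow_succ, (hs ψ hψ).isChar.mul_of_one h2, ih, pow_succ]
  refine ⟨s.map fun ψ => ψ a, fun m => ?_, fun ξ hξ k hk => ?_⟩
  · have h3 := congrFun e (a ^ m)
    rw [Pi.multiset_sum_apply] at h3
    rw [Multiset.map_map]
    exact h3.trans (congrArg Multiset.sum (Multiset.map_congr rfl fun ψ hψ => h1 ψ hψ m))
  · obtain ⟨ψ, hψ, rfl⟩ := Multiset.mem_map.mp hξ
    have h4 : a ^ k = 1 := Subtype.ext hk
    have h5 := h1 ψ hψ 0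
    rw [← h1 ψ hψ, h4]
    simpa using h5

theorem IsChar.acts [Finite X] {θ : X → ℂ} (h : IsChar θ) {τ : ℂ ≃+* ℂ} {n m : ℕ}
    (hτ : Acts τ n m) {g : X} (hg : g ^ n = 1) : τ (θ g) = θ (g ^ m) := by
  obtain ⟨s, h1, h2⟩ := h.roots g
  have h3 := h1 1
  rw [pow_one] at h3
  rw [h1, h3, map_multiset_sum, Multiset.map_map]
  exact congrArg Multiset.sum (Multiset.map_congr rfl fun ξ hξ => by
    simpa using hτ ξ (h2 ξ hξ n hg))

theorem IsChar.conj_eq [Finite X] {θ : X → ℂ} (h : IsChar θ) (g : X) :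
    (starRingEnd ℂ) (θ g) = θ g⁻¹ := by
  have h0 : Nat.card X ≠ 0 := Nat.card_pos.ne'
  have h1 := h.acts (acts_conj h0) (pow_card_eq_one' (x := g))
  have h2 : g ^ (Nat.card X - 1) = g⁻¹ := by
    rw [eq_inv_iff_mul_eq_one, ← pow_succ, Nat.sub_add_cancel (Nat.pos_of_ne_zero h0),
      pow_card_eq_one']
  rw [h2] at h1
  exact h1

theorem IsChar.mem_cyc [Finite X] {θ : X → ℂ} (h : IsChar θ) {g : X} {n : ℕ} (hn : n ≠ 0)
    (hg : g ^ n = 1) : θ g ∈ cyc n := by
  obtain ⟨s, h1, h2⟩ := h.roots g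
  have h3 := h1 1
  rw [pow_one] at h3
  rw [h3]
  refine multiset_sum_mem _ fun x hx => ?_
  obtain ⟨ξ, hξ, rfl⟩ := Multiset.mem_map.mp hx
  exact pow_mem (root_mem_cyc hn (h2 ξ hξ n hg)) 1

/-- Traces of Hecke operators are algebraic integers. -/
theorem IsChar.hecke [Finite X] {Y : Type} [Group Y] [Fintype Y] {θ : X → ℂ} (h : IsChar θ)
    (φ : Y →* X) (R : Subgroup Y) (x : X) (hR : ∀ r ∈ R, ∃ y, φ r * x = x * φ y) :
    IsIntegral ℤ ((Nat.card R : ℂ)⁻¹ * ∑ y, θ (φ y * x)) := by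
  classical
  obtain ⟨V, rfl⟩ := h
  let T : Module.End ℂ V := (Nat.card R : ℂ)⁻¹ • ∑ y, V.ρ (φ y * x)
  have h1 : (Nat.card R : ℂ)⁻¹ * ∑ y, V.character (φ y * x) = LinearMap.trace ℂ V T := by
    simp only [T, map_smul, map_sum, smul_eq_mul, FDRep.character]
  rw [h1, Module.End.trace_eq_sum_roots_charpoly_of_splits (IsAlgClosed.splits _)]
  refine IsIntegral.multiset_sum fun μ hμ => ?_
  obtain ⟨w, hw⟩ := ((Module.End.hasEigenvalue_iff_isRoot_charpoly T μ).mpr
    (Polynomial.isRoot_of_mem_roots hμ)).exists_hasEigenvector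
  have hw1 : T w = μ • w := hw.apply_eq_smul
  by_cases h0 : μ = 0
  · rw [h0]; exact isIntegral_zero
  have hfix : ∀ y, V.ρ (φ y) w = w := by
    intro y
    have h2 : V.ρ (φ y) * T = T := by
      simp only [T, mul_smul_comm, Finset.mul_sum, ← map_mul]
      congr 1
      exact Fintype.sum_equiv (Equiv.mulLeft y) _ _ fun z => by simp [mul_assoc]
    have h3 := congrArg (fun B => B w) h2
    simp only [Module.End.mul_apply, hw1, map_smul] at h3
    exact smul_right_injective _ h0 h3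
  obtain ⟨S, hS, -⟩ := R.exists_isComplement_left 1
  have := Fintype.ofFinite S
  have := Fintype.ofFinite R
  have hT : T w = ∑ s : S, V.ρ (φ s * x) w := by
    have h4 : ∑ y, V.ρ (φ y * x) w = ∑ z : S × R, V.ρ (φ (z.1 * z.2) * x) w :=
      (Function.Bijective.sum_comp hS fun y => V.ρ (φ y * x) w).symm
    have h5 : ∀ (s : S) (r : R), V.ρ (φ (s * r) * x) w = V.ρ (φ s * x) w := by
      intro s r
      obtain ⟨y, hy⟩ := hR r r.2
      rw [map_mul φ, mul_assoc, hy, ← mul_assoc, map_mul V.ρ, Module.End.mul_apply, hfix]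
    simp only [T, LinearMap.smul_apply, LinearMap.sum_apply, h4, Fintype.sum_prod_type, h5,
      Finset.sum_const, Finset.card_univ, ← Nat.card_eq_fintype_card, ← Finset.smul_sum]
    rw [← Nat.cast_smul_eq_nsmul ℂ, smul_smul, inv_mul_cancel₀ cardX_ne, one_smul]
  refine isIntegral_of_smul_mem_submodule (Submodule.span ℤ (Set.range fun g => V.ρ g w)) ?_
    (Submodule.fg_span (Set.finite_range _)) μ ?_
  · intro h6
    have h7 : V.ρ 1 w ∈ Submodule.span ℤ (Set.range fun g => V.ρ g w) :=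
      Submodule.subset_span ⟨1, rfl⟩
    rw [h6, Submodule.mem_bot, map_one] at h7
    exact hw.2 h7
  · intro v hv
    induction hv using Submodule.span_induction with
    | mem v hv =>
      obtain ⟨g, rfl⟩ := hv
      rw [← map_smul, ← hw1, hT, map_sum]
      refine Submodule.sum_mem _ fun s _ => Submodule.subset_span ⟨g * (φ s * x), ?_⟩
      simp
    | zero => simp
    | add a b _ _ ha hb => rw [smul_add]; exact Submodule.add_mem _ ha hb
    | smul a b _ hb => rw [smul_comm]; exact Submodule.smul_mem _ _ hb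

theorem IsChar.integral [Finite X] {θ : X → ℂ} (h : IsChar θ) (g : X) : IsIntegral ℤ (θ g) := by
  obtain ⟨s, h1, h2⟩ := h.roots g
  have h3 := h1 1
  rw [pow_one] at h3
  rw [h3]
  refine IsIntegral.multiset_sum fun x hx => ?_
  obtain ⟨ξ, hξ, rfl⟩ := Multiset.mem_map.mp hx
  exact (isIntegral_root Nat.card_pos.ne' (h2 ξ hξ _ pow_card_eq_one')).pow 1

/-- The degree of an irreducible character divides the order of the group. -/
theorem IsIrr.degree_dvd [Finite X] {θ : X → ℂ} (h : IsIrr θ) {d : ℕ} (hd : θ 1 = d) :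
    d ∣ Nat.card X := by
  have := Fintype.ofFinite X
  obtain ⟨c, hc⟩ := h.conv (f := fun x => θ x⁻¹) (fun a b => by
    rw [mul_inv_rev, mul_inv_rev, inv_inv, ← mul_assoc, h.isChar.conj])
  have h1 : (Nat.card X : ℂ) = d * c := by
    have h2 := (isIrr_iff.mp h).2
    rw [ip, inv_mul_eq_one₀ cardX_ne] at h2
    have h3 := hc 1
    simp only [mul_one, hd] at h3
    rw [h2, mul_comm, ← h3]
    exact Finset.sum_congr rfl fun x _ => mul_comm _ _
  let O := integralClosure ℤ ℂ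
  have h4 : IsIntegral O c := by
    refine isIntegral_of_smul_mem_submodule
      (Submodule.span O (Set.range fun (g : X) (y : X) => θ (g * y))) ?_
      (Submodule.fg_span (Set.finite_range _)) c ?_
    · intro h6
      have h7 : (fun y => θ (1 * y)) ∈ Submodule.span O
          (Set.range fun (g : X) (y : X) => θ (g * y)) := Submodule.subset_span ⟨1, rfl⟩
      rw [h6, Submodule.mem_bot] at h7
      exact h.one_ne (by simpa using congrFun h7 1)
    · intro v hv
      induction hv using Submodule.span_induction with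
      | mem v hv =>
        obtain ⟨g, rfl⟩ := hv
        have h8 : (c • fun y => θ (g * y)) =
            ∑ x, (⟨θ x⁻¹, h.isChar.integral _⟩ : O) • fun y => θ (x * g * y) := by
          funext y
          simp [← hc, mul_assoc, Subalgebra.smul_def]
        rw [h8]
        exact Submodule.sum_mem _ fun x _ =>
          Submodule.smul_mem _ _ (Submodule.subset_span ⟨x * g, rfl⟩)
      | zero => simp
      | add a b _ _ ha hb => rw [smul_add]; exact Submodule.add_mem _ ha hb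
      | smul a b _ hb => rw [smul_comm]; exact Submodule.smul_mem _ _ hb
  have h5 : d ≠ 0 := by
    rintro rfl
    exact h.one_ne (by simpa using hd)
  have h9 := dvd_of_mulInt (a := d) (b := Nat.card X) (by exact_mod_cast h5)
    ⟨c, isIntegral_trans c h4, by exact_mod_cast h1⟩
  exact_mod_cast h9

end Pool.Agent.MP_3e257e_al
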