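import Pool.Agent.MP_3e257e_al.Defs

/-!
Definitions for the reduction of the question to almost quasi-simple groups.
-/

set_option autoImplicit false

namespace Pool.Agent.MP_3e257e_al

/-- The question has a positive answer for the group `G` and the prime `p`. -/
def LevEqEll (p : ℕ) (G : Type) [Group G] : Prop :=
  ∀ (P : Sylow p G) (V : FDRep ℂ G), CategoryTheory.Simple V → ¬ p ∣ Module.finrank ℂ V →
    2 ≤ lev p V.character → lev p V.character = ell p fun v : (P : Subgroup G) => V.character v

/-- If the level `a` of `χ` is at least two, the degree of the level `a` part of the restriction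
to a Sylow subgroup is congruent to `χ 1` modulo `p`. -/
def TopCong (p : ℕ) {G : Type} [Group G] (χ : G → ℂ) : Prop :=
  ∀ P : Sylow p G, 2 ≤ lev p χ →
    ∃ z : ℤ, deltaDeg p (lev p χ) (fun v : (P : Subgroup G) => χ v) = χ 1 + p * z

/-- `V` is a faithful representation of `X` of dimension prime to `p`, and `M` is a quasi-simple
normal subgroup of `X` whose centraliser is the centre of `X`, such that `M Z(X)` has index a power
of `p` and `M` acts irreducibly on `V` with a character of level at least two. -/
def AlmostQS (p : ℕ) {X : Type} [Group X] (V : FDRep ℂ X) (M : Subgroup X) : Prop :=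
  Function.Injective V.ρ ∧ ¬ p ∣ Module.finrank ℂ V ∧ M.Normal ∧ commutator M = ⊤ ∧
    IsSimpleGroup (M ⧸ Subgroup.center M) ∧ Subgroup.centralizer (M : Set X) = Subgroup.center X ∧
    (∃ k, (M ⊔ Subgroup.center X).index = p ^ k) ∧ (IsIrr fun x : M => V.character x) ∧
    2 ≤ lev p fun x : M => V.character x

/-- The subgroups that can be reached from the whole group by passing repeatedly to a normal
subgroup or to a subgroup of index prime to `p`. -/
inductive Rch (p : ℕ) {G : Type} [Group G] : Subgroup G → Prop
  | top : Rch p ⊤
  | step (H K : Subgroup G) : Rch p K → H ≤ K →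
      ((H.subgroupOf K).Normal ∨ ¬ p ∣ H.relIndex K) → Rch p H

/-- Every non-abelian simple quotient of a subgroup of `G` reached in this way lies in the
class `𝒯`. -/
def SecIn (p : ℕ) (𝒯 : ∀ (T : Type) [Group T], Prop) (G : Type) [Group G] : Prop :=
  ∀ (H : Subgroup G) (T : Type) [Group T] (f : H →* T), Rch p H → Function.Surjective f →
    IsSimpleGroup T → ¬ IsMulCommutative T → 𝒯 T

end Pool.Agent.MP_3e257e_al
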