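import Pool.Agent.MP_3e257e_al.RInv
import Pool.Agent.MP_3e257e_al.RDefs

/-!
Classes of simple groups that occur as reachable sections.
-/

set_option autoImplicit false
set_option linter.unusedSectionVars false

namespace Pool.Agent.MP_3e257e_al

open Subgroup Function

variable {G K : Type} [Group G] [Group K] [Finite G] [Finite K] {p : ℕ}
  {𝒯 : ∀ (T : Type) [Group T], Prop}

theorem rel_eq (D Q : Subgroup G) [Q.Normal] : D.index = D.relIndex Q * (D ⊔ Q).index := by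
  refine mul_right_cancel₀ (Nat.card_pos (α := D.subgroupOf Q)).ne' ?_
  rw [index_sup, ← (D.subgroupOf Q).index_mul_card, Subgroup.relIndex]
  ring

theorem rel_dvd (D Q : Subgroup G) [Q.Normal] : D.relIndex Q ∣ D.index := ⟨_, rel_eq D Q⟩

theorem rel_inf_dvd (H B L : Subgroup G) [L.Normal] : H.relIndex (L ⊓ B) ∣ H.relIndex B := by
  have h := rel_dvd (H.subgroupOf B) (L.subgroupOf B)
  rwa [← inf_subgroupOf_right L, relIndex_subgroupOf inf_le_right] at h

theorem Rch.of_normal (H : Subgroup G) [H.Normal] : Rch p H :=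
  .step H ⊤ .top le_top (.inl inferInstance)

theorem Rch.of_index {H : Subgroup G} (h : ¬ p ∣ H.index) : Rch p H :=
  .step H ⊤ .top le_top (.inr (by rwa [relIndex_top_right]))

theorem Rch.of_subnormal {H : Subgroup G} (h : H.IsSubnormal) : Rch p H := by
  induction h with
  | top => exact .top
  | step H K h1 _ h2 ih => exact .step H K ih h1 (.inl h2)

theorem Rch.comap (ι : K →* G) [ι.range.Normal] {B : Subgroup G} (h : Rch p B) :
    Rch p (B.comap ι) := by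
  induction h with
  | top => exact .top
  | step H B _ h1 h2 ih =>
    refine .step _ _ ih (comap_mono h1) (h2.imp (fun h2 => ?_) fun h2 h3 => h2 (h3.trans ?_))
    · exact h2.comap (ι.subgroupComap B)
    · rw [relIndex_comap, map_comap_eq]
      exact rel_inf_dvd H B _

theorem Rch.map (ψ : K →* G) (hψ : Rch p ψ.range) {B : Subgroup K} (h : Rch p B) :
    Rch p (B.map ψ) := by
  induction h with
  | top => rwa [← MonoidHom.range_eq_map]
  | step H B _ h1 h2 ih =>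
    have h3 : (H.map ψ).subgroupOf (B.map ψ) = (H.subgroupOf B).map (ψ.subgroupMap B) := by
      ext ⟨_, b, hb, rfl⟩
      exact ⟨fun ⟨a, ha, h4⟩ => ⟨⟨a, h1 ha⟩, ha, Subtype.ext h4⟩,
        fun ⟨a, ha, h4⟩ => ⟨a, ha, congrArg Subtype.val h4⟩⟩
    refine .step _ _ ih (map_mono h1) (h2.imp (fun h2 => ?_) fun h2 h4 => h2 (h4.trans ?_))
    · exact h3 ▸ h2.map _ (ψ.subgroupMap_surjective B)
    · rw [relIndex, h3]
      exact index_map_dvd _ (ψ.subgroupMap_surjective B)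

/-- All non-abelian simple reachable sections on which `Z` acts trivially lie in the class. -/
def Cl (p : ℕ) (𝒯 : ∀ (T : Type) [Group T], Prop) {G : Type} [Group G] (Z : Subgroup G) : Prop :=
  ∀ (A T : Type) [Group A] [Group T] [Finite A] (φ : A →* G) (f : A →* T), Rch p φ.range →
    Surjective f → (∀ a, φ a ∈ Z → f a = 1) → IsSimpleGroup T → ¬ IsMulCommutative T → 𝒯 T

theorem Cl.push {Z : Subgroup G} (h : Cl p 𝒯 Z) (ψ : K →* G) (hψ : Rch p ψ.range)
    {Z' : Subgroup K} (hZ : Z.comap ψ ≤ Z') : Cl p 𝒯 Z' := fun A T _ _ _ φ f h1 h2 h3 =>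
  h A T (ψ.comp φ) f (MonoidHom.range_comp ψ φ ▸ Rch.map ψ hψ h1) h2 fun a ha => h3 a (hZ ha)

theorem Cl.surj {Z : Subgroup G} (h : Cl p 𝒯 Z) {ψ : K →* G} (hψ : Surjective ψ)
    {Z' : Subgroup K} (hZ : Z.comap ψ ≤ Z') : Cl p 𝒯 Z' :=
  h.push ψ ((MonoidHom.range_eq_top.mpr hψ).symm ▸ .top) hZ

theorem Cl.inj (h : Cl p 𝒯 (⊥ : Subgroup G)) {ψ : K →* G} (hψ : Rch p ψ.range)
    (hi : Injective ψ) : Cl p 𝒯 (⊥ : Subgroup K) :=
  h.push ψ hψ ((MonoidHom.ker_eq_bot_iff ψ).mpr hi).le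

theorem Cl.pull {Z : Subgroup G} {π : K →* G} (hπ : Surjective π) (h : Cl p 𝒯 (Z.comap π)) :
    Cl p 𝒯 Z := fun A T _ _ _ φ f h1 h2 h3 => by
  let A' := (φ.comp (MonoidHom.fst A K)).eqLocus (π.comp (MonoidHom.snd A K))
  have : π.range.Normal := (MonoidHom.range_eq_top.mpr hπ).symm ▸ inferInstance
  refine h A' T ((MonoidHom.snd A K).comp A'.subtype) (f.comp ((MonoidHom.fst A K).comp A'.subtype))
    ?_ (fun t => ?_) fun a ha => h3 _ ((show φ a.1.1 = π a.1.2 from a.2).symm ▸ ha)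
  · convert h1.comap π using 1
    ext k
    exact ⟨fun ⟨a, ha⟩ => ⟨a.1.1, ha ▸ a.2⟩, fun ⟨a, ha⟩ => ⟨⟨(a, k), ha⟩, rfl⟩⟩
  · obtain ⟨a, rfl⟩ := h2 t
    obtain ⟨k, hk⟩ := hπ (φ a)
    exact ⟨⟨(a, k), hk.symm⟩, rfl⟩

theorem Cl.ext {Z : Subgroup G} (N : Subgroup G) [N.Normal] (h : Cl p 𝒯 (Z.subgroupOf N))
    (h' : Cl p 𝒯 N) : Cl p 𝒯 Z := fun A T _ _ _ φ f h1 h2 h3 h4 => by
  rcases (Normal.map (H := N.comap φ) inferInstance f h2).eq_bot_or_eq_top with h5 | h5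
  · exact h' A T φ f h1 h2 (fun a ha => h5.le ⟨a, ha, rfl⟩) h4
  have : N.subtype.range.Normal := by rwa [range_subtype]
  refine h _ T (φ.subgroupComap N) (f.comp (N.comap φ).subtype) ?_ (fun t => ?_)
    (fun a ha => h3 _ ha) h4
  · convert h1.comap N.subtype using 1
    ext k
    exact ⟨fun ⟨a, ha⟩ => ⟨a, congrArg Subtype.val ha⟩, fun ⟨a, ha⟩ =>
      ⟨⟨a, show φ a ∈ N from ha ▸ k.2⟩, Subtype.ext ha⟩⟩
  · obtain ⟨a, ha, rfl⟩ := h5.ge (mem_top t)
    exact ⟨⟨a, ha⟩, rfl⟩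

theorem Cl.iInf {ι : Type} [Finite ι] (N : ι → Subgroup G) [∀ i, (N i).Normal]
    (h : ∀ i, Cl p 𝒯 (N i)) : Cl p 𝒯 (⨅ i, N i) := fun A T _ _ _ φ f h1 h2 h3 h4 h5 => by
  classical
  have := Fintype.ofFinite ι
  by_cases h6 : ∃ i, ((N i).comap φ).map f = ⊥
  · obtain ⟨i, h6⟩ := h6
    exact h i A T φ f h1 h2 (fun a ha => h6.le ⟨a, ha, rfl⟩) h4 h5
  have h7 : ∀ s : Finset ι, ∃ B : Subgroup A, B.Normal ∧ B.map f = ⊤ ∧
      ∀ i ∈ s, B ≤ (N i).comap φ := fun s => by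
    induction s using Finset.induction_on with
    | empty => exact ⟨⊤, inferInstance, map_top_of_surjective f h2, by simp⟩
    | insert i s _ ih =>
      obtain ⟨B, _, b1, b2⟩ := ih
      refine ⟨⁅B, (N i).comap φ⁆, inferInstance, ?_, Finset.forall_mem_insert _ _ _ |>.mpr
        ⟨commutator_le_right _ _, fun j hj => (commutator_le_left _ _).trans (b2 j hj)⟩⟩
      rw [map_commutator, b1, (Normal.map (H := (N i).comap φ) inferInstance f
        h2).eq_bot_or_eq_top.resolve_left fun h7 => h6 ⟨i, h7⟩]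
      exact (Normal.eq_bot_or_eq_top inferInstance).resolve_left fun h7 => h5 ⟨⟨fun a b =>
        (commutator_eq_bot_iff_le_centralizer.mp h7 (mem_top b) a trivial)⟩⟩
  obtain ⟨B, -, b1, b2⟩ := h7 Finset.univ
  refine absurd ⟨⟨fun a b => ?_⟩⟩ h5
  obtain ⟨a, ha, rfl⟩ := b1.ge (mem_top a)
  rw [h3 a (mem_iInf.mpr fun i => b2 i (Finset.mem_univ i) ha), one_mul, mul_one]

theorem Cl.inf {N N' : Subgroup G} [N.Normal] [N'.Normal] (h : Cl p 𝒯 N) (h' : Cl p 𝒯 N') :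
    Cl p 𝒯 (N ⊓ N') := by
  have : ∀ b : Bool, (_root_.cond b N N').Normal := fun b => by cases b <;> assumption
  rw [inf_eq_iInf]
  exact Cl.iInf _ fun b => by cases b <;> assumption

theorem cl_of_pq (hp : p.Prime) {N : Subgroup G} (h : ∀ x : G, ∃ k, x ^ p ^ k ∈ N) : Cl p 𝒯 N :=
  fun A T _ _ _ φ f _ h2 h3 _ h5 => by
  have := Fact.mk hp
  have := Finite.of_surjective f h2
  have h6 : IsPGroup p T := fun t => by
    obtain ⟨a, rfl⟩ := h2 t
    exact (h (φ a)).imp fun k hk => by rw [← map_pow, h3 _ (by rwa [map_pow])]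
  have := h6.isNilpotent
  exact absurd ⟨⟨IsSimpleGroup.comm_iff_isSolvable.mpr inferInstance⟩⟩ h5

/-- A subgroup that is an extension of a reachable subgroup by a `p`-group. -/
def Gd (p : ℕ) (R : Subgroup G) : Prop :=
  ∃ L, Rch p L ∧ L ≤ R ∧ R ≤ normalizer L ∧ ∀ x ∈ R, ∃ k, x ^ p ^ k ∈ L

theorem Rch.gd {R : Subgroup G} (h : Rch p R) : Gd p R :=
  ⟨R, h, le_rfl, le_normalizer, fun x hx => ⟨0, by simpa⟩⟩

theorem Cl.comp (hp : p.Prime) {Z : Subgroup G} (h : Cl p 𝒯 Z) (ψ : K →* G) (hψ : Gd p ψ.range)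
    {Z' : Subgroup K} (hZ : Z.comap ψ ≤ Z') : Cl p 𝒯 Z' := by
  obtain ⟨L, h1, h2, h3, h4⟩ := hψ
  have : (L.comap ψ).Normal := ⟨fun a ha g => by
    simpa using (mem_normalizer_iff.mp (h3 ⟨g, rfl⟩) _).mp ha⟩
  refine Cl.ext (L.comap ψ) (h.push (ψ.comp (L.comap ψ).subtype) ?_ fun a ha => hZ ha)
    (cl_of_pq hp fun x => by simpa using h4 _ ⟨x, rfl⟩)
  rwa [MonoidHom.range_comp, range_subtype, map_comap_eq, inf_eq_right.mpr h2]

theorem cl_iff : Cl p 𝒯 (⊥ : Subgroup G) ↔ SecIn p 𝒯 G :=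
  ⟨fun h H T _ f h1 h2 => h H T H.subtype f (by rwa [range_subtype]) h2 fun a ha => by
      rw [show a = 1 from Subtype.ext ha, map_one],
    fun h _ T _ _ _ φ f h1 h2 h3 => h φ.range T
      (φ.rangeRestrict.liftOfSurjective φ.rangeRestrict_surjective
        ⟨f, fun a ha => h3 a (congrArg Subtype.val ha)⟩) h1 fun t => (h2 t).elim fun a ha =>
      ⟨φ.rangeRestrict a, (MonoidHom.liftOfRightInverse_comp_apply ..).trans ha⟩⟩

theorem Cl.prod (h : Cl p 𝒯 (⊥ : Subgroup K)) (h' : Cl p 𝒯 (⊥ : Subgroup G)) :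
    Cl p 𝒯 (⊥ : Subgroup (K × G)) :=
  (Cl.inf (h.surj (ψ := MonoidHom.fst K G) Prod.fst_surjective (Z' := MonoidHom.ker _) le_rfl)
    (h'.surj (ψ := MonoidHom.snd K G) Prod.snd_surjective (Z' := MonoidHom.ker _) le_rfl)).surj
    (ψ := MonoidHom.id _) surjective_id fun _ hx => Prod.ext hx.1 hx.2

theorem Cl.of_center (h : Cl p 𝒯 (center G)) : Cl p 𝒯 (⊥ : Subgroup G) :=
  Cl.ext (center G) (fun A T _ _ _ φ f _ h2 h3 _ h5 => absurd ⟨⟨fun a b => by
    obtain ⟨a, rfl⟩ := h2 a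
    obtain ⟨b, rfl⟩ := h2 b
    rw [← mul_inv_eq_one, ← map_mul, ← map_mul, ← map_inv, ← map_mul]
    refine h3 _ (bot_subgroupOf (center G) ▸ mem_bot.mpr ?_)
    rw [map_mul, map_inv, map_mul, map_mul, mul_inv_eq_one]
    exact Subtype.ext (mem_center_iff.mp (φ b).2 _)⟩⟩ h5) h

theorem cl_of_factors (n : ℕ) : ∀ (G : Type) [Group G] [Finite G], Nat.card G = n →
    (∀ (H : Subgroup G) (N : Subgroup H) [N.Normal], H.IsSubnormal → IsSimpleGroup (H ⧸ N) →
      Cl p 𝒯 (⊥ : Subgroup (H ⧸ N))) → Cl p 𝒯 (⊥ : Subgroup G) := by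
  induction n using Nat.strong_induction_on with
  | h n ih =>
  intro G _ _ hn h
  by_cases h0 : (⊤ : Subgroup G) = ⊥
  · exact fun A T _ _ _ φ f _ h2 h3 _ h5 => absurd ⟨⟨fun a b => by
      obtain ⟨a, rfl⟩ := h2 a
      rw [h3 a (h0.le (mem_top _)), one_mul, mul_one]⟩⟩ h5
  obtain ⟨N, hN⟩ := exists_maximal_of_wellFoundedGT (fun N : Subgroup G => N.Normal ∧ N ≠ ⊤)
    ⟨⊥, inferInstance, Ne.symm h0⟩
  have := hN.1.1
  refine Cl.ext N (bot_subgroupOf N ▸ ih _ ?_ N rfl fun H M _ h1 h2 => ?_) ?_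
  · rw [← hn, card_eq_card_quotient_mul_card_subgroup N]
    exact (Nat.lt_mul_iff_one_lt_left Nat.card_pos).mpr (one_lt_index_of_ne_top hN.1.2)
  · let e := H.equivMapOfInjective _ N.subtype_injective
    let f := (QuotientGroup.mk' M).comp e.symm.toMonoidHom
    let e' := QuotientGroup.quotientKerEquivOfSurjective f
      ((QuotientGroup.mk'_surjective M).comp e.symm.surjective)
    exact (h _ f.ker (h1.trans' (Normal.isSubnormal this)) e'.isSimpleGroup).surj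
      (ψ := e'.symm.toMonoidHom) e'.symm.surjective
      ((MonoidHom.ker_eq_bot_iff _).mpr e'.symm.injective).le
  · have h1 : IsSimpleGroup (G ⧸ N) := by
      have := QuotientGroup.nontrivial_iff.mpr hN.1.2
      refine ⟨fun M hM => or_iff_not_imp_right.mpr fun h1 => eq_bot_iff.mpr fun a ha => ?_⟩
      obtain ⟨a, rfl⟩ := QuotientGroup.mk_surjective a
      exact (QuotientGroup.eq_one_iff a).mpr (hN.2 (y := M.comap (QuotientGroup.mk' N))
        ⟨inferInstance, fun h2 => h1 (comap_injective (QuotientGroup.mk'_surjective N) h2)⟩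
        (QuotientGroup.le_comap_mk' N M) ha)
    let f := (QuotientGroup.mk' N).comp (⊤ : Subgroup G).subtype
    let e' := QuotientGroup.quotientKerEquivOfSurjective f
      ((QuotientGroup.mk'_surjective N).comp fun a => ⟨⟨a, trivial⟩, rfl⟩)
    exact (h _ f.ker .top e'.isSimpleGroup).surj
      (ψ := e'.symm.toMonoidHom.comp (QuotientGroup.mk' N))
      (e'.symm.surjective.comp (QuotientGroup.mk'_surjective N)) fun a ha =>
      (QuotientGroup.eq_one_iff a).mp (e'.symm.map_eq_one_iff.mp ha)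

/-- Every class function is invariant under the power maps of level one. -/
def Tame (p : ℕ) (T : Type) [Group T] : Prop :=
  ∀ f : T → ℂ, (∀ g a, f (g * a * g⁻¹) = f a) → Inv p 1 f

theorem tame_of (hp : p.Prime) {n : ℕ} (hn : ¬ p ∣ n)
    (h : ∀ t, t ≡ 1 [MOD p * n] → ∀ g : G, IsConj g (g ^ t)) : Tame p G := fun f hf =>
  inv_of hp hn fun t ht g => by
    obtain ⟨a, ha⟩ := isConj_iff.mp (h t (by simpa using ht) g)
    rw [← ha, hf]

theorem Tame.conj (h : Tame p G) {g : G} {N n t : ℕ} (hn : ¬ p ∣ n) (hg : g ^ (p ^ N * n) = 1)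
    (ht : t ≡ 1 [MOD p * n]) : IsConj g (g ^ t) := by
  classical
  have h1 := h (fun a => if IsConj g a then 1 else 0) (fun b a => if_congr
    ⟨fun h1 => h1.trans (isConj_iff.mpr ⟨b, rfl⟩).symm,
      fun h1 => h1.trans (isConj_iff.mpr ⟨b, rfl⟩)⟩ rfl rfl) g N n t hn hg (by simpa using ht)
  by_contra h2
  exact zero_ne_one ((if_neg h2).symm.trans (h1.trans (if_pos (IsConj.refl g))))

theorem Tame.surj (hp : p.Prime) (h : Tame p G) {T : Type} [Group T] {π : G →* T}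
    (hπ : Surjective π) : Tame p T := fun f hf =>
  Inv.of_surj hp hπ (h _ fun g a => by simpa using hf (π g) (π a))

theorem pow_iter (hp : p.Prime) {N n t : ℕ} (hn : ¬ p ∣ n) (ht : t ≡ 1 [MOD p * n]) :
    t ^ p ^ N ≡ 1 [MOD p ^ N * n] := by
  refine (Nat.modEq_and_modEq_iff_modEq_mul (co_pow hp hn N)).mp ⟨?_, by
    simpa using (ht.of_mul_left _).pow _⟩
  have h5 := dvd_sub_pow_of_dvd_sub (R := ℤ) (ht.of_mul_right _).dvd N
  rw [Nat.modEq_iff_dvd]
  push_cast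
  rw [Nat.cast_one, one_pow] at h5
  exact (pow_dvd_pow _ N.le_succ).trans h5

theorem Tame.sub (hp : p.Prime) (h : Tame p G) (D : Subgroup G) {m : ℕ} (hm : ¬ p ∣ m)
    (hD : ∀ a, a ^ m ∈ D) : Tame p D := by
  obtain ⟨N, n, h1, h2⟩ := exists_card hp G
  refine tame_of hp h1 fun t ht g => ?_
  have h3 : (g : G) ^ (p ^ N * n) = 1 := h2 ▸ pow_card_eq_one'
  obtain ⟨a, ha⟩ := isConj_iff.mp (h.conj h1 h3 ht)
  have h4 : ∀ k, a ^ k * g * (a ^ k)⁻¹ = g ^ t ^ k := fun k => by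
    induction k with
    | zero => simp
    | succ k ih => rw [pow_succ t, pow_mul, ← ih, conj_pow, ← ha]; group
  obtain ⟨k, h5, h6⟩ := Nat.chineseRemainder (co_pow hp hm N) 1 0
  obtain ⟨l, rfl⟩ := (Nat.modEq_zero_iff_dvd).mp h6
  refine isConj_iff.mpr ⟨⟨a ^ (m * l), by rw [pow_mul]; exact pow_mem (hD a) l⟩,
    Subtype.ext ((h4 _).trans ?_)⟩
  have h7 : ∀ k, (g : G) ^ t ^ k = g ^ t ^ (k % p ^ N) := fun k => by
    conv_lhs => rw [← Nat.div_add_mod k (p ^ N), pow_add, pow_mul, pow_mul]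
    rw [pow_eq_pow_mod _ h3, (pow_iter hp h1 ht).pow _, one_pow, ← pow_eq_pow_mod _ h3, pow_one]
  rw [h7, h5, ← h7, pow_one, Subgroup.coe_pow]

theorem cl_of_exp (hp : p.Prime) {N : Subgroup G} (h : ∀ (g : G) k, g ^ p ^ k = 1 → g ^ p ∈ N) :
    Cl p (Tame p) N := fun A T _ _ _ φ f _ h2 h3 _ _ θ _ g k n t _ h5 h6 => by
  obtain ⟨j, m, h7, h8⟩ := exists_card hp A
  obtain ⟨a, rfl⟩ := h2 g
  have h9 := h3 (((a ^ n) ^ m) ^ p) (by
    rw [map_pow]
    exact h _ j (by rw [← map_pow, ← pow_mul, mul_comm m, ← h8, pow_card_eq_one', map_one]))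
  have h10 : (f a ^ n) ^ p = 1 := (pow_eq_one_iff_of_coprime (co_pow hp h7 k)).mp
    ⟨by rw [pow_right_comm, ← pow_mul (f a), mul_comm, h5, one_pow],
      by rw [pow_right_comm]; simpa using h9⟩
  rw [← pow_mul, mul_comm, ← pow_one p] at h10
  rw [pow_eq_pow_mod t h10, h6, ← pow_eq_pow_mod 1 h10, pow_one]

theorem cl_of_order (hp : p.Prime) (h : ∀ s : G, orderOf s ≠ p ^ 2) :
    Cl p (Tame p) (⊥ : Subgroup G) := cl_of_exp hp fun g k hg => by
  obtain ⟨i, -, hi⟩ := (Nat.dvd_prime_pow hp).mp (orderOf_dvd_of_pow_eq_one hg)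
  by_contra h1
  obtain ⟨i, rfl⟩ : ∃ l, i = l + 2 := Nat.exists_eq_add_of_le' (by_contra fun h4 => h1 (by
    rw [mem_bot, ← orderOf_dvd_iff_pow_eq_one, hi]
    exact (pow_dvd_pow p (by omega)).trans (pow_one p).dvd))
  refine h (g ^ p ^ i) ?_
  rw [orderOf_pow_of_dvd (pow_ne_zero _ hp.ne_zero) (hi ▸ pow_dvd_pow p (by omega)), hi, pow_add,
    Nat.mul_div_cancel_left _ (pow_pos hp.pos i)]

theorem conj_into (hp : p.Prime) {H D Q : Subgroup G} (h : ¬ p ∣ H.relIndex D) (h1 : Q ≤ D)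
    (h2 : IsPGroup p Q) : ∃ g ∈ D, ∀ q ∈ Q, g * q * g⁻¹ ∈ H := by
  have := Fact.mk hp
  obtain ⟨c, hc⟩ := (h2.of_equiv (subgroupOfEquivOfLe h1).symm).nonempty_fixed_point_of_prime_not_dvd_card
    (D ⧸ H.subgroupOf D) h
  obtain ⟨g, rfl⟩ := QuotientGroup.mk_surjective c
  refine ⟨_, g⁻¹.2, fun q hq => ?_⟩
  have h3 := QuotientGroup.eq.mp (hc ⟨⟨q, h1 hq⟩, hq⟩).symm
  simpa [mem_subgroupOf, mul_assoc] using h3

theorem cl_of_core (hp : p.Prime) (D : Subgroup G) [D.Normal] (h1 : D ≤ ⁅D, D⁆) (h2 : Tame p D)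
    (h3 : ∀ (g : G) k, g ^ p ^ k = 1 → g ^ p ∈ D)
    (h4 : ∀ H ≤ D, ¬ p ∣ H.relIndex D → D ≤ H ∨ ∃ S, H ≤ S ∧ Cl p (Tame p) (⊥ : Subgroup S)) :
    Cl p (Tame p) (⊥ : Subgroup G) := by
  have := Fact.mk hp
  refine Cl.ext D (bot_subgroupOf D ▸ ?_) (cl_of_exp hp h3)
  have a1 : ∀ H : Subgroup D, ¬ p ∣ H.index → H = ⊤ ∨ Cl p (Tame p) (⊥ : Subgroup H) := by
    intro H h5
    have h6 : (H.map D.subtype).subgroupOf D = H := comap_map_eq_self_of_injective
      D.subtype_injective H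
    refine (h4 (H.map D.subtype) (map_subtype_le H) (by rwa [relIndex, h6])).imp
      (fun h7 => by rw [← h6, subgroupOf_eq_top.mpr h7]) fun ⟨S, h7, h8⟩ => ?_
    refine h8.inj (ψ := (D.subtype.comp H.subtype).codRestrict S fun a => h7 ⟨_, a.2, rfl⟩) ?_
      fun a b h9 => Subtype.ext (Subtype.ext (congrArg (fun x : S => x.1) h9))
    refine .step _ (D.subgroupOf S) (.of_normal _) (by rintro _ ⟨a, rfl⟩; exact a.1.2)
      (.inr fun h9 => h5 ?_)
    rw [show MonoidHom.range _ = (H.map D.subtype).subgroupOf S from Subgroup.ext fun x =>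
      ⟨fun ⟨a, ha⟩ => ⟨a, a.2, congrArg Subtype.val ha⟩, fun ⟨a, ha, h10⟩ =>
        ⟨⟨a, ha⟩, Subtype.ext h10⟩⟩, ← inf_subgroupOf_right D,
      relIndex_subgroupOf inf_le_right] at h9
    rw [← h6]
    exact h9.trans (Dvd.intro _ (relIndex_mul_relIndex _ _ _
      (le_inf (map_subtype_le H) h7) inf_le_left))
  have a2 : ∀ H : Subgroup D, Rch p H → H = ⊤ ∨ Cl p (Tame p) (⊥ : Subgroup H) := by
    intro H h5
    induction h5 with
    | top => exact .inl rfl
    | step H B _ h6 h7 ih =>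
      have h8 : ∀ B : Subgroup D, (h : H ≤ B) → Rch p (H.subgroupOf B) →
          Cl p (Tame p) (⊥ : Subgroup B) → Cl p (Tame p) (⊥ : Subgroup H) := fun B h h8 h9 =>
        h9.inj (ψ := inclusion h) (by rwa [inclusion_range]) (inclusion_injective h)
      rcases ih with rfl | ih
      swap
      · exact .inr (h8 B h6 (h7.elim (fun _ => .of_normal _) .of_index) ih)
      rcases h7 with h7 | h7
      swap
      · exact a1 H (by rwa [relIndex_top_right] at h7)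
      have : H.Normal := normalizer_eq_top_iff.mp
        (top_le_iff.mp ((normal_subgroupOf_iff_le_normalizer h6).mp h7))
      obtain ⟨P⟩ : Nonempty (Sylow p D) := inferInstance
      refine (a1 (H ⊔ P) fun h9 => P.not_dvd_index (h9.trans (index_dvd_of_le le_sup_right))).imp
        (fun h9 => ?_) (h8 _ le_sup_left (.of_normal _))
      have h10 : IsPGroup p (D ⧸ H) := P.2.of_surjective
        ((QuotientGroup.mk' H).comp (P : Subgroup D).subtype) fun c => by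
        obtain ⟨c, rfl⟩ := QuotientGroup.mk_surjective c
        obtain ⟨a, ha, b, hb, rfl⟩ := mem_sup_of_normal_left.mp (h9.ge (mem_top c))
        exact ⟨⟨b, hb⟩, by simp [(QuotientGroup.eq_one_iff a).mpr ha]⟩
      have := h10.isNilpotent
      have := isPerfect_iff.mpr (le_antisymm (commutator_le_self D) h1)
      by_contra h11
      have := QuotientGroup.nontrivial_iff.mpr h11
      exact Group.IsPerfect.not_isNilpotent (G := D ⧸ H) ‹_›
  intro A T _ _ _ φ f h5 h6 h7 h8 h9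
  rcases a2 _ h5 with h10 | h10
  · have h11 := MonoidHom.range_eq_top.mp h10
    exact h2.surj hp (π := φ.liftOfSurjective h11 ⟨f, h7⟩) fun t => (h6 t).elim fun a ha =>
      ⟨φ a, (MonoidHom.liftOfRightInverse_comp_apply ..).trans ha⟩
  · exact h10 A T φ.rangeRestrict f ((MonoidHom.range_eq_top.mpr
      φ.rangeRestrict_surjective).symm ▸ .top) h6
      (fun a ha => h7 a (congrArg Subtype.val ha)) h8 h9

end Pool.Agent.MP_3e257e_al
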