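import Pool.Agent.MP_3e257e_al.RExt
import Pool.Agent.MP_3e257e_al.RCl

/-!
Cyclic Sylow subgroups: fusion, eigencomponents and counting of linear constituents.
-/

set_option autoImplicit false
set_option linter.unusedSectionVars false

/-! ### Fusion in a group whose normal subgroup of `p`-power index has cyclic Sylow `p`-subgroups. -/

namespace Pool.Agent.MP_3e257e_al

open Subgroup

variable {X : Type} [Group X] [Finite X] {p N n : ℕ}

theorem exists_root (hp : p.Prime) {w : ℕ} (hw : ¬ p ∣ w) (N : ℕ) :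
    ∃ v, ∀ g : X, g ^ p ^ N = 1 → (g ^ w) ^ v = g := by
  obtain ⟨v, hv⟩ := exists_inv (pow_ne_zero N hp.ne_zero) (co_pow hp hw N).symm
  exact ⟨v, fun g hg => by
    rw [← pow_mul, pow_eq_pow_mod _ hg, hv, ← pow_eq_pow_mod _ hg, pow_one]⟩

theorem pel (hp : p.Prime) (hn : ¬ p ∣ n) (hX : ∀ x : X, x ^ (p ^ N * n) = 1) {H : Subgroup X}
    (hH : IsPGroup p H) {g : X} (hg : g ∈ H) : g ^ p ^ N = 1 := by
  obtain ⟨k, hk⟩ := hH ⟨g, hg⟩
  have h1 : g ^ p ^ k = 1 := congrArg Subtype.val hk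
  exact (pow_eq_one_iff_of_coprime (co_pow hp hn k)).mp
    ⟨by rw [pow_right_comm, h1, one_pow], by rw [← pow_mul, hX]⟩

theorem pg_zpowers {g : X} {k : ℕ} (hg : g ^ p ^ k = 1) : IsPGroup p (zpowers g) := by
  rintro ⟨_, i, rfl⟩
  exact ⟨k, Subtype.ext (by
    change (g ^ i) ^ p ^ k = 1
    rw [← zpow_natCast, ← zpow_mul, mul_comm, zpow_mul, zpow_natCast, hg, one_zpow])⟩

theorem mem_of_pows (hp : p.Prime) (hn : ¬ p ∣ n) {S : Subgroup X} {h : X} {k : ℕ}
    (h1 : h ^ n ∈ S) (h2 : h ^ p ^ k ∈ S) : h ∈ S := by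
  obtain ⟨a, b, hab⟩ := Nat.isCoprime_iff_coprime.mpr (co_pow hp hn k)
  rw [← zpow_one h, ← hab, zpow_add, mul_comm a, mul_comm b, zpow_mul, zpow_mul, zpow_natCast,
    zpow_natCast]
  exact mul_mem (zpow_mem h2 a) (zpow_mem h1 b)

theorem conj_iter {h v : X} {c : ℕ} (hc : h * v * h⁻¹ = v ^ c) (k : ℕ) :
    h ^ k * v * (h ^ k)⁻¹ = v ^ c ^ k := by
  induction k with
  | zero => simp
  | succ k ih => rw [pow_succ' c, pow_mul, ← hc, conj_pow, ← ih]; group

theorem nat_pow {u v : X} (h : v ∈ zpowers u) : ∃ c : ℕ, v = u ^ c := by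
  obtain ⟨c, hc⟩ := (mem_powers_iff_mem_zpowers.mpr h)
  exact ⟨c, hc.symm⟩

theorem mem_of_norm (hp : p.Prime) {R H : Subgroup X} (hR : IsPGroup p R) (h1 : R ≤ H)
    (h2 : ¬ p ∣ R.relIndex H) {h : X} (hh : h ∈ H) {k : ℕ} (hk : h ^ p ^ k = 1)
    (h3 : ∀ r ∈ R, h * r * h⁻¹ ∈ R) : h ∈ R := by
  have := Fact.mk hp
  have h4 := (pg_zpowers hk).to_sup_of_normal_right' hR
    (zpowers_le.mpr (mem_normalizer_fintype h3))
  obtain ⟨i, hi⟩ := h4.index (R.subgroupOf (zpowers h ⊔ R))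
  have h5 := relIndex_mul_relIndex R (zpowers h ⊔ R) H le_sup_right
    (sup_le (zpowers_le.mpr hh) h1)
  rw [relIndex, hi] at h5
  obtain rfl : i = 0 := by_contra fun h6 => h2 (h5 ▸ (dvd_pow_self p h6).mul_right _)
  exact subgroupOf_eq_top.mp (index_eq_one.mp hi) (mem_sup_left (mem_zpowers h))

theorem dvd_of_fix (hp : p.Prime) {z : X} (h1 : z ≠ 1) {k a b : ℕ} (hk : z ^ p ^ k = 1)
    (h : z ^ a = z ^ b) : a ≡ b [MOD p] := by
  obtain ⟨i, -, hi⟩ := (Nat.dvd_prime_pow hp).mp (orderOf_dvd_of_pow_eq_one hk)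
  refine (pow_eq_pow_iff_modEq.mp h).of_dvd (hi ▸ dvd_pow_self p ?_)
  rintro rfl
  exact h1 (orderOf_eq_one_iff.mp hi)

theorem cent (hp : p.Prime) (hn : ¬ p ∣ n) (hX : ∀ x : X, x ^ (p ^ N * n) = 1) {H : Subgroup X}
    {v z h : X} (hv : v ^ p ^ N = 1) (h1 : v ∈ H) (h2 : ¬ p ∣ (zpowers v).relIndex H)
    (hz : z ∈ zpowers v) (h0 : z ≠ 1) (hh : h ∈ H) (h3 : h * v * h⁻¹ ∈ zpowers v)
    (h4 : h * z = z * h) : h * v = v * h := by
  obtain ⟨c, hc⟩ := nat_pow h3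
  obtain ⟨a, rfl⟩ := nat_pow hz
  have h5 : c ≡ 1 [MOD p * 1] := by
    rw [mul_one]
    refine dvd_of_fix hp h0 (k := N) (by rw [pow_right_comm, hv, one_pow]) ?_
    rw [pow_right_comm, ← hc, conj_pow, h4]
    group
  have h6 := pow_iter hp (N := N) hp.not_dvd_one h5
  refine (mem_centralizer_singleton_iff.mp (mem_of_pows hp hn (k := N) ?_ ?_))
  · obtain ⟨i, hi⟩ := nat_pow (mem_of_norm hp (pg_zpowers hv) (zpowers_le.mpr h1) h2
      (pow_mem hh n) (k := N) (by rw [← pow_mul, mul_comm, hX]) fun r hr => by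
        obtain ⟨i, rfl⟩ := nat_pow hr
        rw [← conj_pow, conj_iter hc]
        exact pow_mem (pow_mem (mem_zpowers v) _) _)
    rw [hi]
    exact pow_mem (mem_centralizer_singleton_iff.mpr rfl) _
  · rw [mem_centralizer_singleton_iff, ← mul_inv_eq_iff_eq_mul, conj_iter hc,
      pow_eq_pow_mod _ hv, show c ^ p ^ N ≡ 1 [MOD p ^ N] by simpa using h6,
      ← pow_eq_pow_mod _ hv, pow_one]

/-- Burnside's transfer theorem for subgroups. -/
theorem pnil (hp : p.Prime) (hn : ¬ p ∣ n) (hX : ∀ x : X, x ^ (p ^ N * n) = 1) {H : Subgroup X}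
    {v : X} (hv : v ^ p ^ N = 1) (h1 : v ∈ H) (h2 : ¬ p ∣ (zpowers v).relIndex H)
    (h3 : ∀ h ∈ H, h * v * h⁻¹ ∈ zpowers v → h * v = v * h) :
    ∃ K : Subgroup X, (∀ s, s ∈ K ↔ s ∈ H ∧ s ^ n = 1) ∧
      ∀ h ∈ H, ∃ q ∈ zpowers v, ∃ s ∈ K, h = q * s := by
  have := Fact.mk hp
  let R := ((pg_zpowers hv).comap_subtype (K := H)).toSylow h2
  have hR : normalizer R ≤ centralizer (R : Set H) := fun h hh => by
    rintro ⟨_, hr⟩ ⟨i, rfl⟩
    exact Subtype.ext (Commute.zpow_left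
      (h3 h h.2 ((hh ⟨v, h1⟩).mp (mem_zpowers v))).symm i)
  refine ⟨(MonoidHom.transferSylow R hR).ker.map H.subtype, fun s => ⟨?_, fun ⟨h4, h5⟩ =>
    ⟨⟨s, h4⟩, ?_, rfl⟩⟩, fun h hh => ?_⟩
  · rintro ⟨s, hs, rfl⟩
    refine ⟨s.2, (pow_eq_one_iff_of_coprime
      (co_pow hp (MonoidHom.not_dvd_card_ker_transferSylow R hR) N)).mp
        ⟨by rw [← pow_mul, mul_comm, hX], ?_⟩⟩
    have h4 : (s : X) ^ Nat.card (MonoidHom.transferSylow R hR).ker = 1 :=
      congrArg (fun x => ((x.1 : H) : X)) (pow_card_eq_one' (x := (⟨s, hs⟩ : MonoidHom.ker _)))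
    rw [pow_right_comm, H.subtype_apply, h4, one_pow]
  · obtain ⟨k, hk⟩ := R.2 (MonoidHom.transferSylow R hR ⟨s, h4⟩)
    exact (pow_eq_one_iff_of_coprime (co_pow hp hn k)).mp ⟨hk, by
      rw [← map_pow, show (⟨s, h4⟩ : H) ^ n = 1 from Subtype.ext h5, map_one]⟩
  · obtain ⟨⟨q, s⟩, h4⟩ :=
      (MonoidHom.ker_transferSylow_isComplement' R hR).symm.existsUnique ⟨h, hh⟩ |>.exists
    exact ⟨_, q.2, _, ⟨s, s.2, rfl⟩, (congrArg Subtype.val h4).symm⟩

theorem exists_syl (hp : p.Prime) {H : Subgroup X} {z : X} (hz : z ∈ H) {k : ℕ}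
    (hk : z ^ p ^ k = 1) : ∃ R ≤ H, IsPGroup p R ∧ ¬ p ∣ R.relIndex H ∧ z ∈ R := by
  have := Fact.mk hp
  obtain ⟨R, hR⟩ := ((pg_zpowers hk).comap_subtype (K := H)).exists_le_sylow
  refine ⟨R.1.map H.subtype, map_subtype_le _, R.2.map _, ?_,
    ⟨⟨z, hz⟩, hR (mem_zpowers z), rfl⟩⟩
  rw [relIndex, subgroupOf, comap_map_eq_self_of_injective H.subtype_injective]
  exact R.not_dvd_index

/-- A normal subgroup `M` of `p`-power index whose Sylow subgroup is generated by `u`. -/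
structure Su (p N n : ℕ) (M P : Subgroup X) (u : X) : Prop where
  hp : p.Prime
  hn : ¬ p ∣ n
  hX : ∀ x : X, x ^ (p ^ N * n) = 1
  nm : M.Normal
  pg : IsPGroup p P
  idx : ¬ p ∣ P.index
  cov : ∀ x, ∃ a ∈ P, x * a⁻¹ ∈ M
  uM : u ∈ M
  uP : u ∈ P
  gen : ∀ q ∈ P, q ∈ M → q ∈ zpowers u

namespace Su

variable {M P : Subgroup X} {u z : X} (S : Su p N n M P u)
include S

theorem pw {g : X} (hg : g ∈ P) : g ^ p ^ N = 1 := pel S.hp S.hn S.hX S.pg hg

theorem rel {H : Subgroup X} (h1 : u ∈ H) (h2 : H ≤ M) : ¬ p ∣ (zpowers u).relIndex H := by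
  have := S.nm
  have h3 : zpowers u = P ⊓ M := le_antisymm (zpowers_le.mpr ⟨S.uP, S.uM⟩) fun q h => S.gen q h.1 h.2
  have h4 := relIndex_mul_relIndex (zpowers u) H M (zpowers_le.mpr h1) h2
  exact fun h => S.idx ((h.mul_right _).trans (by rw [h4, h3, inf_relIndex_right]; exact rel_dvd P M))

theorem into {R : Subgroup X} (h1 : R ≤ M) (h2 : IsPGroup p R) :
    ∃ b ∈ M, ∀ r ∈ R, b * r * b⁻¹ ∈ zpowers u := conj_into S.hp (S.rel S.uM le_rfl) h1 h2

theorem fix {g v : X} (hg : g ∈ P) (hv : v ∈ zpowers u) : ∃ c : ℕ, g * v * g⁻¹ = v * (v ^ p) ^ c := by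
  have := Fact.mk S.hp
  obtain ⟨c, hc⟩ := nat_pow (S.gen _ (mul_mem (mul_mem hg S.uP) (inv_mem hg))
    (S.nm.conj_mem _ S.uM g))
  obtain ⟨a, rfl⟩ := nat_pow hv
  by_cases h0 : u = 1
  · exact ⟨0, by simp [h0]⟩
  have h1 := conj_iter hc (p ^ N)
  rw [S.pw hg, one_mul, inv_one, mul_one] at h1
  have h2 := (ZMod.natCast_eq_natCast_iff _ _ _).mpr
    (dvd_of_fix S.hp h0 (S.pw S.uP) ((pow_one u).trans h1))
  rw [Nat.cast_pow, ZMod.pow_card_pow] at h2
  have h3 := (ZMod.natCast_eq_natCast_iff _ _ _).mp h2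
  obtain ⟨d, hd⟩ := (Nat.modEq_iff_dvd' (Nat.pos_of_ne_zero (by
    rintro rfl
    exact S.hp.not_dvd_one (Nat.modEq_zero_iff_dvd.mp h3)))).mp h3
  refine ⟨d, ?_⟩
  rw [← conj_pow, hc, pow_right_comm, ← pow_mul (u ^ a) p, ← pow_succ', ← hd]
  congr 1
  have : c ≠ 0 := by
    rintro rfl
    exact S.hp.not_dvd_one (Nat.modEq_zero_iff_dvd.mp h3)
  omega

theorem exists_z (h0 : u ≠ 1) : ∃ z ∈ zpowers u, z ≠ 1 ∧ z ^ p = 1 ∧
    ∀ v ∈ zpowers u, v ^ p = 1 → v ∈ zpowers z := by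
  obtain ⟨i, -, hi⟩ := (Nat.dvd_prime_pow S.hp).mp (orderOf_dvd_of_pow_eq_one (S.pw S.uP))
  obtain ⟨c, rfl⟩ : ∃ c, i = c + 1 := Nat.exists_eq_succ_of_ne_zero (by
    rintro rfl
    exact h0 (orderOf_eq_one_iff.mp hi))
  refine ⟨u ^ p ^ c, pow_mem (mem_zpowers u) _, fun h => ?_, by
    rw [← pow_mul, ← pow_succ, ← hi, pow_orderOf_eq_one], fun v hv h => ?_⟩
  · have h1 := orderOf_dvd_of_pow_eq_one h
    rw [hi, Nat.pow_dvd_pow_iff_le_right S.hp.one_lt] at h1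
    omega
  · obtain ⟨a, rfl⟩ := nat_pow hv
    rw [← pow_mul, ← orderOf_dvd_iff_pow_eq_one, hi, pow_succ] at h
    obtain ⟨b, rfl⟩ := Nat.dvd_of_mul_dvd_mul_right S.hp.pos h
    rw [pow_mul]
    exact pow_mem (mem_zpowers _) _

omit S in
theorem back (hp : p.Prime) (h1 : z ^ p = 1) {w : X} (hw : w ∈ zpowers z) (h0 : w ≠ 1) :
    z ∈ zpowers w := by
  obtain ⟨a, rfl⟩ := nat_pow hw
  obtain ⟨v, hv⟩ := exists_root (X := X) hp (w := a)
    (fun ⟨b, hb⟩ => h0 (by rw [hb, pow_mul, h1, one_pow])) 1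
  exact ⟨v, by simpa using hv z (by simpa using h1)⟩

omit S in
theorem comm_conj (hp : p.Prime) (h0 : z ≠ 1) (h1 : z ^ p = 1) {m g : X}
    (hm : m * z * m⁻¹ ∈ zpowers z) (hg : g * z = z * g) : m * g * m⁻¹ * z = z * (m * g * m⁻¹) := by
  obtain ⟨i, hi⟩ := back hp h1 hm (by simpa using h0)
  have h2 : Commute (m * g * m⁻¹) (m * z * m⁻¹) := by
    rw [Commute, SemiconjBy, conj_mul, conj_mul, hg]
  have h3 := h2.zpow_right i
  rwa [show (m * z * m⁻¹) ^ i = z from hi] at h3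

variable (hz : z ∈ zpowers u) (h0 : z ≠ 1) (h1 : z ^ p = 1)
  (h2 : ∀ v ∈ zpowers u, v ^ p = 1 → v ∈ zpowers z)
include hz h1

theorem zc {g : X} (hg : g ∈ P) : g * z = z * g := by
  obtain ⟨c, hc⟩ := S.fix hg hz
  rw [← mul_inv_eq_iff_eq_mul, hc, h1, one_pow, mul_one]

include h0 h2

theorem ctrl {g m : X} (hg : g ∈ P) (hm : m ∈ M) (h : m * g * m⁻¹ ∈ P) :
    ∃ m' ∈ M, m' * g * m'⁻¹ = m * g * m⁻¹ ∧ m' * z * m'⁻¹ ∈ zpowers z := by
  have hM : z ∈ M := zpowers_le.mpr S.uM hz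
  obtain ⟨R, r1, r2, r3, r4⟩ := exists_syl S.hp (H := centralizer {m * g * m⁻¹} ⊓ M) (z := z)
    ⟨mem_centralizer_singleton_iff.mpr (S.zc hz h1 h).symm, hM⟩ (k := 1) (by simpa using h1)
  have h3 : (m * z * m⁻¹) ^ p = 1 := by rw [conj_pow, h1]; group
  obtain ⟨c, hc, h4⟩ := conj_into S.hp r3 (Q := zpowers (m * z * m⁻¹)) (zpowers_le.mpr
    ⟨mem_centralizer_singleton_iff.mpr (by rw [conj_mul, conj_mul, S.zc hz h1 hg]),
      S.nm.conj_mem _ hM m⟩) (pg_zpowers (k := 1) (by simpa using h3))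
  obtain ⟨b, -, hb⟩ := S.into (r1.trans inf_le_right) r2
  obtain ⟨i, hi⟩ := zpowers_le.mpr (back S.hp h1 (h2 _ (hb z r4) (by rw [conj_pow, h1]; group))
    (by simpa using h0)) (h2 _ (hb _ (h4 _ (mem_zpowers _))) (by
      rw [conj_pow, conj_pow, h3]; group))
  refine ⟨c * m, mul_mem hc.2 hm, ?_, i, ?_⟩
  · rw [show c * m * g * (c * m)⁻¹ = c * (m * g * m⁻¹) * c⁻¹ by group,
      mem_centralizer_singleton_iff.mp hc.1, mul_inv_cancel_right]
  · simp only [conj_zpow, mul_left_inj, mul_right_inj] at hi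
    simp only [hi]
    group

omit h2 in
theorem exists_K : ∃ K : Subgroup X, (∀ s, s ∈ K ↔ (s * z = z * s ∧ s ∈ M) ∧ s ^ n = 1) ∧
    (∀ h ∈ M, h * z = z * h → ∃ q ∈ zpowers u, ∃ s ∈ K, h = q * s) ∧
    (∀ s ∈ K, ∀ g ∈ P, s * g * s⁻¹ ∈ P → s * g = g * s) ∧
    ∀ m ∈ M, m * z * m⁻¹ ∈ zpowers z → ∃ s ∈ K, ∀ g ∈ P, s * m * g * (s * m)⁻¹ ∈ P := by
  have h3 : u ∈ centralizer {z} ⊓ M := ⟨mem_centralizer_singleton_iff.mpr (S.zc hz h1 S.uP), S.uM⟩
  obtain ⟨K, k1, k2⟩ := pnil S.hp S.hn S.hX (S.pw S.uP) h3 (S.rel h3 inf_le_right) fun h hh h4 =>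
    cent S.hp S.hn S.hX (S.pw S.uP) h3 (S.rel h3 inf_le_right) hz h0 hh h4
      (mem_centralizer_singleton_iff.mp hh.1)
  simp only [mem_inf, mem_centralizer_singleton_iff] at k1 k2
  refine ⟨K, k1, fun h h4 h5 => k2 h ⟨h5, h4⟩, fun s hs g hg h4 => ?_, fun m hm h4 => ?_⟩
  · have h5 : g * s⁻¹ * g⁻¹ ∈ K := by
      obtain ⟨⟨a1, a2⟩, a3⟩ := (k1 _).mp (inv_mem hs)
      refine (k1 _).mpr ⟨⟨comm_conj S.hp h0 h1 ?_ a1, S.nm.conj_mem _ a2 g⟩, by
        rw [conj_pow, a3]; group⟩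
      rw [S.zc hz h1 hg, mul_inv_cancel_right]
      exact mem_zpowers z
    have h6 := (pow_eq_one_iff_of_coprime (co_pow S.hp S.hn N)).mp
      ⟨S.pw (mul_mem h4 (inv_mem hg)), by
        rw [show s * g * s⁻¹ * g⁻¹ = s * (g * s⁻¹ * g⁻¹) by group]
        exact ((k1 _).mp (mul_mem hs h5)).2⟩
    rwa [mul_inv_eq_one, mul_inv_eq_iff_eq_mul] at h6
  · have h5 : P ≤ centralizer {z} := fun g hg => mem_centralizer_singleton_iff.mpr (S.zc hz h1 hg)
    obtain ⟨d, hd, h6⟩ := conj_into S.hp (H := P) (D := centralizer {z})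
      (Q := P.map (MulAut.conj m).toMonoidHom)
      (fun h => S.idx (h.trans (relIndex_dvd_index_of_le h5)))
      (by
        rintro _ ⟨g, hg, rfl⟩
        exact mem_centralizer_singleton_iff.mpr (comm_conj S.hp h0 h1 h4 (S.zc hz h1 hg)))
      (S.pg.map _)
    obtain ⟨a, ha, h7⟩ := S.cov d⁻¹
    obtain ⟨q, hq, s, hs, h8⟩ := k2 (a * d) ⟨mem_centralizer_singleton_iff.mp (mul_mem (h5 ha) hd),
      by simpa using inv_mem h7⟩
    have h9 := mul_mem (inv_mem (zpowers_le.mpr S.uP hq)) ha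
    refine ⟨s, hs, fun g hg => ?_⟩
    convert mul_mem (mul_mem h9 (h6 _ ⟨g, hg, rfl⟩)) (inv_mem h9) using 1
    rw [show s = q⁻¹ * (a * d) by rw [h8]; group]
    simp only [MulEquiv.toMonoidHom_eq_coe, MonoidHom.coe_coe, MulAut.conj_apply]
    group

omit hz h0 h1 h2

theorem mem_p (h0 : u ≠ 1) {b : ℕ} : u ^ b ∈ zpowers (u ^ p) ↔ p ∣ b := by
  refine ⟨fun h => ?_, fun ⟨c, h⟩ => by rw [h, pow_mul]; exact pow_mem (mem_zpowers _) c⟩
  obtain ⟨c, hc⟩ := nat_pow h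
  rw [← pow_mul] at hc
  exact (dvd_of_fix S.hp h0 (S.pw S.uP) hc).dvd_iff dvd_rfl |>.mpr (dvd_mul_right p c)

theorem qconj {g q : X} (hg : g ∈ P) (hq : q ∈ zpowers u) :
    q * g * q⁻¹ * g⁻¹ ∈ zpowers (u ^ p) := by
  obtain ⟨c, hc⟩ := S.fix hg (inv_mem hq)
  obtain ⟨i, hi⟩ := nat_pow (inv_mem hq)
  rw [show q * g * q⁻¹ * g⁻¹ = q * (g * q⁻¹ * g⁻¹) by group, hc, mul_inv_cancel_left, hi,
    pow_right_comm u i p]
  exact pow_mem (pow_mem (mem_zpowers _) _) _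

theorem expo {g m : X} (hg : g ∈ P) (hm : m ∈ M ⊓ normalizer P) :
    ∃ a : ℕ, m * g * m⁻¹ = u ^ a * g := by
  obtain ⟨a, ha⟩ := nat_pow (S.gen _ (mul_mem ((hm.2 g).mp hg) (inv_mem hg)) (by
    simpa [mul_assoc] using mul_mem hm.1 (S.nm.conj_mem _ (inv_mem hm.1) g)))
  exact ⟨a, by rw [← ha, inv_mul_cancel_right]⟩

theorem ident (h0 : u ≠ 1) {g m y : X} (hg : g ∈ P) (hm : m ∈ M ⊓ normalizer P)
    (hy : y ∈ M ⊓ normalizer P) {a b c e : ℕ} (ha : m * g * m⁻¹ = u ^ a * g)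
    (hb : y * g * y⁻¹ = u ^ b * g) (hc : m * u * m⁻¹ = u ^ c) (he : y * u * y⁻¹ = u ^ e) :
    c * b + a ≡ e * a + b [MOD p] := by
  have hw := mul_mem (inv_mem (mul_mem hy hm)) (mul_mem hm hy)
  obtain ⟨w, h1⟩ : ∃ w, w = (y * m)⁻¹ * (m * y) := ⟨_, rfl⟩
  rw [← h1] at hw
  have h2 : ∀ {m y : X} {c e : ℕ}, m * u * m⁻¹ = u ^ c → y * u * y⁻¹ = u ^ e →
      m * y * u * (m * y)⁻¹ = u ^ (c * e) := fun {m y c e} hc he => by
    rw [pow_mul, ← hc, conj_pow, ← he]; group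
  have h3 : w * u * w⁻¹ = u := by
    have h3 := (h2 hc he).trans ((mul_comm c e ▸ h2 he hc).symm)
    rw [h1, show (y * m)⁻¹ * (m * y) * u * ((y * m)⁻¹ * (m * y))⁻¹ =
      (y * m)⁻¹ * (m * y * u * (m * y)⁻¹) * (y * m) by group, h3]
    group
  obtain ⟨d, hd⟩ := S.expo hg hw
  have h4 : ∀ k, w ^ k * g * (w ^ k)⁻¹ = u ^ (d * k) * g := fun k => by
    induction k with
    | zero => simp
    | succ k ih =>
      rw [show w ^ (k + 1) * g * (w ^ (k + 1))⁻¹ = w * (w ^ k * g * (w ^ k)⁻¹) * w⁻¹ by group, ih,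
        ← conj_mul, ← conj_pow, h3, hd]
      group
  have h5 := S.qconj hg (S.gen _ (mem_of_norm S.hp S.pg le_top (by simpa using S.idx)
    (mem_top (w ^ n)) (k := N) (by rw [← pow_mul, mul_comm, S.hX])
      fun r hr => ((pow_mem hw n).2 r).mp hr) (pow_mem hw n).1)
  rw [h4, mul_inv_cancel_right, S.mem_p h0] at h5
  obtain ⟨d, rfl⟩ := (S.hp.dvd_mul.mp h5).resolve_right S.hn
  have h6 : ∀ {m y : X} {a b c : ℕ}, m * g * m⁻¹ = u ^ a * g → y * g * y⁻¹ = u ^ b * g →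
      m * u * m⁻¹ = u ^ c → m * y * g * (m * y)⁻¹ = u ^ (c * b + a) * g :=
    fun {m y a b c} ha hb hc => by
      rw [pow_add, mul_assoc (u ^ _), ← ha, pow_mul, ← hc, conj_pow, conj_mul, ← hb]; group
  have h7 := h6 (h6 hb ha he) hd (h2 he hc)
  rw [h1, mul_inv_cancel_left, h6 ha hb hc, mul_left_inj] at h7
  refine (dvd_of_fix S.hp h0 (S.pw S.uP) h7).trans ?_
  simpa using (Nat.modEq_zero_iff_dvd.mpr ((dvd_mul_right p d).mul_left (e * c))).add_right
    (e * a + b)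

end Su

/-- The fusion properties that are used in the character theoretic part. -/
structure Cy (p N n : ℕ) (M P L : Subgroup X) (u : X) : Prop extends Su p N n M P u where
  odd : p ≠ 2
  le : L ≤ P
  u1 : u ∉ L
  up : u ^ p ∈ L
  cov1 : ∀ g ∈ P, ∃ x : ℕ, u ^ x * g ∈ L
  fus : ∀ g ∈ P, ∀ b, b * g * b⁻¹ ∈ L → g ∈ L
  loc : ∀ g ∈ P, g ∉ L → ∃ K : Subgroup X, (∀ s, s ∈ K ↔ (s * g = g * s ∧ s ∈ M) ∧ s ^ n = 1) ∧
    ∀ m ∈ M, m * g * m⁻¹ * g⁻¹ ∈ zpowers (u ^ p) → ∃ q ∈ zpowers u, ∃ s ∈ K, m = q * s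

theorem Su.cy {M P : Subgroup X} {u y : X} (S : Su p N n M P u) (y1 : y ∈ M)
    (y2 : y * u * y⁻¹ ∈ zpowers u) (y3 : y * u ≠ u * y) : ∃ L, Cy p N n M P L u := by
  have := Fact.mk S.hp
  have u0 : u ≠ 1 := by rintro rfl; simp at y3
  obtain ⟨z, hz, h0, h1, h2⟩ := S.exists_z u0
  obtain ⟨K, k1, k2, k3, k4⟩ := S.exists_K hz h0 h1
  have hK : ∀ s ∈ K, s ∈ M := fun s hs => ((k1 s).mp hs).1.2
  have a0 : ∀ {m : X} {c : ℕ}, m * u * m⁻¹ = u ^ c → m * z * m⁻¹ = z ^ c := fun {m c} h => by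
    obtain ⟨i, rfl⟩ := nat_pow hz
    rw [← conj_pow, h, pow_right_comm]
  have a1 : ∀ m ∈ M, m * z * m⁻¹ ∈ zpowers z → ∃ s ∈ K, s * m ∈ M ⊓ normalizer P ∧ ∃ c : ℕ,
      s * m * u * (s * m)⁻¹ = u ^ c ∧ (c ≡ 1 [MOD p] → m * z = z * m) ∧
      ∀ g ∈ P, m * g * m⁻¹ ∈ P → s * m * g * (s * m)⁻¹ = m * g * m⁻¹ := fun m hm h3 => by
    obtain ⟨s, hs, h4⟩ := k4 m hm h3
    have h5 := mul_mem (hK s hs) hm
    obtain ⟨c, hc⟩ := nat_pow (S.gen _ (h4 u S.uP) (S.nm.conj_mem _ S.uM _))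
    refine ⟨s, hs, ⟨h5, mem_normalizer_fintype h4⟩, c, hc, fun h6 => ?_, fun g hg h6 => ?_⟩
    · have h7 := a0 hc
      rw [pow_eq_pow_mod _ h1, h6, ← pow_eq_pow_mod _ h1, pow_one, mul_inv_eq_iff_eq_mul,
        ← mul_assoc z, ← ((k1 s).mp hs).1.1, mul_assoc, mul_assoc, mul_right_inj] at h7
      exact h7
    · have h7 := h4 g hg
      rw [show s * m * g * (s * m)⁻¹ = s * (m * g * m⁻¹) * s⁻¹ by group] at h7 ⊢
      rw [k3 s hs _ h6 h7, mul_inv_cancel_right]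
  obtain ⟨c0, hc0⟩ := nat_pow y2
  obtain ⟨s0, -, hy, e, he, h3, -⟩ := a1 y y1 (a0 hc0 ▸ pow_mem (mem_zpowers z) c0)
  have h4 : (e : ZMod p) - 1 ≠ 0 := fun h4 => y3 (cent S.hp S.hn S.hX (S.pw S.uP) S.uM
    (S.rel S.uM le_rfl) hz h0 y1 y2 (h3 ((ZMod.natCast_eq_natCast_iff _ _ _).mp
      (by simpa using sub_eq_zero.mp h4))))
  generalize s0 * y = y at hy he
  have a2 : ∀ g ∈ P, ∀ v ∈ zpowers (u ^ p), g * v * g⁻¹ ∈ zpowers (u ^ p) := fun g hg v hv => by
    obtain ⟨c, hc⟩ := S.fix hg (zpowers_le.mpr (pow_mem (mem_zpowers u) p) hv)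
    exact hc ▸ mul_mem hv (pow_mem (pow_mem hv _) _)
  let L : Subgroup X :=
    { carrier := {g | g ∈ P ∧ y * g * y⁻¹ * g⁻¹ ∈ zpowers (u ^ p)}
      one_mem' := ⟨one_mem _, by simp⟩
      mul_mem' := fun {a b} ha hb => ⟨mul_mem ha.1 hb.1, by
        convert mul_mem ha.2 (a2 a ha.1 _ hb.2) using 1
        group⟩
      inv_mem' := fun {a} ha => ⟨inv_mem ha.1, by
        convert a2 _ (inv_mem ha.1) _ (inv_mem ha.2) using 1
        group⟩ }
  have a3 : ∀ g ∈ P, ∀ b : ℕ, y * g * y⁻¹ = u ^ b * g → (g ∈ L ↔ (b : ZMod p) = 0) :=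
    fun g hg b hb => by
      rw [ZMod.natCast_eq_zero_iff, ← S.mem_p u0, ← mul_inv_cancel_right (u ^ b) g, ← hb]
      exact and_iff_right hg
  obtain ⟨e, rfl⟩ : ∃ e', e = e' + 1 := Nat.exists_eq_succ_of_ne_zero (by
    rintro rfl
    exact u0 (by simpa using he))
  rw [Nat.cast_succ, add_sub_cancel_right] at h4
  have a4 : ∀ g ∈ P, ∀ b x : ℕ, y * g * y⁻¹ = u ^ b * g →
      y * (u ^ x * g) * y⁻¹ = u ^ (e * x + b) * (u ^ x * g) := fun g hg b x hb => by
    rw [← conj_mul, hb, ← conj_pow, he]; group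
  have a5 : zpowers (u ^ p) ≤ L := zpowers_le.mpr (by
    simpa using (a3 _ (mul_mem (pow_mem S.uP p) (one_mem _)) _ (a4 1 (one_mem _) 0 p
      (by simp))).mpr (by simp))
  have a6 : ∀ g ∈ P, ∃ x : ℕ, u ^ x * g ∈ L := fun g hg => by
    obtain ⟨b, hb⟩ := S.expo hg hy
    refine ⟨(-(b : ZMod p) / e).val, (a3 _ (mul_mem (pow_mem S.uP _) hg) _
      (a4 g hg b _ hb)).mpr ?_⟩
    push_cast
    rw [ZMod.natCast_zmod_val]
    field_simp
    ring
  have a7 : ∀ g ∈ P, g ∉ L → ∀ m ∈ M, m * g * m⁻¹ * g⁻¹ ∈ zpowers (u ^ p) →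
      m * z * m⁻¹ ∈ zpowers z → ∃ q ∈ zpowers u, ∃ s, ((s * g = g * s ∧ s ∈ M) ∧ s ^ n = 1) ∧
        m * z = z * m ∧ m = q * s := fun g hg hL m hm h5 h6 => by
    have h7 : m * g * m⁻¹ ∈ P := by
      simpa using mul_mem (zpowers_le.mpr (pow_mem S.uP p) h5) hg
    obtain ⟨s, -, hs, c, hc, h8, h9⟩ := a1 m hm h6
    obtain ⟨a, ha⟩ := S.expo hg hs
    obtain ⟨b, hb⟩ := S.expo hg hy
    have h10 := (ZMod.natCast_eq_natCast_iff _ _ _).mpr (S.ident u0 hg hs hy ha hb hc he)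
    rw [← h9 g hg h7, ha, mul_inv_cancel_right, S.mem_p u0, ← ZMod.natCast_eq_zero_iff] at h5
    push_cast at h10
    have h11 := h8 ((ZMod.natCast_eq_natCast_iff _ _ _).mp (mul_right_cancel₀
      (mt (a3 g hg b hb).mpr hL) (by rw [h5] at h10; simpa using h10)))
    obtain ⟨q, hq, s', hs', rfl⟩ := k2 m hm h11
    have h12 := zpowers_le.mpr S.uP hq
    refine ⟨q, hq, s', ⟨⟨k3 s' hs' g hg ?_, hK s' hs'⟩, ((k1 s').mp hs').2⟩, h11, rfl⟩
    convert mul_mem (mul_mem (inv_mem h12) h7) h12 using 1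
    group
  refine ⟨L, S, ?_, fun g hg => hg.1, fun h => h4 ?_, a5 (mem_zpowers _), a6, fun g hg b hb => ?_,
    fun g hg hL => ?_⟩
  · rintro rfl
    rw [Ne, ZMod.natCast_eq_zero_iff] at h4
    obtain ⟨c, hc⟩ : 2 ∣ e + 1 := by omega
    have h5 := a0 he
    rw [hc, pow_mul, h1, one_pow] at h5
    exact h0 (by simpa using h5)
  · exact (a3 u S.uP e (by rw [he, pow_succ])).mp h
  · obtain ⟨a, ha, h5⟩ := S.cov b
    have h6 : (b * a⁻¹)⁻¹ * (b * g * b⁻¹) * (b * a⁻¹)⁻¹⁻¹ = a * g * a⁻¹ := by group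
    have h7 := mul_mem (mul_mem ha hg) (inv_mem ha)
    obtain ⟨m, hm, h8, h9⟩ := S.ctrl hz h0 h1 h2 hb.1 (inv_mem h5) (h6 ▸ h7)
    rw [h6] at h8
    obtain ⟨s, -, hs, c, hc, -, h10⟩ := a1 m hm h9
    obtain ⟨i, hi⟩ := S.expo hb.1 hs
    obtain ⟨k, hk⟩ := S.expo hb.1 hy
    have h11 := (ZMod.natCast_eq_natCast_iff _ _ _).mpr (S.ident u0 hb.1 hs hy hi hk hc he)
    push_cast at h11
    rw [(a3 _ hb.1 k hk).mp hb] at h11
    rw [h10 _ hb.1 (h8 ▸ h7), h8] at hi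
    have h12 : a * g * a⁻¹ ∈ L := hi ▸ mul_mem (a5 ((S.mem_p u0).mpr
      ((ZMod.natCast_eq_zero_iff _ _).mp ((mul_eq_zero.mp (by linear_combination -h11)).resolve_left
        h4)))) hb
    obtain ⟨x, hx⟩ := a6 _ (inv_mem ha)
    have h13 := mul_mem (mul_mem hx h12) (inv_mem hx)
    have h14 := a5 (S.qconj hg (pow_mem (mem_zpowers u) x))
    convert mul_mem (inv_mem h14) h13 using 1
    group
  · have hM : z ∈ M := zpowers_le.mpr S.uM hz
    obtain ⟨R, r1, r2, r3, r4⟩ := exists_syl S.hp (H := centralizer {g} ⊓ M) (z := z)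
      ⟨mem_centralizer_singleton_iff.mpr (S.zc hz h1 hg).symm, hM⟩ (k := 1) (by simpa using h1)
    obtain ⟨b, -, hb⟩ := S.into (r1.trans inf_le_right) r2
    have : IsCyclic R := isCyclic_of_injective
      (((MulAut.conj b).toMonoidHom.comp R.subtype).codRestrict (zpowers u) fun r => hb r r.2)
      fun r r' h => by simpa using congrArg Subtype.val h
    obtain ⟨v, hv⟩ := IsCyclic.exists_generator (α := R)
    have r5 : zpowers (v : X) = R := le_antisymm (zpowers_le.mpr v.2) fun r hr => by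
      obtain ⟨i, hi⟩ := hv ⟨r, hr⟩
      exact ⟨i, congrArg Subtype.val hi⟩
    have r6 := pel S.hp S.hn S.hX r2 v.2
    replace r3 : ¬ p ∣ (zpowers (v : X)).relIndex (centralizer {g} ⊓ M) := by rwa [r5]
    have r7 : ∀ h ∈ centralizer {g} ⊓ M, h * v * h⁻¹ ∈ zpowers (v : X) →
        h * g * h⁻¹ * g⁻¹ ∈ zpowers (u ^ p) ∧ h * z * h⁻¹ ∈ zpowers z := fun h hh h5 => by
      refine ⟨by simp [mem_centralizer_singleton_iff.mp hh.1], ?_⟩
      obtain ⟨c, hc⟩ := nat_pow h5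
      obtain ⟨i, rfl⟩ := nat_pow (r5.ge r4)
      rw [← conj_pow, hc, pow_right_comm]
      exact pow_mem (mem_zpowers _) _
    obtain ⟨K', j1, j2⟩ := pnil S.hp S.hn S.hX r6 (r1 v.2) r3 fun h hh h5 => by
      obtain ⟨-, -, -, -, h6, -⟩ := a7 g hg hL h hh.2 (r7 h hh h5).1 (r7 h hh h5).2
      exact cent S.hp S.hn S.hX r6 (r1 v.2) r3 (r5.ge r4) h0 hh h5 h6
    simp only [mem_inf, mem_centralizer_singleton_iff] at j1
    refine ⟨K', j1, fun m hm h5 => ?_⟩
    obtain ⟨m', hm', h6, h7⟩ := S.ctrl hz h0 h1 h2 hg hm (by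
      simpa using mul_mem (zpowers_le.mpr (pow_mem S.uP p) h5) hg)
    obtain ⟨q, hq, s, hs, -, rfl⟩ := a7 g hg hL m' hm' (h6 ▸ h5) h7
    obtain ⟨r, hr, s', hs', h8⟩ := j2 (s * ((q * s)⁻¹ * m)) ((centralizer {g} ⊓ M).mul_mem
      ⟨mem_centralizer_singleton_iff.mpr hs.1.1, hs.1.2⟩ ⟨mem_centralizer_singleton_iff.mpr (by
        rw [show (q * s)⁻¹ * m * g = (q * s)⁻¹ * (m * g * m⁻¹) * m by group, ← h6]
        group), M.mul_mem (M.inv_mem hm') hm⟩)
    have h9 := r7 r (r1 (r5.le hr)) (mul_mem (mul_mem hr (mem_zpowers _)) (inv_mem hr))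
    obtain ⟨q', hq', s'', hs'', -, rfl⟩ := a7 g hg hL r (r1 (r5.le hr)).2 h9.1 h9.2
    refine ⟨q * q', mul_mem hq hq', s'' * s', mul_mem ((j1 _).mpr hs'') hs', ?_⟩
    rw [mul_assoc, ← mul_assoc q', ← h8]
    group

end Pool.Agent.MP_3e257e_al

/-! ### Eigencomponents of a character under a Galois automorphism of order `p`. -/

namespace Pool.Agent.MP_3e257e_al

open Finset Complex

variable {X : Type} [Group X] [Fintype X] {p N n j d : ℕ} [hp : Fact p.Prime] {χ : X → ℂ}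

/-- The standard additive character. -/
noncomputable def ps (p : ℕ) [hp : Fact p.Prime] : AddChar (ZMod p) ℂ :=
  AddChar.zmodChar p (zt_prim hp.1.ne_zero).pow_eq_one

theorem ps_prim : (ps p).IsPrimitive :=
  AddChar.zmodChar_primitive_of_primitive_root p (zt_prim hp.1.ne_zero)

theorem ps_sum (b : ZMod p) : ∑ x, ps p (x * b) = if b = 0 then (p : ℂ) else 0 := by
  rw [AddChar.sum_mulShift b ps_prim, ZMod.card]
  split_ifs <;> simp

theorem ps_one {a : ZMod p} : ps p a = 1 ↔ a = 0 := ps_prim.zmod_char_eq_one_iff p a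

theorem ps_neg (a : ZMod p) : ps p (-a) * ps p a = 1 := by
  rw [← AddChar.map_add_eq_mul, neg_add_cancel, AddChar.map_zero_eq_one]

theorem ps_inj {a b : ZMod p} (h : ps p a = ps p b) : a = b := by
  have h1 := ps_neg b
  rwa [← h, ← AddChar.map_add_eq_mul, ps_one, neg_add_eq_zero, eq_comm] at h1

theorem ps_pow (a : ZMod p) (k : ℕ) : ps p a ^ k = ps p (k * a) := by
  rw [← AddChar.map_nsmul_eq_pow, nsmul_eq_mul]

theorem ps_p (a : ZMod p) : ps p a ^ p = 1 := by simp [ps_pow]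

theorem ps_surj {ξ : ℂ} (h : ξ ^ p = 1) : ∃ a, ξ = ps p a := by
  obtain ⟨i, hi⟩ := exists_zt_pow hp.1.ne_zero h
  exact ⟨i, hi.trans (AddChar.zmodChar_apply' _ i).symm⟩

theorem ps_norm (a : ZMod p) : normSq (ps p a) = 1 := by
  rw [normSq_eq_norm_sq, norm_eq_one_of_pow_eq_one (ps_p a) hp.1.ne_zero, one_pow]

theorem ps_conj (a : ZMod p) : (starRingEnd ℂ) (ps p a) = ps p (-a) := by
  have h := mul_conj (ps p a)
  rw [ps_norm, ofReal_one] at h
  linear_combination ps p (-a) * h - (starRingEnd ℂ) (ps p a) * ps_neg a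

theorem IsChar.nsq {θ : X → ℂ} (h : IsChar θ) (g : X) : θ g * θ g⁻¹ = normSq (θ g) := by
  rw [← h.conj_eq, mul_conj]

/-- A character that does not vanish off the kernel of a homomorphism onto the group of order `p`
has average square at least one there. -/
theorem qlem {A : X → ℂ} (hA : IsChar A) (ν : X →* Multiplicative (ZMod p)) {h0 : X}
    (h1 : ν h0 ≠ 1) (h2 : A h0 ≠ 0) :
    ∑ _h ∈ univ.filter fun h => ν h ≠ 1, (1 : ℝ) ≤
      ∑ h ∈ univ.filter fun h => ν h ≠ 1, normSq (A h) := by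
  let e : ZMod p → X →* ℂ := fun i => ((ps p).mulShift i).toMonoidHom.comp ν
  have he : ∀ i h, e i h = ps p (i * (ν h).toAdd) := fun _ _ => rfl
  have a1 : ∀ a : ZMod p, 0 ≤ 1 - (ps p a).re ∧ (a ≠ 0 → 0 < 1 - (ps p a).re) := fun a => by
    have h3 := ps_norm a
    rw [normSq_apply] at h3
    have h4 : 0 ≤ 1 - (ps p a).re := by nlinarith [mul_self_nonneg (ps p a).im]
    refine ⟨h4, fun h5 => h4.lt_of_ne fun h6 => h5 (ps_one.mp (Complex.ext (by simp; linarith) ?_))⟩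
    rw [show (ps p a).re = 1 by linarith] at h3
    simpa using h3
  have a2 : ∀ i, ∑ h, 1 * (1 - (e i h).re) ≤ ∑ h, normSq (A h) * (1 - (e i h).re) := fun i => by
    by_cases hi : i = 0
    · simp [hi, he]
    have h3 : i * (ν h0).toAdd ≠ 0 := mul_ne_zero hi (by simpa using h1)
    have h4 := sum_hom_units_eq_zero (e i) fun h => h3 (ps_one.mp (DFunLike.congr_fun h h0))
    obtain ⟨a, ha⟩ := ip_nat hA hA
    obtain ⟨b, hb⟩ := ip_nat (hA.mul (isChar_hom (e i))) hA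
    rw [ip, inv_mul_eq_iff_eq_mul₀ cardX_ne] at ha hb
    have h5 : ∑ h, normSq (A h) * (1 - (e i h).re) = Nat.card X * ((a - b : ℤ) : ℝ) := by
      have h5 : ∑ h, (normSq (A h) : ℂ) * (1 - e i h) = Nat.card X * ((a - b : ℤ) : ℂ) := by
        push_cast
        rw [mul_sub, ← ha, ← hb, ← sum_sub_distrib]
        exact sum_congr rfl fun h _ => by rw [← hA.nsq]; ring
      simpa using congrArg re h5
    have h6 : 0 < ∑ h, normSq (A h) * (1 - (e i h).re) := sum_pos'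
      (fun h _ => mul_nonneg (normSq_nonneg _) (a1 _).1)
      ⟨h0, mem_univ _, mul_pos (normSq_pos.mpr h2) ((a1 _).2 h3)⟩
    have h7 : (0 : ℝ) < Nat.card X := Nat.cast_pos.mpr Nat.card_pos
    rw [h5] at h6 ⊢
    have h8 : (1 : ℝ) ≤ ((a - b : ℤ) : ℝ) := by
      exact_mod_cast (Int.cast_pos.mp ((mul_pos_iff_of_pos_left h7).mp h6) : (0 : ℤ) < a - b)
    simp only [one_mul, sum_sub_distrib, ← re_sum, h4, sum_const, card_univ, zero_re]
    rw [← Nat.card_eq_fintype_card, nsmul_eq_mul]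
    nlinarith
  have a3 : ∀ F : X → ℝ, ∑ i, ∑ h, F h * (1 - (e i h).re) =
      p * ∑ h ∈ univ.filter fun h => ν h ≠ 1, F h := fun F => by
    rw [sum_comm, sum_filter, mul_sum]
    refine sum_congr rfl fun h _ => ?_
    rw [← mul_sum, sum_sub_distrib, ← re_sum]
    simp only [he, ps_sum]
    by_cases h3 : ν h = 1 <;> simp [h3, mul_comm]
  have a4 := sum_le_sum fun i (_ : i ∈ univ) => a2 i
  rw [a3 fun _ => 1, a3] at a4
  exact le_of_mul_le_mul_left a4 (Nat.cast_pos.mpr hp.1.pos)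

theorem avg_hom {C H : Type} [Group C] [Fintype C] [Group H] [Fintype H] {Ξ : C × H → ℂ}
    (h : IsChar Ξ) : IsChar fun y => (Nat.card C : ℂ)⁻¹ * ∑ c, Ξ (c, y) := by
  classical
  convert (avg_char h (MonoidHom.snd C H).ker).comp (MonoidHom.inr C H) using 2 with y
  refine Eq.trans (congrArg _ (sum_congr rfl fun c _ => congrArg Ξ ?_)) (avg_surj
    ((MonoidHom.inl C H).codRestrict (MonoidHom.snd C H).ker fun _ => rfl)
    (fun q => ⟨q.1.1, Subtype.ext (Prod.ext rfl q.2.symm)⟩) fun q => Ξ ((q : C × H) * (1, y)))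
  exact Prod.ext (mul_one c).symm (one_mul y).symm

/-- Powers of an element of finite order as a homomorphism. -/
def pw {G : Type} [Monoid G] {m : ℕ} [NeZero m] {g : G} (hg : g ^ m = 1) :
    Multiplicative (ZMod m) →* G where
  toFun l := g ^ l.toAdd.val
  map_one' := by simp
  map_mul' a b := by rw [toAdd_mul, ZMod.val_add, ← pow_eq_pow_mod _ hg, pow_add]

theorem IsChar.zero {θ : X → ℂ} (h : IsChar θ) (h0 : θ 1 = 0) (g : X) : θ g = 0 := by
  obtain ⟨V, rfl⟩ := h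
  rw [V.char_one, Nat.cast_eq_zero] at h0
  have : Subsingleton V := Module.finrank_zero_iff.mp h0
  simp [FDRep.character, Subsingleton.elim (V.ρ _) 0]

section pair

variable {M : Subgroup X} [M.Normal] [Fintype M] {α β : X → ℂ} (ha : IsChar α) (hb : IsChar β)
  (h1 : IsIrr fun m : M => α m) (h2 : IsIrr fun m : M => β m)
include ha hb h1 h2

theorem pair_ne (h : (fun m : M => α m) ≠ fun m : M => β m) (a : X) :
    ∑ m : M, α (m * a) * β (m * a)⁻¹ = 0 := by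
  have h3 := (avg_char (ha.mul hb.inv) M).zero (by simpa [ip] using ip_ne h1 h2 h) a
  exact (mul_eq_zero.mp h3).resolve_left (inv_ne_zero cardX_ne)

theorem pair_eq (h : (fun m : M => α m) = fun m : M => β m) : ∃ ν : X →* ℂ, (∀ m ∈ M, ν m = 1) ∧
    (∀ x, α x = β x * ν x) ∧ ∀ a, ∑ m : M, α (m * a) * β (m * a)⁻¹ = Nat.card M * ν a := by
  have h3 := avg_char (ha.mul hb.inv) M
  have h4 := (isIrr_iff.mp h2).2
  nth_rewrite 1 [← h] at h4
  let ν := h3.hom (by simpa [ip] using h4)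
  have h5 : ∀ a, ∑ m : M, α (m * a) * β (m * a)⁻¹ = Nat.card M * ν a := fun a =>
    (mul_inv_cancel_left₀ cardX_ne _).symm
  have h6 : ∀ m ∈ M, ν m = 1 := fun m hm => by
    refine mul_left_cancel₀ (cardX_ne (X := M)) ?_
    rw [← map_one ν, ← h5, ← h5]
    exact Fintype.sum_equiv (Equiv.mulRight (⟨m, hm⟩ : M)) _ _ fun _ => by simp
  refine ⟨ν, h6, fun x => (congrFun (eq_of_ip (hb.mul (isChar_hom ν))
    (IsIrr.of_res ha (ι := M.subtype) h1) (fun h7 => ?_) (by simpa using (congrFun h 1).symm)) x).symm,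
    h5⟩
  rw [ip, mul_eq_zero, or_iff_right (inv_ne_zero cardX_ne)] at h7
  have h8 : ∑ m : M, ∑ x : X, α (m * x) * β ((m : X) * x)⁻¹ * ν x⁻¹ = 0 := sum_eq_zero fun m _ => by
    rw [← h7]
    exact Fintype.sum_equiv (Equiv.mulLeft (m : X)) _ _ fun x => by
      simp [h6 _ (inv_mem m.2), mul_assoc]
  rw [sum_comm] at h8
  simp only [← sum_mul, h5] at h8
  simp only [mul_assoc, ← map_mul, mul_inv_cancel, map_one, mul_one] at h8
  simp [cardX_ne (X := M)] at h8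

end pair

theorem pair_self {M : Subgroup X} [M.Normal] [Fintype M] {α : X → ℂ} (ha : IsChar α)
    (h1 : IsIrr fun m : M => α m) (a : X) :
    (∃ m ∈ M, α (m * a) ≠ 0) ∧ ∑ m : M, α (m * a) * α (m * a)⁻¹ = Nat.card M := by
  obtain ⟨ν, h2, h3, h4⟩ := pair_eq ha ha h1 h1 rfl
  obtain ⟨m, -, hm⟩ := exists_ne_zero_of_sum_ne_zero ((h4 a).trans_ne (mul_ne_zero cardX_ne
    ((Group.isUnit a).map ν).ne_zero))
  have h5 := left_ne_zero_of_mul hm
  have h6 := (mul_eq_left₀ h5).mp (h3 _).symm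
  rw [map_mul, h2 _ m.2, one_mul] at h6
  exact ⟨⟨m, m.2, h5⟩, by rw [h4, h6, mul_one]⟩

theorem dq_pow {Y : Type} [Group Y] [Fintype Y] (hY : IsPGroup p Y) (hj : j ≠ 0) (f : Y → ℂ)
    (c : ℕ) (v : Y) : dq (p ^ j) (fun y => f (y ^ (1 + c * p ^ j))) v = dq (p ^ j) f v := by
  classical
  obtain ⟨N, hN⟩ := IsPGroup.iff_card.mp hY
  have h4 : (1 + c * p ^ j).Coprime (Nat.card Y) := coprime_card (p := p) (N := N) (n := 1)
    (by rw [hN, mul_one]) ((Nat.modEq_iff_dvd' (Nat.le_add_right _ _)).mpr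
      (by simpa using (dvd_pow_self p hj).mul_left c)).symm
  have h5 : ∀ F : Y → ℂ, ∑ q : Qs Y (p ^ j), F (q * v) =
      ∑ z ∈ univ.filter fun z : Y => z * v⁻¹ ∈ Qs Y (p ^ j), F z := fun F => by
    rw [← sum_subtype (univ.filter (· ∈ Qs Y (p ^ j))) (by simp) fun q => F (q * v)]
    exact sum_bijective _ (Group.mulRight_bijective v) (by simp) fun _ _ => rfl
  rw [dq, dq, h5 f, h5 fun y => f (y ^ (1 + c * p ^ j))]
  refine congrArg _ (sum_bijective _ (pow_bij h4) (fun z => ?_) fun _ _ => rfl)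
  simp only [mem_filter, mem_univ, true_and]
  rw [add_comm 1, pow_succ, mul_assoc, pow_mul, mul_mem_cancel_left (pow_mem_Qs _ _)]

/-- The Galois conjugates. -/
def gt (d : ℕ) (χ : X → ℂ) (i : ZMod p) (y : X) : ℂ := χ (y ^ (1 + i.val * d))

/-- The eigencomponents. -/
noncomputable def av (d : ℕ) (χ : X → ℂ) (x : ZMod p) (y : X) : ℂ :=
  (p : ℂ)⁻¹ * ∑ i, ps p (-(x * i)) * gt d χ i y

theorem av_sum (y : X) : ∑ x : ZMod p, av d χ x y = χ y := by
  have h : (p : ℂ) ≠ 0 := Nat.cast_ne_zero.mpr hp.1.ne_zero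
  simp only [av, ← mul_sum]
  rw [sum_comm]
  simp only [← sum_mul, ← mul_neg, ps_sum]
  simp [gt, h]

theorem IsChar.av_conj (h : IsChar χ) (x : ZMod p) (b y : X) :
    av d χ x (b * y * b⁻¹) = av d χ x y := by
  simp only [av, gt, conj_pow, h.conj]

/-- The standing hypotheses on the character. -/
structure Ch (p N n j d : ℕ) (χ : X → ℂ) : Prop where
  hn : ¬ p ∣ n
  hX : Nat.card X = p ^ N * n
  hj : j ≠ 0
  hd : d = p ^ j * n
  hc : IsChar χ
  hI : Inv p (j + 1) χ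

namespace Ch

variable (C : Ch p N n j d χ)
include C

theorem ex (y : X) : y ^ (p ^ N * n) = 1 := C.hX ▸ pow_card_eq_one'

theorem md (c : ℕ) : 1 + c * d ≡ 1 [MOD p * n] :=
  ((Nat.modEq_iff_dvd' (Nat.le_add_right _ _)).mpr (by
    simpa [C.hd] using (mul_dvd_mul_right (dvd_pow_self p C.hj) n).mul_left c)).symm

theorem cong {a b : ℕ} (h : 1 + a * d ≡ 1 + b * d [MOD p * d]) (y : X) :
    χ (y ^ (1 + a * d)) = χ (y ^ (1 + b * d)) := by
  have h1 := coprime_of_modEq (C.md b)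
  have h0 : n ≠ 0 := by rintro rfl; exact C.hn (dvd_zero p)
  obtain ⟨v, hv⟩ := exists_inv (M := p ^ (N + (j + 1)) * n)
    (mul_ne_zero (pow_ne_zero _ hp.1.ne_zero) h0)
    (((Nat.coprime_mul_iff_right.mp h1).1.pow_right _).mul_right (Nat.coprime_mul_iff_right.mp h1).2)
  have h2 : p * d = p ^ (j + 1) * n := by rw [C.hd]; ring
  rw [← C.hI (y ^ (1 + b * d)) N n (v * (1 + a * d)) C.hn (C.ex _) ?_, ← pow_mul, ← mul_assoc,
    pow_mul y (_ * v), pow_eq_pow_mod (_ * v) (C.ex y),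
    hv.of_dvd (mul_dvd_mul_right (pow_dvd_pow p (Nat.le_add_right _ _)) n),
    ← pow_eq_pow_mod _ (C.ex y), pow_one]
  rw [h2] at h
  exact (h.mul_left v).trans (mul_comm v _ ▸
    hv.of_dvd (mul_dvd_mul_right (pow_dvd_pow p (Nat.le_add_left _ _)) n))

theorem gt_nat (m : ℕ) (y : X) : gt d χ (m : ZMod p) y = χ (y ^ (1 + m * d)) :=
  C.cong ((ZMod.val_natCast p m ▸ (Nat.mod_modEq m p).mul_right' d).add_left 1) y

theorem gt_add (i : ZMod p) (m : ℕ) (y : X) : gt d χ i (y ^ (1 + m * d)) = gt d χ (i + (m : ZMod p)) y := by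
  obtain ⟨c, hc⟩ : p ∣ d := C.hd ▸ (dvd_pow_self p C.hj).mul_right n
  rw [← ZMod.natCast_zmod_val i, ← Nat.cast_add, C.gt_nat, C.gt_nat, ← pow_mul,
    show (1 + m * d) * (1 + i.val * d) = 1 + (i.val + m + m * i.val * d) * d by ring,
    ← C.gt_nat, ← C.gt_nat]
  simp [hc]

theorem av_shift (x : ZMod p) (y : X) : av d χ x (y ^ (1 + d)) = ps p x * av d χ x y := by
  rw [av, av, mul_left_comm, mul_sum _ _ (ps p x)]
  refine congrArg _ (Fintype.sum_equiv (Equiv.addRight 1) _ _ fun i => ?_)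
  have h := C.gt_add i 1 y
  rw [one_mul, Nat.cast_one] at h
  rw [h, Equiv.coe_addRight, ← mul_assoc, ← AddChar.map_add_eq_mul]
  congr 2
  ring

theorem inv_of_fix {M : Subgroup X} (h : ∀ y ∈ M, χ (y ^ (1 + d)) = χ y) :
    Inv p j fun m : M => χ m := inv_of hp.1 C.hn fun t ht y => by
  obtain ⟨c, hc⟩ := (Nat.modEq_iff_dvd' (Nat.pos_of_ne_zero (by
    rintro rfl
    exact hp.1.not_dvd_one (Nat.modEq_zero_iff_dvd.mp
      (ht.symm.of_dvd ((dvd_pow_self p C.hj).mul_right n)))))).mp ht.symm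
  obtain rfl : t = 1 + c * d := by
    have : t ≠ 0 := by
      rintro rfl
      exact hp.1.not_dvd_one (Nat.modEq_zero_iff_dvd.mp
        (ht.symm.of_dvd ((dvd_pow_self p C.hj).mul_right n)))
    rw [C.hd, mul_comm, ← hc]
    omega
  clear ht hc
  change χ (y ^ _) = _
  induction c with
  | zero => simp
  | succ c ih =>
    have h1 := C.gt_add ((1 : ℕ) : ZMod p) c y
    rw [C.gt_nat, ← Nat.cast_add, C.gt_nat, one_mul, h _ (pow_mem y.2 _), ih, add_comm 1 c] at h1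
    exact h1.symm

theorem gt_char (i : ZMod p) : IsChar (gt d χ i) :=
  C.hc.pow (coprime_card C.hX.dvd (C.md _))

theorem gt_irr {M : Subgroup X} (h : IsIrr fun m : M => χ m) (i : ZMod p) :
    IsIrr fun m : M => gt d χ i m :=
  h.pow (coprime_card (C.hX ▸ M.card_subgroup_dvd_card) (C.md i.val))

theorem gt_ne {M : Subgroup X} (h : ¬ Inv p j fun m : M => χ m) {i k : ZMod p} (hik : i ≠ k) :
    (fun m : M => gt d χ i m) ≠ fun m : M => gt d χ k m := fun h1 => h (C.inv_of_fix (by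
  have h2 : ∀ (c : ℕ) (y : X), y ∈ M → gt d χ ((c : ZMod p) * (k - i)) y = gt d χ (0 : ZMod p) y := by
    intro c y hy
    induction c with
    | zero => simp
    | succ c ih =>
      have h3 := congrFun h1 ⟨_, pow_mem hy (1 + ((c : ZMod p) * (k - i) - i).val * d)⟩
      simp only [C.gt_add, ZMod.natCast_zmod_val] at h3
      rw [← ih, Nat.cast_succ]
      convert h3.symm using 2 <;> ring
  intro y hy
  have h3 := h2 (k - i)⁻¹.val y hy
  rw [ZMod.natCast_zmod_val, inv_mul_cancel₀ (sub_ne_zero.mpr hik.symm), ← Nat.cast_one,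
    C.gt_nat] at h3
  simpa [gt] using h3))

theorem av_norm {M : Subgroup X} [M.Normal] [Fintype M] (h : IsIrr fun m : M => χ m)
    (h' : ¬ Inv p j fun m : M => χ m) (x : ZMod p) (a : X) :
    p * ∑ m : M, normSq (av d χ x (m * a)) = Nat.card M := by
  have h0 : (p : ℂ) ≠ 0 := Nat.cast_ne_zero.mpr hp.1.ne_zero
  have h1 : ∀ i k : ZMod p, ∑ m : M, gt d χ i (m * a) * gt d χ k (m * a)⁻¹ =
      if k = i then (Nat.card M : ℂ) else 0 := fun i k => by
    split_ifs with h1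
    · exact h1 ▸ (pair_self (C.gt_char k) (C.gt_irr h k) a).2
    · exact pair_ne (C.gt_char i) (C.gt_char k) (C.gt_irr h i) (C.gt_irr h k)
        (C.gt_ne h' (Ne.symm h1)) a
  have h2 : ∀ y, (normSq (av d χ x y) : ℂ) = (p : ℂ)⁻¹ * (p : ℂ)⁻¹ * ∑ i, ∑ k,
      ps p (-(x * i)) * ps p (x * k) * (gt d χ i y * gt d χ k y⁻¹) := fun y => by
    rw [← mul_conj, av, map_mul, map_sum, mul_mul_mul_comm, sum_mul_sum]
    simp only [map_mul, ps_conj, (C.gt_char _).conj_eq, neg_neg, mul_mul_mul_comm, map_inv₀,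
      map_natCast]
  apply ofReal_injective
  push_cast
  simp only [h2, ← mul_sum]
  rw [sum_comm]
  simp only [sum_comm (s := (univ : Finset M)), ← mul_sum, h1, mul_ite, mul_zero, sum_ite_eq',
    mem_univ, if_true, ps_neg, one_mul, sum_const, card_univ, ZMod.card, nsmul_eq_mul]
  field_simp

theorem av_eig (hN : p ∣ p ^ N) {g s : X} (hg : g ^ p ^ N = 1) (hs : s ^ n = 1)
    (h : s * g = g * s) {k : ℕ} (hk : ¬ p ∣ k) (x : ZMod p) :
    (Nat.card (Multiplicative (ZMod (p ^ N))) : ℂ)⁻¹ * ∑ c : Multiplicative (ZMod (p ^ N)),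
      ps p (-(x * ZMod.castHom hN (ZMod p) c.toAdd)) * χ (g ^ (k + c.toAdd.val * d) * s) =
      av d χ (x * (k : ZMod p)) (g ^ k * s) := by
  obtain ⟨v, hv⟩ := exists_inv (pow_ne_zero N hp.1.ne_zero) (co_pow hp.1 hk N).symm
  have h1 : (k : ZMod p) * v = 1 := by
    simpa using (ZMod.natCast_eq_natCast_iff _ _ _).mpr (hv.of_dvd hN)
  have h2 := avg_surj (AddMonoidHom.toMultiplicative (ZMod.castHom hN (ZMod p)).toAddMonoidHom)
    (ZMod.castHom_surjective hN) fun i => ps p (-(x * i.toAdd)) * gt d χ ((v : ZMod p) * i.toAdd) (g ^ k * s)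
  refine Eq.trans (congrArg _ (sum_congr rfl fun c _ => ?_)) (h2.trans ?_)
  · change _ = ps p (-(x * ZMod.castHom hN (ZMod p) c.toAdd)) *
      gt d χ ((v : ZMod p) * ZMod.castHom hN (ZMod p) c.toAdd) _
    rw [ZMod.castHom_apply, ZMod.cast_eq_val, ← Nat.cast_mul, C.gt_nat,
      ((Commute.symm h).pow_left k).mul_pow, pow_add s, C.hd, pow_mul' s, pow_mul' s, hs, one_pow,
      one_pow, mul_one, pow_one, ← pow_mul, pow_eq_pow_mod (k * _) hg, pow_eq_pow_mod (k + _) hg]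
    congr 4
    change _ ≡ _ [MOD _]
    convert ((hv.mul_right (c.toAdd.val * (p ^ j * n))).add_left k).symm using 1 <;> ring
  · rw [av, Nat.card_eq_fintype_card, Fintype.card_multiplicative, ZMod.card]
    refine congrArg _ (Fintype.sum_equiv (Multiplicative.ofAdd.symm.trans
      (Equiv.mulLeft₀ (v : ZMod p) (right_ne_zero_of_mul_eq_one h1))) _ _ fun i => ?_)
    change _ = ps p (-(x * k * (v * i.toAdd))) * gt d χ ((v : ZMod p) * i.toAdd) _
    rw [mul_assoc x, ← mul_assoc (k : ZMod p), h1, one_mul]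

theorem av_low (hN : p ∣ p ^ N) {g : X} (hg : g ^ p ^ N = 1) {K : Subgroup X} [Fintype K]
    (hK : ∀ s ∈ K, s * g = g * s ∧ s ^ n = 1) {x : ZMod p} (hx : av d χ x g ≠ 0) :
    ∑ _l ∈ univ.filter fun l : ZMod (p ^ N) => ¬ p ∣ l.val, (Nat.card K : ℝ) ≤
      ∑ l ∈ univ.filter fun l : ZMod (p ^ N) => ¬ p ∣ l.val,
        ∑ s : K, normSq (av d χ (x * (l.val : ZMod p)) (g ^ l.val * s)) := by
  classical
  let κ := AddMonoidHom.toMultiplicative (ZMod.castHom hN (ZMod p)).toAddMonoidHom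
  let φ := (pw hg).noncommCoprod K.subtype fun l s => ((Commute.symm (hK s s.2).1).pow_left _)
  let μ : Multiplicative (ZMod (p ^ N)) × Multiplicative (ZMod (p ^ N)) × K →*
      Multiplicative (ZMod (p ^ N)) × K :=
    ((powMonoidHom d).coprod (MonoidHom.fst _ _)).prod
      ((MonoidHom.snd _ _).comp (MonoidHom.snd _ _))
  have h1 := avg_hom ((isChar_hom ((((ps p).mulShift (-x)).toMonoidHom.comp κ).comp
    (MonoidHom.fst _ _))).mul (C.hc.comp (φ.comp μ)))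
  have h2 : ∀ l : Multiplicative (ZMod (p ^ N)), κ l ≠ 1 ↔ ¬ p ∣ l.toAdd.val := fun l => by
    rw [← ZMod.natCast_eq_zero_iff, ← ZMod.cast_eq_val]
    rfl
  have h3 : ∀ (l : Multiplicative (ZMod (p ^ N))) (s : K), ¬ p ∣ l.toAdd.val →
      (Nat.card (Multiplicative (ZMod (p ^ N))) : ℂ)⁻¹ * ∑ c,
        ((((ps p).mulShift (-x)).toMonoidHom.comp κ).comp (MonoidHom.fst _ _)) (c, l, s) *
          χ ((φ.comp μ) (c, l, s)) = av d χ (x * (l.toAdd.val : ZMod p)) (g ^ l.toAdd.val * s) :=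
    fun l s hl => by
      rw [← C.av_eig hN hg (hK s s.2).2 (hK s s.2).1 hl]
      refine congrArg _ (sum_congr rfl fun c _ => ?_)
      change ps p (-x * _) * χ (pw hg (c ^ d * l) * s) = _
      rw [neg_mul, mul_comm (c ^ d), map_mul, map_pow, pow_add, pow_mul]
      rfl
  have : Fact (1 < p ^ N) := ⟨hp.1.one_lt.trans_le (Nat.le_of_dvd (pow_pos hp.1.pos N) hN)⟩
  have h4 : ¬ p ∣ (Multiplicative.ofAdd (1 : ZMod (p ^ N))).toAdd.val := by
    simpa [ZMod.val_one] using hp.1.one_lt.ne'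
  have h5 := qlem h1 (κ.comp (MonoidHom.fst _ _)) (h0 := (Multiplicative.ofAdd 1, 1))
    ((h2 _).mpr h4) (by rw [h3 _ _ h4]; simpa [ZMod.val_one] using hx)
  simp only [sum_filter, Fintype.sum_prod_type] at h5 ⊢
  convert h5 using 1
  · refine Fintype.sum_equiv Multiplicative.ofAdd _ _ fun l => ?_
    have h6 := h2 (Multiplicative.ofAdd l)
    by_cases h7 : p ∣ l.val <;> simp_all
  · refine Fintype.sum_equiv Multiplicative.ofAdd _ _ fun l => ?_
    have h6 := h2 (Multiplicative.ofAdd l)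
    by_cases h7 : p ∣ l.val
    · simp_all
    · rw [if_pos h7]
      exact sum_congr rfl fun s _ => by
        exact ((if_pos (h6.mpr h7)).trans (congrArg _ (h3 _ s h7))).symm

end Ch

end Pool.Agent.MP_3e257e_al

/-! ### Counting linear constituents in a metacyclic `p`-group. -/

namespace Pool.Agent.MP_3e257e_al

open Finset Complex Subgroup

variable {X Y : Type} [Group X] [Fintype X] [Group Y] [Fintype Y] {p N n j d : ℕ}
  [hp : Fact p.Prime] {χ : X → ℂ}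

open Classical in
theorem cnt (hY : IsPGroup p Y) {s : Multiset (Y → ℂ)} (hs : ∀ ψ ∈ s, IsIrr ψ) {e : ℕ}
    (he : e ≠ 0) (hI : Inv p e s.sum) (Q : (Y → ℂ) → Prop) [DecidablePred Q]
    (hQ : ∀ ψ ∈ s, ∀ t, t ≡ 1 [MOD p] → Q ψ → Q fun y => ψ (y ^ t)) : (s.filter Q).sum 1 -
      ((s.filter fun ψ => ψ 1 = 1 ∧ ∀ v, ψ v ^ p ^ e = 1).filter Q).card ∈ pInt p := by
  obtain ⟨N, hN⟩ := IsPGroup.iff_card.mp hY
  have h1 : ∀ ψ ∈ s.filter Q, IsIrr ψ := fun ψ h => hs ψ (Multiset.mem_of_mem_filter h)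
  have h2 : Inv p e (s.filter Q).sum := inv_of hp.1 hp.1.not_dvd_one fun t ht g => by
    have h2 : t ≡ 1 [MOD p] := ht.of_dvd (by simpa using dvd_pow_self p he)
    have h3 : t.Coprime (Nat.card Y) := coprime_card (p := p) (N := N) (n := 1)
      (by rw [hN, mul_one]) (by simpa using h2)
    have h4 : ∀ ψ ∈ s.map fun ψ y => ψ (y ^ t), IsIrr ψ := fun ψ h => by
      obtain ⟨ψ, h', rfl⟩ := Multiset.mem_map.mp h
      exact (hs ψ h').pow h3
    have h5 : ∀ r : Multiset (Y → ℂ), (r.map fun ψ y => ψ (y ^ t)).sum = fun y => r.sum (y ^ t) :=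
      fun r => by
        induction r using Multiset.induction_on with
        | empty => rfl
        | cons a r ih => simp [ih, Pi.add_def]
    have h6 : (s.map fun ψ y => ψ (y ^ t)) = s := Multiset.ext.mpr fun θ => by
      by_cases h6 : IsIrr θ
      · refine Nat.cast_injective (R := ℂ) ?_
        rw [← ip_count h4 h6, ← ip_count hs h6, h5]
        exact congrArg _ (funext fun y => hI y N 1 t hp.1.not_dvd_one
          (by rw [mul_one, ← hN, pow_card_eq_one']) ht)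
      · rw [Multiset.count_eq_zero.mpr fun h => h6 (h4 θ h),
          Multiset.count_eq_zero.mpr fun h => h6 (hs θ h)]
    have h7 := congrArg (Multiset.filter Q) h6
    rw [Multiset.filter_map] at h7
    have h8 : s.filter Q = s.filter (Q ∘ fun ψ y => ψ (y ^ t)) := Multiset.eq_of_le_of_card_le
      (Multiset.le_filter.mpr ⟨Multiset.filter_le _ _, fun ψ h =>
        hQ ψ (Multiset.mem_of_mem_filter h) t h2 (Multiset.of_mem_filter h)⟩)
      (by rw [← h7, Multiset.card_map])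
    rw [← h8] at h7
    rw [← congrFun (h5 _) g, h7]
  have h3 := neg_mem (dq_inv hp.1 hY (isChar_sum fun ψ h => (h1 ψ h).isChar) he h2)
  rw [neg_sub, dq_sum, Multiset.map_congr rfl fun ψ h => (h1 ψ h).dq_eq _] at h3
  convert h3 using 2
  rw [Multiset.filter_comm]
  generalize s.filter Q = r
  induction r using Multiset.induction_on with
  | empty => simp
  | cons a r ih =>
    rw [Multiset.filter_cons, Multiset.card_add, Nat.cast_add, ih, Multiset.map_cons,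
      Multiset.sum_cons]
    split_ifs <;> simp

theorem zpow_normal {u : Y} [h : (zpowers u).Normal] {w : Y} (hw : w ∈ zpowers u) :
    (zpowers w).Normal := ⟨fun v hv b => by
  obtain ⟨c, rfl⟩ := nat_pow hw
  obtain ⟨k, rfl⟩ := nat_pow hv
  obtain ⟨e, he⟩ := nat_pow (h.conj_mem u (mem_zpowers u) b)
  rw [← conj_pow, ← conj_pow, he, pow_right_comm u e c]
  exact pow_mem (pow_mem (mem_zpowers _) _) _⟩

theorem IsIrr.lin_or_zero {ψ : Y → ℂ} (h : IsIrr ψ) {u g : Y} [hu : (zpowers u).Normal]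
    (hg : ∀ b, ∃ k : ℕ, b * (g ^ k)⁻¹ ∈ zpowers u) : ψ 1 = 1 ∨ ψ g = 0 := by
  classical
  have h1 := hu.conj_mem u (mem_zpowers u) g
  have := zpow_normal (mul_mem (inv_mem (mem_zpowers u)) h1)
  refine (h.dich (zpowers (u⁻¹ * (g * u * g⁻¹)))).symm.imp (fun h2 => h.one_eq_of_comm
    fun b a y => ?_) fun h2 => ?_
  · let π := QuotientGroup.mk' (zpowers (u⁻¹ * (g * u * g⁻¹)))
    have h3 : Commute (π u) (π g) := by
      have h3 : π (u⁻¹ * (g * u * g⁻¹)) = 1 := (QuotientGroup.eq_one_iff _).mpr (mem_zpowers _)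
      rw [map_mul, map_inv, inv_mul_eq_one, map_mul, map_mul, map_inv, eq_mul_inv_iff_mul_eq] at h3
      exact h3
    have h4 : ∀ b, ∃ i k : ℕ, π b = π u ^ i * π g ^ k := fun b => by
      obtain ⟨k, hk⟩ := hg b
      obtain ⟨i, hi⟩ := nat_pow hk
      exact ⟨i, k, by rw [← map_pow, ← map_pow, ← map_mul, ← hi, inv_mul_cancel_right]⟩
    have h5 : Commute (π b) (π a) := by
      obtain ⟨i, k, h5⟩ := h4 a
      obtain ⟨i', k', h6⟩ := h4 b
      rw [h5, h6]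
      exact (((Commute.refl _).pow_pow _ _).mul_right (h3.pow_pow _ _)).mul_left
        ((h3.symm.pow_pow _ _).mul_right ((Commute.refl _).pow_pow _ _))
    rw [← h2 (b * a * b⁻¹ * a⁻¹) ((QuotientGroup.eq_one_iff _).mp (by
      change π _ = 1
      rw [map_mul, map_mul, map_mul, h5.eq, map_inv, map_inv]
      group)) (a * y)]
    congr 1
    group
  · have h3 : ∀ q : zpowers (u⁻¹ * (g * u * g⁻¹)), ψ (q * g) = ψ g := fun q => by
      obtain ⟨k, hk⟩ := nat_pow q.2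
      obtain ⟨e, he⟩ := nat_pow h1
      have h3 : Commute u⁻¹ (g * u * g⁻¹) := he ▸ ((Commute.refl u).pow_right e).inv_left
      rw [hk, h3.mul_pow, conj_pow, ← h.isChar.conj (u⁻¹ ^ k) g]
      congr 1
      group
    simpa [h3] using h2 g

theorem geo (hN : p ∣ p ^ N) {w : ℂ} (hw : w ^ p ^ N = 1) (x : ZMod p) :
    (Nat.card (Multiplicative (ZMod (p ^ N))) : ℂ)⁻¹ * ∑ c : Multiplicative (ZMod (p ^ N)),
      ps p (-(x * ZMod.castHom hN (ZMod p) c.toAdd)) * w ^ c.toAdd.val =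
      if w = ps p x then 1 else 0 := by
  split_ifs with h
  · rw [sum_congr rfl (g := fun _ => 1) fun c _ => by
      rw [h, ps_pow, ZMod.castHom_apply, ZMod.cast_eq_val, mul_comm x, ps_neg]]
    rw [sum_const, card_univ, ← Nat.card_eq_fintype_card, nsmul_one, inv_mul_cancel₀ cardX_ne]
  · have : Fact (1 < p ^ N) := ⟨hp.1.one_lt.trans_le (Nat.le_of_dvd (pow_pos hp.1.pos N) hN)⟩
    have h1 := sum_hom_units_eq_zero ((((ps p).mulShift (-x)).toMonoidHom.comp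
      (AddMonoidHom.toMultiplicative (ZMod.castHom hN (ZMod p)).toAddMonoidHom)) * pw hw) fun h1 => by
        have h2 : ps p (-x * ZMod.castHom hN (ZMod p) 1) * w ^ (1 : ZMod (p ^ N)).val = 1 :=
          DFunLike.congr_fun h1 (Multiplicative.ofAdd 1)
        rw [map_one, mul_one, ZMod.val_one, pow_one] at h2
        exact h (by linear_combination ps p x * h2 - w * ps_neg x)
    simp only [← neg_mul]
    exact mul_eq_zero_of_right _ h1

theorem comb {T : Multiset (ZMod p × ZMod p)} (h0 : (T.card : ZMod p) ≠ 0)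
    (h1 : ((T.filter fun t => t.1 = 0).card : ZMod p) = 0) {V : ZMod p → Prop}
    (h2 : ∀ x, V x → ((T.filter fun t => 0 * t.1 + t.2 = x).card : ZMod p) = 0)
    (h3 : ∀ x, ¬ V x → ∀ i ≠ 0, ((T.filter fun t => i * t.1 + t.2 = x).card : ZMod p) = 0) :
    ∃ x0, ∀ x ≠ x0, V x := by
  classical
  have a1 : ∀ x, ∑ i, ((T.filter fun t => i * t.1 + t.2 = x).card : ZMod p) +
      (T.filter fun t => t.1 = 0).card = T.card := fun x => by
    clear h0 h1 h2 h3
    induction T using Multiset.induction_on with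
    | empty => simp
    | cons a T ih =>
      simp only [Multiset.filter_cons, Multiset.card_add, Nat.cast_add, sum_add_distrib,
        Multiset.card_cons, Nat.cast_one, ← ih]
      by_cases h : a.1 = 0
      · simp [h]
        ring
      · have h4 : ∀ i, i * a.1 + a.2 = x ↔ i = (x - a.2) / a.1 := fun i => by
          rw [eq_div_iff h, eq_sub_iff_add_eq]
        simp [h, h4, apply_ite Multiset.card]
        ring
  have a2 : ∑ x, ((T.filter fun t => 0 * t.1 + t.2 = x).card : ZMod p) = T.card := by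
    clear h0 h1 h2 h3 a1
    induction T using Multiset.induction_on with
    | empty => simp
    | cons a T ih =>
      simp only [Multiset.filter_cons, Multiset.card_add, Nat.cast_add, sum_add_distrib,
        Multiset.card_cons, Nat.cast_one, ← ih]
      simp [apply_ite Multiset.card]
      ring
  rw [sum_congr rfl (g := fun x => if ¬ V x then (T.card : ZMod p) else 0) fun x _ => by
    split_ifs with h
    · exact h2 x h
    · rw [← a1 x, h1, add_zero, sum_eq_single 0 (fun i _ hi => h3 x h i hi) (by simp)],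
    ← sum_filter, sum_const, nsmul_eq_mul, mul_eq_right₀ h0, ← Nat.cast_one,
    ZMod.natCast_eq_natCast_iff] at a2
  have a3 := card_filter_le univ fun x => ¬ V x
  rw [card_univ, ZMod.card] at a3
  obtain ⟨x0, hx⟩ := card_eq_one.mp (Nat.ModEq.eq_of_lt_of_lt a2 (a3.lt_of_ne fun h => by
    rw [h] at a2
    exact hp.1.not_dvd_one ((a2.dvd_iff dvd_rfl).mp dvd_rfl)) hp.1.one_lt)
  exact ⟨x0, fun x h => by_contra fun h4 => h (mem_singleton.mp (hx ▸ mem_filter.mpr ⟨mem_univ x, h4⟩))⟩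

open Classical in
theorem Ch.count (C : Ch p N n j d χ) (hN : p ∣ p ^ N) (hY : IsPGroup p Y) {φ : Y →* X}
    (hφ : ∀ y : Y, y ^ p ^ N = 1) {u a : Y} [hu : (zpowers u).Normal]
    (ha : ∀ b, ∃ k : ℕ, b * (a ^ k)⁻¹ ∈ zpowers u) : ∃ T : Multiset (ZMod p × ZMod p),
      χ 1 - T.card ∈ pInt p ∧ (a = 1 → ∀ t ∈ T, t.2 = 0) ∧
      (Nat.card (Multiplicative (ZMod (p ^ N))) : ℂ)⁻¹ * ∑ c : Multiplicative (ZMod (p ^ N)),
        χ ((φ u ^ d) ^ c.toAdd.val) - (T.filter fun t => t.1 = 0).card ∈ pInt p ∧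
      ∀ (i : ℕ) (x : ZMod p), ∀ q ∈ zpowers (u ^ p), av d χ x (φ (q * u ^ i * a)) = 0 →
        p ∣ (T.filter fun t => i * t.1 + t.2 = x).card := by
  obtain ⟨s, hs, e⟩ := (C.hc.comp φ).decomp
  have hI : Inv p (j + 1) s.sum := e ▸ C.hI.comp φ
  choose lg hlg using fun (ξ : ℂ) (h : ξ ^ p = 1) => ps_surj h
  let lg' : ℂ → ZMod p := fun ξ => if h : ξ ^ p = 1 then lg ξ h else 0
  let r := s.filter fun ψ => ψ 1 = 1 ∧ ∀ v, ψ v ^ p ^ (j + 1) = 1
  have a0 : ∀ ψ ∈ r, ∀ v, (ψ v ^ d) ^ p = 1 := fun ψ h v => by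
    rw [← pow_mul, C.hd, mul_right_comm, ← pow_succ, pow_mul, (Multiset.of_mem_filter h).2, one_pow]
  have a1 : ∀ ψ ∈ r, ∀ v, ψ v ^ d = ps p (lg' (ψ v ^ d)) := fun ψ h v => by
    simp only [lg', dif_pos (a0 ψ h v)]
    exact hlg _ _
  have a2 : ∀ (g : Y) (x : ZMod p), (s.filter fun ψ => ψ 1 = 1 ∧ ψ g ^ d = ps p x).sum 1 -
      (r.filter fun ψ => ψ g ^ d = ps p x).card ∈ pInt p := fun g x => by
    convert cnt hY hs j.succ_ne_zero hI (fun ψ => ψ 1 = 1 ∧ ψ g ^ d = ps p x)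
      fun ψ h t ht h1 => ⟨by simpa using h1.1, by
        beta_reduce
        rw [(hs ψ h).isChar.map_pow h1.1, pow_right_comm, h1.2, pow_eq_pow_mod _ (ps_p x), ht,
          ← pow_eq_pow_mod _ (ps_p x), pow_one]⟩ using 4
    exact Multiset.filter_congr fun ψ h => (and_iff_right (Multiset.of_mem_filter h).1).symm
  have a3 : ∀ (F : Multiplicative (ZMod (p ^ N)) → ℂ) (G : Multiplicative (ZMod (p ^ N)) → Y)
      (c0 : ℂ), c0 * ∑ c, F c * χ (φ (G c)) = (s.map fun ψ => c0 * ∑ c, F c * ψ (G c)).sum := by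
    intro F G c0
    simp only [congrFun e]
    clear a2 a1 a0 r hI e hs
    induction s using Multiset.induction_on with
    | empty => simp
    | cons a s ih => simp [← ih, mul_add, sum_add_distrib]
  have a4 : ∀ ψ ∈ s, ψ 1 = 1 → ∀ g : Y, (ψ g ^ d) ^ p ^ N = 1 := fun ψ h h1 g => by
    rw [pow_right_comm, ← (hs ψ h).isChar.map_pow h1, hφ, h1, one_pow]
  have a5 : ∀ (Q : (Y → ℂ) → Prop) [DecidablePred Q] (g : Y),
      (s.filter Q).sum g = (s.map fun ψ => if Q ψ then ψ g else 0).sum := fun Q _ g => by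
    clear a4 a3 a2 a1 a0 r hI e hs
    induction s using Multiset.induction_on with
    | empty => simp
    | cons a s ih =>
      rw [Multiset.filter_cons, Multiset.sum_add, Pi.add_apply, ih, Multiset.map_cons,
        Multiset.sum_cons]
      split_ifs <;> simp
  refine ⟨r.map fun ψ => (lg' (ψ u ^ d), lg' (ψ a ^ d)), ?_, fun h t ht => ?_, ?_,
    fun i x q hq h => ?_⟩
  · have h := cnt hY hs j.succ_ne_zero hI (fun _ => True) fun _ _ _ _ _ => trivial
    rw [Multiset.filter_eq_self.mpr fun _ _ => trivial,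
      Multiset.filter_eq_self.mpr fun _ _ => trivial, ← congrFun e, map_one] at h
    rwa [Multiset.card_map]
  · obtain ⟨ψ, h1, rfl⟩ := Multiset.mem_map.mp ht
    exact ps_one.mp (by rw [← a1 ψ h1, h, (Multiset.of_mem_filter h1).1, one_pow])
  · have h1 := a3 (fun c => ps p (-(0 * ZMod.castHom hN (ZMod p) c.toAdd)))
      (fun c => (u ^ d) ^ c.toAdd.val) (Nat.card (Multiplicative (ZMod (p ^ N))) : ℂ)⁻¹
    have h2 := a2 u 0
    rw [a5] at h2
    have h3 : (s.map fun ψ => (Nat.card (Multiplicative (ZMod (p ^ N))) : ℂ)⁻¹ *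
        ∑ c : Multiplicative (ZMod (p ^ N)), ps p (-(0 * ZMod.castHom hN (ZMod p) c.toAdd)) *
          ψ ((u ^ d) ^ c.toAdd.val) - if ψ 1 = 1 ∧ ψ u ^ d = ps p 0 then ψ 1 else 0).sum ∈
        pInt p := multiset_sum_mem _ fun z hz => by
      obtain ⟨ψ, h3, rfl⟩ := Multiset.mem_map.mp hz
      rcases (hs ψ h3).lin_or hp.1 hY with h4 | h4
      · simp only [(hs ψ h3).isChar.map_pow h4, geo hN (a4 ψ h3 h4 u), h4, true_and, sub_self]
        exact zero_mem _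
      · rw [if_neg fun h : ψ 1 = 1 ∧ _ => one_not_pInt hp.1 (h.1 ▸ h4), sub_zero]
        have := zpow_normal (pow_mem (mem_zpowers u) d)
        have h5 := avg_surj ((pw (hφ (u ^ d))).codRestrict (zpowers (u ^ d)) fun c =>
          pow_mem (mem_zpowers _) _) (fun q => by
            obtain ⟨k, hk⟩ := nat_pow q.2
            exact ⟨Multiplicative.ofAdd k, Subtype.ext (by
              change (u ^ d) ^ (k : ZMod (p ^ N)).val = _
              rw [ZMod.val_natCast, ← pow_eq_pow_mod _ (hφ _), hk])⟩) fun q => ψ (q * 1)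
        simp only [zero_mul, neg_zero, AddChar.map_zero_eq_one, one_mul]
        refine Set.mem_of_eq_of_mem (Eq.trans (congrArg _ (sum_congr rfl fun c _ =>
          congrArg ψ (mul_one _).symm)) h5) (?_ : _ ∈ pInt p)
        rcases (hs ψ h3).dich (zpowers (u ^ d)) with h6 | h6
        · rw [h6, mul_zero]
          exact zero_mem _
        · rwa [sum_congr rfl fun q _ => h6 _ q.2 1, sum_const, card_univ, ← Nat.card_eq_fintype_card,
            nsmul_eq_mul, inv_mul_cancel_left₀ cardX_ne]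
    rw [Multiset.sum_map_sub, ← h1] at h3
    convert add_mem h3 h2 using 1
    simp only [zero_mul, neg_zero, AddChar.map_zero_eq_one, one_mul, map_pow, sub_add_sub_cancel,
      Multiset.filter_map, Multiset.card_map]
    congr 3
    exact Multiset.filter_congr fun ψ h => by
      rw [Function.comp, ← ps_one, ← a1 ψ h]
  · obtain ⟨g, hg⟩ : ∃ g, g = q * u ^ i * a := ⟨_, rfl⟩
    rw [← hg] at h
    have h1 := C.av_eig hN (g := φ g) (by rw [← map_pow, hφ, map_one]) (one_pow n)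
      (Commute.one_left _) hp.1.not_dvd_one x
    simp only [mul_one, Nat.cast_one, pow_one, ← map_pow, a3, h] at h1
    have h2 : (s.filter fun ψ => ψ 1 = 1 ∧ ψ g ^ d = ps p x).sum g = 0 := by
      rw [a5]
      refine Eq.trans (congrArg _ (Multiset.map_congr rfl fun ψ h3 => ?_)) h1
      by_cases h4 : ψ 1 = 1
      · simp only [(hs ψ h3).isChar.map_pow h4]
        simp only [h4, true_and, pow_add, pow_one, pow_mul',
          mul_left_comm _ (ψ g), ← mul_sum, geo hN (a4 ψ h3 h4 g), mul_ite, mul_one, mul_zero]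
      · rw [if_neg fun h : _ ∧ _ => h4 h.1, sum_eq_zero fun c _ => ?_, mul_zero]
        refine mul_eq_zero_of_right _ (((hs ψ h3).lin_or_zero (u := u) fun b => ?_).resolve_left h4)
        obtain ⟨v, hv⟩ := exists_root (X := Y) hp.1 (w := 1 + c.toAdd.val * d) (fun h5 =>
          hp.1.not_dvd_one (((C.md _).dvd_iff (dvd_mul_right p n)).mp h5)) N
        obtain ⟨k, hk⟩ := ha b
        refine ⟨v * k, ?_⟩
        have h5 : (g : Y ⧸ zpowers u) = a := by
          rw [hg, QuotientGroup.mk_mul, (QuotientGroup.eq_one_iff _).mpr (mul_mem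
            (zpowers_le.mpr (pow_mem (mem_zpowers u) p) hq) (pow_mem (mem_zpowers u) i)), one_mul]
        rw [← QuotientGroup.eq_one_iff] at hk ⊢
        simpa [pow_mul, hv g (hφ g), h5] using hk
    have h3 := sub_mem (trace_van hp.1 (isChar_sum fun ψ h =>
      (hs ψ (Multiset.mem_of_mem_filter h)).isChar) (hφ g) h2) (a2 g x)
    rw [sub_sub_cancel, nat_pInt] at h3
    convert h3 using 1
    rw [Multiset.filter_map, Multiset.card_map]
    refine congrArg _ (Multiset.filter_congr fun ψ h => ?_)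
    have h4 := (hs ψ (Multiset.mem_of_mem_filter h)).isChar
    have h5 := (Multiset.of_mem_filter h).1
    obtain ⟨k, rfl⟩ := nat_pow hq
    rw [hg, h4.mul_of_one h5, h4.mul_of_one h5, h4.map_pow h5, h4.map_pow h5, h4.map_pow h5,
      mul_pow, mul_pow, pow_right_comm _ k, pow_right_comm _ p, a0 ψ h, one_pow, one_mul,
      pow_right_comm, a1 ψ h u, a1 ψ h a, ps_pow, ← AddChar.map_add_eq_mul]
    exact ⟨fun h => congrArg _ h, ps_inj⟩

end Pool.Agent.MP_3e257e_al
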