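import Pool.Agent.MP_3e257e_al.RRed

/-!
Translation between the forms of the statement, direct powers and composition factors.
-/

set_option autoImplicit false
set_option linter.unusedSectionVars false

namespace Pool.Agent.MP_3e257e_al

open Module Finset Subgroup

variable {G : Type} [Group G] [Finite G] {p : ℕ} {χ : G → ℂ} {𝒯 : ∀ (T : Type) [Group T], Prop}

theorem cov_all (hp : p.Prime) (P : Sylow p G) : Cov p (P : Subgroup G).subtype :=
  haveI := Fact.mk hp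
  ⟨P.2, by simpa using P.not_dvd_index⟩

theorem delta_top (hp : p.Prime) (h : IsChar χ) (P : Sylow p G) [Fintype P] {j : ℕ} (hj : j ≠ 0)
    (hI : Inv p (j + 1) χ) : deltaDeg p (j + 1) (fun v : (P : Subgroup G) => χ v) - χ 1 +
      dq (p ^ j) (fun v : (P : Subgroup G) => χ v) 1 ∈ pInt p := by
  have h1 := add_mem (delta_dq hp P.2 (h.comp (P : Subgroup G).subtype) hj)
    (dq_inv hp P.2 (h.comp (P : Subgroup G).subtype) j.succ_ne_zero (hI.comp _))
  convert h1 using 1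
  simp only [Subgroup.subtype_apply, OneMemClass.coe_one]
  ring

theorem good_of_top (hp : p.Prime) (h : IsChar χ) (hT : TopCong p χ) : Good p χ := by
  intro Y _ _ φ hφ j hj hD hI
  by_contra h1
  have h2 : lev p χ = j + 1 := le_antisymm ((inv_iff_lev hp h j.succ_ne_zero).mp hI)
    (not_le.mp fun h2 => h1 ((inv_iff_lev hp h hj).mpr h2))
  obtain ⟨P, hP⟩ := cov_syl hp G
  have := Fintype.ofFinite P
  obtain ⟨z, hz⟩ := hT P (by omega)
  have h3 := sub_mem (delta_top hp h P hj hI) (⟨z, rfl⟩ : (p : ℂ) * z ∈ pInt p)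
  rw [← h2, hz, add_sub_cancel_left, add_sub_cancel_left] at h3
  rw [dq_cover hp hφ hP h] at hD
  exact hD h3

theorem top_of_good (hp : p.Prime) (h : IsChar χ) (hG : Good p χ) : TopCong p χ := by
  intro P hl
  have := Fintype.ofFinite P
  obtain ⟨j, hj⟩ : ∃ j, lev p χ = j + 1 := ⟨lev p χ - 1, by omega⟩
  have h1 := (inv_iff_lev hp h j.succ_ne_zero).mpr hj.le
  have h2 : dq (p ^ j) (fun v : (P : Subgroup G) => χ v) 1 ∈ pInt p := by_contra fun h2 => by
    have := (inv_iff_lev hp h (by omega)).mp (hG _ _ (cov_all hp P) j (by omega) h2 h1)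
    omega
  obtain ⟨z, hz⟩ := sub_mem (delta_top hp h P (by omega) h1) h2
  exact ⟨z, by rw [hj]; linear_combination hz⟩

theorem ell_bdd (hp : p.Prime) (h : IsChar χ) (P : Sylow p G) (hl : lev p χ ≠ 0) :
    lev p χ ∈ upperBounds
      {i : ℕ | ¬ ∃ z : ℤ, deltaDeg p i (fun v : (P : Subgroup G) => χ v) = p * z} := by
  intro i hi
  by_contra h1
  have := Fintype.ofFinite P
  obtain ⟨j, rfl⟩ : ∃ j, i = j + 1 := ⟨i - 1, by omega⟩
  have h2 := (inv_iff_lev hp h (e := j) (by omega)).mpr (by omega)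
  have h3 := sub_mem (delta_top hp h P (by omega) (h2.mono j.le_succ))
    (dq_inv hp P.2 (h.comp (P : Subgroup G).subtype) (by omega) (h2.comp _))
  obtain ⟨z, hz⟩ := h3
  exact hi ⟨z, by rw [← hz]; simp only [Subgroup.subtype_apply, OneMemClass.coe_one]; ring⟩

theorem eq_of_good (hp : p.Prime)
    (h : ∀ χ : G → ℂ, IsIrr χ → χ 1 ∉ pInt p → Good p χ) : LevEqEll p G := by
  intro P V hV hd hl
  have h1 : V.character 1 ∉ pInt p := by simpa [nat_pInt] using hd
  obtain ⟨z, hz⟩ := top_of_good hp ⟨V, rfl⟩ (h _ ⟨V, hV, rfl⟩ h1) P hl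
  refine (IsGreatest.csSup_eq ⟨fun ⟨w, hw⟩ => h1 ⟨w - z, ?_⟩,
    ell_bdd hp ⟨V, rfl⟩ P (by omega)⟩).symm
  push_cast
  linear_combination hw - hz

theorem Qs_map {A B : Type} [Group A] [Group B] (f : A →* B) (k : ℕ) : (Qs A k).map f ≤ Qs B k :=
  map_le_iff_le_comap.mpr ((closure_le _).mpr (by
    rintro x (⟨a, b, rfl⟩ | ⟨a, rfl⟩)
    · simpa using comm_mem k (f a) (f b)
    · simpa using pow_mem_Qs k (f a)))

theorem dq_prod {A B : Type} [Group A] [Group B] [Fintype A] [Fintype B] (k : ℕ) (α : A → ℂ)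
    (β : B → ℂ) : dq k (fun y : A × B => α y.1 * β y.2) 1 = dq k α 1 * dq k β 1 := by
  classical
  have h1 : Qs (A × B) k = (Qs A k).prod (Qs B k) := le_antisymm
    (le_prod_iff.mpr ⟨Qs_map _ k, Qs_map _ k⟩) (prod_le_iff.mpr ⟨Qs_map _ k, Qs_map _ k⟩)
  let e := (MulEquiv.subgroupCongr h1).trans (Subgroup.prodEquiv _ _)
  simp only [dq, mul_one]
  rw [Nat.card_congr e.toEquiv, Nat.card_prod, Nat.cast_mul, mul_inv, mul_mul_mul_comm, sum_mul_sum,
    ← Fintype.sum_prod_type']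
  exact congrArg _ (Fintype.sum_equiv e.toEquiv _ _ fun _ => rfl)

theorem exists_pow (hp : p.Prime) (h : IsIrr χ) {Y : Type} [Group Y] [Fintype Y] {φ : Y →* G}
    (hφ : Cov p φ) (hG : Cl p 𝒯 (⊥ : Subgroup G)) (n : ℕ) : ∃ (K : Type) (_ : Group K) (_ : Finite K) (ψ : K → ℂ) (Y' : Type)
      (_ : Group Y') (_ : Fintype Y') (φ' : Y' →* K), IsIrr ψ ∧ ψ 1 = χ 1 ^ (n + 1) ∧ Cov p φ' ∧
      (∀ k, dq k (fun y => ψ (φ' y)) 1 = dq k (fun y => χ (φ y)) 1 ^ (n + 1)) ∧
      (∀ e, Inv p e ψ ↔ Inv p e χ) ∧ Cl p 𝒯 (⊥ : Subgroup K) := by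
  induction n with
  | zero => exact ⟨G, _, ‹_›, χ, Y, _, ‹_›, φ, h, by simp, hφ, by simp, by simp, hG⟩
  | succ n ih =>
    obtain ⟨K, _, _, ψ, Y', _, _, φ', h1, h2, h3, h4, h5, hK⟩ := ih
    have := Fintype.ofFinite G
    have := Fintype.ofFinite K
    refine ⟨K × G, inferInstance, inferInstance, fun x => ψ x.1 * χ x.2, Y' × Y, inferInstance,
      inferInstance, φ'.prodMap φ, isIrr_iff.mpr ⟨(h1.isChar.comp (MonoidHom.fst K G)).mul
        (h.isChar.comp (MonoidHom.snd K G)), ?_⟩, by simp [h2, pow_succ], ⟨fun y => ?_, ?_⟩,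
      fun k => (dq_prod k (fun y => ψ (φ' y)) fun y => χ (φ y)).trans (by rw [h4, ← pow_succ]),
      fun e => ⟨fun h6 => (h6.comp (MonoidHom.inr K G)).of_mul h1.one_ne fun _ => rfl, fun h6 =>
        (((h5 e).mpr h6).comp (MonoidHom.fst K G)).mul (h6.comp (MonoidHom.snd K G))⟩, hK.prod hG⟩
    · refine Eq.trans (b := ip ψ ψ * ip χ χ) ?_
        (by rw [(isIrr_iff.mp h1).2, (isIrr_iff.mp h).2, mul_one])
      rw [ip, ip, ip, mul_mul_mul_comm, sum_mul_sum, ← Fintype.sum_prod_type', Nat.card_prod,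
        Nat.cast_mul, mul_inv]
      exact congrArg _ (sum_congr rfl fun x _ => mul_mul_mul_comm _ _ _ _)
    · obtain ⟨a, ha⟩ := h3.1 y.1
      obtain ⟨b, hb⟩ := hφ.1 y.2
      exact ⟨a + b, Prod.ext (by rw [Prod.pow_fst, pow_add, pow_mul, ha, one_pow, Prod.fst_one])
        (by rw [Prod.pow_snd, add_comm, pow_add, pow_mul, hb, one_pow, Prod.snd_one])⟩
    · rw [MonoidHom.range_prodMap, index_prod]
      exact fun h6 => (hp.dvd_mul.mp h6).elim h3.2 hφ.2

theorem fermat (hp : p.Prime) {a : ℂ} (ha : ∃ z : ℤ, a = z) (h : a ∉ pInt p) :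
    a ^ (p - 1) - 1 ∈ pInt p := by
  obtain ⟨z, rfl⟩ := ha
  obtain ⟨w, hw⟩ := Int.prime_dvd_pow_sub_one hp (n := z)
    (((Nat.prime_iff_prime_int.mp hp).coprime_iff_not_dvd.mpr fun ⟨u, hu⟩ =>
      h ⟨u, by exact_mod_cast hu⟩).symm)
  exact ⟨w, by exact_mod_cast hw⟩

theorem good_of_all (hp : p.Prime)
    (H : ∀ (K : Type) [Group K] [Finite K], Cl p 𝒯 (⊥ : Subgroup K) → LevEqEll p K)
    (hG : Cl p 𝒯 (⊥ : Subgroup G)) (h : IsIrr χ) (hd : χ 1 ∉ pInt p) : Good p χ := by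
  intro Y _ _ φ hφ j hj hD hI
  by_contra h1
  obtain ⟨K, _, _, _, Y', _, _, φ', ⟨V, hV, rfl⟩, h2, h3, h4, h5, hK⟩ :=
    exists_pow hp h hφ hG (p - 2)
  rw [show p - 2 + 1 = p - 1 by have := hp.two_le; omega] at h2 h4
  have h6 : IsChar V.character := ⟨V, rfl⟩
  have h7 : lev p V.character = j + 1 :=
    le_antisymm ((inv_iff_lev hp h6 j.succ_ne_zero).mp ((h5 _).mpr hI))
      (not_le.mp fun h7 => h1 ((h5 _).mp ((inv_iff_lev hp h6 hj).mpr h7)))
  obtain ⟨P, hP⟩ := cov_syl hp K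
  have := Fintype.ofFinite P
  have h8 := fermat hp (h.isChar.one.elim fun d hd => ⟨d, hd.trans (Int.cast_natCast d).symm⟩) hd
  have h9 := H K hK P V hV (fun h9 => one_not_pInt hp (by
    have h10 := sub_mem (nat_pInt.mpr h9) h8
    rwa [← V.char_one, h2, sub_sub_cancel] at h10)) (by omega)
  have h10 := Nat.sSup_mem (Set.nonempty_iff_ne_empty.mpr fun h10 => by
    rw [ell, h10, csSup_empty, h7] at h9
    exact j.succ_ne_zero h9) ⟨_, ell_bdd hp h6 P (by omega)⟩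
  rw [← ell, ← h9, h7] at h10
  have h11 := sub_mem (add_mem (delta_top hp h6 P hj ((h5 _).mpr hI)) h8)
    (fermat hp ((h.isChar.comp φ).dq_int _) hD)
  rw [← h4, dq_cover hp h3 hP h6, h2] at h11
  obtain ⟨z, hz⟩ := h11
  exact h10 ⟨z, by rw [← hz]; simp only [Subgroup.subtype_apply]; ring⟩

theorem good_of_red (hp : p.Prime) (hG : Cl p 𝒯 (⊥ : Subgroup G))
    (H : ∀ (X : Type) [Group X] [Finite X] (V : FDRep ℂ X) (M : Subgroup X), AlmostQS p V M →
      Cl p 𝒯 (⊥ : Subgroup X) → Good p V.character) : LevEqEll p G :=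
  eq_of_good hp fun χ h hd => reduction hp 𝒯 H _ G χ h hd rfl
    (hG.surj (ψ := MonoidHom.id G) Function.surjective_id bot_le)

theorem not_tame (hp : p.Prime) {V : FDRep ℂ G} {M : Subgroup G} (h : AlmostQS p V M) :
    ¬ Tame p (M ⧸ center M) := fun hT => by
  obtain ⟨-, hd, _, h1, -, -, -, h2, h3⟩ := h
  refine not_le.mpr h3 ((inv_iff_lev hp h2.isChar one_ne_zero).mp ?_)
  let ρ : Representation ℂ M V := V.ρ.comp M.subtype
  change IsIrr ρ.character at h2
  change Inv p 1 ρ.character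
  obtain ⟨N, n, h4, h5⟩ := exists_card hp M
  refine inv_of hp (n0 := n * finrank ℂ V) (by simp [hp.dvd_mul, h4, hd]) fun t ht g => ?_
  have h6 : g ^ (p ^ N * n) = 1 := h5 ▸ pow_card_eq_one'
  have h7 : t ≡ 1 [MOD p * n] := by
    rw [pow_one, ← mul_assoc] at ht
    exact ht.of_mul_right _
  obtain ⟨a, ha⟩ := isConj_iff.mp (hT.conj (g := (g : M ⧸ center M)) (N := N) h4
    (by rw [← QuotientGroup.mk_pow, h6, QuotientGroup.mk_one]) h7)
  obtain ⟨a, rfl⟩ := QuotientGroup.mk_surjective a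
  have h8 : (a * g * a⁻¹)⁻¹ * g ^ t ∈ center M := QuotientGroup.eq.mp ha
  obtain ⟨c, hc⟩ := schur h2 (T := ρ ((a * g * a⁻¹)⁻¹ * g ^ t)) fun x => by
    rw [← map_mul, ← map_mul, mem_center_iff.mp h8]
  have h9 : c ^ finrank ℂ V = 1 := by
    have h9 : LinearMap.det (ρ ((a * g * a⁻¹)⁻¹ * g ^ t)) = 1 := congrArg Units.val
      (Abelianization.commutator_subset_ker (LinearMap.det.comp ρ).toHomUnits
        (h1.ge (mem_top _)))
    rwa [hc, LinearMap.det_smul, map_one, mul_one] at h9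
  have h10 : ∀ k, ρ (g ^ t ^ k) = c ^ k • ρ (a ^ k * g * (a ^ k)⁻¹) := fun k => by
    induction k with
    | zero => simp
    | succ k ih =>
      rw [pow_succ t, pow_mul, map_pow, ih, smul_pow, pow_right_comm, pow_eq_pow_mod t h9,
        (ht.of_mul_left _).of_mul_left _, ← pow_eq_pow_mod 1 h9, pow_one, ← map_pow, conj_pow,
        ← mul_inv_cancel_left (a * g * a⁻¹) (g ^ t), map_mul, map_mul, map_mul, hc,
        mul_smul_comm, mul_smul_comm, smul_mul_assoc, mul_one, smul_smul, ← pow_succ,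
        ← map_mul, ← map_mul]
      congr 2
      group
  have h11 : ∀ k, ρ.character (g ^ t ^ k) = c ^ k * ρ.character g := fun k => by
    rw [Representation.character, h10, map_smul, ← h2.isChar.conj (a ^ k) g]
    rfl
  have h12 := h11 (p ^ N)
  rw [pow_eq_pow_mod _ h6, pow_iter hp h4 h7, ← pow_eq_pow_mod _ h6, pow_one] at h12
  rw [← pow_one t, h11]
  by_cases h13 : ρ.character g = 0
  · rw [h13, mul_zero]
  · rw [(pow_eq_one_iff_of_coprime (co_pow hp hd N)).mp ⟨(mul_eq_right₀ h13).mp h12.symm, h9⟩,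
      one_pow, one_mul]

end Pool.Agent.MP_3e257e_al
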