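import Pool.Agent.MP_3e257e_al.RIso

/-!
Isometry groups of non-degenerate forms in odd characteristic: perfectness and subgroups of index
prime to the characteristic.
-/

set_option autoImplicit false
set_option linter.unusedSectionVars false

namespace Pool.Agent.MP_3e257e_al

open Module Function Subgroup

variable {F V : Type} [Field F] [AddCommGroup V] [Module F V] [Finite V] {p : ℕ} {σ : F →+* F}
  {B : V →ₗ[F] V →ₛₗ[σ] F} {ε : F}

/-- All Eichler transformations with centre `x` lie in `H`. -/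
def Ct (ε : F) (H : Subgroup (isom B)) (x : V) : Prop :=
  B x x = 0 ∧ ∀ r y c, IsR ε r x y c → r ∈ H

theorem Ct.conj {H : Subgroup (isom B)} {x : V} (g : isom B) (h1 : B x x = 0)
    (h2 : ∀ r y c, IsR ε r x y c → g * r * g⁻¹ ∈ H) : Ct ε H (g.1 x) :=
  ⟨(g.2 _ _).trans h1, fun r y c hr => by
    convert h2 _ (g⁻¹.1 y) c (by simpa using hr.conj g⁻¹) using 1
    group⟩

namespace Herm

variable (h : Herm B ε)
include h

theorem mul {g g' : isom B} {x y y' : V} {c c' : F} (h1 : IsR ε g x y c) (h2 : IsR ε g' x y' c') :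
    IsR ε (g * g') x (y + y') (c + c' - ε * B y' y) := by
  refine ⟨h1.1, by simp [h1.2.1, h2.2.1], ?_, fun v => ?_⟩
  · simp only [map_add, map_sub, map_mul, h.seps, LinearMap.add_apply, h.symm y' y]
    linear_combination h1.2.2.1 + h2.2.2.1 - B y' y * h.eps
  · change g.1 (g'.1 v) = _
    rw [h1.2.2.2, h2.2.2.2]
    simp only [map_add, map_sub, map_smul, LinearMap.add_apply, LinearMap.sub_apply,
      LinearMap.smul_apply, smul_eq_mul, h1.1, h2.2.1, h.zero h1.2.1]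
    module

theorem inv {g : isom B} {x y : V} {c : F} (h1 : IsR ε g x y c) :
    IsR ε g⁻¹ x (-y) (-c - ε * B y y) := by
  obtain ⟨g', h2⟩ := h.exists_R (x := x) (y := -y) (c := -c - ε * B y y) h1.1 (by simp [h1.2.1]) (by
    simp only [map_neg, map_sub, map_mul, h.seps, LinearMap.neg_apply, ← h.symm]
    linear_combination -h1.2.2.1 - B y y * h.eps)
  rwa [inv_eq_of_mul_eq_one_right (Subtype.ext (LinearEquiv.ext fun v =>
    ((h.mul h1 h2).2.2.2 v).trans (by simp [sub_eq_add_neg])) : g * g' = 1)]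

theorem smul {H : Subgroup (isom B)} {x : V} (hx : Ct ε H x) (s : F) : Ct ε H (s • x) := by
  refine ⟨by simp [hx.1], fun r y c hr => ?_⟩
  by_cases hs : s = 0
  · exact (Subtype.ext (LinearEquiv.ext fun v => by simp [hr.2.2.2, hs]) : 1 = r) ▸ one_mem H
  refine hx.2 r (σ s • y) (c * s * σ s) ⟨hx.1, by simpa using hr.2.1, ?_, fun v => ?_⟩
  · simp only [map_mul, map_smul, map_smulₛₗ, LinearMap.smul_apply, smul_eq_mul, h.invol]
    linear_combination s * σ s * hr.2.2.1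
  · simp only [hr.2.2.2, map_smulₛₗ, smul_eq_mul, h.invol]
    module

theorem spread {H : Subgroup (isom B)} (h1 : ∀ a, (∀ y, Ct ε H y → B a y = 0) → a = 0) :
    Ei B ε ≤ H := by
  refine (closure_le _).mpr ?_
  rintro r ⟨x, y, c, hr⟩
  by_cases hx : x = 0
  · exact (Subtype.ext (LinearEquiv.ext fun v => by simp [hr.2.2.2, hx]) : 1 = r) ▸ one_mem H
  obtain ⟨b, h2⟩ := not_forall.mp (mt (h1 x) hx)
  obtain ⟨h2, h3⟩ := Classical.not_imp.mp h2
  obtain ⟨a, h4⟩ := not_forall.mp (mt (h1 b) fun h4 => h3 (by simp [h4]))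
  obtain ⟨h4, h5⟩ := Classical.not_imp.mp h4
  replace h5 := mt h.zero h5
  obtain ⟨g, d, h6, h7⟩ := h.trans (a := (B a b)⁻¹ • a) (b := (B x b)⁻¹ • x) h2.1 (by simp [h4.1])
    (by simp [hr.1]) (by simp [h5]) (by simp [h3])
  have h8 := h.smul h4 (B a b)⁻¹
  have h9 := h2.2 _ _ _ h6
  have h10 := h.smul (Ct.conj g h8.1 fun r y c hr =>
    mul_mem (mul_mem h9 (h8.2 r y c hr)) (inv_mem h9)) (B x b)
  rw [h7, smul_inv_smul₀ h3] at h10
  exact h10.2 r y c hr

theorem perp_perp {W : Submodule F V} {v : V} (hv : v ∈ perp B (perp B W)) : v ∈ W := by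
  by_contra h1
  obtain ⟨f, h2, h3⟩ := exists_dual h1
  obtain ⟨a, ha⟩ := h.rep f
  exact one_ne_zero (h3.symm.trans ((ha v).symm.trans
    (mem_perp.mp hv a (mem_perp.mpr fun w hw => h.zero ((ha w).trans (h2 w hw))))))

theorem center {N : Subgroup (isom B)} (hN : ⁅Ei B ε, Ei B ε⁆ ≤ N) {x z w : V} (h1 : B z x = 0)
    (h2 : B w x = 0) (h3 : B w z = 1) {r : isom B} {c : F} (hr : IsR ε r x 0 c) : r ∈ N := by
  obtain ⟨c1, hc1⟩ := h.exists_c z
  obtain ⟨c2, hc2⟩ := h.exists_c ((-(ε * c / 2)) • w)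
  obtain ⟨r1, hr1⟩ := h.exists_R hr.1 h1 hc1
  obtain ⟨r2, hr2⟩ := h.exists_R hr.1 (by simp [h2]) hc2
  refine (Subtype.ext (LinearEquiv.ext fun v => ?_) : _ = r) ▸
    hN (commutator_mem_commutator hr1.mem hr2.mem)
  have h4 := hr.2.2.1
  have h5 := h.two
  rw [commutatorElement_def, (h.mul (h.mul (h.mul hr1 hr2) (h.inv hr1)) (h.inv hr2)).2.2.2,
    hr.2.2.2, show z + _ + -z + _ = 0 by abel]
  congr 3
  simp only [map_add, map_neg, map_smul, map_smulₛₗ, LinearMap.neg_apply,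
    LinearMap.smul_apply, smul_eq_mul, h3, h.one h3, map_zero, map_div₀, map_mul, h.seps,
    map_ofNat, add_zero] at h4 ⊢
  field_simp
  linear_combination (-2 * ε) * h4 + (4 * c - 2 * ε * σ c) * h.eps

theorem perfect (hp : p.Prime) [CharP F p] {g : isom B} {k : ℕ} (hk : g ^ p ^ k = 1)
    (hg : nl g.1 ^ 3 ≠ 0) : Ei B ε ≤ ⁅Ei B ε, Ei B ε⁆ := by
  obtain ⟨v, h1, h2, h3⟩ := h.exists_fix hp hk (by
    rintro rfl
    exact hg (by rw [show nl (1 : isom B).1 = 0 from nl_eq.mpr rfl, zero_pow three_ne_zero]))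
  generalize g.1 v - v = x at h1 h2 h3
  have g0 : ∀ v w, B (g.1 v) (g.1 w) = B v w := g.2
  have g1 : ∀ v, B (g.1 v) x = B v x := fun v => by rw [← g.2 v x, h2]
  obtain ⟨u, h4, h5⟩ : ∃ u, B u x = 0 ∧ nl g.1 u ∉ F ∙ x := by
    by_contra h4
    push Not at h4
    refine hg (uni_pel rfl (n := 3) rfl (mem_fl (A := LinearMap.ker (B.flip x))
      ((Submodule.span_singleton_le_iff_mem _ _).mpr h3) (fun v => by simp [g1]) h4 fun v hv => ?_))
    obtain ⟨s, rfl⟩ := Submodule.mem_span_singleton.mp hv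
    rw [map_smul, h2]
  obtain ⟨i, h6, h7⟩ := exists_last (N := nl g.1) (n := p ^ k)
    (by rw [nl_pow hp, nl_eq]; exact congrArg Subtype.val hk) h5
  rw [← End.mul_apply (nl g.1 ^ i), ← pow_succ, pow_succ', End.mul_apply] at h6 h7
  have h8 : B ((nl g.1 ^ i) u) x = 0 := by
    rcases i with - | i
    · exact h4
    · simp [pow_succ', nl_apply, g1]
  generalize (nl g.1 ^ i) u = u at h6 h7 h8
  obtain ⟨s, hs⟩ := Submodule.mem_span_singleton.mp h7
  obtain ⟨z, hz⟩ : ∃ z, z = g.1 u - u := ⟨_, rfl⟩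
  rw [nl_apply _ u, ← hz] at h6 hs
  have z1 : B z x = 0 := by simp [hz, g1]
  have g2 : ∀ v, B v x = 0 → B (g.1 v) z = B v z := fun v hv => by
    rw [← g.2 v z, show g.1 z = _ from eq_add_of_sub_eq hs.symm]
    simp [g1, hv]
  have z2 : B z z = 0 := by
    conv_lhs => rw [hz, LinearMap.map_sub₂, ← hz, g2 u h8, sub_self]
  obtain ⟨w, w1, w2, w3⟩ : ∃ w, B w x = 0 ∧ B w z = 1 ∧ B w w = 0 := by
    obtain ⟨f, h9, h10⟩ := exists_dual h6
    obtain ⟨a, ha⟩ := h.rep f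
    exact h.partner (U := LinearMap.ker (B.flip x)) z1
      (h.zero ((ha x).trans (h9 x (Submodule.mem_span_singleton_self x)))) z2
      (mt h.zero ((ha z).trans_ne (h10.trans_ne one_ne_zero)))
  let N := ⁅Ei B ε, Ei B ε⁆
  have a0 : ∀ {r r' y c c'}, IsR ε r x y c → IsR ε r' x y c' → r' ∈ N → r ∈ N :=
    fun h9 h10 h11 => (mul_mem_cancel_right (inv_mem h11)).mp
      (h.center le_rfl z1 w1 w2 (add_neg_cancel (G := V) _ ▸ h.mul h9 (h.inv h10)))
  have ex : ∀ y, B y x = 0 → ∃ r c, IsR ε r x y c := fun y hy =>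
    (h.exists_c y).elim fun c hc => (h.exists_R h3 hy hc).imp fun r hr => ⟨c, hr⟩
  let S : Submodule F V :=
    { carrier := {y | B y x = 0 ∧ ∀ (t : F) r c, IsR ε r x (t • y) c → r ∈ N}
      zero_mem' := ⟨by simp, fun t r c hr => h.center le_rfl z1 w1 w2 (by rwa [smul_zero] at hr)⟩
      smul_mem' := fun a y hy => ⟨by simp [hy.1], fun t => (smul_smul t a y).symm ▸ hy.2 (t * a)⟩
      add_mem' := fun {y y'} hy hy' => ⟨by simp [hy.1, hy'.1], fun t r c hr => by
        obtain ⟨r1, c1, h9⟩ := ex (t • y) (by simp [hy.1])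
        obtain ⟨r2, c2, h10⟩ := ex (t • y') (by simp [hy'.1])
        exact a0 hr ((smul_add t y y').symm ▸ h.mul h9 h10)
          (mul_mem (hy.2 t _ _ h9) (hy'.2 t _ _ h10))⟩ }
  have a1 : ∀ a ∈ Ei B ε, a.1 x = x → ∀ y, B y x = 0 → a.1 y - y ∈ S := fun a ha h9 y hy =>
    ⟨by rw [LinearMap.map_sub₂, ← a.2 y x, h9, sub_self], fun t r c hr => by
      obtain ⟨r1, c1, h10⟩ := ex (t • y) (by simp [hy])
      have h11 := h10.conj a
      rw [h9] at h11
      rw [smul_sub, ← map_smul, sub_eq_add_neg] at hr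
      exact a0 hr (h.mul h11 (h.inv h10)) (commutator_mem_commutator ha h10.mem)⟩
  have a2 : z ∈ S := hz ▸ a1 g (h.full hp g k hk) h2 u h8
  have a3 : ∀ y, B y x = 0 → B y z = 0 → y ∈ S := fun y h9 h10 => by
    obtain ⟨c, hc⟩ := h.exists_c y
    obtain ⟨r, hr⟩ := h.exists_R z2 h10 hc
    have h11 := sub_mem (a1 r hr.mem (hr.fix (h.zero z1) (h.zero h9)) w w1)
      (S.smul_mem (B w y + c) a2)
    rw [hr.2.2.2, w2] at h11
    exact (S.smul_mem_iff (neg_ne_zero.mpr h.ne)).mp (by convert h11 using 1; module)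
  have a4 : w ∈ S := by
    by_cases h9 : ∀ a b, B a x = 0 → B a z = 0 → B b x = 0 → B b z = 0 → B a b = 0
    · have h10 : B (g.1 w - w) x = 0 := by simp [g1]
      have h11 : B (g.1 w - w) z = 0 := by simp [g2 w w1]
      have h12 := h9 _ _ h10 h11 h10 h11
      have h13 : B (u - B u z • w) x = 0 := by simp [h8, w1]
      have h14 : B (u - B u z • w) z = 0 := by simp [w2]
      have h15 := h9 _ _ ((g1 _).trans h13) ((g2 _ h13).trans h14) h10 h11
      obtain ⟨r, hr⟩ := h.exists_R (y := 0) (c := B (g.1 w - w) w) w3 (by simp) (by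
        simp only [map_sub, LinearMap.sub_apply, g0, w3, h.symm (g.1 w) w, map_zero] at h12 ⊢
        linear_combination (-ε) * h12 - σ (B (g.1 w) w) * h.eps)
      have h16 := a1 r hr.mem (hr.fix (h.zero w1) (by simp)) z z1
      refine (S.smul_mem_iff (mul_ne_zero (fun h17 : B (g.1 w - w) w = 0 => h.ne ?_) h.ne)).mp
        (by convert h16 using 1; simp [hr.2.2.2, h.one w2])
      rw [← h.one w2]
      simp only [map_sub, map_smul, LinearMap.sub_apply, LinearMap.smul_apply, smul_eq_mul, g0,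
        w3] at h15 h17
      rw [hz, LinearMap.map_sub₂]
      linear_combination -h15 + B u z * h17
    push Not at h9
    obtain ⟨a, b, b1, b2, b3, b4, b5⟩ := h9
    have h10 : ∀ a, B (a - (ε * B a w) • z) w = 0 := fun a => by
      simp only [map_sub, map_smul, LinearMap.sub_apply, LinearMap.smul_apply, smul_eq_mul, h.one w2]
      linear_combination -B a w * h.eps
    obtain ⟨c, hc⟩ := h.exists_c (b - (ε * B b w) • z)
    obtain ⟨r, hr⟩ := h.exists_R w3 (h10 b) hc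
    have h11 := a1 r hr.mem (hr.fix (h.zero w1) (h.zero (by simp [b3, z1])))
      (a - (ε * B a w) • z) (by simp [b1, z1])
    rw [hr.2.2.2, h10] at h11
    exact (S.smul_mem_iff b5).mp (by convert h11 using 1; simp [b2, z2, h.zero b4])
  have a5 : ∀ a : isom B, Ct ε N (a.1 x) := fun a => Ct.conj a h3 fun r y c hr => by
    have h9 := add_mem (a3 (y - B y z • w) (by simp [hr.2.1, w1]) (by simp [w2]))
      (S.smul_mem (B y z) a4)
    rw [sub_add_cancel] at h9
    exact Normal.conj_mem inferInstance _ (h9.2 1 r c (by rwa [one_smul])) a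
  refine h.spread fun a ha => ?_
  have b0 : ∀ a : V, (∀ y, Ct ε N y → B a y = 0) → ∀ g : isom B, ∀ y, Ct ε N y → B (g.1 a) y = 0 :=
    fun a ha g y hy => by
      rw [← g⁻¹.2]
      simpa using ha _ (Ct.conj g⁻¹ hy.1 fun r y c hr =>
        Normal.conj_mem inferInstance _ (hy.2 r y c hr) _)
  obtain ⟨y, y1⟩ := not_forall.mp (mt (h.nd x) h1)
  obtain ⟨y, -, y1, y2⟩ := h.partner (U := ⊤) trivial trivial h3 y1
  have b1 : ∀ a : V, (∀ y, Ct ε N y → B a y = 0) → ∀ b c, B b y = 0 → σ c + ε * c + B b b = 0 →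
      B a b + B a y * (c - ε * B b x) = 0 := fun a ha b c h9 h10 => by
    obtain ⟨r, hr⟩ := h.exists_R y2 h9 h10
    have h11 := b0 a ha r x (a5 1)
    simp only [hr.2.2.2, map_add, map_sub, map_smul, LinearMap.add_apply, LinearMap.sub_apply,
      LinearMap.smul_apply, smul_eq_mul, y1, ha x (a5 1)] at h11
    linear_combination h11
  have b2 : ∀ b, B (b - (ε * B b y) • x) y = 0 := fun b => by
    simp only [map_sub, map_smul, LinearMap.sub_apply, LinearMap.smul_apply, smul_eq_mul, h.one y1]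
    linear_combination -B b y * h.eps
  have b3 : ∀ a : V, (∀ y, Ct ε N y → B a y = 0) → ∀ b, B b x = 0 → B b b = 0 → B a b = 0 :=
    fun a ha b h9 h10 => by
      simpa [h9, h3, ha x (a5 1)] using
        b1 a ha _ 0 (b2 b) (by simp [h9, h10, h3, h.zero h9])
  have b4 : B a y = 0 := by
    obtain ⟨r, hr⟩ := h.exists_R (x := z - (ε * B z y) • x) (y := y) (c := 0)
      (by simp [z1, z2, h3, h.zero z1]) (h.zero (b2 z)) (by simp [y2])
    simpa [hr.2.2.2, b3 a ha w w1 w3, b3 a ha z z1 z2, ha x (a5 1), h.one w2, h.zero w1, h.ne]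
      using b3 _ (b0 a ha r) w w1 w3
  refine h.nd a fun v => h.zero ?_
  obtain ⟨c, hc⟩ := h.exists_c (v - (ε * B v y) • x)
  simpa [b4, ha x (a5 1)] using b1 a ha _ c (b2 v) hc

/-- The form induced on a subspace modulo its radical. -/
noncomputable def qf (U : Submodule F V) : Sq U (perp B U) →ₗ[F] Sq U (perp B U) →ₛₗ[σ] F :=
  (B.domRestrict₁₂ U U).liftQ₂ _ _ (fun _ hv => LinearMap.ext fun w => mem_perp.mp hv w w.2)
    fun _ hv => LinearMap.ext fun w => h.zero (mem_perp.mp hv w w.2)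

theorem herm_qf (U : Submodule F V) : Herm (h.qf U) ε :=
  ⟨h.two, h.eps, h.seps, h.invol, fun v w => by
    obtain ⟨v, rfl⟩ := Submodule.Quotient.mk_surjective _ v
    obtain ⟨w, rfl⟩ := Submodule.Quotient.mk_surjective _ w
    exact h.symm v w, fun v hv => by
    obtain ⟨v, rfl⟩ := Submodule.Quotient.mk_surjective _ v
    exact (Submodule.Quotient.mk_eq_zero _).mpr (mem_perp.mpr fun w hw =>
      h.zero (hv (Submodule.Quotient.mk ⟨w, hw⟩)))⟩

theorem cl_sub (hp : p.Prime) [CharP F p] {Γ : Subgroup (V ≃ₗ[F] V)} (hΓ : Γ ≤ isom B)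
    {U : Submodule F V} (hU : Γ ≤ Stab U) (hK : Γ ≤ Stab (perp B U))
    (h1 : Cl p (Tame p) (⊥ : Subgroup (isom (h.qf U))))
    (h2 : ∀ r x y c, IsR ε (B := B) r x y c → x ∈ U → y ∈ U → r.1 ∈ Γ) :
    Cl p (Tame p) (sq hU hK).ker := by
  refine h1.push ((sq hU hK).codRestrict _ fun g v w => ?_) (rch_of_full hp fun g k hg =>
    (closure_le _).mpr ?_ ((h.herm_qf U).full hp g k hg)) fun g hg => congrArg Subtype.val hg
  · obtain ⟨v, rfl⟩ := Submodule.Quotient.mk_surjective _ v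
    obtain ⟨w, rfl⟩ := Submodule.Quotient.mk_surjective _ w
    exact hΓ g.2 v w
  rintro r ⟨x, y, c, h3, h4, h5, h6⟩
  obtain ⟨x, rfl⟩ := Submodule.Quotient.mk_surjective _ x
  obtain ⟨y, rfl⟩ := Submodule.Quotient.mk_surjective _ y
  obtain ⟨r', hr⟩ := h.exists_R (x := x) (y := y) h3 h4 h5
  refine ⟨⟨r', h2 _ _ _ _ hr x.2 y.2⟩, Subtype.ext (LinearEquiv.ext fun v => ?_)⟩
  obtain ⟨v, rfl⟩ := Submodule.Quotient.mk_surjective _ v
  rw [h6]
  exact congrArg Submodule.Quotient.mk (Subtype.ext (hr.2.2.2 v) :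
    _ = v + B v y • x - (ε * B v x) • y + (c * B v x) • x)

omit h in
theorem perp_stab {W : Submodule F V} {g : V ≃ₗ[F] V} (h1 : g ∈ isom B) (h2 : g ∈ Stab W) :
    g ∈ Stab (perp B W) := fun v hv => mem_perp.mpr fun w hw => by
  rw [← g.apply_symm_apply w, h1]
  exact mem_perp.mp hv _ (inv_mem h2 w hw)

theorem cl_stab (hp : p.Prime) [CharP F p] {W : Submodule F V}
    (h0 : W ≤ perp B W ∨ W ⊓ perp B W = ⊥)
    (h1 : Cl p (Tame p) (⊥ : Subgroup (isom (h.qf W))))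
    (h2 : Cl p (Tame p) (⊥ : Subgroup (isom (h.qf (perp B W))))) :
    Cl p (Tame p) (⊥ : Subgroup ((Stab W).subgroupOf (isom B))) := by
  have c1 : isom B ⊓ Stab W ≤ Stab W := inf_le_right
  have c2 : isom B ⊓ Stab W ≤ Stab (perp B W) := fun g hg => perp_stab hg.1 hg.2
  have c3 : isom B ⊓ Stab W ≤ Stab (perp B (perp B W)) := fun g hg => perp_stab hg.1 (c2 hg)
  have c4 : isom B ⊓ Stab W ≤ Stab (W ⊓ perp B W) := fun g hg v hv => ⟨c1 hg v hv.1, c2 hg v hv.2⟩
  have c5 : isom B ⊓ Stab W ≤ Stab ⊥ := fun g _ v hv => by simpa using hv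
  refine Cl.surj (Z := ⊥) (Cl.ext ((sq c4 c5).ker ⊓ ((sq c1 c2).ker ⊓ (sq c2 c3).ker))
    (cl_of_pq hp fun g => ⟨3, Subtype.ext
      (fl_pel hp (g := g.1.1) (A := perp B W) (B := W ⊓ perp B W) ?_)⟩)
    ((cl_tv hp _ _ (cl_gl hp _ _ rfl) fun f x h3 h4 _ => ?_).inf
      ((h.cl_sub hp inf_le_left _ _ h1 fun r x y c hr h3 h4 => ⟨r.2, fun v hv => ?_⟩).inf
        (h.cl_sub hp inf_le_left _ _ h2 fun r x y c hr h3 h4 => ⟨r.2, fun v hv => ?_⟩))))
    (ψ := ((isom B).subtype.comp (Subgroup.subtype _)).codRestrict _ fun g => ⟨g.1.2, g.2⟩)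
    (fun g => ⟨⟨⟨g, g.2.1⟩, g.2.2⟩, rfl⟩)
    fun g hg => Subtype.ext (Subtype.ext (congrArg (fun x : ↥(isom B ⊓ Stab W) => x.1) hg))
  · have h3 : ∀ v ∈ W, g.1.1 v = v := fun v hv => sub_eq_zero.mp (h0.elim
      (fun h3 => sq_ker g.2.1 v ⟨hv, h3 hv⟩) fun h3 => h3.le
        ⟨sub_mem (c1 g.1.2 v hv) hv, sq_ker g.2.2.1 v hv⟩)
    exact mem_fl inf_le_right (fun v => mem_perp.mpr fun w hw => by
        rw [LinearMap.map_sub₂, ← g.1.2.1 v w, h3 w hw, sub_self])
      (fun v hv => ⟨h.perp_perp (sq_ker g.2.2.2 v hv), sub_mem (c2 g.1.2 v hv) hv⟩)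
      fun v hv => h3 v hv.1
  · obtain ⟨y, hy⟩ := h.rep f
    obtain ⟨c, hc⟩ := h.exists_c y
    obtain ⟨r, hr⟩ := h.exists_R (mem_perp.mp h3.2 x h3.1) (h.zero ((hy x).trans h4)) hc
    have h5 : ∀ v ∈ W, r.1 v = v + f v • x := fun v hv => by
      simp [hr.2.2.2, hy, h.zero (mem_perp.mp h3.2 v hv)]
    exact ⟨r, ⟨r.2, fun v hv => h5 v hv ▸ add_mem hv (W.smul_mem _ h3.1)⟩, fun v hv => h5 v hv.1⟩
  · simpa using add_mem (hr.stab h3 h4 v) hv
  · rwa [hr.fix (h.zero (mem_perp.mp h3 v hv)) (h.zero (mem_perp.mp h4 v hv))]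

end Herm

theorem cl_isom (hp : p.Prime) [CharP F p] (n : ℕ) : ∀ (V : Type) [AddCommGroup V] [Module F V]
    [Finite V] (B : V →ₗ[F] V →ₛₗ[σ] F), Herm B ε → finrank F V = n →
      Cl p (Tame p) (⊥ : Subgroup (isom B)) := by
  induction n using Nat.strong_induction_on with
  | h n ih =>
  intro V _ _ _ B h hn
  by_cases h1 : ∀ (g : isom B) k, g ^ p ^ k = 1 → nl g.1 ^ 3 = 0
  · refine cl_of_exp hp fun g k hg => Subtype.ext ?_
    rw [← pow_one p]
    exact pel_of hp (h1 g k hg) ((pow_one p).symm ▸ hp.two_le.lt_of_ne' fun h2 => h.two (by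
      rw [← Nat.cast_ofNat, ← h2, CharP.cast_eq_zero]))
  push Not at h1
  obtain ⟨g, k, h1, h2⟩ := h1
  refine cl_of_core hp (Ei B ε) (h.perfect hp h1 h2) ((h.tame hp).full hp (h.full hp))
    (fun g k hg => pow_mem (h.full hp g k hg) p) fun H _ hH => ?_
  let W := Submodule.span F {x | Ct ε H x}
  by_cases h3 : W = ⊤
  · exact .inl (h.spread fun a ha => h.nd a fun v => (Submodule.span_le (p := LinearMap.ker
      (B.flip a))).mpr (fun y hy => h.zero (ha y hy)) (h3.ge Submodule.mem_top))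
  have h4 : W ≠ ⊥ := by
    obtain ⟨v, h4, -, h5⟩ := h.exists_fix hp h1 (by
      rintro rfl
      exact h2 (by rw [show nl (1 : isom B).1 = 0 from nl_eq.mpr rfl, zero_pow three_ne_zero]))
    generalize g.1 v - v = x at h4 h5
    obtain ⟨a, -, ha⟩ := conj_into hp hH
      (Q := (Uni (fl (LinearMap.ker (B.flip x)) (F ∙ x))).subgroupOf (isom B))
      (fun q hq => h.full hp q 3 (Subtype.ext (fl_pel hp hq)))
      fun q => ⟨3, Subtype.ext (Subtype.ext (fl_pel hp q.2))⟩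
    exact W.ne_bot_iff.mpr ⟨a.1 x, Submodule.subset_span (Ct.conj a h5 fun r y c hr =>
      ha r (h.uni hr)), by simpa using h4⟩
  have h5 : ∀ a ∈ H, a.1 ∈ Stab W := fun a ha v hv =>
    (Submodule.span_le (p := W.comap a.1.toLinearMap)).mpr (fun y (hy : Ct ε H y) =>
      Submodule.subset_span (Ct.conj a hy.1 fun r z c hr =>
        mul_mem (mul_mem ha (hy.2 r z c hr)) (inv_mem ha))) hv
  have h6 : ∀ W : Submodule F V, W ≠ ⊥ → W ≠ ⊤ → (W ≤ perp B W ∨ W ⊓ perp B W = ⊥) →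
      Cl p (Tame p) (⊥ : Subgroup ((Stab W).subgroupOf (isom B))) := fun W h6 h7 h8 =>
    h.cl_stab hp h8 (ih _ (hn ▸ sq_lt (.inl h7)) _ _ (h.herm_qf _) rfl)
      (ih _ (hn ▸ sq_lt (.inl fun h9 => h6 (eq_bot_iff.mpr fun w hw => h.nd w fun v =>
        mem_perp.mp (h9.ge Submodule.mem_top) w hw))) _ _ (h.herm_qf _) rfl)
  by_cases h7 : W ⊓ perp B W = ⊥
  · exact .inr ⟨_, h5, h6 W h4 h3 (.inr h7)⟩
  · exact .inr ⟨(Stab (W ⊓ perp B W)).subgroupOf _,
      fun a ha v hv => ⟨h5 a ha v hv.1, Herm.perp_stab a.2 (h5 a ha) v hv.2⟩,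
      h6 _ h7 (ne_top_of_le_ne_top h3 inf_le_left)
        (.inl fun v hv => mem_perp.mpr fun w hw => mem_perp.mp hv.2 w hw.1)⟩

end Pool.Agent.MP_3e257e_al
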