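import Pool.Agent.MP_3e257e_al.RAlt

/-!
Symmetric groups: primitive subgroups of odd index in the alternating group, and the reachable
sections of the symmetric groups.
-/

set_option autoImplicit false
set_option linter.unusedSectionVars false

namespace Pool.Agent.MP_3e257e_al

open Equiv Equiv.Perm Subgroup Function MulAction

variable {Ω : Type} [Fintype Ω] [DecidableEq Ω] {p : ℕ} {H : Subgroup (Perm Ω)} {s : Finset Ω}

/-- A set of four points all of whose double transpositions lie in `H`. -/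
def SB (H : Subgroup (Perm Ω)) (s : Finset Ω) : Prop :=
  s.card = 4 ∧ ∀ a ∈ s, ∀ b ∈ s, ∀ c ∈ s, ∀ d ∈ s, [a, b, c, d].Nodup → swap a b * swap c d ∈ H

theorem nd4 {a b c d : Ω} :
    [a, b, c, d].Nodup ↔ a ≠ b ∧ a ≠ c ∧ a ≠ d ∧ b ≠ c ∧ b ≠ d ∧ c ≠ d := by simp [and_assoc]

theorem SB.conj {K : Subgroup (Perm Ω)} (h : SB K s) {g : Perm Ω}
    (hg : ∀ q ∈ K, g * q * g⁻¹ ∈ H) : SB H (s.image g) := by
  refine ⟨(Finset.card_image_of_injective _ g.injective).trans h.1, ?_⟩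
  simp only [Finset.forall_mem_image]
  intro a ha b hb c hc d hd h1
  simpa [swap_apply_apply, mul_assoc] using hg _ (h.2 a ha b hb c hc d hd (.of_map g h1))

theorem SB.img (h : SB H s) {g : Perm Ω} (hg : g ∈ H) : SB H (s.image g) :=
  h.conj fun _ hq => mul_mem (mul_mem hg hq) (inv_mem hg)

theorem SB.not (h : SB H s) (h3 : ∀ g ∈ H, ¬ g.IsThreeCycle) {x y z w : Ω}
    (h1 : [x, y, z, w].Nodup) (h2 : swap x y * swap z w ∈ H) (hx : x ∈ s) (hy : y ∉ s) :
    ¬ (z ∈ s ↔ w ∈ s) := fun h4 => by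
  obtain ⟨a, b, c, h5, h6, h7, h8⟩ := Finset.card_eq_three.mp
    ((Finset.card_erase_of_mem hx).trans (by rw [h.1]))
  have h9 : ∀ u, u ∈ ({a, b, c} : Finset Ω) → u ∈ s ∧ u ≠ x ∧ u ≠ y ∧
      u ∈ s.image (swap x y * swap z w) := fun u hu => by
    obtain ⟨h9, h10⟩ := Finset.mem_erase.mp (h8 ▸ hu)
    have h11 : u ≠ y := fun h11 => hy (h11 ▸ h10)
    refine ⟨h10, h9, h11, Finset.mem_image.mpr ⟨swap z w u, ?_, ?_⟩⟩
    · rw [swap_apply_def]
      split_ifs with h12 h13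
      exacts [h4.mp (h12 ▸ h10), h4.mpr (h13 ▸ h10), h10]
    · simp [swap_apply_of_ne_of_ne h9 h11]
  have ha := h9 a (by simp)
  have hb := h9 b (by simp)
  have hc := h9 c (by simp)
  rw [nd4] at h1
  refine h3 _ ?_ (isThreeCycle_swap_mul_swap_same ha.2.1 ha.2.2.1 h1.1)
  simpa [mul_assoc] using mul_mem (h.2 a ha.1 x hx b hb.1 c hc.1
    (nd4.mpr ⟨ha.2.1, h5, h6, hb.2.1.symm, hc.2.1.symm, h7⟩)) (inv_mem ((h.img h2).2 a ha.2.2.2
    y (Finset.mem_image.mpr ⟨x, hx, by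
      rw [Perm.mul_apply, swap_apply_of_ne_of_ne h1.2.1 h1.2.2.1, swap_apply_left]⟩)
    b hb.2.2.2 c hc.2.2.2 (nd4.mpr ⟨ha.2.2.1, h5, h6, hb.2.2.1.symm, hc.2.2.1.symm, h7⟩)))

theorem SB.par (h : SB H s) (h3 : ∀ g ∈ H, ¬ g.IsThreeCycle) {x y z w : Ω}
    (h1 : [x, y, z, w].Nodup) (h2 : swap x y * swap z w ∈ H) :
    (x ∈ s ↔ y ∈ s) ↔ (z ∈ s ↔ w ∈ s) := by
  have h4 := (disjoint_swap_swap h1).commute.eq ▸ h2
  have a1 := h.not h3 h1 h2
  obtain ⟨b1, b2, b3, b4, b5, b6⟩ := nd4.mp h1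
  have a2 := h.not h3 (nd4.mpr ⟨b1.symm, b4, b5, b2, b3, b6⟩) (swap_comm x y ▸ h2)
  have a3 := h.not h3 (nd4.mpr ⟨b6, b2.symm, b4.symm, b3.symm, b5.symm, b1⟩) h4
  have a4 := h.not h3 (nd4.mpr ⟨b6.symm, b3.symm, b5.symm, b2.symm, b4.symm, b1⟩)
    (swap_comm z w ▸ h4)
  by_cases x ∈ s <;> by_cases y ∈ s <;> by_cases z ∈ s <;> by_cases w ∈ s <;> simp_all only
    [not_true, not_false_iff, iff_self, iff_true, iff_false, forall_const]

theorem sb_sep (h5 : 5 ≤ Fintype.card Ω) (hH : ¬ 2 ∣ H.relIndex (alternatingGroup Ω))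
    (hr : ∀ r, H ≤ Sf r → r = ⊥ ∨ r = ⊤) {a b : Ω} (h : ∀ s, SB H s → (a ∈ s ↔ b ∈ s)) :
    a = b := by
  have := Fact.mk Nat.prime_two
  obtain ⟨s, -, hs⟩ := Finset.exists_subset_card_eq (s := (Finset.univ : Finset Ω)) (n := 4)
    (by rw [Finset.card_univ]; omega)
  obtain ⟨g, -, hg⟩ := conj_into Nat.prime_two hH (map_subtype_le
    ((alternatingGroup.kleinFour s).map (alternatingGroup.ofSubtype s)))
    (((IsPGroup.of_card (n := 2) (alternatingGroup.kleinFour_card_of_card_eq_four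
      (by simpa))).map _).map _)
  have h1 := SB.conj ⟨hs, fun a ha b hb c hc d hd h1 => by
    refine mem_map_of_mem (alternatingGroup Ω).subtype (x := ⟨swap a b * swap c d, ?_⟩)
      ((alternatingGroup.mem_map_kleinFour_ofSubtype hs _).mpr ⟨(support_mul_le _ _).trans ?_,
        .inr (cycleType_swap_mul_swap_of_nodup h1)⟩)
    · rw [mem_alternatingGroup, map_mul, sign_swap (nd4.mp h1).1, sign_swap (nd4.mp h1).2.2.2.2.2]
      rfl
    · rw [support_swap (nd4.mp h1).1, support_swap (nd4.mp h1).2.2.2.2.2]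
      simp [Finset.subset_iff, *]⟩ hg
  let r : Setoid Ω := ⟨fun a b => ∀ s, SB H s → (a ∈ s ↔ b ∈ s),
    fun _ _ _ => Iff.rfl, fun h s hs => (h s hs).symm, fun h h' s hs => (h s hs).trans (h' s hs)⟩
  rcases hr r (mem_sf fun g hg a b h1 s hs => by
    simpa [symm_apply_eq] using h1 _ (hs.img (inv_mem hg))) with h2 | h2
  · exact h2.le h
  · obtain ⟨x, hx⟩ := Finset.card_pos.mp (h1.1 ▸ four_pos)
    exact absurd ((Finset.eq_univ_iff_forall.mpr fun y =>
      ((show r x y from h2.ge trivial) _ h1).mp hx) ▸ h1.1) (by rw [Finset.card_univ]; omega)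

theorem le_nine (hH : ¬ 2 ∣ H.relIndex (alternatingGroup Ω))
    (hr : ∀ r, H ≤ Sf r → r = ⊥ ∨ r = ⊤) (h3 : ∀ g ∈ H, ¬ g.IsThreeCycle) :
    Fintype.card Ω < 10 := by
  by_contra! h
  let e := Fintype.equivFin Ω
  let φ : Ω → ℕ := fun a => e a / 2
  obtain ⟨g, -, hg⟩ := conj_into Nat.prime_two hH (Q := Kf (Setoid.ker φ) ⊓ _) inf_le_right
    fun q => ⟨1, Subtype.ext (Equiv.ext fun a => by
      have h1 : φ _ = φ _ := q.2.1 a
      have h2 : φ _ = φ _ := q.2.1 (q.1 a)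
      have h4 : (e (q.1 a) : ℕ) = e a ∨ (e (q.1 (q.1 a)) : ℕ) = e (q.1 a) ∨
          (e (q.1 (q.1 a)) : ℕ) = e a := by
        simp only [φ] at h1 h2
        omega
      simp only [Fin.val_inj, EmbeddingLike.apply_eq_iff_eq] at h4
      change q.1 (q.1 a) = a
      rcases h4 with h4 | h4 | h4
      exacts [h4.symm ▸ h4, h4.symm ▸ h4, h4])⟩
  obtain ⟨x, h1, h2⟩ : ∃ x : Fin 10 → Ω, (∀ i, φ (x i) = i / 2) ∧ Injective x :=
    ⟨fun i => e.symm (i.castLE h), by simp [φ], e.symm.injective.comp (Fin.castLE_injective h)⟩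
  clear_value φ
  have h4 : ∀ i j : Fin 10, (i : ℕ) / 2 = j / 2 → swap (x i) (x j) ∈ Kf (Setoid.ker φ) :=
    fun i j h4 a => apply_swap_eq_self (by rw [h1, h1, h4]) a
  refine absurd (h2 (a₁ := 0) (a₂ := 1) (g.injective (sb_sep (by omega) hH hr fun s hs => ?_)))
    (by decide)
  have h5 : ∀ i j : Fin 10, (i : ℕ) / 2 = j / 2 → [0, 1, i, j].Nodup →
      ((g (x 0) ∈ s ↔ g (x 1) ∈ s) ↔ (g (x i) ∈ s ↔ g (x j) ∈ s)) := fun i j h5 h6 => by
    have h7 := nd4.mp (h6.map h2)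
    refine hs.par h3 ((h6.map h2).map g.injective) ?_
    simpa [swap_apply_apply, mul_assoc] using hg _ ⟨mul_mem (h4 0 1 (by decide)) (h4 i j h5),
      show _ = _ by rw [map_mul, sign_swap h7.1, sign_swap h7.2.2.2.2.2]; rfl⟩
  by_contra h6
  have h7 : Finset.range 5 ⊆ s.image fun a => φ (g⁻¹ a) := by
    have h7 : ∀ i j : Fin 10, (i : ℕ) / 2 = j / 2 → ¬ (g (x i) ∈ s ↔ g (x j) ∈ s) →
        (i : ℕ) / 2 ∈ s.image fun a => φ (g⁻¹ a) := fun i j h7 h8 => by
      by_cases h9 : g (x i) ∈ s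
      · exact Finset.mem_image.mpr ⟨_, h9, by simp [h1]⟩
      · exact Finset.mem_image.mpr ⟨g (x j), by_contra fun h => h8 (iff_of_false h9 h), by simp [h1, h7]⟩
    intro k hk
    rw [Finset.mem_range] at hk
    interval_cases k
    exacts [h7 0 1 rfl h6, h7 2 3 rfl (mt (h5 2 3 rfl (by decide)).mpr h6),
      h7 4 5 rfl (mt (h5 4 5 rfl (by decide)).mpr h6),
      h7 6 7 rfl (mt (h5 6 7 rfl (by decide)).mpr h6),
      h7 8 9 rfl (mt (h5 8 9 rfl (by decide)).mpr h6)]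
  exact absurd ((Finset.card_le_card h7).trans (Finset.card_image_le.trans hs.1.le)) (by decide)

theorem cl_two (h5 : 5 ≤ Fintype.card Ω) (hA : H ≤ alternatingGroup Ω)
    (hH : ¬ 2 ∣ H.relIndex (alternatingGroup Ω)) (hr : ∀ r, H ≤ Sf r → r = ⊥ ∨ r = ⊤)
    (h3 : ∀ g ∈ H, ¬ g.IsThreeCycle) : Cl 2 (Tame 2) (⊥ : Subgroup H) := by
  let v : Finset Ω → Ω → ZMod 2 := fun s a => if a ∈ s then 1 else 0
  let C := Submodule.span (ZMod 2) (v '' {s | SB H s})
  let ψ : Perm Ω →* ((Ω → ZMod 2) ≃ₗ[ZMod 2] (Ω → ZMod 2)) :=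
    { toFun := fun g => LinearEquiv.funCongrLeft _ _ g.symm
      map_one' := rfl
      map_mul' := fun _ _ => rfl }
  have c0 : H.map ψ ≤ Stab ⊥ := fun g _ v hv => by simpa using hv
  have c1 : H.map ψ ≤ Stab C := by
    rintro _ ⟨g, hg, rfl⟩ w hw
    refine (Submodule.span_le (p := C.comap (ψ g).toLinearMap)).mpr ?_ hw
    rintro _ ⟨s, hs, rfl⟩
    refine Submodule.subset_span ⟨_, hs.img hg, funext fun a => if_congr ?_ rfl rfl⟩
    simp [← eq_symm_apply]
  let ι := (sq c1 c0).comp (ψ.subgroupMap H)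
  have h1 : Injective ι := (injective_iff_map_eq_one _).mpr fun g hg =>
    Subtype.ext (Equiv.ext fun a => (sb_sep h5 hH hr fun s hs => by
      have h1 := congrFun (sub_eq_zero.mp ((Submodule.mem_bot _).mp
        (sq_ker (hU := c1) (hK := c0) hg _ (Submodule.subset_span ⟨s, hs, rfl⟩)))) (g.1 a)
      change v s (g.1.symm (g.1 a)) = _ at h1
      by_cases a ∈ s <;> by_cases g.1 a ∈ s <;> simp_all [v]).symm)
  have h2 : 2 * Module.finrank (ZMod 2) (Sq C ⊥) ≤ Fintype.card Ω := by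
    let B : LinearMap.BilinForm (ZMod 2) (Ω → ZMod 2) := dotProductBilin _ _
    have h2 := B.finrank_add_finrank_orthogonal' C
    rw [show LinearMap.ker B = ⊥ from LinearMap.ker_eq_bot'.mpr fun w hw =>
      dotProduct_eq_zero w (DFunLike.congr_fun hw), inf_bot_eq, finrank_bot,
      Module.finrank_fintype_fun_eq_card] at h2
    have h4 : C ≤ B.orthogonal C := Submodule.span_le.mpr fun w hw u hu =>
      (Submodule.span_le (p := LinearMap.ker (B.flip w))).mpr (by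
        rintro _ ⟨s, hs, rfl⟩
        obtain ⟨t, ht, rfl⟩ := hw
        obtain ⟨x, y, z, w, a1, a2, a3, a4, a5, a6, rfl⟩ := Finset.card_eq_four.mp ht.1
        have h6 := nd4.mpr ⟨a1, a2, a3, a4, a5, a6⟩
        have h7 := hs.par h3 h6 (ht.2 _ (by simp) _ (by simp) _ (by simp) _ (by simp) h6)
        change ∑ a, v s a * ite _ _ _ = 0
        simp only [mul_ite, mul_one, mul_zero, Finset.sum_ite_mem, Finset.univ_inter]
        rw [Finset.sum_insert (by simp [*]), Finset.sum_insert (by simp [*]), Finset.sum_pair a6]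
        simp only [v]
        split_ifs <;> first | rfl | simp_all) hu
    have h6 := Submodule.finrank_mono h4
    have h7 : Module.finrank (ZMod 2) (Sq C ⊥) ≤ _ := Submodule.finrank_quotient_le _
    omega
  refine (cl_gl Nat.prime_two _ _ rfl).inj (.of_index fun h4 => ?_) h1
  have : Nontrivial Ω := Fintype.one_lt_card_iff_nontrivial.mp (by omega)
  have h6 := ι.range.index_mul_card
  rw [← Nat.card_congr (MonoidHom.ofInjective h1).toEquiv, ← Nat.card_congr
    ((Matrix.GeneralLinearGroup.toLin' (Module.finBasis (ZMod 2) (Sq C ⊥))).trans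
      (LinearMap.GeneralLinearGroup.generalLinearEquiv _ _)).toEquiv, Matrix.card_GL_field] at h6
  have h7 := two_mul_nat_card_alternatingGroup (α := Ω)
  rw [← (H.subgroupOf (alternatingGroup Ω)).index_mul_card, Nat.card_perm,
    Nat.card_congr (subgroupOfEquivOfLe hA).toEquiv, Nat.card_eq_fintype_card (α := Ω)] at h7
  have h8 : ∀ e m, m ≤ Fintype.card Ω → 2 ^ e ∣ m.factorial → 2 ^ e ∣ ι.range.index * Nat.card H :=
    fun e m h8 h9 => ((((Nat.prime_two.coprime_iff_not_dvd.mpr hH).pow_left e).dvd_of_dvd_mul_left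
      (n := 2 * Nat.card H) (by
        rw [mul_left_comm]
        exact h9.trans (h7 ▸ Nat.factorial_dvd_factorial h8))).trans (mul_dvd_mul_right h4 _))
  rw [h6, ZMod.card] at h8
  have h9 := le_nine hH hr h3
  generalize Module.finrank (ZMod 2) (Sq C ⊥) = d at h2 h8
  have h10 : d ≤ 4 := by omega
  interval_cases d
  exacts [absurd (h8 3 5 h5 (by decide)) (by decide), absurd (h8 3 5 h5 (by decide)) (by decide),
    absurd (h8 3 5 h5 (by decide)) (by decide), absurd (h8 4 6 h2 (by decide)) (by decide),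
    absurd (h8 7 8 h2 (by decide)) (by decide)]

theorem cl_perm (hp : p.Prime) (n : ℕ) : ∀ (Ω : Type) [Finite Ω], Nat.card Ω = n →
    Cl p (Tame p) (⊥ : Subgroup (Perm Ω)) := by
  induction n using Nat.strong_induction_on with
  | h n ih =>
  intro Ω _ hn
  classical
  have := Fintype.ofFinite Ω
  have h0 : ∀ (g : Perm Ω) k, g ^ p ^ k = 1 → g ^ p ∈ alternatingGroup Ω := fun g k hg => by
    rw [mem_alternatingGroup, map_pow]
    rcases hp.eq_two_or_odd' with rfl | h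
    · simp
    · rw [(pow_eq_one_iff_of_coprime (a := sign g) (h.pow (n := k)).coprime_two_right).mp
        ⟨by rw [← map_pow, hg, map_one], Int.units_sq _⟩, one_pow]
  by_cases h1 : n < p ^ 2
  · refine cl_of_exp hp fun g k hg => ?_
    rw [mem_bot, ← orderOf_dvd_iff_pow_eq_one, ← lcm_cycleType]
    refine Multiset.lcm_dvd.mpr fun i hi => ?_
    obtain ⟨j, -, rfl⟩ := (Nat.dvd_prime_pow hp).mp
      ((dvd_of_mem_cycleType hi).trans (orderOf_dvd_of_pow_eq_one hg))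
    exact (pow_dvd_pow p (Nat.lt_succ_iff.mp ((Nat.pow_lt_pow_iff_right hp.one_lt).mp
      (((le_card_support_of_mem_cycleType hi).trans (Finset.card_le_univ _)).trans_lt
        (by rwa [← Nat.card_eq_fintype_card, hn]))))).trans (pow_one p).dvd
  have h2 := hp.two_le
  by_cases h5 : n < 5
  · obtain rfl : p = 2 := by nlinarith
    refine Cl.ext _ (bot_subgroupOf (alternatingGroup Ω) ▸ cl_of_exp hp fun g k hg => ?_)
      (cl_of_exp hp h0)
    rw [mem_bot, ← orderOf_dvd_iff_pow_eq_one, ← orderOf_coe, ← lcm_cycleType]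
    rcases alternatingGroup.mem_kleinFour_of_order_two_pow (by omega) g.2
      (orderOf_dvd_of_pow_eq_one (congrArg Subtype.val hg)) with h | h <;> simp [h]
  refine cl_of_core hp _ (commutator_alternatingGroup_eq_self (by omega)).ge (tame_alt hp) h0
    fun H hA hH => ?_
  have a1 : ∀ r : Setoid Ω, r ≠ ⊤ → Cl p (Tame p) (⊥ : Subgroup (Kf r)) := fun r hr =>
    cl_kf fun a => by
      obtain ⟨b, hb⟩ : ∃ b, ¬ r b a := by
        by_contra! h
        exact hr (top_le_iff.mp fun x y _ => r.trans (h x) (r.symm (h y)))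
      exact ih _ (hn ▸ Finite.card_subtype_lt hb) _ rfl
  by_cases h3 : orbitRel H Ω = ⊤
  swap
  · exact .inr ⟨Kf (orbitRel H Ω), fun g hg a => ⟨⟨g, hg⟩, rfl⟩, a1 _ h3⟩
  have ht : IsPretransitive H Ω := ⟨fun a b => h3.ge (show (⊤ : Setoid Ω) b a from trivial)⟩
  by_cases hr : ∀ r, H ≤ Sf r → r = ⊥ ∨ r = ⊤
  swap
  · push Not at hr
    obtain ⟨r, h4, h6, h7⟩ := hr
    refine .inr ⟨_, h4, cl_sf (a1 r h7) (ih _ ?_ _ rfl) fun a b =>
      (ht.1 a b).elim fun g hg => ⟨g, h4 g.2, hg⟩⟩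
    obtain ⟨a, b, h8, h9⟩ : ∃ a b, r a b ∧ a ≠ b := by
      by_contra! h
      exact h6 (le_bot_iff.mp h)
    rw [← hn, Nat.card_eq_fintype_card, Nat.card_eq_fintype_card]
    exact Fintype.card_lt_of_surjective_not_injective _ Quotient.mk_surjective fun h =>
      h9 (h (Quotient.sound h8))
  rw [Nat.card_eq_fintype_card] at hn
  by_cases h4 : ∃ g ∈ H, g.IsThreeCycle
  · exact .inl (h4.elim fun g hg =>
      alternatingGroup_le_of_isPreprimitive_of_isThreeCycle_mem (prim_of ht hr) hg.2 hg.1)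
  by_cases h6 : p = 2
  · subst h6
    exact .inr ⟨H, le_rfl, cl_two (by omega) hA hH hr fun g h6 h7 => h4 ⟨g, h6, h7⟩⟩
  · exact absurd (three_odd hp h6 (by nlinarith) hH (prim_of ht hr)) h4

end Pool.Agent.MP_3e257e_al
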