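import Pool.Agent.MP_3e257e_al.CycA
import Pool.Agent.MP_3e257e_al.RFin
import Pool.Agent.MP_3e257e_al.RSym
import Pool.Agent.MP_3e257e_al.RPer

/-!
Cyclic Sylow subgroups: the congruence, and the class of allowed composition factors.
-/

set_option autoImplicit false
set_option linter.unusedSectionVars false

/-! ### The reachable sections of the allowed groups. -/

namespace Pool.Agent.MP_3e257e_al

open Subgroup Function

variable {G T : Type} [Group G] [Group T] [Finite G] [Finite T] {p : ℕ}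

theorem Cl.sub_quot (h : Cl p (Tame p) (⊥ : Subgroup G)) :
    SubQuot G T → Cl p (Tame p) (⊥ : Subgroup T) := fun ⟨H, _, h1, h2⟩ =>
  Cl.pull h2 (h.push H.subtype (H.range_subtype.symm ▸ .of_subnormal h1) fun a ha => by
    rw [show a = 1 from Subtype.ext ha]
    exact one_mem _)

/-- The class of simple groups that can be treated. -/
def TC (p : ℕ) (T : Type) [Group T] : Prop := Tame p T ∨ ∀ R : Sylow p T, IsCyclic R

theorem cl_of_cyc (hp : p.Prime) (h : ∀ R : Sylow p G, IsCyclic R) :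
    Cl p (TC p) (⊥ : Subgroup G) := fun A T _ _ _ φ f _ h2 h3 _ _ => Or.inr fun R => by
  have := Fact.mk hp
  obtain ⟨S, rfl⟩ := Sylow.mapSurjective_surjective h2 p R
  obtain ⟨R, hR⟩ := (S.2.map φ).exists_le_sylow
  have := h R
  have := isCyclic_of_injective (inclusion hR) (inclusion_injective hR)
  obtain ⟨⟨_, a, ha, rfl⟩, h4⟩ := IsCyclic.exists_generator (α := S.1.map φ)
  refine ⟨⟨f a, a, ha, rfl⟩, ?_⟩
  rintro ⟨_, b, hb, rfl⟩
  obtain ⟨i, hi⟩ := h4 ⟨_, b, hb, rfl⟩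
  have h5 := h3 (a ^ i * b⁻¹) (by
    rw [mem_bot, map_mul, map_inv, map_zpow, mul_inv_eq_one]
    exact congrArg Subtype.val hi)
  rw [map_mul, map_inv, map_zpow, mul_inv_eq_one] at h5
  exact ⟨i, Subtype.ext h5⟩

theorem cl_of_allowed (hp : p.Prime) (h : Allowed p T) : Cl p (TC p) (⊥ : Subgroup T) := by
  refine h.elim (cl_of_cyc hp) fun h A T' _ _ _ φ f h1 h2 h3 h4 h5 =>
    Or.inl ((?_ : Cl p (Tame p) (⊥ : Subgroup T)) A T' φ f h1 h2 h3 h4 h5)
  rcases h with h | ⟨n, h⟩ | ⟨F, V, _, _, _, _, _, h | ⟨h2, σ, B, ε, h3, h4, h5, h6, h⟩⟩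
  · exact cl_of_order hp h
  · exact (cl_perm hp _ _ rfl).sub_quot h
  · exact (cl_gl hp _ _ rfl).sub_quot h
  · refine (cl_isom hp _ _ B ⟨fun h7 => h2 ((Nat.prime_dvd_prime_iff_eq hp Nat.prime_two).mp
      ((CharP.cast_eq_zero_iff F p 2).mp h7)), ?_, ?_, h4, h5, h6⟩ rfl).sub_quot h
    all_goals rcases h3 with rfl | rfl <;> simp

end Pool.Agent.MP_3e257e_al

/-! ### The elements whose `p`-part lies in the subgroup of index `p` of the Sylow subgroup. -/

namespace Pool.Agent.MP_3e257e_al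

open Finset Complex Subgroup

variable {X : Type} [Group X] [Fintype X] {p N n j d : ℕ} [hp : Fact p.Prime] {χ : X → ℂ}
  {M P L : Subgroup X} {u : X}

/-- The `p`-part of `y` is conjugate to an element of `L`. -/
def Low (n : ℕ) (L : Subgroup X) (y : X) : Prop := ∃ b, b * y ^ n * b⁻¹ ∈ L

theorem Low.of_conj {y y' : X} (h : Low n L y) (h' : IsConj (y' ^ n) (y ^ n)) : Low n L y' := by
  obtain ⟨b, hb⟩ := h
  obtain ⟨c, hc⟩ := isConj_iff.mp h'
  exact ⟨b * c, by rwa [← hc, ← mul_assoc, ← mul_assoc, mul_assoc _ c⁻¹, ← mul_inv_rev] at hb⟩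

theorem Low.pow {y : X} (h : Low n L y) (k : ℕ) : Low n L (y ^ k) := by
  obtain ⟨b, hb⟩ := h
  exact ⟨b, by rw [pow_right_comm, ← conj_pow]; exact pow_mem hb k⟩

theorem low_of {y : X} (h : y ∈ L) : Low n L y := ⟨1, by simpa using pow_mem h n⟩

theorem sum_coset [Fintype M] [DecidablePred (· ∈ M)] (F : X → ℝ) (a : X) :
    ∑ m : M, F (m * a) = ∑ y ∈ univ.filter fun y => y * a⁻¹ ∈ M, F y := by
  rw [← sum_subtype (univ.filter (· ∈ M)) (by simp) fun q => F (q * a)]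
  exact sum_bijective _ (Group.mulRight_bijective a) (by simp) fun _ _ => rfl

namespace Cy

variable (S : Cy p N n M P L u)
include S

theorem root {g : X} (hg : g ∈ P) {k : ℕ} (hk : ¬ p ∣ k) (h : g ^ k ∈ L) : g ∈ L := by
  obtain ⟨v, hv⟩ := exists_root (X := X) S.hp hk N
  exact hv g (S.pw hg) ▸ pow_mem h v

theorem hN : p ∣ p ^ N := dvd_pow_self p (by
  rintro rfl
  have h := S.pw S.uP
  rw [pow_zero, pow_one] at h
  exact S.u1 (h ▸ one_mem L))

theorem high {g s : X} (hg : g ∈ P) (hL : g ∉ L) (h1 : s * g = g * s) (h2 : s ^ n = 1) {k : ℕ}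
    (hk : ¬ p ∣ k) (m : X) : (m * (g ^ k * s) * m⁻¹) ^ n = m * g ^ (k * n) * m⁻¹ ∧
      ¬ Low n L (m * (g ^ k * s) * m⁻¹) := by
  have h3 : (m * (g ^ k * s) * m⁻¹) ^ n = m * g ^ (k * n) * m⁻¹ := by
    rw [conj_pow, ((Commute.symm h1).pow_left k).mul_pow, h2, mul_one, pow_mul]
  refine ⟨h3, fun ⟨b, hb⟩ => hL (S.root hg (fun h => (S.hp.dvd_mul.mp h).elim hk S.hn)
    (S.fus _ (pow_mem hg _) (b * m) ?_))⟩
  rw [h3] at hb
  convert hb using 1
  group

open Classical in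
theorem fibre {g0 : X} (hg : g0 ∈ P) (hL : g0 ∉ L) {k : ℕ} (hk : ¬ p ∣ k) {F : X → ℝ}
    (h0 : ∀ y, 0 ≤ F y) (hF : ∀ b y, F (b * y * b⁻¹) = F y) :
    ∑ g ∈ univ.filter fun g => g * g0⁻¹ ∈ zpowers (u ^ p), Nat.card M *
      (((univ.filter fun s => (s * g = g * s ∧ s ∈ M) ∧ s ^ n = 1).card : ℝ)⁻¹ *
        ∑ s ∈ univ.filter fun s => (s * g = g * s ∧ s ∈ M) ∧ s ^ n = 1, F (g ^ k * s)) ≤
      orderOf u * ∑ y ∈ (univ.filter fun y => y * (g0 ^ k)⁻¹ ∈ M).filter (¬ Low n L ·), F y := by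
  have := S.nm
  let kf : X → Finset X := fun g => univ.filter fun s => (s * g = g * s ∧ s ∈ M) ∧ s ^ n = 1
  let I : Finset (Σ _ : X, X × X) := (univ.filter fun g => g * g0⁻¹ ∈ zpowers (u ^ p)).sigma
    fun g => univ.filter (· ∈ M) ×ˢ kf g
  let Φ : (Σ _ : X, X × X) → X := fun i => i.2.1 * (i.1 ^ k * i.2.2) * i.2.1⁻¹
  have hI : ∀ i ∈ I, i.1 * g0⁻¹ ∈ zpowers (u ^ p) ∧ i.2.1 ∈ M ∧
      (i.2.2 * i.1 = i.1 * i.2.2 ∧ i.2.2 ∈ M) ∧ i.2.2 ^ n = 1 := fun i hi => by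
    simpa [I, kf] using hi
  have a1 : ∀ g, g * g0⁻¹ ∈ zpowers (u ^ p) → g ∈ P ∧ g ∉ L := fun g h =>
    ⟨by simpa using mul_mem (zpowers_le.mpr (pow_mem S.uP p) h) hg, fun h1 => hL (by
      simpa using mul_mem (inv_mem (zpowers_le.mpr S.up h)) h1)⟩
  have a2 : ∀ i ∈ I, (Φ i) ^ n = i.2.1 * i.1 ^ (k * n) * i.2.1⁻¹ ∧ ¬ Low n L (Φ i) := fun i hi =>
    S.high (a1 _ (hI i hi).1).1 (a1 _ (hI i hi).1).2 (hI i hi).2.2.1.1 (hI i hi).2.2.2 hk _
  calc _ = ∑ i ∈ I, ((kf i.1).card : ℝ)⁻¹ * F (Φ i) := by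
        rw [sum_sigma]
        refine sum_congr rfl fun g _ => ?_
        simp only [sum_product, Φ, hF, sum_const, nsmul_eq_mul, ← mul_sum, kf]
        rw [Nat.card_eq_fintype_card, Fintype.card_subtype, mul_left_comm]
    _ = _ := (sum_fiberwise_of_maps_to (g := Φ) (t := (univ.filter fun y =>
        y * (g0 ^ k)⁻¹ ∈ M).filter (¬ Low n L ·)) (fun i hi => mem_filter.mpr ⟨mem_filter.mpr
        ⟨mem_univ _, by
          rw [← QuotientGroup.eq_one_iff]
          have h1 := (QuotientGroup.eq_one_iff _).mpr (zpowers_le.mpr (pow_mem S.uM p) (hI i hi).1)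
          rw [QuotientGroup.mk_mul, QuotientGroup.mk_inv, mul_inv_eq_one] at h1
          simp [Φ, (QuotientGroup.eq_one_iff _).mpr (hI i hi).2.1,
            (QuotientGroup.eq_one_iff _).mpr (hI i hi).2.2.1.2, h1]⟩, (a2 i hi).2⟩) _).symm
    _ ≤ _ := ?_
  rw [mul_sum]
  refine sum_le_sum fun y _ => ?_
  rcases (I.filter (Φ · = y)).eq_empty_or_nonempty with h | ⟨i0, h⟩
  · rw [h, sum_empty]
    exact mul_nonneg (Nat.cast_nonneg _) (h0 y)
  obtain ⟨b1, b2⟩ := mem_filter.mp h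
  obtain ⟨v, hv⟩ := exists_root (X := X) S.hp (fun h => (S.hp.dvd_mul.mp h).elim hk S.hn) N
  have a3 : ∀ i ∈ I.filter (Φ · = y), i.2.1⁻¹ * i0.2.1 * i0.1 * (i.2.1⁻¹ * i0.2.1)⁻¹ = i.1 := by
    intro i hi
    obtain ⟨c1, c2⟩ := mem_filter.mp hi
    have h1 := congrArg (· ^ v) ((a2 i c1).1.symm.trans (by rw [c2, ← b2, (a2 i0 b1).1]))
    simp only [conj_pow, hv _ (S.pw (a1 _ (hI i c1).1).1), hv _ (S.pw (a1 _ (hI i0 b1).1).1)] at h1
    rw [show i.2.1⁻¹ * i0.2.1 * i0.1 * (i.2.1⁻¹ * i0.2.1)⁻¹ =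
      i.2.1⁻¹ * (i0.2.1 * i0.1 * i0.2.1⁻¹) * i.2.1 by group, ← h1]
    group
  have a4 : (0 : ℝ) < (kf i0.1).card := Nat.cast_pos.mpr (card_pos.mpr ⟨1, by simp [kf]⟩)
  obtain ⟨K, k1, k2⟩ := S.loc _ (a1 _ (hI i0 b1).1).1 (a1 _ (hI i0 b1).1).2
  have a5 : (I.filter (Φ · = y)).card ≤ orderOf u * (kf i0.1).card := by
    rw [← Nat.card_zpowers, Nat.card_eq_fintype_card, Fintype.card_subtype, ← card_product]
    refine le_trans (card_le_card_of_injOn (fun i => i.2.1⁻¹ * i0.2.1) (fun i hi => ?_)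
      fun i hi i' hi' h => ?_) (card_image_le (f := fun x : X × X => x.1 * x.2))
    · have h1 := hI i (mem_filter.mp hi).1
      obtain ⟨q, hq, s, hs, h2⟩ := k2 _ (mul_mem (inv_mem h1.2.1) (hI i0 b1).2.1) (by
        rw [a3 i hi]
        simpa using mul_mem h1.1 (inv_mem (hI i0 b1).1))
      exact mem_image.mpr ⟨(q, s), by simpa [kf, hq] using (k1 s).mp hs, h2.symm⟩
    · have h1 := (a3 i hi).symm.trans ((congrArg (fun w => w * i0.1 * w⁻¹) h).trans (a3 i' hi'))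
      have h2 := (mem_filter.mp hi).2.trans (mem_filter.mp hi').2.symm
      obtain ⟨g, m, s⟩ := i
      obtain ⟨g', m', s'⟩ := i'
      obtain rfl : m = m' := by simpa using h
      obtain rfl : g = g' := h1
      obtain rfl : s = s' := by simpa [Φ] using h2
      rfl
  refine (sum_le_card_nsmul _ _ (((kf i0.1).card : ℝ)⁻¹ * F y) fun i hi => ?_).trans ?_
  · rw [(mem_filter.mp hi).2]
    refine mul_le_mul_of_nonneg_right (inv_anti₀ a4 (Nat.cast_le.mpr (card_le_card_of_injOn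
      (fun s => i.2.1⁻¹ * i0.2.1 * s * (i.2.1⁻¹ * i0.2.1)⁻¹) (fun s hs => ?_)
      fun s _ s' _ h => by simpa using h))) (h0 y)
    obtain ⟨⟨c1, c2⟩, c3⟩ := (mem_filter.mp hs).2
    refine mem_filter.mpr ⟨mem_univ _, ⟨?_, S.nm.conj_mem _ c2 _⟩, by rw [conj_pow, c3]; group⟩
    rw [← a3 i hi, conj_mul, conj_mul, c1]
  · rw [nsmul_eq_mul, ← mul_assoc]
    exact mul_le_mul_of_nonneg_right ((mul_inv_le_iff₀ a4).mpr (by exact_mod_cast a5)) (h0 y)

theorem van (C : Ch p N n j d χ) (hθ : IsIrr fun m : M => χ m)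
    (hθ' : ¬ Inv p j fun m : M => χ m) {g0 : X} (hg : g0 ∈ P) (hL : g0 ∉ L) {x : ZMod p}
    (hx : ∀ q ∈ zpowers (u ^ p), av d χ x (q * g0) ≠ 0) {y : X} (h1 : y * g0⁻¹ ∈ M)
    (h2 : Low n L y) : av d χ x y = 0 := by
  classical
  have := S.nm
  let U := univ.filter fun l : ZMod (p ^ N) => ¬ p ∣ l.val
  let F : ZMod (p ^ N) → X → ℝ := fun l y => normSq (av d χ (x * (l.val : ZMod p)) y)
  let T : ZMod (p ^ N) → Finset X := fun l => univ.filter fun y => y * (g0 ^ l.val)⁻¹ ∈ M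
  have a1 := sum_le_sum fun l (hl : l ∈ U) => S.fibre hg hL (mem_filter.mp hl).2 (F := F l)
    (fun _ => normSq_nonneg _) fun b y => by simp only [F, C.hc.av_conj]
  rw [sum_comm, ← mul_sum] at a1
  have a2 := le_trans (card_nsmul_le_sum _ _ ((Nat.card M : ℝ) * U.card) fun g h => by
    have h3 := (mem_filter.mp h).2
    have h4 : g ∈ P := by simpa using mul_mem (zpowers_le.mpr (pow_mem S.uP p) h3) hg
    obtain ⟨K, k1, -⟩ := S.loc g h4 fun h1 => hL (by
      simpa using mul_mem (inv_mem (zpowers_le.mpr S.up h3)) h1)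
    have h5 := C.av_low S.hN (S.pw h4) (K := K) (fun s hs => ⟨((k1 s).mp hs).1.1, ((k1 s).mp hs).2⟩)
      (by simpa using hx _ h3)
    have h6 : ∀ s, s ∈ (univ.filter fun s => (s * g = g * s ∧ s ∈ M) ∧ s ^ n = 1) ↔ s ∈ K := by
      simp [k1]
    rw [← mul_sum, ← mul_sum]
    refine mul_le_mul_of_nonneg_left ((le_inv_mul_iff₀ (Nat.cast_pos.mpr
      (card_pos.mpr ⟨1, (h6 1).mpr (one_mem K)⟩))).mpr ?_) (Nat.cast_nonneg _)
    simp only [sum_subtype _ h6]
    rwa [sum_const, nsmul_eq_mul, mul_comm, Nat.card_eq_fintype_card,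
      Fintype.card_of_subtype _ h6] at h5) a1
  have a3 : orderOf u ≤ p * (univ.filter fun g => g * g0⁻¹ ∈ zpowers (u ^ p)).card := by
    rw [card_bijective _ (Group.mulRight_bijective g0⁻¹) (t := univ.filter (· ∈ zpowers (u ^ p)))
      (by simp), ← Fintype.card_subtype, Fintype.card_zpowers]
    exact Nat.le_of_dvd (mul_pos S.hp.pos (orderOf_pos _)) (orderOf_dvd_of_pow_eq_one (by
      rw [pow_mul, pow_orderOf_eq_one]))
  have a4 : ∑ l ∈ U, (p * ∑ y ∈ (T l).filter (Low n L), F l y +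
      p * ∑ y ∈ (T l).filter (¬ Low n L ·), F l y) = Nat.card M * U.card := by
    rw [sum_congr rfl (g := fun _ => (Nat.card M : ℝ)) fun l _ => by
      rw [← mul_add, sum_filter_add_sum_filter_not, ← sum_coset (M := M) (F l) (g0 ^ l.val),
        C.av_norm hθ hθ'],
      sum_const, nsmul_eq_mul, mul_comm]
  rw [sum_add_distrib, ← mul_sum, ← mul_sum] at a4
  have a5 : ∀ l ∈ U, 0 ≤ ∑ y ∈ (T l).filter (Low n L), F l y := fun l _ =>
    sum_nonneg fun _ _ => normSq_nonneg _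
  have a6 : ∑ l ∈ U, ∑ y ∈ (T l).filter (Low n L), F l y = 0 := by
    refine le_antisymm ?_ (sum_nonneg a5)
    have h3 : (0 : ℝ) < orderOf u := Nat.cast_pos.mpr (orderOf_pos _)
    have h4 : (0 : ℝ) < p := Nat.cast_pos.mpr S.hp.pos
    have h5 : (orderOf u : ℝ) ≤ p * (univ.filter fun g => g * g0⁻¹ ∈ zpowers (u ^ p)).card := by
      exact_mod_cast a3
    have h6 : (0 : ℝ) ≤ Nat.card M * U.card := by positivity
    rw [nsmul_eq_mul] at a2
    refine le_of_mul_le_mul_left ?_ (mul_pos h3 h4)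
    nlinarith [mul_le_mul_of_nonneg_left a2 h4.le, mul_le_mul_of_nonneg_right h5 h6]
  have : Fact (1 < p ^ N) := ⟨hp.1.one_lt.trans_le (Nat.le_of_dvd (pow_pos hp.1.pos N) S.hN)⟩
  have a7 := (sum_eq_zero_iff_of_nonneg fun _ _ => normSq_nonneg _).mp
    ((sum_eq_zero_iff_of_nonneg a5).mp a6 1 (by simpa [U, ZMod.val_one] using S.hp.one_lt.ne')) y
    (by simpa [T, ZMod.val_one] using ⟨h1, h2⟩)
  simpa [ZMod.val_one] using a7

theorem single (C : Ch p N n j d χ) (hθ : IsIrr fun m : M => χ m)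
    (hθ' : ¬ Inv p j fun m : M => χ m) (hd : χ 1 ∉ pInt p) {a : X} (ha : a ∈ L) :
    ∃ x0 : ZMod p, ∀ x ≠ x0, ∀ y, y * a⁻¹ ∈ M → Low n L y → av d χ x y = 0 := by
  classical
  have := S.nm
  have a1 : ∀ a ∈ P, ∃ T : Multiset (ZMod p × ZMod p), χ 1 - T.card ∈ pInt p ∧
      (a = 1 → ∀ t ∈ T, t.2 = 0) ∧
      (Nat.card (Multiplicative (ZMod (p ^ N))) : ℂ)⁻¹ * ∑ c : Multiplicative (ZMod (p ^ N)),
        χ ((u ^ d) ^ c.toAdd.val) - (T.filter fun t => t.1 = 0).card ∈ pInt p ∧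
      ∀ (i : ℕ) (x : ZMod p), ∀ q ∈ zpowers (u ^ p), av d χ x (q * (u ^ i * a)) = 0 →
        ((T.filter fun t => i * t.1 + t.2 = x).card : ZMod p) = 0 := fun a ha => by
    let B := P ⊓ (zpowers (a : X ⧸ M)).comap (QuotientGroup.mk' M)
    let u' : B := ⟨u, S.uP, 0, (zpow_zero _).trans ((QuotientGroup.eq_one_iff _).mpr S.uM).symm⟩
    have h1 : ∀ v : B, (v : X) ∈ M → v ∈ zpowers u' := fun v h => by
      obtain ⟨k, hk⟩ := nat_pow (S.gen v v.2.1 h)
      exact ⟨k, Subtype.ext (by simpa using hk.symm)⟩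
    have : (zpowers u').Normal := ⟨fun v hv b => h1 _ (S.nm.conj_mem _ (by
      obtain ⟨k, rfl⟩ := nat_pow hv
      exact pow_mem S.uM k) _)⟩
    obtain ⟨T, t1, t2, t3, t4⟩ := C.count S.hN (S.pg.to_inf_left (K := _)) (φ := B.subtype)
      (fun y => Subtype.ext (S.pw y.2.1)) (u := u') (a := ⟨a, ha, mem_zpowers _⟩) fun b => by
        obtain ⟨k, hk⟩ := nat_pow b.2.2
        refine ⟨k, h1 _ ((QuotientGroup.eq_one_iff _).mp ?_)⟩
        simpa [mul_inv_eq_one] using hk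
    refine ⟨T, t1, fun h => t2 (Subtype.ext h), t3, fun i x q hq h => ?_⟩
    obtain ⟨k, rfl⟩ := nat_pow hq
    exact (ZMod.natCast_eq_zero_iff _ _).mpr
      (t4 i x _ (pow_mem (mem_zpowers _) k) (by rwa [← mul_assoc] at h))
  have a2 : ∀ a ∈ L, ∀ x : ZMod p, (¬ ∀ y, y * a⁻¹ ∈ M → Low n L y → av d χ x y = 0) →
      ∀ i : ℕ, ¬ p ∣ i → ∃ q ∈ zpowers (u ^ p), av d χ x (q * (u ^ i * a)) = 0 :=
    fun a ha x h i hi => by_contra fun h1 => h fun y h2 h3 => S.van C hθ hθ'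
      (mul_mem (pow_mem S.uP i) (S.le ha))
      (fun h4 => S.u1 (S.root S.uP hi ((mul_mem_cancel_right ha).mp h4)))
      (fun q hq h4 => h1 ⟨q, hq, h4⟩)
      (by simpa [mul_assoc] using mul_mem h2 (inv_mem (pow_mem S.uM i))) h3
  obtain ⟨T0, -, t2, t3, t4⟩ := a1 1 (one_mem P)
  obtain ⟨q, hq, h1⟩ := a2 1 (one_mem L) 0 (fun h => hd (by
    have h1 := h 1 (by simp) (low_of (one_mem L))
    simp only [av, gt, one_pow, zero_mul, neg_zero, AddChar.map_zero_eq_one, one_mul, sum_const,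
      card_univ, ZMod.card, nsmul_eq_mul] at h1
    rw [inv_mul_cancel_left₀ (Nat.cast_ne_zero.mpr S.hp.ne_zero)] at h1
    exact h1 ▸ zero_mem _)) 1 S.hp.not_dvd_one
  have h2 := (ZMod.natCast_eq_zero_iff _ _).mp (t4 1 0 q hq h1)
  rw [Multiset.filter_congr (q := fun t => t.1 = 0) fun t ht => by simp [t2 rfl t ht]] at h2
  obtain ⟨T, t1, -, t5, t6⟩ := a1 a (S.le ha)
  refine comb (T := T) (fun h => hd ?_) ?_ (fun x h => ?_) fun x h i hi => ?_
  · simpa using add_mem t1 (nat_pInt.mpr ((ZMod.natCast_eq_zero_iff _ _).mp h))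
  · rw [ZMod.natCast_eq_zero_iff, ← nat_pInt]
    simpa using sub_mem (add_mem t3 (nat_pInt.mpr h2)) t5
  · simpa using t6 0 x 1 (one_mem _) (by simpa using h a (by simp) (low_of ha))
  · obtain ⟨q, hq, h3⟩ := a2 a ha x h i.val fun h3 => hi (by
      rw [← ZMod.natCast_zmod_val i, ZMod.natCast_eq_zero_iff]; exact h3)
    simpa using t6 _ x q hq h3

theorem quot : Nat.card P ∣ p * Nat.card L ∧ ∀ k, k ≠ 0 → ∀ q ∈ Qs P (p ^ k), (q : X) ∈ L := by
  have : (L.subgroupOf P).Normal := ⟨fun g hg b => S.fus _ (b * g * b⁻¹).2 (b : X)⁻¹ (by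
    simpa [mul_assoc] using mem_subgroupOf.mp hg)⟩
  let π := QuotientGroup.mk' (L.subgroupOf P)
  have h1 : ∀ c, c ∈ zpowers (π ⟨u, S.uP⟩) := fun c => by
    obtain ⟨g, rfl⟩ := QuotientGroup.mk_surjective c
    obtain ⟨x, hx⟩ := S.cov1 g g.2
    have h1 : π (⟨u, S.uP⟩ ^ x * g) = 1 := (QuotientGroup.eq_one_iff _).mpr hx
    rw [map_mul, map_pow, mul_eq_one_iff_inv_eq] at h1
    exact (show _ = (g : P ⧸ L.subgroupOf P) from h1) ▸ inv_mem (pow_mem (mem_zpowers _) x)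
  have h2 : π ⟨u, S.uP⟩ ^ p = 1 := (map_pow π _ p).symm.trans
    ((QuotientGroup.eq_one_iff (N := L.subgroupOf P) _).mpr S.up)
  refine ⟨?_, fun k hk q hq => (QuotientGroup.eq_one_iff (N := L.subgroupOf P) q).mp
    ((closure_le π.ker).mpr ?_ hq)⟩
  · rw [card_eq_card_quotient_mul_card_subgroup (L.subgroupOf P),
      Nat.card_congr (subgroupOfEquivOfLe S.le).toEquiv, ← orderOf_eq_card_of_forall_mem_zpowers h1]
    exact mul_dvd_mul_right (orderOf_dvd_of_pow_eq_one h2) _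
  · rintro _ (⟨a, b, rfl⟩ | ⟨a, rfl⟩)
    · obtain ⟨i, hi⟩ := nat_pow (h1 (π a))
      obtain ⟨k, hk⟩ := nat_pow (h1 (π b))
      change π _ = 1
      rw [map_mul, map_mul, map_mul, map_inv, map_inv, hi, hk, pow_mul_comm]
      group
    · obtain ⟨i, hi⟩ := nat_pow (h1 (π a))
      obtain ⟨c, hc⟩ := dvd_pow_self p hk
      change π _ = 1
      rw [map_pow, hi, hc, pow_right_comm, pow_mul, h2, one_pow, one_pow]

open Classical in
theorem low_int (hX : Nat.card X = p ^ N * n) {Θ : X → ℂ} (h : IsChar Θ) :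
    ∃ z : ℤ, (Nat.card X : ℂ)⁻¹ * p * ∑ y ∈ univ.filter (Low n L), Θ y = z := by
  have a0 : ∀ g : X, (g ^ n) ^ p ^ N = 1 := fun g => by rw [← pow_mul, mul_comm, S.hX]
  have a1 : ∀ (T : Subgroup X), ∀ x ∈ univ.filter (Low n L), ∀ t ∈ T,
      t * x * t⁻¹ ∈ univ.filter (Low n L) := fun T x hx t _ => mem_filter.mpr ⟨mem_univ _,
    (mem_filter.mp hx).2.of_conj (by rw [conj_pow]; exact (isConj_iff.mpr ⟨t, rfl⟩).symm)⟩
  have h0 : n ≠ 0 := by rintro rfl; exact S.hn (dvd_zero p)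
  obtain ⟨i, hi⟩ := IsPGroup.iff_card.mp (S.pg.to_le S.le)
  have a2 := mulInt_mul (hi ▸ co_pow S.hp S.hn i) (brauer h _ L _ rfl (a1 L) fun x hx F hF h1 f hf => by
    obtain ⟨b0, hb0⟩ := (mem_filter.mp hx).2
    have h2 : ∀ k, ∃ f' ∈ F, (x * f) ^ k = x ^ k * f' := fun k => by
      induction k with
      | zero => exact ⟨1, one_mem F, by simp⟩
      | succ k ih =>
        obtain ⟨f', h2, h3⟩ := ih
        exact ⟨_, mul_mem (h1 f' h2) hf, by rw [pow_succ, h3]; group⟩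
    obtain ⟨f', h2, h3⟩ := h2 n
    obtain ⟨b, -, hb⟩ := conj_into S.hp (H := P) (D := ⊤) (by simpa using S.idx) le_top
      ((pg_zpowers (a0 x)).to_sup_of_normal_right' (S.pg.to_le (hF.trans S.le)) (zpowers_le.mpr
        (pow_mem (inv_mem_iff.mp (mem_normalizer_fintype fun f hf => by simpa using h1 f hf)) n)))
    refine mem_filter.mpr ⟨mem_univ _, b, ?_⟩
    rw [h3, ← conj_mul]
    exact mul_mem (S.fus _ (hb _ (mem_sup_left (mem_zpowers _))) (b0 * b⁻¹) (by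
      convert hb0 using 1; group)) (S.fus _ (hb _ (mem_sup_right h2)) b⁻¹ (by
        simpa [mul_assoc] using hF h2)))
    (mulInt_of_prime_pow (IsIntegral.sum _ fun g _ => h.integral g) n h0 fun q k hq hk => by
      have := Fact.mk hq
      obtain ⟨T, hT⟩ := Sylow.exists_subgroup_card_pow_prime (G := X) q (hX ▸ hk.mul_left _)
      exact brauer h _ T _ hT (a1 T) fun x hx F hF h1 f hf => mem_filter.mpr ⟨mem_univ _,
        (mem_filter.mp hx).2.of_conj (conj_of_coset S.hp a0 h1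
          (fun h => S.hn (h.trans ((hT ▸ Subgroup.card_dvd_of_le hF).trans hk))) hf)⟩)
  obtain ⟨w, hw, a2⟩ := a2
  obtain ⟨c, hc⟩ : p ^ N ∣ p * Nat.card L := ((co_pow S.hp S.idx N).dvd_of_dvd_mul_right (by
    rw [P.card_mul_index, hX]; exact dvd_mul_right _ _)).trans S.quot.1
  refine int_of_fixed ?_ fun τ => ?_
  · convert hw.nsmul c using 1
    rw [a2, mul_assoc, inv_mul_eq_iff_eq_mul₀ cardX_ne, hX, nsmul_eq_mul, ← mul_assoc,
      ← mul_assoc]
    congr 1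
    exact_mod_cast (by rw [← mul_assoc, hc]; ring : p * (Nat.card L * n) = p ^ N * n * c)
  · obtain ⟨m, h1, h2⟩ := exists_exp τ (Nat.card_pos (α := X)).ne'
    obtain ⟨v, hv⟩ := exists_inv (Nat.card_pos (α := X)).ne' h1
    rw [map_mul, map_mul, map_inv₀, map_natCast, map_natCast, map_sum]
    refine congrArg _ (sum_bijective _ (pow_bij h1) (fun y => ?_) fun y _ =>
      h.acts h2 pow_card_eq_one')
    simp only [mem_filter, mem_univ, true_and]
    exact ⟨fun h => h.pow m, fun h => by simpa [← pow_mul, pow_congr hv] using h.pow v⟩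

end Cy

end Pool.Agent.MP_3e257e_al

/-! ### The congruence for almost quasi-simple groups whose socle has cyclic Sylow subgroups. -/

namespace Pool.Agent.MP_3e257e_al

open Finset Complex Subgroup

variable {X : Type} [Group X] [Fintype X] {p N n j d : ℕ} [hp : Fact p.Prime] {χ : X → ℂ}
  {M P L : Subgroup X} {u : X}

open Classical in
theorem isChar_reg : IsChar fun g : X => if g = 1 then (Nat.card X : ℂ) else 0 := by
  let ρ : Representation ℂ X (X → ℂ) :=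
    { toFun := fun g => LinearMap.funLeft ℂ ℂ (· * g)
      map_one' := by ext; simp
      map_mul' := fun a b => by ext; simp [LinearMap.funLeft, mul_assoc] }
  convert isChar_rep ρ using 1
  funext g
  rw [Representation.character, LinearMap.trace_eq_matrix_trace ℂ (Pi.basisFun ℂ X)]
  by_cases h : g = 1 <;> simp [h, Matrix.trace, LinearMap.toMatrix_apply, ρ, Pi.single_apply]

/-- A class function bounded by one with integral multiplicities is a linear character. -/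
theorem lin_of_int {β : X → ℂ} (h0 : ∀ c, normSq (β c) ≤ 1) (h1 : β 1 ≠ 0)
    (h2 : ∀ ψ, IsChar ψ → ∃ z : ℤ, ip β ψ = z) :
    (∀ c, normSq (β c) = 1) ∧ ∃ ν : X →* ℂ, ∀ c, β c = β 1 * ν c := by
  classical
  obtain ⟨s, hs, e⟩ := (isChar_reg (X := X)).decomp
  obtain ⟨ψ, h3, h4⟩ : ∃ ψ ∈ s, ip β ψ ≠ 0 := by
    by_contra! h3
    have h4 : ip β s.sum = 0 := by
      clear e hs
      induction s using Multiset.induction_on with
      | empty => simp [ip]
      | cons a s ih =>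
        refine Eq.trans (b := ip β a + ip β s.sum) ?_ (by rw [h3 a (Multiset.mem_cons_self a s),
          ih fun ψ h => h3 ψ (Multiset.mem_cons_of_mem h), add_zero])
        simp only [ip, Multiset.sum_cons, Pi.add_apply, mul_add, sum_add_distrib]
    rw [← e] at h4
    simp [ip, h1] at h4
  have h5 := (hs ψ h3).isChar
  obtain ⟨z, hz⟩ := h2 ψ h5
  have h6 := (isIrr_iff.mp (hs ψ h3)).2
  have h7 : (1 : ℝ) ≤ z ^ 2 := by
    have h7 : z ≠ 0 := by rintro rfl; exact h4 (by simpa using hz)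
    exact_mod_cast (one_le_sq_iff_one_le_abs z).mpr (Int.one_le_abs h7)
  simp only [ip, inv_mul_eq_iff_eq_mul₀ (cardX_ne (X := X)), ← h5.conj_eq, mul_conj] at hz h6
  have h8 : ∑ c, (normSq (β c - z * ψ c) + (1 - normSq (β c))) = Nat.card X * (1 - z ^ 2) := by
    have h8 := congrArg re hz
    have h9 := congrArg re h6
    simp only [re_sum, ofReal_re, mul_re, natCast_re, intCast_re, natCast_im, intCast_im, one_re,
      one_im] at h8 h9
    simp only [normSq_sub, normSq_mul, map_mul, map_intCast, mul_left_comm _ (z : ℂ), mul_re,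
      intCast_re, intCast_im, zero_mul, sub_zero, sum_add_distrib, sum_sub_distrib, ← mul_sum,
      normSq_intCast, h9, sum_const, card_univ, ← Nat.card_eq_fintype_card, nsmul_eq_mul] at h8 ⊢
    linear_combination (-2 * z) * h8
  have h9 : ∀ c ∈ univ, 0 ≤ normSq (β c - z * ψ c) + (1 - normSq (β c)) := fun c _ =>
    add_nonneg (normSq_nonneg _) (sub_nonneg.mpr (h0 c))
  have h10 := fun c => (sum_eq_zero_iff_of_nonneg h9).mp (le_antisymm (h8 ▸ mul_nonpos_of_nonneg_of_nonpos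
    (Nat.cast_nonneg _) (sub_nonpos.mpr h7)) (sum_nonneg h9)) c (mem_univ c)
  have h11 : ∀ c, normSq (β c) = 1 := fun c => by
    linarith [h10 c, normSq_nonneg (β c - z * ψ c), h0 c]
  have h12 : ∀ c, β c = z * ψ c := fun c =>
    sub_eq_zero.mp (normSq_eq_zero.mp (by linarith [h10 c, h11 c]))
  obtain ⟨k, hk⟩ := h5.one
  have h13 := h11 1
  rw [h12, hk, normSq_mul, normSq_intCast, normSq_natCast] at h13
  have h14 : ((k * k : ℕ) : ℤ) ∣ 1 := ⟨z * z, by
    rw [mul_comm]; exact_mod_cast h13.symm⟩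
  obtain rfl : k = 1 := Nat.eq_one_of_mul_eq_one_right (Nat.dvd_one.mp (by exact_mod_cast h14))
  rw [Nat.cast_one] at hk
  exact ⟨h11, h5.hom hk, fun c => by rw [h12, h12 1, hk, mul_one]; rfl⟩

theorem Ch.dq_av [Fintype P] (C : Ch p N n j d χ) (hP : IsPGroup p P) (v : P) :
    dq (p ^ j) (fun y : P => χ y) v = dq (p ^ j) (fun y : P => av d χ (0 : ZMod p) y) v := by
  have h : ∀ i : ZMod p, dq (p ^ j) (fun y : P => gt d χ i y) v = dq (p ^ j) (fun y : P => χ y) v :=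
    fun i => by
      rw [← dq_pow hP C.hj (fun y : P => χ y) (i.val * n) v, C.hd, mul_comm (p ^ j), mul_assoc]
      rfl
  have h0 : (p : ℂ) ≠ 0 := Nat.cast_ne_zero.mpr hp.1.ne_zero
  have h1 := sum_congr rfl fun i (_ : i ∈ univ) => h i
  rw [sum_const, card_univ, ZMod.card, nsmul_eq_mul, ← inv_mul_eq_iff_eq_mul₀ h0] at h1
  rw [← h1]
  simp only [dq, av, zero_mul, neg_zero, AddChar.map_zero_eq_one, one_mul, ← mul_sum]
  rw [sum_comm, mul_left_comm]

theorem Cy.main [Fintype P] (S : Cy p N n M P L u) (C : Ch p N n j d χ)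
    (hθ : IsIrr fun m : M => χ m) (hθ' : ¬ Inv p j fun m : M => χ m) (hd : χ 1 ∉ pInt p) :
    dq (p ^ j) (fun y : P => χ y) 1 ∈ pInt p := by
  classical
  have := S.nm
  let π := QuotientGroup.mk' M
  have a0 : ∀ a y : X, y * a⁻¹ ∈ M ↔ π y = π a := fun a y => by
    rw [← QuotientGroup.eq_one_iff, QuotientGroup.mk_mul, QuotientGroup.mk_inv, mul_inv_eq_one]
    rfl
  choose x0 hx0 using fun c : X ⧸ M => show ∃ x0 : ZMod p, ∀ x ≠ x0, ∀ y, π y = c → Low n L y →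
      av d χ x y = 0 by
    obtain ⟨b, rfl⟩ := QuotientGroup.mk'_surjective M c
    obtain ⟨g, hg, h1⟩ := S.cov b
    obtain ⟨i, hi⟩ := S.cov1 g hg
    obtain ⟨x0, h2⟩ := S.single C hθ hθ' hd hi
    refine ⟨x0, fun x hx y hy => h2 x hx y ?_⟩
    simpa [mul_assoc] using
      mul_mem (mul_mem ((a0 b y).mpr hy) h1) (inv_mem (pow_mem S.uM i))
  let T : X ⧸ M → Finset X := fun c => (univ.filter (π · = c)).filter (Low n L)
  let A : X ⧸ M → ℝ := fun c => (Nat.card M : ℝ)⁻¹ * (p * ∑ y ∈ T c, normSq (av d χ (x0 c) y))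
  have hM : (0 : ℝ) < Nat.card M := Nat.cast_pos.mpr Nat.card_pos
  have a1 : ∀ c, A c + (Nat.card M : ℝ)⁻¹ * (p * ∑ y ∈ (univ.filter (π · = c)).filter
      (¬ Low n L ·), normSq (av d χ (x0 c) y)) = 1 := fun c => by
    obtain ⟨b, rfl⟩ := QuotientGroup.mk'_surjective M c
    rw [← mul_add, ← mul_add, sum_filter_add_sum_filter_not, inv_mul_eq_one₀ hM.ne',
      ← C.av_norm hθ hθ' (x0 (π b)) b, sum_coset (M := M) (fun y => normSq (av d χ _ y)) b]
    simp only [a0]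
    rfl
  have a2 : ∀ (s : Finset X) (x : ZMod p),
      0 ≤ (Nat.card M : ℝ)⁻¹ * (p * ∑ y ∈ s, normSq (av d χ x y)) := fun s x =>
    mul_nonneg (inv_nonneg.mpr hM.le) (mul_nonneg (Nat.cast_nonneg _)
      (sum_nonneg fun _ _ => normSq_nonneg _))
  have a3 : ∀ c, ∀ y ∈ T c, χ y = av d χ (x0 c) y ∧ χ (y ^ (1 + d)) = ps p (x0 c) * χ y := by
    intro c y hy
    have h1 := fun x hx => hx0 c x hx y (mem_filter.mp (mem_filter.mp hy).1).2 (mem_filter.mp hy).2
    have h2 : χ y = av d χ (x0 c) y := by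
      rw [← av_sum (p := p) (d := d) (χ := χ) y, sum_eq_single _ (fun x _ hx => h1 x hx) (by simp)]
    refine ⟨h2, ?_⟩
    rw [← av_sum (p := p) (d := d) (χ := χ) (y ^ _), sum_eq_single (x0 c) (fun x _ hx => by
      rw [C.av_shift, h1 x hx, mul_zero]) (by simp), C.av_shift, h2]
  have a4 : ∀ c, (Nat.card M : ℂ)⁻¹ * (p * ∑ y ∈ T c, χ (y ^ (1 + d)) * χ y⁻¹) =
      ps p (x0 c) * A c := fun c => by
    rw [sum_congr rfl fun y hy => by rw [(a3 c y hy).2, mul_assoc, C.hc.nsq, (a3 c y hy).1],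
      ← mul_sum]
    simp only [A]
    push_cast
    ring
  have a5 : (1 : X) ∈ T 1 := by simpa [T] using low_of (one_mem L)
  have a6 : χ 1 ≠ 0 := fun h => hd (h ▸ zero_mem _)
  have a7 : ps p (x0 1) = 1 := (mul_eq_right₀ a6).mp (by simpa using (a3 1 1 a5).2.symm)
  obtain ⟨b1, ν, b2⟩ := lin_of_int (β := fun c => ps p (x0 c) * A c) (fun c => by
    rw [normSq_mul, ps_norm, one_mul, normSq_ofReal]
    nlinarith [a1 c, a2 (T c) (x0 c), a2 ((univ.filter (π · = c)).filter (¬ Low n L ·)) (x0 c)])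
    (by
      rw [a7, one_mul, ofReal_ne_zero]
      refine (mul_pos (inv_pos.mpr hM) (mul_pos (Nat.cast_pos.mpr S.hp.pos) (sum_pos'
        (fun _ _ => normSq_nonneg _) ⟨1, a5, ?_⟩))).ne'
      rw [← (a3 1 1 a5).1]
      exact normSq_pos.mpr a6) fun ψ hψ => by
    have h1 := C.gt_char ((1 : ℕ) : ZMod p)
    rw [funext (C.gt_nat 1), one_mul] at h1
    obtain ⟨z, hz⟩ := S.low_int C.hX ((h1.mul C.hc.inv).mul (hψ.inv.comp π))
    refine ⟨z, Eq.trans ?_ hz⟩
    rw [ip, ← sum_fiberwise_of_maps_to (g := π) (t := univ) fun _ _ => mem_univ _,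
      card_eq_card_quotient_mul_card_subgroup M, Nat.cast_mul, mul_inv, mul_assoc, mul_assoc,
      mul_sum univ _ (p : ℂ), mul_sum univ _ (Nat.card M : ℂ)⁻¹]
    refine congrArg _ (sum_congr rfl fun c _ => ?_)
    rw [← a4, mul_assoc, mul_assoc, sum_mul, filter_comm]
    exact congrArg _ (congrArg _ (sum_congr rfl fun y hy => by
      rw [(mem_filter.mp (mem_filter.mp hy).1).2]))
  have b3 : ∀ c, A c = 1 := fun c => by
    have h1 := b1 c
    rw [normSq_mul, ps_norm, one_mul, normSq_ofReal] at h1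
    exact (mul_self_eq_one_iff.mp h1).resolve_right fun h => by linarith [a2 (T c) (x0 c)]
  simp only [b3, a7, ofReal_one, mul_one, one_mul] at b2
  refine dq_van S.hp (C.hc.comp P.subtype) (x := ⟨u, S.uP⟩) ((C.dq_av S.pg _).trans
    (mul_eq_zero_of_right _ (sum_eq_zero fun q _ => ?_)))
  have h1 := S.quot.2 j C.hj q q.2
  have h2 : π (q * u) = π q := by
    rw [map_mul, show π u = 1 from (QuotientGroup.eq_one_iff _).mpr S.uM, mul_one]
  have h3 : x0 (π q) = 0 := ps_one.mp ((b2 _).trans (hom_Qs (ν.comp (π.comp P.subtype))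
    (fun a => by
      obtain ⟨c, hc⟩ := dvd_pow_self p C.hj
      change ν (π a) ^ _ = 1
      rw [← b2, hc, pow_mul, ps_p, one_pow]) q.2))
  have h4 := a1 (π q)
  rw [b3, add_eq_left, mul_eq_zero, mul_eq_zero, or_iff_right (inv_ne_zero hM.ne'),
    or_iff_right (Nat.cast_ne_zero.mpr S.hp.ne_zero), h3] at h4
  refine normSq_eq_zero.mp ((sum_eq_zero_iff_of_nonneg fun _ _ => normSq_nonneg _).mp h4 _
    (mem_filter.mpr ⟨mem_filter.mpr ⟨mem_univ _, h2⟩, ?_⟩))
  simpa using (S.high (mul_mem q.1.2 S.uP) (fun h => S.u1 ((mul_mem_cancel_left h1).mp h))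
    (Commute.one_left _) (one_pow n) S.hp.not_dvd_one 1).2

theorem Cy.gall [Fintype P] (S : Cy p N n M P L u) (C : Ch p N n j d χ)
    (hθ : IsIrr fun m : M => χ m) (hθ' : Inv p j fun m : M => χ m) (hχ : ¬ Inv p j χ) :
    dq (p ^ j) (fun y : P => χ y) 1 ∈ pInt p := by
  classical
  have := S.nm
  obtain ⟨ν, h1, h2, -⟩ := pair_eq (C.gt_char ((1 : ℕ) : ZMod p)) C.hc (C.gt_irr hθ _) hθ
    (funext fun m => (C.gt_nat 1 _).trans (hθ' m N n (1 + 1 * d) C.hn (Subtype.ext (C.ex _))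
      (C.hd ▸ ((Nat.modEq_iff_dvd' (Nat.le_add_right _ _)).mpr (by simp)).symm)))
  have h3 : ∀ (m : ℕ) y, gt d χ (m : ZMod p) y = χ y * ν y ^ (m + d * ∑ i ∈ range m, i) := by
    intro m y
    induction m with
    | zero => simp [gt]
    | succ m ih =>
      rw [add_comm m, Nat.cast_add, ← C.gt_add, h2, ← C.gt_nat, ih, map_pow, add_comm 1 m,
        sum_range_succ]
      ring
  obtain ⟨k, hk⟩ := hp.1.odd_of_ne_two S.odd
  have h4 : ∀ a ∈ P, ν a ^ p = 1 := fun a ha => by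
    obtain ⟨m, hm, h4⟩ := (pair_self C.hc hθ a).1
    have h5 := h3 p (m * a)
    have h6 : ∑ i ∈ range p, i = p * k := by
      have := sum_range_id_mul_two p
      rw [show p - 1 = k * 2 by omega, ← mul_assoc] at this
      omega
    rw [ZMod.natCast_self, gt, ZMod.val_zero, zero_mul, add_zero, pow_one, eq_comm,
      mul_eq_left₀ h4, map_mul, h1 m hm, one_mul, h6,
      show p + d * (p * k) = p * (1 + k * d) by ring, pow_mul] at h5
    exact (pow_eq_one_iff_of_coprime (co_pow hp.1 (fun h => hp.1.not_dvd_one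
      (((C.md k).dvd_iff (dvd_mul_right p n)).mp h)) N)).mp
        ⟨by rw [pow_right_comm, ← map_pow, S.pw ha, map_one, one_pow], h5⟩
  obtain ⟨a, ha, h5⟩ : ∃ a ∈ P, ν a ≠ 1 := by
    by_contra! h5
    refine hχ ((C.inv_of_fix (M := ⊤) fun y _ => ?_).of_surj hp.1 (φ := (⊤ : Subgroup X).subtype)
      fun x => ⟨⟨x, trivial⟩, rfl⟩)
    obtain ⟨a, ha, h6⟩ := S.cov y
    have h7 := h1 _ h6
    have h8 := h2 y
    rwa [C.gt_nat, one_mul, ← inv_mul_cancel_right y a, map_mul, h7, h5 a ha, mul_one, mul_one,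
      inv_mul_cancel_right] at h8
  refine dq_van S.hp (C.hc.comp P.subtype) (x := ⟨a, ha⟩) ?_
  have h6 := dq_pow S.pg C.hj (fun y : P => χ y) n ⟨a, ha⟩
  refine by_contra fun h7 => h5 ((mul_eq_left₀ h7).mp (Eq.trans ?_ h6))
  rw [dq, dq, mul_assoc, sum_mul]
  refine congrArg _ (sum_congr rfl fun q _ => ?_)
  have h8 := h2 ((q * ⟨a, ha⟩ : P) : X)
  rw [C.gt_nat, one_mul, C.hd, mul_comm (p ^ j), Subgroup.coe_mul, map_mul,
    show ν q = 1 from hom_Qs (ν.comp P.subtype) (fun a => by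
      obtain ⟨c, hc⟩ := dvd_pow_self p C.hj
      change ν a ^ _ = 1
      rw [hc, pow_mul, h4 a a.2, one_pow]) q.2, one_mul] at h8
  exact h8.symm

theorem good_cyc {G : Type} [Group G] [Finite G] {V : FDRep ℂ G} {M : Subgroup G}
    (h : AlmostQS p V M) (hc : ∀ R : Sylow p (M ⧸ center M), IsCyclic R) : Good p V.character := by
  classical
  obtain ⟨h0, hd, _, h1, -, -, ⟨k, hk⟩, h2, h3⟩ := h
  have := Fintype.ofFinite G
  obtain ⟨N, n, hn, hX⟩ := exists_card hp.1 G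
  have hX' : ∀ x : G, x ^ (p ^ N * n) = 1 := fun x => hX ▸ pow_card_eq_one'
  obtain ⟨P, hP⟩ := cov_syl hp.1 G
  let M' : Subgroup G :=
    { carrier := {x | ∃ z ∈ center G, z ^ n = 1 ∧ x * z⁻¹ ∈ M}
      one_mem' := ⟨1, one_mem _, one_pow n, by simp⟩
      mul_mem' := by
        rintro a b ⟨z, z1, z2, z3⟩ ⟨w, w1, w2, w3⟩
        refine ⟨z * w, mul_mem z1 w1, by
          rw [Commute.mul_pow (mem_center_iff.mp w1 z), z2, w2, one_mul], ?_⟩
        convert mul_mem z3 w3 using 1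
        rw [mul_inv_rev, ← mul_assoc, mul_assoc a b, mul_assoc a,
          mem_center_iff.mp (inv_mem z1) (b * w⁻¹), mul_assoc]
      inv_mem' := by
        rintro a ⟨z, z1, z2, z3⟩
        refine ⟨z⁻¹, inv_mem z1, by rw [inv_pow, z2, inv_one], ?_⟩
        rw [inv_inv, mem_center_iff.mp z1]
        simpa using inv_mem z3 }
  have a1 : M ≤ M' := fun x hx => ⟨1, one_mem _, one_pow n, by simpa using hx⟩
  have : M'.Normal := ⟨fun x ⟨z, z1, z2, z3⟩ b => ⟨z, z1, z2, by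
    convert ‹M.Normal›.conj_mem _ z3 b using 1
    rw [mul_assoc (b * x), mem_center_iff.mp (inv_mem z1) b⁻¹]
    group⟩⟩
  have a2 : ∀ q ∈ (P : Subgroup G), q ∈ M' → q ∈ M := fun q hq ⟨z, z1, z2, z3⟩ =>
    mem_of_pows hp.1 hn (k := N) (by
      simpa [Commute.mul_pow (mem_center_iff.mp (inv_mem z1) q), z2] using pow_mem z3 n)
      (pel hp.1 hn hX' P.2 hq ▸ one_mem M)
  have a3 : M' ⊔ P = ⊤ := by
    obtain ⟨i, hi⟩ := IsPGroup.iff_card.mp (show IsPGroup p (G ⧸ M') from fun c => by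
      obtain ⟨x, rfl⟩ := QuotientGroup.mk_surjective c
      obtain ⟨m, hm, z, hz, h4⟩ := mem_sup_of_normal_left.mp (hk ▸ (M ⊔ center G).pow_index_mem x)
      refine ⟨k + N, (QuotientGroup.eq_one_iff (x ^ _)).mpr ⟨z ^ p ^ N, pow_mem hz _, by
        rw [← pow_mul, hX'], ?_⟩⟩
      rw [pow_add, pow_mul, ← h4, Commute.mul_pow (mem_center_iff.mp hz m), mul_inv_cancel_right]
      exact pow_mem hm _)
    exact index_eq_one.mp (Nat.eq_one_of_dvd_coprimes (co_pow hp.1 P.not_dvd_index i)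
      (hi ▸ index_dvd_of_le le_sup_left) (index_dvd_of_le le_sup_right))
  let f : (P ⊓ M : Subgroup G) →* M ⧸ center M :=
    (QuotientGroup.mk' _).comp (inclusion inf_le_right)
  obtain ⟨R, hR⟩ := ((P.2.to_inf_left (K := M)).of_surjective _
    f.rangeRestrict_surjective).exists_le_sylow
  have := hc R
  have : IsCyclic (P ⊓ M : Subgroup G) := isCyclic_of_injective
    (f.codRestrict R.1 fun x => hR ⟨x, rfl⟩) ((injective_iff_map_eq_one _).mpr fun x hx => by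
      let ρ : Representation ℂ M V := V.ρ.comp M.subtype
      have h4 : (⟨x, x.2.2⟩ : M) ∈ center M :=
        (QuotientGroup.eq_one_iff _).mp (congrArg Subtype.val hx)
      obtain ⟨c, h5⟩ := schur (ρ := ρ) h2 (T := ρ ⟨x, x.2.2⟩) fun y => by
        rw [← map_mul, ← map_mul, mem_center_iff.mp h4]
      have := IsIrr.nontrivial (ρ := ρ) h2
      have h6 : LinearMap.det (ρ ⟨x, x.2.2⟩) = 1 := congrArg Units.val
        (Abelianization.commutator_subset_ker (LinearMap.det.comp ρ).toHomUnits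
          (h1.ge (mem_top _)))
      rw [h5, LinearMap.det_smul, map_one, mul_one] at h6
      have h7 := congrArg (· ^ p ^ N) h5
      simp only [← map_pow, smul_pow, one_pow] at h7
      rw [show (⟨x, x.2.2⟩ : M) ^ p ^ N = 1 from Subtype.ext (pel hp.1 hn hX' P.2 x.2.1),
        map_one] at h7
      rw [(pow_eq_one_iff_of_coprime (co_pow hp.1 hd N)).mp ⟨smul_left_injective ℂ one_ne_zero
        (h7.symm.trans (one_smul ℂ _).symm), h6⟩, one_smul] at h5
      exact Subtype.ext (h0 (h5.trans (map_one V.ρ).symm)))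
  obtain ⟨u, hu⟩ := IsCyclic.exists_generator (α := (P ⊓ M : Subgroup G))
  have S : Su p N n M' P u := ⟨hp.1, hn, hX', ‹_›, P.2, P.not_dvd_index, fun x => by
    obtain ⟨m, hm, a, ha, rfl⟩ := mem_sup_of_normal_left.mp (a3.ge (mem_top x))
    exact ⟨a, ha, by simpa using hm⟩, a1 u.2.2, u.2.1, fun q hq h => by
      obtain ⟨i, hi⟩ := hu ⟨q, hq, a2 q hq h⟩
      exact ⟨i, congrArg Subtype.val hi⟩⟩
  obtain ⟨y, y1, y2, y3⟩ : ∃ y ∈ M, y * u * y⁻¹ ∈ zpowers (u : G) ∧ y * u ≠ u * y := by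
    by_contra! h4
    obtain ⟨K, k1, k2⟩ := pnil hp.1 hn hX' (S.pw S.uP) u.2.2 (S.rel u.2.2 a1) h4
    have : (K.subgroupOf M).Normal := ⟨fun s hs b => (k1 _).mpr ⟨(b * s * b⁻¹).2, by
      change ((b : G) * s * (b : G)⁻¹) ^ n = 1
      rw [conj_pow, show (s : G) ^ n = 1 from ((k1 _).mp hs).2]
      group⟩⟩
    let π := QuotientGroup.mk' (K.subgroupOf M)
    have h5 : ∀ a, ∃ i : ℕ, π a = π ⟨u, u.2.2⟩ ^ i := fun a => by
      obtain ⟨q, hq, s, hs, h5⟩ := k2 a a.2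
      obtain ⟨i, rfl⟩ := nat_pow hq
      refine ⟨i, ?_⟩
      rw [← map_pow, ← mul_one (π (_ ^ i)), ← show π ⟨s, ((k1 s).mp hs).1⟩ = 1 from
        (QuotientGroup.eq_one_iff _).mpr hs, ← map_mul]
      exact congrArg π (Subtype.ext h5)
    have h6 : commutator M ≤ K.subgroupOf M := commutator_le.mpr fun a _ b _ => by
      obtain ⟨i, hi⟩ := h5 a
      obtain ⟨k, hk⟩ := h5 b
      rw [← QuotientGroup.eq_one_iff]
      change π _ = 1
      rw [map_commutatorElement, hi, hk, commutatorElement_eq_one_iff_mul_comm, pow_mul_comm]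
    refine not_le.mpr h3 ((inv_iff_lev hp.1 h2.isChar one_ne_zero).mp
      (inv_of hp.1 hn fun t ht g => ?_))
    have h7 : g ^ n = 1 := Subtype.ext ((k1 _).mp (h6 (h1.ge (mem_top g)))).2
    rw [pow_eq_pow_mod _ h7, ht.of_mul_left _, ← pow_eq_pow_mod _ h7, pow_one]
  obtain ⟨L, S⟩ := S.cy (a1 y1) y2 y3
  intro Y _ _ φ hφ j hj hD hI
  have hχ : IsChar V.character := ⟨V, rfl⟩
  have C : Ch p N n j _ V.character := ⟨hn, hX, hj, rfl, hχ, hI⟩
  have h4 := IsIrr.of_res (hχ.comp M'.subtype) (ι := inclusion a1) h2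
  rw [dq_cover hp.1 hφ hP hχ] at hD
  by_contra h5
  by_cases h6 : Inv p j fun m : M' => V.character m
  · exact hD (S.gall C h4 h6 h5)
  · exact hD (S.main C h4 h6 (by simpa [nat_pInt] using hd))

omit hp in
theorem good_of_cl {G : Type} [Group G] [Finite G] (hp : p.Prime)
    (hG : Cl p (TC p) (⊥ : Subgroup G)) : LevEqEll p G :=
  haveI := Fact.mk hp
  good_of_red hp hG fun _ _ _ _ M h h1 =>
    haveI := Group.isPerfect_def.mpr h.2.2.2.1
    haveI := h.2.2.1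
    haveI := h.2.2.2.2.1
    good_cyc h ((cl_iff.mp h1 M _ (QuotientGroup.mk' (center M)) (.of_normal M)
      (QuotientGroup.mk'_surjective _) this
      (Group.IsPerfect.not_isMulCommutative _)).resolve_left (not_tame hp h))

end Pool.Agent.MP_3e257e_al
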