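import Mathlib

/-!
Definitions for the rationality level of a character and the invariant `ell`.
-/

set_option autoImplicit false

namespace Pool.Agent.MP_3e257e_al

/-- `θ` is the character of a simple finite-dimensional complex representation of `X`. -/
def IsIrr {X : Type} [Group X] (θ : X → ℂ) : Prop :=
  ∃ V : FDRep ℂ X, CategoryTheory.Simple V ∧ V.character = θ

/-- The cyclotomic field generated by `exp (2 π i / n)` inside the complex numbers. -/
noncomputable def cyc (n : ℕ) : IntermediateField ℚ ℂ :=
  IntermediateField.adjoin ℚ {Complex.exp (2 * Real.pi * Complex.I / n)}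

/-- The conductor: the least `n ≥ 1` such that all values lie in the `n`-th cyclotomic field. -/
noncomputable def cond {X : Type} (Ψ : X → ℂ) : ℕ := sInf {n : ℕ | 1 ≤ n ∧ ∀ x, Ψ x ∈ cyc n}

/-- The `p`-rationality level: the `p`-adic valuation of the conductor. -/
noncomputable def lev {X : Type} (p : ℕ) (Ψ : X → ℂ) : ℕ := padicValNat p (cond Ψ)

/-- The usual inner product of class functions on a finite group. -/
noncomputable def ipc {X : Type} (θ Ψ : X → ℂ) : ℂ :=
  (Nat.card X : ℂ)⁻¹ * ∑ᶠ x, θ x * (starRingEnd ℂ) (Ψ x)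

/-- The degree of the level `i` part of `Ψ`: the sum of `[θ, Ψ] θ(1)` over the irreducible
characters `θ` of level `i`. -/
noncomputable def deltaDeg {X : Type} [Group X] (p i : ℕ) (Ψ : X → ℂ) : ℂ :=
  ∑ᶠ θ ∈ {θ : X → ℂ | IsIrr θ ∧ lev p θ = i}, ipc θ Ψ * θ 1

/-- The largest `i` such that the degree of the level `i` part is not an integer multiple
of `p`. -/
noncomputable def ell {X : Type} [Group X] (p : ℕ) (Ψ : X → ℂ) : ℕ :=
  sSup {i : ℕ | ¬ ∃ z : ℤ, deltaDeg p i Ψ = p * z}

/-- The number of conjugacy classes of `G` that contain an element of the centre of `P`. -/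
noncomputable def centralClasses {G : Type} [Group G] (P : Subgroup G) : ℕ :=
  Set.ncard {c : ConjClasses G | ∃ u ∈ P, (∀ v ∈ P, u * v = v * u) ∧ ConjClasses.mk u = c}

end Pool.Agent.MP_3e257e_al
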