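import Pool.Agent.MP_3e257e_al.Sec

/-!
The invariant `ell` on a finite `p`-group.
-/

set_option autoImplicit false

namespace Pool.Agent.MP_3e257e_al

open Finset MulAction

variable {Y : Type} [Group Y]

/-- The subgroup generated by commutators and `k`-th powers. -/
def Qs (Y : Type) [Group Y] (k : ℕ) : Subgroup Y :=
  Subgroup.closure {x | (∃ a b, x = a * b * a⁻¹ * b⁻¹) ∨ ∃ a, x = a ^ k}

theorem comm_mem (k : ℕ) (a b : Y) : a * b * a⁻¹ * b⁻¹ ∈ Qs Y k :=
  Subgroup.subset_closure (Or.inl ⟨a, b, rfl⟩)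

theorem pow_mem_Qs (k : ℕ) (a : Y) : a ^ k ∈ Qs Y k := Subgroup.subset_closure (Or.inr ⟨a, rfl⟩)

instance (k : ℕ) : (Qs Y k).Normal :=
  ⟨fun n hn g => by simpa using (Qs Y k).mul_mem (comm_mem k g n) hn⟩

theorem dvd_index [Finite Y] {p : ℕ} (hp : p.Prime) (hY : IsPGroup p Y) {D : Subgroup Y}
    (hD : D ≠ ⊤) : p ∣ D.index := by
  have := Fact.mk hp
  obtain ⟨n, hn⟩ := hY.index D
  rw [hn]
  refine dvd_pow_self p ?_
  rintro rfl
  exact hD (Subgroup.index_eq_one.mp hn)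

theorem sup_Qs_ne [Finite Y] {p : ℕ} (hp : p.Prime) (hY : IsPGroup p Y) {D : Subgroup Y}
    (hD : D ≠ ⊤) {k : ℕ} (hk : p ∣ k) : D ⊔ Qs Y k ≠ ⊤ := by
  have := Fact.mk hp
  obtain ⟨M, hM, hDM⟩ := (eq_top_or_exists_le_coatom D).resolve_left hD
  have := hY.isNilpotent
  have : M.Normal := Subgroup.NormalizerCondition.normal_of_coatom M
    Group.normalizerCondition_of_isNilpotent hM
  obtain ⟨g, hg⟩ := exists_prime_orderOf_dvd_card' (G := Y ⧸ M) p (dvd_index hp hY hM.1)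
  have h1 : Subgroup.zpowers g = ⊤ := by
    have h2 : M ≤ (Subgroup.zpowers g).comap (QuotientGroup.mk' M) := by
      intro x hx
      rw [Subgroup.mem_comap, QuotientGroup.mk'_apply, (QuotientGroup.eq_one_iff x).mpr hx]
      exact one_mem _
    rcases h2.eq_or_lt with h3 | h3
    · obtain ⟨x, rfl⟩ := QuotientGroup.mk'_surjective M g
      have h4 : x ∈ M := h3 ▸ Subgroup.mem_zpowers _
      rw [QuotientGroup.mk'_apply, (QuotientGroup.eq_one_iff x).mpr h4, orderOf_one] at hg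
      exact absurd hg.symm hp.one_lt.ne'
    · exact Subgroup.comap_injective (QuotientGroup.mk'_surjective M) (hM.2 _ h3)
  have h5 : Nat.card (Y ⧸ M) = p := by
    rw [← Subgroup.card_top, ← h1, Nat.card_zpowers, hg]
  have h6 := isCyclic_of_prime_card h5
  refine ne_top_of_le_ne_top hM.1 (sup_le hDM ((Subgroup.closure_le _).mpr ?_))
  rintro x (⟨a, b, rfl⟩ | ⟨a, rfl⟩)
  · refine (QuotientGroup.eq_one_iff _).mp ?_
    simp only [QuotientGroup.mk_mul, QuotientGroup.mk_inv]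
    rw [h6.isMulCommutative.is_comm.comm (a : Y ⧸ M) b]
    group
  · obtain ⟨t, rfl⟩ := hk
    refine (QuotientGroup.eq_one_iff _).mp ?_
    rw [QuotientGroup.mk_pow, pow_mul, ← h5, pow_card_eq_one', one_pow]

/-- Integer multiples of `p`. -/
def pInt (p : ℕ) : AddSubgroup ℂ where
  carrier := {x | ∃ z : ℤ, x = p * z}
  add_mem' := by
    rintro _ _ ⟨w, rfl⟩ ⟨w', rfl⟩
    exact ⟨w + w', by push_cast; ring⟩
  zero_mem' := ⟨0, by simp⟩
  neg_mem' := by
    rintro _ ⟨w, rfl⟩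
    exact ⟨-w, by push_cast; ring⟩

theorem IsChar.map_pow {θ : Y → ℂ} (h : IsChar θ) (h1 : θ 1 = 1) (a : Y) (k : ℕ) :
    θ (a ^ k) = θ a ^ k := by
  induction k with
  | zero => simpa using h1
  | succ k ih => rw [pow_succ, h.mul_of_one h1, ih, pow_succ]

variable [Fintype Y]

open Classical in
/-- The character on the fixed vectors of `Qs Y k`. -/
noncomputable def dq (k : ℕ) (θ : Y → ℂ) (v : Y) : ℂ :=
  (Nat.card (Qs Y k) : ℂ)⁻¹ * ∑ q : Qs Y k, θ (q * v)

theorem dq_of_triv {k : ℕ} {θ : Y → ℂ} (h : ∀ q ∈ Qs Y k, ∀ y, θ (q * y) = θ y) (v : Y) :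
    dq k θ v = θ v := by
  classical
  rw [dq, sum_congr rfl fun (q : Qs Y k) _ => h q q.2 v, sum_const, card_univ, ← Nat.card_eq_fintype_card,
    nsmul_eq_mul, inv_mul_cancel_left₀ (Nat.cast_ne_zero.mpr Nat.card_pos.ne')]

theorem IsIrr.tri {θ : Y → ℂ} (h : IsIrr θ) (k : ℕ) :
    (∀ v, dq k θ v = 0) ∨ (θ 1 = 1 ∧ ∀ v, dq k θ v = θ v ∧ θ v ^ k = 1) := by
  classical
  rcases h.dich (Qs Y k) with h1 | h1
  · exact Or.inl fun v => by rw [dq, h1, mul_zero]
  have h2 : θ 1 = 1 := h.one_eq_of_comm fun g a y => by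
    rw [← h1 _ (comm_mem k g a) (a * y)]
    congr 1
    group
  refine Or.inr ⟨h2, fun v => ⟨dq_of_triv h1 v, ?_⟩⟩
  rw [← h.isChar.map_pow h2, ← mul_one (v ^ k), h1 _ (pow_mem_Qs k v), h2]

theorem dq_sum (k : ℕ) (s : Multiset (Y → ℂ)) (v : Y) :
    dq k s.sum v = (s.map fun θ => dq k θ v).sum := by
  induction s using Multiset.induction_on with
  | empty => simp [dq]
  | cons a s ih =>
    rw [Multiset.sum_cons, Multiset.map_cons, Multiset.sum_cons, ← ih]
    simp only [dq, Pi.add_apply, sum_add_distrib, mul_add]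

theorem IsIrr.dq_one {p : ℕ} (hp : p.Prime) (hp2 : p ≠ 2) (hY : IsPGroup p Y) {θ : Y → ℂ}
    (h : IsIrr θ) {j : ℕ} (hj : j ≠ 0) :
    dq (p ^ j) θ 1 - (if lev p θ ≤ j then θ 1 else 0) ∈ pInt p := by
  have := Fact.mk hp
  obtain ⟨N, hN⟩ := IsPGroup.iff_card.mp hY
  obtain ⟨d, hd⟩ := h.isChar.one
  by_cases hpd : p ∣ d
  · rcases h.tri (p ^ j) with h1 | ⟨h1, -⟩
    · rw [h1, zero_sub]
      refine neg_mem ?_
      split_ifs
      · obtain ⟨t, rfl⟩ := hpd
        exact ⟨t, by rw [hd]; push_cast; rfl⟩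
      · exact zero_mem _
    · rw [h1] at hd
      have : d = 1 := by exact_mod_cast hd.symm
      rw [this] at hpd
      exact absurd (Nat.dvd_one.mp hpd) hp.one_lt.ne'
  have h1 : θ 1 = 1 := by
    obtain ⟨i, -, rfl⟩ := (Nat.dvd_prime_pow hp).mp (hN ▸ h.degree_dvd hd)
    have : i = 0 := by
      by_contra h2
      exact hpd (dvd_pow_self p h2)
    rw [hd, this]
    simp
  have h2 : (∀ v, θ v ^ p ^ j = 1) ↔ lev p θ ≤ j := by
    have h3 := key hp hp2 h.isChar (N := N) (n := 1) (r := 1 + p ^ j) (by rw [hN, mul_one])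
      (by simpa using hp.one_lt.ne')
      ((Nat.modEq_iff_dvd' (Nat.le_add_right _ _)).mpr (by simpa using dvd_pow_self p hj)).symm
    rw [Nat.ModEq.comm, Nat.modEq_iff_dvd' (Nat.le_add_right _ _), Nat.add_sub_cancel_left,
      Nat.pow_dvd_pow_iff_le_right hp.one_lt] at h3
    rw [← h3]
    refine forall_congr' fun v => ?_
    have h4 : θ v ≠ 0 := fun h5 => by
      have := h.isChar.mul_of_one h1 v v⁻¹
      rw [mul_inv_cancel, h1, h5, zero_mul] at this
      exact one_ne_zero this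
    rw [h.isChar.map_pow h1, pow_add, pow_one, mul_eq_left₀ h4]
  split_ifs with h3
  · rw [dq_of_triv, sub_self]
    · exact zero_mem _
    intro q hq y
    rw [h.isChar.mul_of_one h1]
    suffices h5 : θ q = 1 by rw [h5, one_mul]
    induction hq using Subgroup.closure_induction with
    | mem x hx =>
      rcases hx with ⟨a, b, rfl⟩ | ⟨a, rfl⟩
      · rw [h.isChar.mul_of_one h1, h.isChar.conj, ← h.isChar.mul_of_one h1, mul_inv_cancel, h1]
      · rw [h.isChar.map_pow h1, h2.mpr h3]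
    | one => exact h1
    | mul a b _ _ ha hb => rw [h.isChar.mul_of_one h1, ha, hb, one_mul]
    | inv a _ ha =>
      have := h.isChar.mul_of_one h1 a a⁻¹
      rw [mul_inv_cancel, h1, ha, one_mul] at this
      exact this.symm
  · rcases h.tri (p ^ j) with h4 | ⟨-, h4⟩
    · rw [h4, sub_self]; exact zero_mem _
    · exact absurd (h2.mp fun v => (h4 v).2) h3

open Classical in
theorem ip_count {s : Multiset (Y → ℂ)} (hs : ∀ ψ ∈ s, IsIrr ψ) {θ : Y → ℂ} (h : IsIrr θ) :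
    ip θ s.sum = s.count θ := by
  induction s using Multiset.induction_on with
  | empty => simp [ip]
  | cons a s ih =>
    have h1 : ip θ (a + s.sum) = ip θ a + ip θ s.sum := by
      simp only [ip, Pi.add_apply, mul_add, sum_add_distrib]
    rw [Multiset.sum_cons, h1, ih fun ψ hψ => hs ψ (Multiset.mem_cons_of_mem hψ),
      Multiset.count_cons]
    split_ifs with h2
    · rw [← h2, (isIrr_iff.mp h).2]; push_cast; ring
    · rw [ip_ne h (hs a (Multiset.mem_cons_self a s)) h2]; simp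

open Classical in
theorem delta_eq (p i : ℕ) {s : Multiset (Y → ℂ)} (hs : ∀ ψ ∈ s, IsIrr ψ) (hc : IsChar s.sum) :
    deltaDeg p i s.sum = ∑ θ ∈ s.toFinset.filter fun θ => lev p θ = i, s.count θ * θ 1 := by
  have h1 : ∀ θ, IsIrr θ → ipc θ s.sum = s.count θ := by
    intro θ hθ
    rw [← ip_count hs hθ, ipc, ip, finsum_eq_sum_of_fintype]
    simp only [hc.conj_eq]
  rw [deltaDeg, finsum_mem_eq_sum_of_inter_support_eq
    (t := s.toFinset.filter fun θ => lev p θ = i)]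
  · exact sum_congr rfl fun θ hθ => by
      rw [h1 θ (hs θ (Multiset.mem_toFinset.mp (mem_filter.mp hθ).1))]
  · ext θ
    simp only [Set.mem_inter_iff, Set.mem_ofPred_eq, Function.mem_support, coe_filter,
      Multiset.mem_toFinset]
    refine ⟨fun h => ⟨⟨?_, h.1.2⟩, h.2⟩, fun h => ⟨⟨hs θ h.1.1, h.1.2⟩, h.2⟩⟩
    by_contra h2
    exact h.2 (by rw [h1 θ h.1.1, Multiset.count_eq_zero_of_notMem h2]; simp)

theorem dq_one_sub {p : ℕ} (hp : p.Prime) (hp2 : p ≠ 2) (hY : IsPGroup p Y) {Ψ : Y → ℂ}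
    (h : IsChar Ψ) {j : ℕ} (hj : j ≠ 0) (hl : ell p Ψ ≤ j) :
    dq (p ^ j) Ψ 1 - Ψ 1 ∈ pInt p := by
  classical
  obtain ⟨s, hs, rfl⟩ := h.decomp
  have h1 : ∀ i, j < i → deltaDeg p i s.sum ∈ pInt p := by
    intro i hi
    by_contra h2
    refine absurd ((le_csSup ?_ h2).trans hl) (not_le.mpr hi)
    refine ((s.toFinset.image (lev p)).finite_toSet.subset fun k hk => ?_).bddAbove
    by_contra h3
    refine hk ⟨0, ?_⟩
    rw [delta_eq p k hs h, filter_eq_empty_iff.mpr, sum_empty, Int.cast_zero, mul_zero]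
    exact fun θ hθ h4 => h3 (mem_coe.mpr (mem_image.mpr ⟨θ, hθ, h4⟩))
  have h2 : ∑ θ ∈ s.toFinset.filter fun θ => j < lev p θ, s.count θ * θ 1 ∈ pInt p := by
    rw [← sum_fiberwise_of_maps_to (g := lev p) (t := (s.toFinset.image (lev p)).filter (j < ·))
      fun θ hθ => mem_filter.mpr ⟨mem_image_of_mem _ (mem_filter.mp hθ).1, (mem_filter.mp hθ).2⟩]
    refine sum_mem fun i hi => ?_
    have h3 := h1 i (mem_filter.mp hi).2
    rw [delta_eq p i hs h] at h3
    rw [filter_filter, filter_congr (q := fun θ => lev p θ = i) fun θ _ =>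
      ⟨fun h4 => h4.2, fun h4 => ⟨h4 ▸ (mem_filter.mp hi).2, h4⟩⟩]
    exact h3
  have h3 : ∑ θ ∈ s.toFinset, s.count θ •
      (dq (p ^ j) θ 1 - if lev p θ ≤ j then θ 1 else 0) ∈ pInt p :=
    sum_mem fun θ hθ => nsmul_mem ((hs θ (Multiset.mem_toFinset.mp hθ)).dq_one hp hp2 hY hj) _
  have h4 := sub_mem h3 h2
  rw [sum_filter, ← sum_sub_distrib] at h4
  rw [dq_sum, Pi.multiset_sum_apply, sum_multiset_map_count, sum_multiset_map_count,
    ← sum_sub_distrib]
  convert h4 using 2 with θ _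
  by_cases h5 : lev p θ ≤ j
  · rw [if_pos h5, if_neg (not_lt.mpr h5), sub_zero, smul_sub]
  · rw [if_neg h5, if_pos (not_le.mp h5), sub_zero, nsmul_eq_mul, nsmul_eq_mul]

theorem delta_mem {p : ℕ} (hp : p.Prime) (hp2 : p ≠ 2) (hY : IsPGroup p Y) {Ψ : Y → ℂ}
    (h : IsChar Ψ) {i r : ℕ} (h1 : r ≡ 1 [MOD p]) (h2 : ¬ r ≡ 1 [MOD p ^ i]) (h3 : Fix Ψ r) :
    deltaDeg p i Ψ ∈ pInt p := by
  classical
  have := Fact.mk hp
  obtain ⟨N, hN⟩ := IsPGroup.iff_card.mp hY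
  obtain ⟨s, hs, rfl⟩ := h.decomp
  have hX : Nat.card Y ∣ p ^ N * 1 := by rw [hN, mul_one]
  have h1' : r ≡ 1 [MOD p * 1] := by rwa [mul_one]
  have hco := coprime_card hX h1'
  let σ : Equiv.Perm (Y → ℂ) := (Equiv.ofBijective _ (pow_bij hco)).symm.arrowCongr (Equiv.refl ℂ)
  have hσ : ∀ (k : ℕ) (θ : Y → ℂ), (σ ^ k) θ = fun g => θ (g ^ r ^ k) := by
    intro k θ
    induction k with
    | zero => simp
    | succ k ih =>
      rw [pow_succ', Equiv.Perm.mul_apply, ih]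
      funext g
      change θ ((g ^ r) ^ r ^ k) = _
      rw [← pow_mul, ← pow_succ']
  have hσ1 : σ ^ p ^ N = 1 := by
    ext θ g
    have h4 : r ^ p ^ N ≡ 1 [MOD Nat.card Y] := by
      have h5 := dvd_sub_pow_of_dvd_sub (R := ℤ) (h1.dvd) N
      rw [hN, Nat.modEq_iff_dvd]
      push_cast
      rw [Nat.cast_one, one_pow] at h5
      exact (pow_dvd_pow _ N.le_succ).trans h5
    rw [hσ]
    change θ (g ^ r ^ p ^ N) = θ g
    rw [pow_congr h4, pow_one]
  have hfin : IsOfFinOrder σ :=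
    isOfFinOrder_iff_pow_eq_one.mpr ⟨_, pow_pos hp.pos N, hσ1⟩
  have : Finite (Subgroup.zpowers σ) := finite_zpowers.mpr hfin
  have hP : IsPGroup p (Subgroup.zpowers σ) := by
    rintro ⟨_, t, rfl⟩
    refine ⟨N, Subtype.ext ?_⟩
    change (σ ^ t) ^ p ^ N = 1
    rw [← zpow_natCast, ← zpow_mul, mul_comm, zpow_mul, zpow_natCast, hσ1, one_zpow]
  have h6 : ∀ (u : Subgroup.zpowers σ) (θ : Y → ℂ), IsIrr θ → s.count (u • θ) = s.count θ ∧
      lev p (u • θ) = lev p θ ∧ (u • θ) 1 = θ 1 := by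
    rintro ⟨u, hu⟩ θ hθ
    obtain ⟨k, rfl⟩ := hfin.mem_powers_iff_mem_zpowers.mpr hu
    have h7 : (⟨σ ^ k, hu⟩ : Subgroup.zpowers σ) • θ = fun g => θ (g ^ r ^ k) := hσ k θ
    refine h7 ▸ ⟨?_, lev_pow p θ (hco.pow_left k), by simp⟩
    have h8 := ip_count hs (hθ.pow (hco.pow_left k))
    have h9 := ip_count hs hθ
    refine Nat.cast_injective (R := ℂ) ?_
    rw [← h8, ← h9, ip, ip, ← (pow_bij (hco.pow_left k)).sum_comp fun g => θ g * s.sum g⁻¹]
    simp only [← inv_pow, h3.pow k _]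
  rw [delta_eq p i hs h]
  refine orb (H := Subgroup.zpowers σ) _ ?_ _ ?_ _ ?_
  · intro θ hθ u
    obtain ⟨h7, h8⟩ := mem_filter.mp hθ
    rw [Multiset.mem_toFinset] at h7
    obtain ⟨h9, h10, -⟩ := h6 u θ (hs θ h7)
    refine mem_filter.mpr ⟨?_, h10.trans h8⟩
    rwa [Multiset.mem_toFinset, ← Multiset.count_ne_zero, h9, Multiset.count_ne_zero]
  · intro θ hθ u
    obtain ⟨h9, -, h10⟩ := h6 u θ (hs θ (Multiset.mem_toFinset.mp (mem_filter.mp hθ).1))
    rw [h9, h10]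
  · intro θ hθ
    obtain ⟨h7, h8⟩ := mem_filter.mp hθ
    have hθ' := hs θ (Multiset.mem_toFinset.mp h7)
    obtain ⟨d, hd⟩ := hθ'.isChar.one
    obtain ⟨t, ht⟩ := dvd_index hp hP (D := stabilizer (Subgroup.zpowers σ) θ) fun h9 => by
      have h10 : (⟨σ, Subgroup.mem_zpowers σ⟩ : Subgroup.zpowers σ) • θ = θ :=
        mem_stabilizer_iff.mp (h9 ▸ Subgroup.mem_top _)
      refine h2 (h8 ▸ (key hp hp2 hθ'.isChar hX (by simpa using hp.one_lt.ne') h1').mp fun g => ?_)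
      exact congrFun h10 g
    exact ⟨t * s.count θ * d, by rw [ht, hd]; push_cast; ring⟩

end Pool.Agent.MP_3e257e_al
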