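import Pool.Agent.MP_3e257e_al.Defs

/-!
Automorphisms of the complex numbers and roots of unity.
-/

set_option autoImplicit false

namespace Pool.Agent.MP_3e257e_al

open Complex

theorem ext_aut {F : Type} [Field F] [Algebra F ℂ] (σ : F ≃+* F) :
    ∃ τ : ℂ ≃+* ℂ, ∀ a : F, τ (algebraMap F ℂ a) = algebraMap F ℂ (σ a) := by
  obtain ⟨s, hs⟩ := exists_isTranscendenceBasis F ℂ
  have := IsAlgClosed.isAlgClosure_of_transcendence_basis _ hs
  let φ := hs.1.aevalEquiv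
  let e := (φ.symm.toRingEquiv.trans (MvPolynomial.mapEquiv s σ)).trans φ.toRingEquiv
  refine ⟨IsAlgClosure.equivOfEquiv ℂ ℂ e, fun a => ?_⟩
  have h := IsAlgClosure.equivOfEquiv_algebraMap ℂ ℂ e (algebraMap F _ a)
  rw [← IsScalarTower.algebraMap_apply] at h
  rw [h]
  have h2 : e (algebraMap F _ a) = algebraMap F _ (σ a) := by
    have h3 : φ.symm (algebraMap F _ a) = MvPolynomial.C a := φ.symm.commutes a
    have h4 : φ (MvPolynomial.C (σ a)) = algebraMap F _ (σ a) := φ.commutes (σ a)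
    simp only [e, RingEquiv.trans_apply, AlgEquiv.coe_ringEquiv, h3,
      MvPolynomial.mapEquiv_apply, MvPolynomial.map_C]
    exact h4
  rw [h2, ← IsScalarTower.algebraMap_apply]

theorem mem_of_fixed {F : Type} [Field F] [CharZero F] [Algebra F ℂ] {x : ℂ}
    (hx : IsAlgebraic F x)
    (h : ∀ τ : ℂ ≃+* ℂ, (∀ a : F, τ (algebraMap F ℂ a) = algebraMap F ℂ a) → τ x = x) :
    x ∈ Set.range (algebraMap F ℂ) := by
  let A := algebraicClosure F ℂ
  have hxA : x ∈ A := mem_algebraicClosure_iff.mpr hx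
  have h1 : (⟨x, hxA⟩ : A) ∈ Set.range (algebraMap F A) := by
    rw [InfiniteGalois.mem_range_algebraMap_iff_fixed]
    intro σ
    obtain ⟨τ, hτ⟩ := ext_aut (F := A) σ.toRingEquiv
    apply Subtype.ext
    have h2 := hτ ⟨x, hxA⟩
    refine h2.symm.trans (h τ fun a => ?_)
    have h3 := hτ (algebraMap F A a)
    rw [← IsScalarTower.algebraMap_apply] at h3
    rw [h3]
    have h4 : σ.toRingEquiv (algebraMap F A a) = algebraMap F A a := σ.commutes a
    rw [h4, ← IsScalarTower.algebraMap_apply]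
  obtain ⟨a, ha⟩ := h1
  exact ⟨a, by simpa using congrArg Subtype.val ha⟩

/-- The standard primitive root. -/
noncomputable def zt (n : ℕ) : ℂ := exp (2 * Real.pi * I / n)

theorem zt_prim {n : ℕ} (hn : n ≠ 0) : IsPrimitiveRoot (zt n) n := isPrimitiveRoot_exp n hn

theorem exists_zt_pow {n : ℕ} (hn : n ≠ 0) {ξ : ℂ} (h : ξ ^ n = 1) : ∃ i, ξ = zt n ^ i := by
  have : NeZero n := ⟨hn⟩
  obtain ⟨i, -, hi⟩ := (zt_prim hn).eq_pow_of_pow_eq_one h
  exact ⟨i, hi.symm⟩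

/-- `τ` raises the `n`-th roots of unity to the power `m`. -/
def Acts (τ : ℂ ≃+* ℂ) (n m : ℕ) : Prop := ∀ ξ : ℂ, ξ ^ n = 1 → τ ξ = ξ ^ m

theorem acts_of_zt {τ : ℂ ≃+* ℂ} {n m : ℕ} (hn : n ≠ 0) (h : τ (zt n) = zt n ^ m) :
    Acts τ n m := by
  intro ξ hξ
  obtain ⟨i, rfl⟩ := exists_zt_pow hn hξ
  rw [map_pow, h, ← pow_mul, ← pow_mul, mul_comm]

theorem exists_conj {F : Type} [Field F] [CharZero F] [Algebra F ℂ] {x y : ℂ}
    (hx : IsIntegral F x) (hy : IsIntegral F y) (h : minpoly F x = minpoly F y) :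
    ∃ τ : ℂ ≃+* ℂ, τ x = y := by
  let A := algebraicClosure F ℂ
  let a : A := ⟨x, mem_algebraicClosure_iff'.mpr hx⟩
  let b : A := ⟨y, mem_algebraicClosure_iff'.mpr hy⟩
  obtain ⟨σ, hσ⟩ := minpoly.exists_algEquiv_of_root' (K := F) (x := b) (y := a)
    (Algebra.IsAlgebraic.isAlgebraic a) (by
      rw [IntermediateField.minpoly_eq, h, ← IntermediateField.minpoly_eq b, minpoly.aeval])
  obtain ⟨τ, hτ⟩ := ext_aut (F := A) σ.toRingEquiv
  have h1 := hτ a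
  have h2 : σ.toRingEquiv a = b := hσ
  rw [h2] at h1
  exact ⟨τ, h1⟩

theorem exists_acts {n m : ℕ} (hn : n ≠ 0) (hm : m.Coprime n) : ∃ τ, Acts τ n m := by
  have hz := zt_prim hn
  have hzm := hz.pow_of_coprime m hm
  have h0 := Nat.pos_of_ne_zero hn
  obtain ⟨τ, hτ⟩ := exists_conj (F := ℚ) (hz.isIntegral h0).tower_top (hzm.isIntegral h0).tower_top
    (by rw [← Polynomial.cyclotomic_eq_minpoly_rat hz h0,
      Polynomial.cyclotomic_eq_minpoly_rat hzm h0])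
  exact ⟨τ, acts_of_zt hn hτ⟩

theorem exists_exp (τ : ℂ ≃+* ℂ) {n : ℕ} (hn : n ≠ 0) : ∃ m, m.Coprime n ∧ Acts τ n m := by
  have hz := zt_prim hn
  have h1 : IsPrimitiveRoot (τ (zt n)) n := hz.map_of_injective τ.injective
  obtain ⟨i, hi⟩ := exists_zt_pow hn h1.pow_eq_one
  refine ⟨i, ?_, acts_of_zt hn hi⟩
  rw [hi] at h1
  exact (hz.pow_iff_coprime (Nat.pos_of_ne_zero hn) i).mp h1

theorem Acts.mono {τ : ℂ ≃+* ℂ} {n n' m : ℕ} (h : Acts τ n m) (hd : n' ∣ n) : Acts τ n' m := by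
  intro ξ hξ
  obtain ⟨k, rfl⟩ := hd
  exact h ξ (by rw [pow_mul, hξ, one_pow])

theorem acts_conj {n : ℕ} (hn : n ≠ 0) : Acts (starRingAut (R := ℂ)) n (n - 1) := by
  intro ξ hξ
  have h1 : ‖ξ‖ = 1 := norm_eq_one_of_pow_eq_one hξ hn
  have h2 : ξ ≠ 0 := by rintro rfl; simp at h1
  apply mul_left_cancel₀ h2
  rw [← pow_succ', Nat.sub_add_cancel (Nat.pos_of_ne_zero hn), hξ]
  have := mul_conj' ξ
  rw [h1] at this
  simpa using this

theorem fix_cyc {τ : ℂ ≃+* ℂ} {d : ℕ} (h : τ (zt d) = zt d) {x : ℂ} (hx : x ∈ cyc d) :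
    τ x = x := by
  induction hx using IntermediateField.adjoin_induction with
  | mem x hx => rw [Set.mem_singleton_iff.mp hx]; exact h
  | algebraMap x => simp
  | add x y _ _ h1 h2 => rw [map_add, h1, h2]
  | inv x _ h1 => rw [map_inv₀, h1]
  | mul x y _ _ h1 h2 => rw [map_mul, h1, h2]

theorem root_mem_cyc {n : ℕ} (hn : n ≠ 0) {ξ : ℂ} (h : ξ ^ n = 1) : ξ ∈ cyc n := by
  obtain ⟨i, rfl⟩ := exists_zt_pow hn h
  exact pow_mem (IntermediateField.mem_adjoin_simple_self ℚ _) i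

theorem mem_cyc_of_fixed {d : ℕ} {x : ℂ} (hx : IsIntegral ℤ x)
    (h : ∀ τ : ℂ ≃+* ℂ, τ (zt d) = zt d → τ x = x) : x ∈ cyc d := by
  have h1 : IsAlgebraic (cyc d) x := (hx.tower_top (A := cyc d)).isAlgebraic
  obtain ⟨a, rfl⟩ := mem_of_fixed h1 fun τ hτ =>
    h τ (hτ ⟨zt d, IntermediateField.mem_adjoin_simple_self ℚ _⟩)
  exact a.2

theorem int_of_fixed {x : ℂ} (hx : IsIntegral ℤ x) (h : ∀ τ : ℂ ≃+* ℂ, τ x = x) :
    ∃ z : ℤ, x = z := by
  have h1 : IsAlgebraic ℚ x := (hx.tower_top (A := ℚ)).isAlgebraic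
  obtain ⟨a, rfl⟩ := mem_of_fixed h1 fun τ _ => h τ
  have h2 : IsIntegral ℤ a := (isIntegral_algebraMap_iff (algebraMap ℚ ℂ).injective).mp hx
  obtain ⟨z, rfl⟩ := IsIntegrallyClosed.isIntegral_iff.mp h2
  exact ⟨z, by simp⟩

theorem isIntegral_root {n : ℕ} (hn : n ≠ 0) {ξ : ℂ} (h : ξ ^ n = 1) : IsIntegral ℤ ξ :=
  IsIntegral.of_pow (Nat.pos_of_ne_zero hn) (h ▸ isIntegral_one)

/-- Algebraic integers in a cyclotomic field are integer combinations of roots of unity. -/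
theorem integral_cyc {n : ℕ} (hn : n ≠ 0) {x : ℂ} (hx : IsIntegral ℤ x) (h : x ∈ cyc n) :
    ∃ (k : ℕ) (b : ℕ → ℤ), x = ∑ i ∈ Finset.range k, (b i : ℂ) * zt n ^ i := by
  have : NeZero n := ⟨hn⟩
  have hz := zt_prim hn
  have hc : IsCyclotomicExtension {n} ℚ (cyc n) := by
    have h0 : IsAlgebraic ℚ (zt n) :=
      ((hz.isIntegral (Nat.pos_of_ne_zero hn)).tower_top (A := ℚ)).isAlgebraic
    change IsCyclotomicExtension {n} ℚ (IntermediateField.adjoin ℚ {zt n}).toSubalgebra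
    rw [IntermediateField.adjoin_simple_toSubalgebra_of_isAlgebraic h0]
    exact hz.adjoin_isCyclotomicExtension ℚ
  let z : cyc n := ⟨zt n, IntermediateField.mem_adjoin_simple_self ℚ _⟩
  have hzK : IsPrimitiveRoot z n := IsPrimitiveRoot.coe_submonoidClass_iff.mp hz
  have h1 : IsIntegral ℤ (⟨x, h⟩ : cyc n) :=
    (isIntegral_algebraMap_iff (algebraMap (cyc n) ℂ).injective).mp hx
  obtain ⟨⟨y, hy⟩, h2⟩ :=
    (IsCyclotomicExtension.Rat.isIntegralClosure_adjoin_singleton hzK).isIntegral_iff.mp h1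
  rw [Algebra.adjoin_singleton_eq_range_aeval] at hy
  obtain ⟨f, hf⟩ := hy
  refine ⟨f.natDegree + 1, f.coeff, ?_⟩
  have h3 : (⟨x, h⟩ : cyc n) = Polynomial.aeval z f := h2.symm.trans hf.symm
  rw [Polynomial.aeval_eq_sum_range] at h3
  have h4 := congrArg (algebraMap (cyc n) ℂ) h3
  simpa [z] using h4

/-- The additive group of `c` times algebraic integers. -/
def mulInt (c : ℂ) : AddSubgroup ℂ where
  carrier := {z | ∃ w, IsIntegral ℤ w ∧ z = c * w}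
  add_mem' := by
    rintro _ _ ⟨w, hw, rfl⟩ ⟨w', hw', rfl⟩
    exact ⟨w + w', hw.add hw', by ring⟩
  zero_mem' := ⟨0, isIntegral_zero, by ring⟩
  neg_mem' := by
    rintro _ ⟨w, hw, rfl⟩
    exact ⟨-w, hw.neg, by ring⟩

theorem mem_mulInt {c z : ℂ} : z ∈ mulInt c ↔ ∃ w, IsIntegral ℤ w ∧ z = c * w := Iff.rfl

theorem dvd_of_mulInt {a b : ℤ} (ha : a ≠ 0) (h : (b : ℂ) ∈ mulInt a) : a ∣ b := by
  obtain ⟨w, hw, h⟩ := h
  have ha' : (a : ℂ) ≠ 0 := Int.cast_ne_zero.mpr ha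
  have h1 : w = b / a := by rw [h]; field_simp
  obtain ⟨z, rfl⟩ := int_of_fixed hw fun τ => by rw [h1]; simp
  exact ⟨z, by exact_mod_cast h⟩

/-- An integer that is a combination of `p` and of `1 - ζ` is divisible by `p`. -/
theorem dvd_of_comb {p : ℕ} (hp : p.Prime) {j : ℕ} {A : ℤ} {w w' ζ : ℂ} (hζ : ζ ^ p ^ j = 1)
    (hw : IsIntegral ℤ w) (hw' : IsIntegral ℤ w') (h : (A : ℂ) = p * w + (1 - ζ) * w') :
    (p : ℤ) ∣ A := by
  let O := integralClosure ℤ ℂ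
  have hz : IsIntegral ℤ ζ := isIntegral_root (pow_ne_zero j hp.ne_zero) hζ
  let a : O := ⟨w, hw⟩
  let b : O := ⟨w', hw'⟩
  let z : O := ⟨ζ, hz⟩
  have h1 : (A : O) = p * a + (1 - z) * b := Subtype.ext (by simpa [a, b, z] using h)
  have h2 : z ^ p ^ j = 1 := Subtype.ext (by simpa [z] using hζ)
  obtain ⟨r, hr⟩ := exists_add_pow_prime_pow_eq hp (1 - z) z j
  rw [sub_add_cancel, one_pow, h2] at hr
  obtain ⟨r', hr'⟩ := exists_add_pow_prime_pow_eq hp ((1 - z) * b) (p * a) j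
  have h3 : (p : O) ∣ (A : O) ^ p ^ j := by
    rw [h1, add_comm, hr', mul_pow, mul_pow]
    refine dvd_add (dvd_add (Dvd.dvd.mul_right ⟨-((1 - z) * z * r), by linear_combination -hr⟩ _)
      (Dvd.dvd.mul_right (dvd_pow_self _ (pow_ne_zero j hp.ne_zero)) _)) ?_
    simp only [mul_assoc]
    exact dvd_mul_right _ _
  obtain ⟨c, hc⟩ := h3
  refine (Nat.prime_iff_prime_int.mp hp).dvd_of_dvd_pow (n := p ^ j)
    (dvd_of_mulInt (by exact_mod_cast hp.ne_zero) ⟨c, c.2, ?_⟩)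
  simpa using congrArg Subtype.val hc

end Pool.Agent.MP_3e257e_al
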