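import Pool.Agent.MP_3e257e_al.Chr

/-!
The level of a character in terms of power maps.
-/

set_option autoImplicit false

namespace Pool.Agent.MP_3e257e_al

variable {X : Type} [Group X] [Finite X] {θ : X → ℂ}

theorem cond_spec (h : IsChar θ) : 1 ≤ cond θ ∧ ∀ x, θ x ∈ cyc (cond θ) :=
  Nat.sInf_mem (s := {n : ℕ | 1 ≤ n ∧ ∀ x, θ x ∈ cyc n})
    ⟨Nat.card X, Nat.card_pos, fun _ => h.mem_cyc Nat.card_pos.ne' pow_card_eq_one'⟩

/-- Invariance under the `m`-th power map. -/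
def Fix (θ : X → ℂ) (m : ℕ) : Prop := ∀ g, θ (g ^ m) = θ g

omit [Finite X] in
theorem Fix.pow {a : ℕ} (h : Fix θ a) (k : ℕ) : Fix θ (a ^ k) := by
  induction k with
  | zero => intro g; simp
  | succ k ih => intro g; rw [pow_succ, pow_mul, h, ih]

omit [Finite X] in
theorem pow_congr {a b : ℕ} (hab : a ≡ b [MOD Nat.card X]) (g : X) : g ^ a = g ^ b :=
  pow_eq_pow_iff_modEq.mpr (hab.of_dvd (orderOf_dvd_natCard g))

theorem coprime_of_modEq {a n : ℕ} (h : a ≡ 1 [MOD n]) : a.Coprime n := by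
  rw [Nat.Coprime, h.gcd_eq, Nat.gcd_one_left]

theorem fix_of_cond (h : IsChar θ) {m : ℕ} (hm : m.Coprime (Nat.card X))
    (h1 : m ≡ 1 [MOD cond θ]) : Fix θ m := by
  obtain ⟨h2, h3⟩ := cond_spec h
  have h0 : cond θ ≠ 0 := by omega
  obtain ⟨τ, hτ⟩ := exists_acts (Nat.mul_ne_zero (Nat.card_pos (α := X)).ne' h0)
    (hm.mul_right (coprime_of_modEq h1))
  intro g
  rw [← h.acts (hτ.mono (dvd_mul_right _ _)) pow_card_eq_one']
  refine fix_cyc (d := cond θ) ?_ (h3 g)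
  have h4 := (zt_prim h0).pow_eq_one
  rw [hτ.mono (dvd_mul_left _ _) _ h4, pow_eq_pow_mod m h4, h1, ← pow_eq_pow_mod 1 h4, pow_one]

theorem cond_le (h : IsChar θ) {d : ℕ} (hd : d ≠ 0)
    (H : ∀ m, m.Coprime (Nat.card X) → m ≡ 1 [MOD d] → Fix θ m) : cond θ ≤ d := by
  refine Nat.sInf_le ⟨Nat.pos_of_ne_zero hd, fun x => mem_cyc_of_fixed (h.integral x) fun τ hτ => ?_⟩
  obtain ⟨m, hm, h1⟩ := exists_exp τ (Nat.mul_ne_zero (Nat.card_pos (α := X)).ne' hd)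
  rw [h.acts (h1.mono (dvd_mul_right _ _)) pow_card_eq_one']
  refine H m (Nat.Coprime.coprime_mul_right_right hm) ?_ x
  have h4 := (zt_prim hd).pow_eq_one
  rw [h1.mono (dvd_mul_left _ _) _ h4] at hτ
  refine (zt_prim hd).pow_inj (Nat.mod_lt _ (Nat.pos_of_ne_zero hd))
    (Nat.mod_lt _ (Nat.pos_of_ne_zero hd)) ?_
  rw [← pow_eq_pow_mod m h4, ← pow_eq_pow_mod 1 h4, pow_one, hτ]

theorem exists_kill {p a v w : ℕ} (hp : p.Prime) (hv : ¬ p ∣ v) :
    ∃ k, (1 + p ^ (a + 1) * w) * (1 + p ^ (a + 1) * v) ^ k ≡ 1 [MOD p ^ (a + 2)] := by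
  have h1 : ∀ k : ℕ, ∃ t, (1 + p ^ (a + 1) * w) * (1 + p ^ (a + 1) * v) ^ k =
      1 + p ^ (a + 1) * (w + k * v) + p ^ (a + 2) * t := by
    intro k
    induction k with
    | zero => exact ⟨0, by ring⟩
    | succ k ih =>
      obtain ⟨t, ht⟩ := ih
      exact ⟨t + p ^ a * v * (w + k * v + p * t), by rw [pow_succ _ k, ← mul_assoc, ht]; ring⟩
  have := Fact.mk hp
  have h2 : (v : ZMod p) ≠ 0 := by rwa [Ne, ZMod.natCast_eq_zero_iff]
  obtain ⟨t, ht⟩ := h1 (-(w : ZMod p) / v).val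
  obtain ⟨u, hu⟩ : p ∣ w + (-(w : ZMod p) / v).val * v := by
    rw [← ZMod.natCast_eq_zero_iff]
    push_cast
    rw [ZMod.natCast_zmod_val, div_mul_cancel₀ _ h2, add_neg_cancel]
  refine ⟨(-(w : ZMod p) / v).val, ?_⟩
  rw [ht, hu, show 1 + p ^ (a + 1) * (p * u) + p ^ (a + 2) * t = 1 + p ^ (a + 2) * (u + t) by ring]
  exact ((Nat.modEq_iff_dvd' (Nat.le_add_right _ _)).mpr (by simp)).symm

theorem key_aux {p : ℕ} (hp : p.Prime) (hp2 : p ≠ 2) (h : IsChar θ) {a c r : ℕ}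
    (hc : cond θ = p ^ a * c) (hpc : ¬ p ∣ c) (hr : r.Coprime (Nat.card X)) (h1 : r ≡ 1 [MOD p])
    (h2 : r ≡ 1 [MOD c]) : Fix θ r ↔ r ≡ 1 [MOD p ^ a] := by
  have co : ∀ k, (p ^ k).Coprime c := fun k => ((hp.coprime_iff_not_dvd).mpr hpc).pow_left k
  refine ⟨fun hf => ?_, fun h3 => fix_of_cond h hr
    (hc ▸ (Nat.modEq_and_modEq_iff_modEq_mul (co a)).mp ⟨h3, h2⟩)⟩
  by_contra h3
  have hr0 : r ≠ 0 := by
    rintro rfl
    exact hp.one_lt.ne' (Nat.dvd_one.mp ((Nat.modEq_iff_dvd' (Nat.zero_le 1)).mp h1))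
  obtain ⟨s, rfl⟩ : ∃ s, r = 1 + s := ⟨r - 1, by omega⟩
  have hs : s ≠ 0 := by
    rintro rfl
    exact h3 rfl
  obtain ⟨i, v, hv, rfl⟩ := Nat.exists_eq_pow_mul_and_not_dvd hs p hp.one_lt.ne'
  have hi1 : i ≠ 0 := by
    rintro rfl
    apply hv
    simpa using (Nat.modEq_iff_dvd' (Nat.le_add_right _ _)).mp h1.symm
  obtain ⟨e, rfl⟩ : ∃ e, a = i + e + 1 := by
    refine ⟨a - i - 1, ?_⟩
    have : ¬ a ≤ i := fun h4 => h3 ((Nat.modEq_iff_dvd' (Nat.le_add_right _ _)).mpr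
      (by simpa using (pow_dvd_pow p h4).mul_right v)).symm
    omega
  obtain ⟨j, rfl⟩ := Nat.exists_eq_succ_of_ne_zero hi1
  have h3p : 3 ≤ p := by have := hp.two_le; omega
  obtain ⟨y, hy⟩ := ZMod.exists_one_add_mul_pow_prime_pow_eq (R := ℕ) (u := p ^ (j + 1)) (v := p) hp
    (dvd_pow_self p (by omega)) (by
      rw [Nat.cast_id, ← pow_succ', ← pow_succ, ← pow_mul]
      exact pow_dvd_pow p (by nlinarith)) v e
  have hv1 : ¬ p ∣ v + p * y := fun h4 => hv ((Nat.dvd_add_left (dvd_mul_right p y)).mp h4)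
  have hc0 : c ≠ 0 := by rintro rfl; exact hpc (dvd_zero p)
  have h5 := cond_le h (d := p ^ (j + e + 1) * c) (mul_ne_zero (pow_ne_zero _ hp.ne_zero) hc0)
    fun m hm hm1 => by
      obtain ⟨h6, h7⟩ := (Nat.modEq_and_modEq_iff_modEq_mul (co _)).mpr hm1
      have hm0 : m ≠ 0 := by
        rintro rfl
        exact hp.one_lt.ne' (Nat.dvd_one.mp ((dvd_pow_self p (by omega)).trans
          ((Nat.modEq_iff_dvd' (Nat.zero_le 1)).mp h6)))
      obtain ⟨w, hw⟩ := (Nat.modEq_iff_dvd' (Nat.pos_of_ne_zero hm0)).mp h6.symm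
      obtain ⟨k, hk⟩ := exists_kill (a := j + e) (w := w) hp hv1
      rw [show 1 + p ^ (j + e + 1) * w = m by omega,
        show 1 + p ^ (j + e + 1) * (v + p * y) = (1 + p ^ (j + 1) * v) ^ p ^ e by
          rw [hy, Nat.cast_id]; ring] at hk
      have h8 := fix_of_cond h (hm.mul_left ((hr.pow_left (p ^ e)).pow_left k)) (by
        rw [hc]
        refine (Nat.modEq_and_modEq_iff_modEq_mul (co _)).mp ⟨?_, ?_⟩
        · rw [show j.succ + e + 1 = j + e + 2 by omega]; exact hk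
        · simpa using h7.mul ((h2.pow (p ^ e)).pow k))
      intro g
      rw [← (hf.pow (p ^ e)).pow k, ← pow_mul, h8]
  rw [hc] at h5
  have h9 := Nat.pow_lt_pow_right hp.one_lt (by omega : j + e + 1 < j.succ + e + 1)
  exact absurd (Nat.le_of_mul_le_mul_right h5 (Nat.pos_of_ne_zero hc0)) (not_le.mpr h9)

omit [Group X] [Finite X] in
theorem coprime_card {p N n r : ℕ} (hX : Nat.card X ∣ p ^ N * n) (hr : r ≡ 1 [MOD p * n]) :
    r.Coprime (Nat.card X) :=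
  ((((coprime_of_modEq hr).coprime_mul_right_right).pow_right N).mul_right
    (coprime_of_modEq hr).coprime_mul_left_right).coprime_dvd_right hX

theorem key {p : ℕ} (hp : p.Prime) (hp2 : p ≠ 2) (h : IsChar θ) {N n r : ℕ}
    (hX : Nat.card X ∣ p ^ N * n) (hn : ¬ p ∣ n) (hr : r ≡ 1 [MOD p * n]) :
    Fix θ r ↔ r ≡ 1 [MOD p ^ lev p θ] := by
  have := Fact.mk hp
  have h0 : cond θ ≠ 0 := by have := (cond_spec h).1; omega
  obtain ⟨c, hc⟩ : p ^ lev p θ ∣ cond θ := pow_padicValNat_dvd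
  have hpc : ¬ p ∣ c := by
    rintro ⟨u, rfl⟩
    exact pow_succ_padicValNat_not_dvd (p := p) h0 ⟨u, hc.trans (by rw [lev]; ring)⟩
  have co : (p ^ (N + lev p θ + 1)).Coprime (n * c) :=
    (((hp.coprime_iff_not_dvd).mpr hn).mul_right ((hp.coprime_iff_not_dvd).mpr hpc)).pow_left _
  obtain ⟨s, h1, h2⟩ := Nat.chineseRemainder co r 1
  have h3 : s ≡ r [MOD Nat.card X] := ((Nat.modEq_and_modEq_iff_modEq_mul
    (((hp.coprime_iff_not_dvd).mpr hn).pow_left N)).mp ⟨h1.of_dvd (pow_dvd_pow p (by omega)),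
      (h2.of_mul_right c).trans (hr.of_mul_left p).symm⟩).of_dvd hX
  have h4 : s ≡ r [MOD p ^ lev p θ] := h1.of_dvd (pow_dvd_pow p (by omega))
  have h5 := key_aux hp hp2 h hc hpc (r := s) (by
    rw [Nat.Coprime, h3.gcd_eq]; exact coprime_card hX hr)
    ((h1.of_dvd (dvd_pow_self p (by omega))).trans (hr.of_mul_right n)) (h2.of_mul_left n)
  constructor
  · intro h6
    exact h4.symm.trans (h5.mp fun g => by rw [pow_congr h3, h6])
  · intro h6 g
    rw [← pow_congr h3, h5.mpr (h4.trans h6)]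

theorem exists_inv {m M : ℕ} (hM : M ≠ 0) (h : m.Coprime M) : ∃ w, m * w ≡ 1 [MOD M] :=
  ⟨m ^ (M.totient - 1), by
    rw [← pow_succ', Nat.sub_add_cancel (Nat.totient_pos.mpr (Nat.pos_of_ne_zero hM))]
    exact Nat.ModEq.pow_totient h⟩

theorem key2 {p : ℕ} (hp : p.Prime) (hp2 : p ≠ 2) (h : IsChar θ) {N n m m' : ℕ}
    (hX : Nat.card X ∣ p ^ N * n) (hn : ¬ p ∣ n) (hm : m ≡ 1 [MOD p * n])
    (hm' : m' ≡ 1 [MOD p * n]) (he : ∀ g, θ (g ^ m) = θ (g ^ m')) :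
    m ≡ m' [MOD p ^ lev p θ] := by
  have hn0 : n ≠ 0 := by rintro rfl; exact hn (dvd_zero p)
  obtain ⟨w, hw⟩ := exists_inv (m := m') (M := p ^ (N + lev p θ + 1) * n)
    (mul_ne_zero (pow_ne_zero _ hp.ne_zero) hn0)
    ((((coprime_of_modEq hm').coprime_mul_right_right).pow_right _).mul_right
      (coprime_of_modEq hm').coprime_mul_left_right)
  have h1 : m * w ≡ 1 [MOD p * n] := ((hm.trans hm'.symm).mul_right w).trans
    (hw.of_dvd (mul_dvd_mul_right (dvd_pow_self p (by omega)) n))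
  have h2 := (key hp hp2 h hX hn h1).mp fun g => by
    rw [mul_comm, pow_mul, he, ← pow_mul, mul_comm,
      pow_congr (hw.of_dvd (hX.trans (mul_dvd_mul_right (pow_dvd_pow p (by omega)) n))), pow_one]
  have h3 : m' * w ≡ 1 [MOD p ^ lev p θ] :=
    hw.of_dvd ((pow_dvd_pow p (by omega)).mul_right n)
  calc m = m * 1 := (mul_one m).symm
    _ ≡ m * (m' * w) [MOD p ^ lev p θ] := h3.symm.mul_left m
    _ = m * w * m' := by ring
    _ ≡ 1 * m' [MOD p ^ lev p θ] := h2.mul_right m'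
    _ = m' := one_mul m'

omit [Finite X] in
theorem pow_bij {m : ℕ} (hm : m.Coprime (Nat.card X)) : Function.Bijective fun g : X => g ^ m :=
  (powCoprime hm.symm).bijective

omit [Finite X] in
theorem lev_pow (p : ℕ) (θ : X → ℂ) {m : ℕ} (hm : m.Coprime (Nat.card X)) :
    lev p (fun g => θ (g ^ m)) = lev p θ := by
  unfold lev cond
  congr 3
  funext n
  exact congrArg _ (propext ⟨fun h x => by
    obtain ⟨g, rfl⟩ := (pow_bij hm).2 x
    exact h g, fun h x => h _⟩)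

theorem IsChar.pow (h : IsChar θ) {m : ℕ} (hm : m.Coprime (Nat.card X)) :
    IsChar fun g => θ (g ^ m) := by
  obtain ⟨τ, hτ⟩ := exists_acts (Nat.card_pos (α := X)).ne' hm
  simpa only [h.acts hτ pow_card_eq_one'] using h.map τ

theorem IsIrr.pow (h : IsIrr θ) {m : ℕ} (hm : m.Coprime (Nat.card X)) :
    IsIrr fun g => θ (g ^ m) := by
  have := Fintype.ofFinite X
  obtain ⟨τ, hτ⟩ := exists_acts (Nat.card_pos (α := X)).ne' hm
  simpa only [h.isChar.acts hτ pow_card_eq_one'] using h.map τ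

end Pool.Agent.MP_3e257e_al
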