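import Pool.Agent.MP_3e257e_al.NonZ

/-!
The norm of the Galois average, the contributions of the `p`-sections, and the main inequality.
-/

set_option autoImplicit false

namespace Pool.Agent.MP_3e257e_al

open Finset

theorem card_le_sum {ι : Type} (K : Finset ι) (f : ι → ℝ) (h0 : ∀ c ∈ K, 0 < f c)
    (hi : ∀ c ∈ K, IsIntegral ℤ (f c : ℂ))
    (hτ : ∀ τ : ℂ ≃+* ℂ, ∏ c ∈ K, τ (f c : ℂ) = ∏ c ∈ K, (f c : ℂ)) :
    (K.card : ℝ) ≤ ∑ c ∈ K, f c := by
  obtain ⟨z, hz⟩ := int_of_fixed (IsIntegral.prod _ hi) fun τ => by rw [map_prod, hτ]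
  have h1 : ∏ c ∈ K, f c = z := by exact_mod_cast hz
  have h2 : (0 : ℝ) < z := h1 ▸ prod_pos h0
  have h3 : (1 : ℝ) ≤ z := by exact_mod_cast (Int.cast_pos.mp h2 : 0 < z)
  have h4 := Real.log_nonneg (h1 ▸ h3)
  rw [Real.log_prod fun c hc => (h0 c hc).ne'] at h4
  have h5 := sum_le_sum fun c hc => Real.log_le_sub_one_of_pos (h0 c hc)
  rw [sum_sub_distrib, sum_const, nsmul_eq_mul, mul_one] at h5
  linarith

variable {G : Type} [Group G]

theorem yy_normSq [Finite G] {χ : G → ℂ} (h : IsChar χ) (k L : ℕ) (g : G) :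
    (Complex.normSq (yy χ k L g) : ℂ) = yy χ k L g * yy χ k L g⁻¹ := by
  rw [← Complex.mul_conj]
  congr 1
  simp only [yy, map_mul, map_inv₀, map_natCast, map_sum, h.conj_eq, inv_pow]

theorem yy_sum (χ : G → ℂ) (k : ℕ) {L : ℕ} (hL : L ≠ 0) (S : Finset G) :
    (L : ℂ) ^ 2 * ∑ g ∈ S, yy χ k L g * yy χ k L g⁻¹ = ∑ t ∈ range L, ∑ t' ∈ range L,
      ∑ g ∈ S, χ (g ^ (1 + t * k)) * χ (g⁻¹ ^ (1 + t' * k)) := by
  have hL' : (L : ℂ) ≠ 0 := Nat.cast_ne_zero.mpr hL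
  rw [mul_sum]
  simp only [sum_comm (s := range L) (t := S)]
  refine sum_congr rfl fun g _ => ?_
  rw [← sum_mul_sum, yy, yy]
  field_simp

theorem modEq_exp {p j : ℕ} (hj : j ≠ 0) (n t : ℕ) : 1 + t * (p ^ j * n) ≡ 1 [MOD p * n] :=
  ((Nat.modEq_iff_dvd' (Nat.le_add_right _ _)).mpr (by
    simpa using (Nat.mul_dvd_mul_right (dvd_pow_self p hj) n).mul_left t)).symm

theorem norm_le [Fintype G] {p : ℕ} (hp : p.Prime) (hp2 : p ≠ 2) {χ : G → ℂ} (hχ : IsIrr χ)
    {N n j b M : ℕ} (hj : j ≠ 0) (hX : Nat.card G ∣ p ^ N * n) (hn : ¬ p ∣ n)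
    (hl : lev p χ = j + b) :
    (∑ g, Complex.normSq (yy χ (p ^ j * n) (p ^ (b + M)) g)) * p ^ b ≤ Nat.card G := by
  classical
  have hL : p ^ (b + M) ≠ 0 := pow_ne_zero _ hp.ne_zero
  let ψ : ℕ → G → ℂ := fun t g => χ (g ^ (1 + t * (p ^ j * n)))
  have hψ : ∀ t, IsIrr (ψ t) := fun t => hχ.pow (coprime_card hX (modEq_exp hj n t))
  have h1 := yy_sum χ (p ^ j * n) hL univ
  have h2 : ∀ t t', ∑ g, χ (g ^ (1 + t * (p ^ j * n))) * χ (g⁻¹ ^ (1 + t' * (p ^ j * n))) =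
      Nat.card G * if ψ t = ψ t' then 1 else 0 := by
    intro t t'
    have h3 : ip (ψ t) (ψ t') = if ψ t = ψ t' then 1 else 0 := by
      split_ifs with h
      · rw [← h]; exact (isIrr_iff.mp (hψ t)).2
      · exact ip_ne (hψ t) (hψ t') h
    rw [← h3, ip, mul_inv_cancel_left₀ cardX_ne]
  simp only [h2, ← mul_sum, sum_boole, ← yy_normSq hχ.isChar] at h1
  have h3 : ∀ t ∈ range (p ^ (b + M)),
      ((range (p ^ (b + M))).filter fun t' => ψ t = ψ t').card ≤ p ^ M := by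
    intro t _
    rw [← card_range (p ^ M)]
    refine card_le_card_of_injOn (fun t' => t' / p ^ b) (fun x hx => ?_) fun x hx y hy hxy => ?_
    · have h4 := mem_range.mp (mem_filter.mp hx).1
      rw [pow_add] at h4
      exact mem_range.mpr (Nat.div_lt_of_lt_mul h4)
    · have h4 := key2 hp hp2 hχ.isChar hX hn (modEq_exp hj n x) (modEq_exp hj n y)
        (congrFun ((mem_filter.mp hx).2.symm.trans (mem_filter.mp hy).2))
      rw [hl, pow_add] at h4
      have h5 := Nat.ModEq.add_left_cancel' 1 h4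
      rw [mul_left_comm x, mul_left_comm y] at h5
      have h6 := Nat.ModEq.cancel_right_of_coprime
        (((Nat.Prime.coprime_iff_not_dvd hp).mpr hn).pow_left b)
        (Nat.ModEq.mul_left_cancel' (pow_ne_zero _ hp.ne_zero) h5)
      rw [← Nat.div_add_mod x (p ^ b), ← Nat.div_add_mod y (p ^ b), h6]
      exact congrArg (fun s => p ^ b * s + y % p ^ b) hxy
  have h4 := sum_le_card_nsmul _ _ _ h3
  rw [card_range, smul_eq_mul] at h4
  have h5 : ((p : ℝ) ^ (b + M)) ^ 2 * ∑ g, Complex.normSq (yy χ (p ^ j * n) (p ^ (b + M)) g) =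
      Nat.card G * (∑ t ∈ range (p ^ (b + M)),
        ((range (p ^ (b + M))).filter fun t' => ψ t = ψ t').card : ℕ) := by
    exact_mod_cast h1
  have h6 : (0 : ℝ) < (p : ℝ) ^ (b + M) := pow_pos (Nat.cast_pos.mpr hp.pos) _
  have h7 := (Nat.cast_le (α := ℝ)).mpr h4
  refine le_of_mul_le_mul_left ?_ (pow_pos h6 2)
  rw [← mul_assoc, h5, mul_assoc, mul_comm _ (Nat.card G : ℝ)]
  refine mul_le_mul_of_nonneg_left ?_ (Nat.cast_nonneg _)
  refine (mul_le_mul_of_nonneg_right h7 (by positivity)).trans (le_of_eq ?_)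
  push_cast
  ring

/-- The power map on conjugacy classes. -/
def pw (m : ℕ) : ConjClasses G → ConjClasses G :=
  Quotient.map (fun g => g ^ m) fun _ _ h => IsConj.pow m h

theorem pw_mk (m : ℕ) (g : G) : pw m (ConjClasses.mk g) = ConjClasses.mk (g ^ m) := rfl

theorem pw_pw [Finite G] {m w : ℕ} (h : m * w ≡ 1 [MOD Nat.card G]) (c : ConjClasses G) :
    pw w (pw m c) = c := by
  obtain ⟨g, rfl⟩ := ConjClasses.exists_rep c
  rw [pw_mk, pw_mk, ← pow_mul, pow_congr h, pow_one]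

open Classical in
theorem count_le [Fintype G] {p : ℕ} (hp : p.Prime) {χ : G → ℂ} (hχ : IsChar χ)
    (P : Subgroup G) {n j M : ℕ} (hj : j ≠ 0) (hX : Nat.card G ∣ p ^ (j + M) * n)
    (hn : ¬ p ∣ n) (hnG : n ∣ Nat.card G) (hP : ∀ u ∈ P, u ^ p ^ (j + M) = 1)
    (hy : ∀ u ∈ P, (∀ v ∈ P, u * v = v * u) → yy χ (p ^ j * n) (p ^ M) u ≠ 0) :
    (centralClasses P : ℝ) * n ≤ ∑ g, Complex.normSq (yy χ (p ^ j * n) (p ^ M) g) := by
  have hn0 : n ≠ 0 := by rintro rfl; exact hn (dvd_zero p)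
  have hnR : (0 : ℝ) < n := Nat.cast_pos.mpr (Nat.pos_of_ne_zero hn0)
  have hL : p ^ M ≠ 0 := pow_ne_zero _ hp.ne_zero
  have hco := (Nat.Prime.coprime_iff_not_dvd hp).mpr hn
  obtain ⟨e, he1, he2⟩ := Nat.chineseRemainder (hco.pow_left (j + M)) 1 0
  have hG : ∀ g : G, g ^ (p ^ (j + M) * n) = 1 := fun g =>
    orderOf_dvd_iff_pow_eq_one.mp ((orderOf_dvd_natCard g).trans hX)
  have he : ∀ g : G, (g ^ e) ^ p ^ (j + M) = 1 := by
    intro g
    obtain ⟨t, rfl⟩ := Nat.modEq_zero_iff_dvd.mp he2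
    rw [← pow_mul, show n * t * p ^ (j + M) = p ^ (j + M) * n * t by ring, pow_mul, hG, one_pow]
  let y := yy χ (p ^ j * n) (p ^ M)
  let S : ConjClasses G → Finset G := fun c => univ.filter fun g => ConjClasses.mk (g ^ e) = c
  let f : ConjClasses G → ℝ := fun c => (n : ℝ)⁻¹ * ∑ g ∈ S c, Complex.normSq (y g)
  have hf : ∀ c, (f c : ℂ) = (n : ℂ)⁻¹ * ∑ g ∈ S c, y g * y g⁻¹ := by
    intro c
    simp only [f, y, ← yy_normSq hχ]
    push_cast
    rfl
  let K : Finset (ConjClasses G) := univ.filter fun c =>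
    ∃ u ∈ P, (∀ v ∈ P, u * v = v * u) ∧ ConjClasses.mk u = c
  have hK : centralClasses P = K.card := by
    rw [centralClasses, ← Set.ncard_coe_finset]
    congr 1
    ext c
    simp [K]
  have hKm : ∀ m, ∀ c ∈ K, pw m c ∈ K := by
    intro m c hc
    obtain ⟨u, h1, h2, rfl⟩ := (mem_filter.mp hc).2
    exact mem_filter.mpr ⟨mem_univ _, u ^ m, P.pow_mem h1 m,
      fun v hv => ((show Commute u v from h2 v hv).pow_left m).eq, rfl⟩
  have h1 := card_le_sum K f (fun c hc => ?_) (fun c _ => ?_) fun τ => ?_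
  · rw [hK]
    refine (mul_le_mul_of_nonneg_right h1 hnR.le).trans ?_
    simp only [f, S, ← mul_sum]
    rw [mul_comm, mul_inv_cancel_left₀ hnR.ne', sum_fiberwise_eq_sum_filter]
    exact sum_le_sum_of_subset_of_nonneg (filter_subset _ _) fun _ _ _ => Complex.normSq_nonneg _
  · obtain ⟨u, h1, h2, rfl⟩ := (mem_filter.mp hc).2
    refine mul_pos (inv_pos.mpr hnR) (sum_pos' (fun _ _ => Complex.normSq_nonneg _)
      ⟨u, mem_filter.mpr ⟨mem_univ _, ?_⟩, Complex.normSq_pos.mpr (hy u h1 h2)⟩)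
    rw [pow_eq_pow_iff_modEq.mpr (he1.of_dvd (orderOf_dvd_iff_pow_eq_one.mpr (hP u h1))), pow_one]
  · have hy1 : ∀ g, IsIntegral ℤ (y g) := fun g => yy_int hχ hL
      (mul_ne_zero (pow_ne_zero _ hp.ne_zero) hn0) (by rw [mul_right_comm, ← pow_add, hG])
    have h2 : IsIntegral ℤ (∑ g ∈ S c, y g * y g⁻¹) :=
      IsIntegral.sum _ fun g _ => (hy1 g).mul (hy1 _)
    obtain ⟨w, hw, h3⟩ : ((p ^ M : ℕ) : ℂ) ^ 2 * ∑ g ∈ S c, y g * y g⁻¹ ∈ mulInt n := by
      rw [yy_sum χ _ hL]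
      refine sum_mem fun t _ => sum_mem fun t' _ => ?_
      exact sec_int ((hχ.pow (coprime_card hX (modEq_exp hj n t))).mul
        (hχ.pow (coprime_card hX (modEq_exp hj n t'))).inv) hp he hnG hn c
    obtain ⟨a, b, hab⟩ := Nat.isCoprime_iff_coprime.mpr ((hco.pow_left M).pow_left 2)
    have h4 := congrArg (Int.cast (R := ℂ)) hab
    have h5 : (f c : ℂ) = a • w + b • ∑ g ∈ S c, y g * y g⁻¹ := by
      rw [hf, inv_mul_eq_iff_eq_mul₀ (Nat.cast_ne_zero.mpr hn0), zsmul_eq_mul, zsmul_eq_mul]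
      push_cast at h3 h4
      linear_combination a * h3 - (∑ g ∈ S c, y g * y g⁻¹) * h4
    rw [h5]
    exact (hw.zsmul a).add (h2.zsmul b)
  · obtain ⟨m, hm, hτ⟩ := exists_exp τ (Nat.card_pos (α := G)).ne'
    obtain ⟨w, hw⟩ := exists_inv (Nat.card_pos (α := G)).ne' hm
    have h2 : ∀ g, τ (y g) = y (g ^ m) := by
      intro g
      simp only [y, yy, map_mul, map_inv₀, map_natCast, map_sum, hχ.acts hτ pow_card_eq_one',
        ← pow_mul, mul_comm m]
    refine prod_nbij' (pw m) (pw w) (hKm m) (hKm w) (fun c _ => pw_pw hw c)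
      (fun c _ => pw_pw (mul_comm m w ▸ hw) c) fun c _ => ?_
    rw [hf, hf]
    simp only [map_mul, map_inv₀, map_natCast, map_sum, h2, inv_pow]
    congr 1
    refine sum_bijective _ (pow_bij hm) (fun g => ?_) fun _ _ => rfl
    simp only [S, mem_filter, mem_univ, true_and]
    rw [← pow_mul, mul_comm, pow_mul, ← pw_mk m]
    exact ⟨fun h => h ▸ rfl, fun h => by rw [← pw_pw hw c, ← h, pw_pw hw]⟩

theorem main_le [Finite G] {p : ℕ} [hp : Fact p.Prime] (hp2 : p ≠ 2) (P : Sylow p G) {χ : G → ℂ}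
    (hχ : IsIrr χ) (hd : χ 1 ∉ pInt p) :
    p ^ (lev p χ - max (ell p fun v : P => χ v) 1) * centralClasses (P : Subgroup G) ≤
      Nat.card P := by
  have := Fintype.ofFinite G
  obtain ⟨N, hN⟩ := (IsPGroup.iff_card (G := P)).mp P.2
  set j := max (ell p fun v : P => χ v) 1
  have hj : j ≠ 0 := (lt_of_lt_of_le one_pos (le_max_right _ _)).ne'
  have hG : Nat.card P * (P : Subgroup G).index = Nat.card G := P.1.card_mul_index
  rcases le_total (lev p χ) j with h | h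
  · rw [Nat.sub_eq_zero_of_le h, pow_zero, one_mul]
    refine (Set.ncard_le_ncard (t := ConjClasses.mk '' (P : Set G)) ?_).trans
      ((Set.ncard_image_le (Set.toFinite _)).trans (Nat.card_coe_set_eq _).ge)
    rintro _ ⟨u, h1, -, rfl⟩
    exact ⟨u, h1, rfl⟩
  obtain ⟨b, hb⟩ := Nat.exists_eq_add_of_le h
  have hX : Nat.card G ∣ p ^ (j + (b + N)) * (P : Subgroup G).index := by
    rw [← hG, hN]
    exact Nat.mul_dvd_mul_right (pow_dvd_pow p (by omega)) _
  have hP : ∀ u ∈ P, u ^ p ^ (j + (b + N)) = 1 := by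
    intro u hu
    have h1 : u ^ p ^ N = 1 := hN ▸ congrArg Subtype.val (pow_card_eq_one' (x := (⟨u, hu⟩ : P)))
    rw [← add_assoc, add_comm, pow_add, pow_mul, h1, one_pow]
  have h1 := norm_le (M := N) hp.out hp2 hχ hj hX P.not_dvd_index hb
  have h2 := count_le hp.out hχ.isChar P hj hX P.not_dvd_index P.1.index_dvd_card hP
    fun u hu hc => yy_ne hp2 P hχ hd hj P.not_dvd_index (le_max_left _ _) hu hc (hP u hu)
  have h3 := (mul_le_mul_of_nonneg_right h2 (by positivity)).trans h1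
  rw [← hG] at h3
  rw [hb, Nat.add_sub_cancel_left]
  refine Nat.le_of_mul_le_mul_right ?_ (Nat.pos_of_ne_zero
    (Subgroup.FiniteIndex.index_ne_zero (H := (P : Subgroup G))))
  rw [mul_comm (p ^ b), mul_right_comm]
  exact_mod_cast h3

theorem ell_le [Finite G] {p : ℕ} [hp : Fact p.Prime] (hp2 : p ≠ 2) (P : Sylow p G) {χ : G → ℂ}
    (hχ : IsChar χ) (hl : 1 ≤ lev p χ) : (ell p fun v : P => χ v) ≤ lev p χ := by
  have := Fintype.ofFinite P
  obtain ⟨N, hN⟩ := (IsPGroup.iff_card (G := P)).mp P.2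
  have hG : Nat.card P * (P : Subgroup G).index = Nat.card G := P.1.card_mul_index
  refine csSup_le' fun i hi => not_lt.mp fun h => hi ?_
  obtain ⟨i, rfl⟩ := Nat.exists_eq_add_one_of_ne_zero (by omega : i ≠ 0)
  have h1 := modEq_exp (p := p) (by omega : i ≠ 0) (P : Subgroup G).index 1
  have h2 : ∀ k, 1 + 1 * (p ^ i * (P : Subgroup G).index) ≡ 1 [MOD p ^ k] ↔
      p ^ k ∣ p ^ i * (P : Subgroup G).index := fun k => by
    rw [Nat.ModEq.comm, Nat.modEq_iff_dvd' (Nat.le_add_right _ _)]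
    simp
  have h3 := (key hp.out hp2 hχ (by rw [← hG, hN]) P.not_dvd_index h1).mpr
    ((h2 _).mpr ((pow_dvd_pow p (by omega)).mul_right _))
  refine delta_mem hp.out hp2 P.2 (hχ.comp P.1.subtype) (h1.of_mul_right _) (fun h4 => ?_)
    fun v => h3 v
  rw [h2, pow_succ] at h4
  exact P.not_dvd_index (Nat.dvd_of_mul_dvd_mul_left (pow_pos hp.out.pos _) h4)

theorem card_le_of_comm [Finite G] {p : ℕ} [Fact p.Prime] (P : Sylow p G)
    (hc : ∀ u ∈ P, ∀ v ∈ P, u * v = v * u) : Nat.card P ≤ centralClasses (P : Subgroup G) *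
      (Subgroup.centralizer (P : Set G)).relIndex (Subgroup.normalizer (P : Set G)) := by
  let K := {c : ConjClasses G | ∃ u ∈ P, (∀ v ∈ P, u * v = v * u) ∧ ConjClasses.mk u = c}
  choose r h1 h2 h3 using fun c : K => c.2
  let cl : P → K := fun u => ⟨ConjClasses.mk u, u, u.2, hc u u.2, rfl⟩
  have h4 : ∀ u : P, ∃ a : Subgroup.normalizer (P : Set G), a * r (cl u) * (a : G)⁻¹ = u := by
    intro u
    obtain ⟨g, hg⟩ := isConj_iff.mp (ConjClasses.mk_eq_mk_iff_isConj.mp (h3 (cl u)))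
    obtain ⟨n, h5, h6⟩ := P.conj_eq_normalizer_conj_of_mem_centralizer (r (cl u)) g⁻¹
      (fun v hv => (h2 _ v hv).symm) (by
        rw [inv_inv, hg]
        exact fun v hv => hc v hv u u.2)
    exact ⟨⟨n, h5⟩⁻¹, by rw [← hg, ← inv_inv g, inv_inv g⁻¹, h6]; simp⟩
  choose a ha using h4
  rw [centralClasses, ← Nat.card_coe_set_eq, Subgroup.relIndex, Subgroup.index, ← Nat.card_prod]
  refine Nat.card_le_card_of_injective (fun u => (cl u, QuotientGroup.mk (a u))) fun u v h => ?_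
  obtain ⟨h5, h6⟩ := Prod.mk.inj h
  have h7 : r (cl v) * ((a u : G)⁻¹ * a v) = (a u : G)⁻¹ * a v * r (cl v) :=
    QuotientGroup.eq.mp h6 _ (h1 _)
  refine Subtype.ext ?_
  rw [← ha u, ← ha v, h5, mul_inv_eq_iff_eq_mul, mul_assoc _ (a v : G)⁻¹, ← mul_inv_eq_iff_eq_mul,
    mul_inv_rev, inv_inv, mul_assoc, h7]
  simp [mul_assoc]

/-- The level equals `ell` when there are more than `|P| / p` central classes. -/
theorem eq_of_lt [Finite G] {p : ℕ} [hp : Fact p.Prime] (hp2 : p ≠ 2) (P : Sylow p G) {χ : G → ℂ}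
    (hχ : IsIrr χ) (hd : χ 1 ∉ pInt p) (hl : 2 ≤ lev p χ)
    (hk : Nat.card P < p * centralClasses (P : Subgroup G)) :
    lev p χ = ell p fun v : P => χ v := by
  refine le_antisymm (not_lt.mp fun h => hk.not_ge ?_) (ell_le hp2 P hχ.isChar (by omega))
  refine le_trans (Nat.mul_le_mul_right _ ?_) (main_le hp2 P hχ hd)
  exact Nat.le_self_pow (by omega) p

/-- The level equals `ell` when `P` is abelian with automizer of order less than `p`. -/
theorem eq_of_comm [Finite G] {p : ℕ} [hp : Fact p.Prime] (hp2 : p ≠ 2) (P : Sylow p G)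
    {χ : G → ℂ} (hχ : IsIrr χ) (hd : χ 1 ∉ pInt p) (hl : 2 ≤ lev p χ)
    (hc : ∀ u ∈ P, ∀ v ∈ P, u * v = v * u)
    (hE : (Subgroup.centralizer (P : Set G)).relIndex (Subgroup.normalizer (P : Set G)) < p) :
    lev p χ = ell p fun v : P => χ v := by
  have h1 := card_le_of_comm P hc
  refine eq_of_lt hp2 P hχ hd hl (h1.trans_lt ?_)
  rw [mul_comm]
  refine Nat.mul_lt_mul_of_pos_right hE (Nat.pos_of_ne_zero fun h => ?_)
  rw [h, zero_mul] at h1
  exact Nat.card_pos.not_ge h1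

end Pool.Agent.MP_3e257e_al
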