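import Pool.Agent.MP_3e257e_al.Ell

/-!
The Galois average of a character does not vanish on the centre of a Sylow subgroup.
-/

set_option autoImplicit false

namespace Pool.Agent.MP_3e257e_al

open Finset MulAction

theorem root_avg {L k : ℕ} (hL : L ≠ 0) (hk : k ≠ 0) {ξ : ℂ} (h : ξ ^ (k * L) = 1) :
    IsIntegral ℤ ((L : ℂ)⁻¹ * ∑ t ∈ range L, ξ ^ (1 + t * k)) := by
  have h1 : ∑ t ∈ range L, ξ ^ (1 + t * k) = ξ * ∑ t ∈ range L, (ξ ^ k) ^ t := by
    rw [mul_sum]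
    exact sum_congr rfl fun t _ => by ring
  rw [h1]
  by_cases h2 : ξ ^ k = 1
  · simp only [h2, one_pow, sum_const, card_range, nsmul_eq_mul, mul_one]
    rw [mul_comm ξ, inv_mul_cancel_left₀ (Nat.cast_ne_zero.mpr hL)]
    exact isIntegral_root hk h2
  · rw [geom_sum_eq h2, ← pow_mul, h, sub_self, zero_div, mul_zero, mul_zero]
    exact isIntegral_zero

variable {G : Type} [Group G]

/-- The average of the conjugates of `χ` under the exponents `1 + t k`, `t < L`. -/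
noncomputable def yy (χ : G → ℂ) (k L : ℕ) (g : G) : ℂ :=
  (L : ℂ)⁻¹ * ∑ t ∈ range L, χ (g ^ (1 + t * k))

theorem yy_int [Finite G] {χ : G → ℂ} (h : IsChar χ) {L k : ℕ} (hL : L ≠ 0) (hk : k ≠ 0) {g : G}
    (hg : g ^ (k * L) = 1) : IsIntegral ℤ (yy χ k L g) := by
  obtain ⟨s, h1, h2⟩ := h.roots g
  simp only [yy, h1]
  have h3 : ∀ ξ ∈ s, ξ ^ (k * L) = 1 := fun ξ hξ => h2 ξ hξ _ hg
  clear h1 h2
  induction s using Multiset.induction_on with
  | empty => simpa using isIntegral_zero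
  | cons a s ih =>
    simp only [Multiset.map_cons, Multiset.sum_cons, sum_add_distrib, mul_add]
    exact (root_avg hL hk (h3 a (Multiset.mem_cons_self a s))).add
      (ih fun ξ hξ => h3 ξ (Multiset.mem_cons_of_mem hξ))

theorem orbc (P : Subgroup G) (S : Finset G) (hS : ∀ x ∈ S, ∀ t ∈ P, t * x * t⁻¹ ∈ S) (f : G → ℂ)
    (hf : ∀ x ∈ S, ∀ t ∈ P, f (t * x * t⁻¹) = f x) (I : AddSubgroup ℂ)
    (hI : ∀ x ∈ S, (((Subgroup.centralizer {x}).subgroupOf P).index : ℂ) * f x ∈ I) :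
    ∑ x ∈ S, f x ∈ I := by
  let inst : MulAction P G := MulAction.compHom G (MulAut.conj.comp P.subtype)
  refine @orb P G _ inst S (fun x hx t => hS x hx t t.2) f (fun x hx t => hf x hx t t.2) I
    fun x hx => ?_
  have : @stabilizer P G _ inst x = (Subgroup.centralizer {x}).subgroupOf P := by
    ext t
    rw [Subgroup.mem_subgroupOf, Subgroup.mem_centralizer_singleton_iff, ← mul_inv_eq_iff_eq_mul]
    rfl
  rw [this]
  exact hI x hx

open Classical in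
theorem card_class [Fintype G] (u : G) :
    (univ.filter fun x => IsConj u x).card = (Subgroup.centralizer {u}).index := by
  let inst : MulAction G G := MulAction.compHom G (MulAut.conj (G := G))
  have h1 : @stabilizer G G _ inst u = Subgroup.centralizer {u} := by
    ext t
    rw [Subgroup.mem_centralizer_singleton_iff, ← mul_inv_eq_iff_eq_mul]
    rfl
  rw [← h1, @index_stabilizer, ← Set.ncard_coe_finset]
  congr 1
  ext x
  simp only [coe_filter, mem_univ, true_and, Set.mem_ofPred_eq, isConj_iff]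
  rfl

theorem index_sup [Finite G] (D Q : Subgroup G) [Q.Normal] :
    D.index * Nat.card (D.subgroupOf Q) = (D ⊔ Q).index * Nat.card Q := by
  have h1 := Subgroup.relIndex_mul_index (inf_le_left : D ⊓ Q ≤ D)
  have h2 := Subgroup.relIndex_mul_index (inf_le_right : D ⊓ Q ≤ Q)
  have h3 := Subgroup.relIndex_mul_index (le_sup_right : Q ≤ D ⊔ Q)
  rw [Subgroup.inf_relIndex_left] at h1
  rw [Subgroup.inf_relIndex_right] at h2
  rw [Subgroup.relIndex_sup_right] at h3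
  have h4 : D.index = D.relIndex Q * (D ⊔ Q).index := by
    refine Nat.eq_of_mul_eq_mul_left (Nat.pos_of_ne_zero
      (Subgroup.FiniteIndex.index_ne_zero (H := Q.subgroupOf D))) ?_
    change Q.relIndex D * _ = Q.relIndex D * _
    rw [h1, ← h2, ← h3]
    ring
  rw [h4, ← (D.subgroupOf Q).index_mul_card, Subgroup.relIndex]
  ring

theorem dq_prop {Y : Type} [Group Y] [Fintype Y] {Ψ : Y → ℂ} (h : IsChar Ψ) {k : ℕ} (hk : k ≠ 0)
    (v : Y) : (∀ n, n ≠ 0 → k ∣ n → dq k Ψ v ∈ cyc n) ∧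
      dq k Ψ v - dq k Ψ 1 ∈ mulInt (1 - zt k) := by
  obtain ⟨s, hs, rfl⟩ := h.decomp
  rw [dq_sum, dq_sum, ← Multiset.sum_map_sub]
  refine ⟨fun n hn hkn => multiset_sum_mem _ fun x hx => ?_, multiset_sum_mem _ fun x hx => ?_⟩
  · obtain ⟨θ, hθ, rfl⟩ := Multiset.mem_map.mp hx
    rcases (hs θ hθ).tri k with h1 | ⟨-, h1⟩
    · rw [h1]; exact zero_mem _
    · obtain ⟨t, rfl⟩ := hkn
      rw [(h1 v).1]
      exact root_mem_cyc hn (by rw [pow_mul, (h1 v).2, one_pow])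
  · obtain ⟨θ, hθ, rfl⟩ := Multiset.mem_map.mp hx
    rcases (hs θ hθ).tri k with h1 | ⟨h0, h1⟩
    · rw [h1, h1, sub_self]; exact zero_mem _
    · obtain ⟨i, hi⟩ := exists_zt_pow hk (h1 v).2
      rw [(h1 v).1, (h1 1).1, h0, hi]
      refine ⟨-∑ l ∈ range i, zt k ^ l, (IsIntegral.sum _ fun l _ =>
        (isIntegral_root hk (zt_prim hk).pow_eq_one).pow l).neg, ?_⟩
      rw [mul_neg, mul_neg_geom_sum, neg_sub]

open Classical in
theorem class_cong [Fintype G] {p : ℕ} [hp : Fact p.Prime] (P : Sylow p G) {χ : G → ℂ}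
    (hχ : IsIrr χ) {k : ℕ} (hk : p ∣ k) {u : G} (hu : u ∈ P) (hc : ∀ v ∈ P, u * v = v * u) :
    ∃ (a : ℕ) (S : Finset P), ¬ p ∣ S.card ∧ a * χ u * dq k (fun v : P => χ v) 1 -
      χ 1 * ∑ v ∈ S, dq k (fun v : P => χ v) v ∈ mulInt p := by
  let K := univ.filter fun x => IsConj u x
  let φ : G → ℂ := fun x => (Nat.card (Qs P k) : ℂ)⁻¹ * ∑ q : Qs P k, χ (q * x)
  obtain ⟨c, hc1⟩ := hχ.conv (f := fun x => if IsConj u x then 1 else 0) fun a b =>
    if_congr ⟨fun h => h.trans (isConj_iff.mpr ⟨a, rfl⟩).symm,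
      fun h => h.trans (isConj_iff.mpr ⟨a, rfl⟩)⟩ rfl rfl
  have h1 : ∀ y, ∑ x ∈ K, χ (y * x) = c * χ y := by
    intro y
    rw [← hc1, sum_filter]
    exact sum_congr rfl fun x _ => by rw [hχ.isChar.comm]; simp
  have h2 : K.card * χ u = c * χ 1 := by
    rw [← h1, ← nsmul_eq_mul, ← sum_const]
    refine sum_congr rfl fun x hx => ?_
    obtain ⟨a, rfl⟩ := isConj_iff.mp (mem_filter.mp hx).2
    rw [one_mul, hχ.isChar.conj]
  have h3 : ∑ x ∈ K, φ x = c * dq k (fun v : P => χ v) 1 := by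
    simp only [φ, dq, ← mul_sum, mul_one]
    rw [sum_comm]
    simp only [h1, ← mul_sum]
    exact mul_left_comm _ _ _
  let K1 := K.filter fun x => ¬ ∀ v ∈ P, x * v = v * x
  have hK1 : ∀ x ∈ K1, ∀ t ∈ (P : Subgroup G), t * x * t⁻¹ ∈ K1 := by
    intro x hx t ht
    obtain ⟨h4, h5⟩ := mem_filter.mp hx
    refine mem_filter.mpr ⟨mem_filter.mpr ⟨mem_univ _,
      (mem_filter.mp h4).2.trans (isConj_iff.mpr ⟨t, rfl⟩)⟩, fun h6 => h5 fun v hv => ?_⟩
    have h7 := h6 (t * v * t⁻¹) (P.1.mul_mem (P.1.mul_mem ht hv) (P.1.inv_mem ht))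
    have h8 : t * (x * v) * t⁻¹ = t * (v * x) * t⁻¹ := by
      rw [← conj_mul, ← conj_mul, h7]
    simpa using h8
  have hne : ∀ x ∈ K1, (Subgroup.centralizer {x}).subgroupOf P ≠ ⊤ := by
    intro x hx h4
    refine (mem_filter.mp hx).2 fun v hv => ?_
    have h5 : (⟨v, hv⟩ : P) ∈ (Subgroup.centralizer {x}).subgroupOf P := h4 ▸ Subgroup.mem_top _
    exact (Subgroup.mem_centralizer_singleton_iff.mp h5).symm
  have h4 : ∑ x ∈ K1, φ x ∈ mulInt p := by
    refine orbc P K1 hK1 φ (fun x _ t ht => ?_) _ fun x hx => ?_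
    · simp only [φ]
      congr 1
      refine (Fintype.sum_equiv (MulAut.conjNormal (⟨t, ht⟩ : P)).toEquiv _ _ fun q => ?_).symm
      rw [← hχ.isChar.conj t, ← conj_mul]
      rfl
    · have h5 := hχ.isChar.hecke (P.1.subtype.comp (Qs P k).subtype)
        (((Subgroup.centralizer {x}).subgroupOf P).subgroupOf (Qs P k)) x
        fun r hr => ⟨r, Subgroup.mem_centralizer_singleton_iff.mp hr⟩
      obtain ⟨t, ht⟩ := dvd_index hp.out P.2 (sup_Qs_ne hp.out P.2 (hne x hx) hk)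
      have h6 := index_sup ((Subgroup.centralizer {x}).subgroupOf P) (Qs P k)
      rw [ht] at h6
      have h7 := congrArg (Nat.cast (R := ℂ)) h6
      push_cast at h7
      refine ⟨_, h5.nsmul t, ?_⟩
      have h8 : (Nat.card (Qs P k) : ℂ) ≠ 0 := Nat.cast_ne_zero.mpr Nat.card_pos.ne'
      have h9 : (Nat.card (((Subgroup.centralizer {x}).subgroupOf P).subgroupOf (Qs P k)) : ℂ)
        ≠ 0 := Nat.cast_ne_zero.mpr Nat.card_pos.ne'
      simp only [φ, nsmul_eq_mul, ← mul_assoc]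
      congr 1
      rw [← div_eq_mul_inv, ← div_eq_mul_inv, div_eq_div_iff h8 h9, h7]
  have h5 : ∑ x ∈ K1, (1 : ℂ) ∈ pInt p := orbc P K1 hK1 _ (fun _ _ _ _ => rfl) _ fun x hx => by
    obtain ⟨t, ht⟩ := dvd_index hp.out P.2 (hne x hx)
    exact ⟨t, by rw [ht]; push_cast; ring⟩
  let K0 := K.filter fun x => ∀ v ∈ P, x * v = v * x
  have h6 : ∀ x ∈ K0, x ∈ P := by
    intro x hx
    obtain ⟨h7, h8⟩ := mem_filter.mp hx
    obtain ⟨a, rfl⟩ := isConj_iff.mp (mem_filter.mp h7).2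
    obtain ⟨n, hn⟩ := P.2 ⟨u, hu⟩
    have h9 : u ^ p ^ n = 1 := congrArg Subtype.val hn
    have h10 : IsPGroup p (Subgroup.zpowers (a * u * a⁻¹)) := by
      rintro ⟨_, t, rfl⟩
      refine ⟨n, Subtype.ext ?_⟩
      change ((a * u * a⁻¹) ^ t) ^ p ^ n = 1
      rw [← zpow_natCast, ← zpow_mul, mul_comm t, zpow_mul, zpow_natCast, conj_pow, h9]
      simp
    have h11 : a * u * a⁻¹ ∈ Subgroup.zpowers (a * u * a⁻¹) ⊓ Subgroup.normalizer P :=
      ⟨Subgroup.mem_zpowers _, Subgroup.centralizer_le_normalizer _ fun v hv => (h8 v hv).symm⟩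
    rw [h10.inf_normalizer_sylow] at h11
    exact h11.2
  refine ⟨K.card, K0.subtype (· ∈ (P : Subgroup G)), ?_, ?_⟩
  · rw [card_subtype, filter_true_of_mem (p := (· ∈ (P : Subgroup G))) h6]
    intro h7
    obtain ⟨z, hz⟩ := h5
    rw [sum_const, nsmul_eq_mul, mul_one] at hz
    have h8 : p ∣ K1.card := Int.natCast_dvd_natCast.mp ⟨z, by exact_mod_cast hz⟩
    have h9 := dvd_add h7 h8
    rw [card_filter_add_card_filter_not, card_class] at h9
    exact P.not_dvd_index (h9.trans (Subgroup.index_dvd_of_le fun v hv =>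
      Subgroup.mem_centralizer_singleton_iff.mpr (hc v hv).symm))
  · have h7 : ∑ v ∈ K0.subtype (· ∈ (P : Subgroup G)), dq k (fun v : P => χ v) v =
        ∑ x ∈ K0, φ x := sum_subtype_of_mem φ h6
    obtain ⟨w, hw, h8⟩ := h4
    refine ⟨χ 1 * w, (hχ.isChar.integral 1).mul hw, ?_⟩
    have h9 : ∑ x ∈ K0, φ x + ∑ x ∈ K1, φ x = ∑ x ∈ K, φ x := sum_filter_add_sum_filter_not _ _ _
    rw [h7, h2]
    linear_combination (-χ 1) * h3 - χ 1 * h9 + χ 1 * h8

theorem yy_ne [Fintype G] {p : ℕ} [hp : Fact p.Prime] (hp2 : p ≠ 2) (P : Sylow p G) {χ : G → ℂ}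
    (hχ : IsIrr χ) (hd : χ 1 ∉ pInt p) {j M n : ℕ} (hj : j ≠ 0) (hn : ¬ p ∣ n)
    (hl : ell p (fun v : P => χ v) ≤ j) {u : G} (hu : u ∈ P) (hc : ∀ v ∈ P, u * v = v * u)
    (hu1 : u ^ p ^ (j + M) = 1) : yy χ (p ^ j * n) (p ^ M) u ≠ 0 := by
  classical
  intro h0
  have hΨ : IsChar fun v : P => χ v := hχ.isChar.comp P.1.subtype
  have hk : p ^ j ≠ 0 := pow_ne_zero _ hp.out.ne_zero
  have hN : p ^ (j + M) ≠ 0 := pow_ne_zero _ hp.out.ne_zero
  have hn0 : n ≠ 0 := by rintro rfl; exact hn (dvd_zero p)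
  obtain ⟨a, S, hS, w, hw, h1⟩ := class_cong P hχ (dvd_pow_self p hj) hu hc
  obtain ⟨z, hz⟩ := dq_one_sub hp.out hp2 P.2 hΨ hj hl
  obtain ⟨d, hd1⟩ := hχ.isChar.one
  have hz' : dq (p ^ j) (fun v : P => χ v) 1 = ((d + p * z : ℤ) : ℂ) := by
    push_cast
    rw [← hz, ← hd1]
    simp
  have hB : ∀ m, m ≠ 0 → p ^ j ∣ m → ∑ v ∈ S, dq (p ^ j) (fun v : P => χ v) v ∈ cyc m :=
    fun m hm h => sum_mem fun v _ => (dq_prop hΨ hk v).1 m hm h
  obtain ⟨w', hw', h2⟩ : ∑ v ∈ S, (dq (p ^ j) (fun v : P => χ v) v -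
      dq (p ^ j) (fun v : P => χ v) 1) ∈ mulInt (1 - zt (p ^ j)) :=
    sum_mem fun v _ => (dq_prop hΨ hk v).2
  rw [sum_sub_distrib, sum_const, nsmul_eq_mul] at h2
  rw [hz'] at h1 h2
  rw [hd1] at h1
  generalize ∑ v ∈ S, dq (p ^ j) (fun v : P => χ v) v = B at h1 h2 hB
  have hp0 : (p : ℂ) ≠ 0 := Nat.cast_ne_zero.mpr hp.out.ne_zero
  obtain ⟨r, b, hb⟩ := integral_cyc hN hw (by
    rw [show w = (a * χ u * ((d + p * z : ℤ) : ℂ) - d * B) / p by rw [h1]; field_simp]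
    exact div_mem (sub_mem (mul_mem (mul_mem (natCast_mem _ _) (hχ.isChar.mem_cyc hN hu1))
      (intCast_mem _ _)) (mul_mem (natCast_mem _ _) (hB _ hN (pow_dvd_pow p (by omega)))))
      (natCast_mem _ _))
  have h3 : ∀ t : ℕ, a * χ (u ^ (1 + t * (p ^ j * n))) * ((d + p * z : ℤ) : ℂ) - d * B =
      p * ∑ i ∈ range r, b i * (zt (p ^ (j + M)) ^ i) ^ (1 + t * (p ^ j * n)) := by
    intro t
    obtain ⟨τ, hτ⟩ := exists_acts (m := 1 + t * (p ^ j * n)) hN
      ((coprime_of_modEq ((Nat.modEq_iff_dvd' (Nat.le_add_right _ _)).mpr (by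
        simpa using ((dvd_pow_self p hj).mul_right n).mul_left t)).symm).pow_right _)
    have h4 := congrArg τ h1
    have h5 : τ B = B := by
      refine fix_cyc ?_ (hB _ hk dvd_rfl)
      have h6 := (zt_prim hk).pow_eq_one
      rw [hτ.mono (pow_dvd_pow p (by omega)) _ h6, pow_add, mul_left_comm, pow_mul, h6]
      simp
    rw [hb] at h4
    simp only [map_sub, map_mul, map_natCast, map_intCast, map_sum, h5,
      hχ.isChar.acts hτ hu1] at h4
    rw [h4]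
    congr 1
    refine sum_congr rfl fun i _ => ?_
    rw [hτ _ (by rw [← pow_mul, mul_comm, pow_mul, (zt_prim hN).pow_eq_one, one_pow])]
  have hM : ((p ^ M : ℕ) : ℂ) ≠ 0 := Nat.cast_ne_zero.mpr (pow_ne_zero _ hp.out.ne_zero)
  have h4 : ∑ t ∈ range (p ^ M), χ (u ^ (1 + t * (p ^ j * n))) = 0 :=
    (mul_eq_zero.mp h0).resolve_left (inv_ne_zero hM)
  have h5 := sum_congr (s₁ := range (p ^ M)) rfl fun t _ => h3 t
  rw [sum_sub_distrib, ← sum_mul, ← mul_sum, h4, ← mul_sum, ← mul_sum, sum_comm, sum_const,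
    card_range, nsmul_eq_mul] at h5
  have h6 : IsIntegral ℤ (∑ i ∈ range r, b i * (((p ^ M : ℕ) : ℂ)⁻¹ *
      ∑ t ∈ range (p ^ M), (zt (p ^ (j + M)) ^ i) ^ (1 + t * (p ^ j * n)))) := by
    refine IsIntegral.sum _ fun i _ => IsIntegral.mul (isIntegral_algebraMap (x := b i))
      (root_avg (pow_ne_zero _ hp.out.ne_zero) (mul_ne_zero hk hn0) ?_)
    rw [← pow_mul, show i * (p ^ j * n * p ^ M) = p ^ (j + M) * (i * n) by ring, pow_mul,
      (zt_prim hN).pow_eq_one, one_pow]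
  have h7 := dvd_of_comb hp.out (A := d * S.card * (d + p * z)) (zt_prim hk).pow_eq_one h6.neg
    ((hw'.nsmul d).neg) (by
      apply mul_left_cancel₀ hM
      simp only [← mul_sum, mul_left_comm _ ((p ^ M : ℕ) : ℂ)⁻¹] at h5 ⊢
      rw [Int.cast_mul, Int.cast_mul, Int.cast_natCast, Int.cast_natCast, nsmul_eq_mul]
      have h8 := mul_inv_cancel₀ hM
      generalize ∑ i ∈ range r, (b i : ℂ) * ∑ t ∈ range (p ^ M),
        (zt (p ^ (j + M)) ^ i) ^ (1 + t * (p ^ j * n)) = Y at h5 ⊢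
      linear_combination -h5 - ((p ^ M : ℕ) : ℂ) * d * h2 + p * Y * h8)
  have hpZ := Nat.prime_iff_prime_int.mp hp.out
  have h8 : ¬ (p : ℤ) ∣ d := fun ⟨t, ht⟩ => hd ⟨t, by rw [hd1]; exact_mod_cast ht⟩
  rcases hpZ.dvd_or_dvd h7 with h9 | h9
  · exact (hpZ.dvd_or_dvd h9).elim h8 fun h => hS (Int.natCast_dvd_natCast.mp h)
  · exact h8 ((dvd_add_left (dvd_mul_right _ _)).mp h9)

end Pool.Agent.MP_3e257e_al
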