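import Pool.Agent.MP_3e257e_al.RLin

/-!
Symmetric groups: rationality, invariant partitions and primitive subgroups of index prime to an
odd prime.
-/

set_option autoImplicit false
set_option linter.unusedSectionVars false

namespace Pool.Agent.MP_3e257e_al

open Equiv Equiv.Perm Subgroup Function MulAction

variable {Ω : Type} [Fintype Ω] [DecidableEq Ω] {p : ℕ}

theorem perm_conj (g : Perm Ω) {t : ℕ} : t.Coprime (orderOf g) → IsConj g (g ^ t) := by
  induction g using cycle_induction_on with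
  | base_one => simp
  | base_cycles σ hσ => exact fun h => hσ.isConj (hσ.pow_iff.mpr h) (by rw [support_pow_coprime h])
  | induction_disjoint σ τ hd _ h1 h2 =>
    intro h
    rw [hd.orderOf] at h
    rw [hd.commute.mul_pow]
    exact Disjoint.isConj_mul (h1 (h.coprime_dvd_right (Nat.dvd_lcm_left _ _)))
      (h2 (h.coprime_dvd_right (Nat.dvd_lcm_right _ _))) hd (hd.pow_disjoint_pow t t)

theorem perm_conj' {N n t : ℕ} (h : Nat.card (Perm Ω) = p ^ N * n) (ht : t ≡ 1 [MOD p * n])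
    (g : Perm Ω) : IsConj g (g ^ t) := by
  have h1 : t.Coprime (p * n) := by rw [Nat.Coprime, ht.gcd_eq, Nat.gcd_one_left]
  exact perm_conj g (((h1.coprime_mul_right_right.pow_right N).mul_right
    h1.coprime_mul_left_right).coprime_dvd_right (h ▸ orderOf_dvd_natCard g))

theorem tame_alt (hp : p.Prime) : Tame p (alternatingGroup Ω) := by
  obtain ⟨N, n, h1, h2⟩ := exists_card hp (Perm Ω)
  by_cases h : p = 2
  swap
  · exact (tame_of hp h1 fun t => perm_conj' h2).sub hp _ (m := 2)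
      (fun h1 => h ((Nat.prime_dvd_prime_iff_eq hp Nat.prime_two).mp h1)) fun a => by simp
  subst h
  refine tame_of hp h1 fun t ht g => ?_
  by_cases h3 : centralizer {g.1} ≤ alternatingGroup Ω
  · have h4 : orderOf g.1 ∣ n := lcm_cycleType g.1 ▸ Multiset.lcm_dvd.mpr fun i hi =>
      ((OnCycleFactors.odd_of_centralizer_le_alternatingGroup h3 i hi).coprime_two_right.pow_right
        N).dvd_of_dvd_mul_left ((dvd_of_mem_cycleType hi).trans (h2 ▸ orderOf_dvd_natCard g.1))
    rw [orderOf_coe] at h4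
    rw [(pow_eq_pow_iff_modEq (n := t) (m := 1)).mpr ((ht.of_mul_left _).of_dvd h4), pow_one]
  obtain ⟨a, ha⟩ := isConj_iff.mp (perm_conj' h2 ht g.1)
  by_cases h4 : a ∈ alternatingGroup Ω
  · exact isConj_iff.mpr ⟨⟨a, h4⟩, Subtype.ext ha⟩
  obtain ⟨c, h5, h6⟩ := SetLike.not_le_iff_exists.mp h3
  refine isConj_iff.mpr ⟨⟨a * c, ?_⟩, Subtype.ext (Eq.trans ?_ ha)⟩
  · rw [mem_alternatingGroup] at h4 h6 ⊢
    rw [map_mul, (Int.units_eq_one_or _).resolve_left h4, (Int.units_eq_one_or _).resolve_left h6]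
    rfl
  · simp [mul_assoc a, mem_centralizer_singleton_iff.mp h5]

/-- The permutations that fix every class of an equivalence relation. -/
def Kf (r : Setoid Ω) : Subgroup (Perm Ω) where
  carrier := {g | ∀ a, r (g a) a}
  one_mem' := r.refl
  mul_mem' := fun h h' a => r.trans (h _) (h' a)
  inv_mem' := fun {g} h a => r.symm (by simpa using h (g⁻¹ a))

/-- The permutations that preserve an equivalence relation. -/
def Sf (r : Setoid Ω) : Subgroup (Perm Ω) where
  carrier := {g | ∀ a b, r (g a) (g b) ↔ r a b}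
  one_mem' := fun _ _ => Iff.rfl
  mul_mem' := fun h h' a b => (h _ _).trans (h' a b)
  inv_mem' := fun {g} h a b => by rw [← h]; simp

theorem mem_sf {H : Subgroup (Perm Ω)} {r : Setoid Ω}
    (h : ∀ g ∈ H, ∀ a b, r a b → r (g a) (g b)) : H ≤ Sf r := fun g hg a b =>
  ⟨fun h1 => by simpa using h _ (inv_mem hg) _ _ h1, h g hg a b⟩

theorem cl_kf {r : Setoid Ω} (h : ∀ a, Cl p (Tame p) (⊥ : Subgroup (Perm {b // r b a}))) :
    Cl p (Tame p) (⊥ : Subgroup (Kf r)) := by
  classical
  let f : ∀ a, Kf r →* Perm {b // r b a} := fun a =>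
    { toFun := fun g => g.1.subtypePerm fun b =>
        ⟨r.trans (r.symm (g.2 b)), r.trans (g.2 b)⟩
      map_one' := rfl
      map_mul' := fun _ _ => rfl }
  refine (Cl.iInf (fun a => (f a).ker) fun a => (h a).surj (ψ := f a) (fun π => ?_) le_rfl).surj
    (ψ := MonoidHom.id _) surjective_id fun g hg => Subtype.ext (Equiv.ext fun a =>
      congrArg Subtype.val (DFunLike.congr_fun (mem_iInf.mp hg a :) (⟨a, r.refl a⟩ : {b // r b a})))
  refine ⟨⟨ofSubtype π, fun b => ?_⟩, subtypePerm_ofSubtype π⟩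
  by_cases hb : r b a
  · rw [ofSubtype_apply_of_mem π hb]
    exact r.trans (π ⟨b, hb⟩).2 (r.symm hb)
  · rw [ofSubtype_apply_of_not_mem π hb]

theorem cl_sf {r : Setoid Ω} (h : Cl p (Tame p) (⊥ : Subgroup (Kf r)))
    (h' : Cl p (Tame p) (⊥ : Subgroup (Perm (Quotient r))))
    (ht : ∀ a b, ∃ g ∈ Sf r, g a = b) : Cl p (Tame p) (⊥ : Subgroup (Sf r)) := by
  let f : Sf r →* Perm (Quotient r) :=
    { toFun := fun g => Quotient.congr g.1 fun a b => (g.2 a b).symm
      map_one' := Equiv.ext fun c => Quotient.inductionOn c fun _ => rfl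
      map_mul' := fun _ _ => Equiv.ext fun c => Quotient.inductionOn c fun _ => rfl }
  refine Cl.ext f.ker (h.surj (ψ := ((Sf r).subtype.comp f.ker.subtype).codRestrict (Kf r)
    fun g a => Quotient.exact (DFunLike.congr_fun g.2 ⟦a⟧)) (fun g => ⟨⟨⟨g, fun a b =>
      ⟨fun h1 => r.trans (r.symm (g.2 a)) (r.trans h1 (g.2 b)),
        fun h1 => r.trans (g.2 a) (r.trans h1 (r.symm (g.2 b)))⟩⟩,
      Equiv.ext fun c => Quotient.inductionOn c fun a => Quotient.sound (g.2 a)⟩, rfl⟩)
    fun g hg => Subtype.ext (congrArg (fun x : Kf r => x.1) hg)) (h'.surj (fun π => ?_) le_rfl)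
  choose g h1 h2 using fun c : Quotient r => ht (π.symm c).out c.out
  obtain ⟨e, h3⟩ : ∃ e : Perm Ω, ∀ a, Quotient.mk r (e a) = π ⟦a⟧ :=
    ⟨_, ofFiberEquiv_map fun c => (g c).subtypeEquiv fun a => by
      rw [← eq_symm_apply, Quotient.mk_eq_iff_out, Quotient.mk_eq_iff_out, ← h2 c]
      exact (h1 c _ _).symm⟩
  refine ⟨⟨e, fun a b => ?_⟩, Equiv.ext fun c => Quotient.inductionOn c h3⟩
  rw [← Quotient.eq, h3, h3, π.apply_eq_iff_eq, Quotient.eq]

theorem prim_of {H : Subgroup (Perm Ω)} (ht : IsPretransitive H Ω)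
    (h : ∀ r, H ≤ Sf r → r = ⊥ ∨ r = ⊤) : IsPreprimitive H Ω := ⟨fun {B} hB => by
  let r : Setoid Ω := ⟨fun a b => ∀ g : H, g • a ∈ B ↔ g • b ∈ B,
    fun _ _ => Iff.rfl, fun h g => (h g).symm, fun h h' g => (h g).trans (h' g)⟩
  rcases h r (mem_sf fun g hg a b h1 k => h1 (k * ⟨g, hg⟩)) with h1 | h1
  · exact .inl fun a ha b hb => (show r a b from fun g => ⟨fun h2 =>
      hB.smul_eq_of_mem ha h2 ▸ Set.smul_mem_smul_set hb, fun h2 =>
      hB.smul_eq_of_mem hb h2 ▸ Set.smul_mem_smul_set ha⟩) |> (h1.le :)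
  · rcases B.eq_empty_or_nonempty with rfl | ⟨a, ha⟩
    · exact .inl Set.subsingleton_empty
    · exact .inr (Set.eq_univ_of_forall fun b => by
        simpa [ha] using (show r a b from h1.ge trivial) 1)⟩

theorem three_of {g c : Perm Ω} {a : Ω} (h : ∀ x, x ≠ a → g x = x ∨ c x = x) (h1 : g a ≠ a)
    (h2 : c a ≠ a) : (g * c * g⁻¹ * c⁻¹).IsThreeCycle := by
  have h3 : c (g a) = g a := (h _ h1).resolve_left fun h3 => h1 (g.injective h3)
  have h4 : (swap a (g a) * g).Disjoint c := fun x => by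
    by_cases h4 : x = a
    · simp [h4]
    refine or_iff_not_imp_right.mpr fun h5 => ?_
    rw [mul_apply, (h x h4).resolve_right h5, swap_apply_of_ne_of_ne h4 fun h6 => h5 (h6 ▸ h3)]
  have h5 : g * c * g⁻¹ * c⁻¹ = swap (g a) a * swap (g a) (c a) := by
    conv_rhs => rw [swap_comm (g a), swap_comm (g a) (c a), ← h3, swap_apply_apply, h3]
    rw [← swap_mul_self_mul a (g a) g, mul_assoc _ _ c, h4.commute.eq]
    simp [mul_assoc]
  exact h5 ▸ isThreeCycle_swap_mul_swap_same h1
    (fun h6 => h1 (c.injective (h3.trans h6))) h2.symm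

theorem three_odd (hp : p.Prime) (h2 : p ≠ 2) (hn : 2 * p ≤ Fintype.card Ω)
    {H : Subgroup (Perm Ω)} (hH : ¬ p ∣ H.relIndex (alternatingGroup Ω))
    (h : IsPreprimitive H Ω) : ∃ g ∈ H, g.IsThreeCycle := by
  classical
  have := Fact.mk hp
  have h3 := hp.two_le
  obtain ⟨c, hc⟩ := (exists_with_cycleType_iff Ω (m := {p})).mpr ⟨by simp; omega, by simpa⟩
  obtain ⟨g, -, hg⟩ := conj_into hp hH (Q := zpowers c) (zpowers_le.mpr (by
    simp [sign_of_cycleType, hc, pow_succ, (hp.odd_of_ne_two h2).neg_one_pow]))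
    (.of_card (n := 1) (by rw [Nat.card_zpowers, ← lcm_cycleType, hc]; simp))
  replace hg := hg c (mem_zpowers c)
  rw [← cycleType_conj (τ := g)] at hc
  generalize g * c * g⁻¹ = c at hc hg
  have h4 : c.IsCycle := card_cycleType_eq_one.mp (by simp [hc])
  have h5 : c.support.card = p := by simp [← sum_cycleType, hc]
  obtain ⟨m, hm⟩ : ∃ m, Fintype.card Ω = p + (m + 1) := ⟨Fintype.card Ω - p - 1, by omega⟩
  have h6 : IsMultiplyPreprimitive H Ω (m + 2) := by
    refine h.isMultiplyPreprimitive (s := (c.supportᶜ : Set Ω)) ?_ ?_ ?_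
    · apply Nat.add_left_cancel
      rw [Set.ncard_add_ncard_compl, Set.ncard_coe_finset, h5, Nat.card_eq_fintype_card, hm]
    · rw [Nat.card_eq_fintype_card]
      omega
    have := isPretransitive_of_isCycle_mem h4 hg
    apply IsPreprimitive.of_prime_card
    convert! hp
    rw [Nat.card_eq_fintype_card, Fintype.card_subtype, ← h5]
    congr 1
    ext x
    simp [SubMulAction.mem_ofFixingSubgroup_iff]
  have h7 : IsMultiplyPretransitive H Ω p := isMultiplyPretransitive_of_le (n := m + 2) (by omega)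
    (by rw [Nat.card_eq_fintype_card]; omega)
  obtain ⟨a, ha⟩ := Finset.card_pos.mp (h5 ▸ hp.pos)
  obtain ⟨t, h8, h9⟩ := Finset.exists_subset_card_eq (s := c.supportᶜ) (n := p - 1) (by
    rw [Finset.card_compl]; omega)
  obtain ⟨k, hk⟩ := (Set.powersetCard.isPretransitive_of_isMultiplyPretransitive _ h7).1
    ⟨c.support, h5⟩ ⟨insert a t, show _ = _ by
      rw [Finset.card_insert_of_notMem fun h => Finset.mem_compl.mp (h8 h) ha]; omega⟩
  have h10 : (k.1 * c * k.1⁻¹).support = insert a t := by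
    rw [support_conj, Finset.map_eq_image]
    exact congrArg Subtype.val hk
  refine ⟨_, mul_mem (mul_mem (mul_mem hg ?_) (inv_mem hg)) (inv_mem ?_),
    three_of (c := k.1 * c * k.1⁻¹) (fun x hx => ?_) (mem_support.mp ha)
      (mem_support.mp (h10 ▸ Finset.mem_insert_self a t))⟩
  iterate 2 exact mul_mem (mul_mem k.2 hg) (inv_mem k.2)
  rw [← Perm.notMem_support, ← Perm.notMem_support, h10, Finset.mem_insert]
  exact or_iff_not_imp_right.mpr fun h11 =>
    Finset.mem_compl.mp (h8 ((not_not.mp h11).resolve_left hx))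

end Pool.Agent.MP_3e257e_al
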