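import Pool.Agent.MP_3e257e_al.RSys

/-!
The canonical extension of an invariant character to a central extension.
-/

set_option autoImplicit false
set_option linter.unusedSectionVars false

namespace Pool.Agent.MP_3e257e_al

open Module Finset

variable {G : Type} [Group G] {W : Type} [AddCommGroup W] [Module ℂ W] [FiniteDimensional ℂ W]
  {p : ℕ} {T M : Subgroup G} {σ : Representation ℂ M W}

/-- The inductive form of the strong statement. -/
def Good (p : ℕ) (χ : G → ℂ) : Prop :=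
  ∀ (Y : Type) [Group Y] [Fintype Y] (φ : Y →* G), Cov p φ → ∀ j, j ≠ 0 →
    dq (p ^ j) (fun y => χ (φ y)) 1 ∉ pInt p → Inv p (j + 1) χ → Inv p j χ

theorem good_of_nz [Finite G] (hp : p.Prime) {χ : G → ℂ} (hχ : IsChar χ) (hd : χ 1 ∉ pInt p)
    {Y : Type} [Group Y] [Fintype Y] {φ : Y →* G} (hφ : Cov p φ)
    (h : ∀ e, e ≠ 0 → (∀ j, e ≤ j → dq (p ^ j) (fun y => χ (φ y)) 1 ∉ pInt p) → Inv p e χ) :
    Good p χ := by
  intro Y' _ _ φ' hφ' e he h1 h2
  refine h e he fun j hj => ?_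
  rcases hj.eq_or_lt with rfl | hj
  · rwa [dq_cover hp hφ hφ' hχ]
  · intro h3
    have h4 := sub_mem h3 (dq_inv hp hφ.1 (hχ.comp φ) (by omega) ((h2.mono hj).comp φ))
    exact hd (by simpa using h4)

/-- Extension data. -/
structure Ext (p : ℕ) (T M : Subgroup G) (σ : Representation ℂ M W) (H : Type) [Group H] where
  π : H →* G
  τ : Representation ℂ H W
  ι : M →* H
  range : π.range = T
  πι : ∀ m, π (ι m) = m
  τι : ∀ m, τ (ι m) = σ m
  inj : ∀ h, π h = 1 → τ h = 1 → h = 1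
  conj : ∀ h m, ∃ m', h * ι m * h⁻¹ = ι m'
  det : ∃ r, ¬ p ∣ r ∧ ∀ h, LinearMap.det (τ h) ^ r = 1

theorem exists_ext [Finite G] (h : IsIrr σ.character) (hM : M ≤ T)
    (hT : ∀ g ∈ T, ∀ m ∈ M, g * m * g⁻¹ ∈ M)
    (hi : ∀ g ∈ T, ∀ m m' : M, (m' : G) = g * m * g⁻¹ → σ.character m' = σ.character m)
    {r : ℕ} (hr : ¬ p ∣ r) (hd : ∀ m, LinearMap.det (σ m) ^ r = 1) :
    ∃ (H : Type) (_ : Group H), Nonempty (Ext p T M σ H) := by
  let H : Subgroup (G × (End ℂ W)ˣ) :=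
    { carrier := {x | x.1 ∈ T ∧ (∀ m m' : M, (m' : G) = x.1 * m * x.1⁻¹ →
        (x.2 : End ℂ W) * σ m = σ m' * x.2) ∧ LinearMap.det (x.2 : End ℂ W) ^ r = 1}
      one_mem' := ⟨one_mem _, fun m m' h => by simp [show m' = m from Subtype.ext (by simpa using h)],
        by simp⟩
      mul_mem' := by
        rintro a b ⟨h1, h2, h3⟩ ⟨h4, h5, h6⟩
        refine ⟨mul_mem h1 h4, fun m m' h => ?_, by simp [mul_pow, h3, h6]⟩
        rw [Prod.snd_mul, Units.val_mul, mul_assoc, h5 m ⟨_, hT _ h4 _ m.2⟩ rfl, ← mul_assoc,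
          h2 _ m' (by rw [h]; simp [mul_assoc]), mul_assoc]
      inv_mem' := by
        rintro a ⟨h1, h2, h3⟩
        refine ⟨inv_mem h1, fun m m' h => ?_, ?_⟩
        · rw [Prod.snd_inv, Units.inv_mul_eq_iff_eq_mul, ← mul_assoc,
            h2 m' m (by rw [h]; simp [mul_assoc]), mul_assoc, Units.mul_inv, mul_one]
        · have h4 := mul_pow (LinearMap.det (a.2 : End ℂ W)) (LinearMap.det (a.2⁻¹.1 : End ℂ W)) r
          rw [← map_mul, Units.mul_inv, map_one, one_pow, h3, one_mul] at h4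
          exact h4.symm }
  let ι : M →* H := (M.subtype.prod σ.toHomUnits).codRestrict H fun m =>
    ⟨hM m.2, fun a b hb => by
      change σ m * σ a = σ b * σ m
      rw [← map_mul, ← map_mul, show b * m = m * a from Subtype.ext (by simp [hb])], hd m⟩
  refine ⟨H, inferInstance, ⟨⟨(MonoidHom.fst _ _).comp H.subtype,
    (Units.coeHom _).comp ((MonoidHom.snd _ _).comp H.subtype), ι, ?_, fun _ => rfl, fun _ => rfl,
    fun x h1 h2 => Subtype.ext (Prod.ext h1 (Units.ext h2)), fun x m =>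
      ⟨⟨_, hT _ x.2.1 _ m.2⟩, Subtype.ext (Prod.ext rfl (Units.ext ?_))⟩, r, hr,
      fun x => x.2.2.2⟩⟩⟩
  · refine le_antisymm (by rintro _ ⟨x, rfl⟩; exact x.2.1) fun g hg => ?_
    let c : M →* M := ((MulAut.conj g).toMonoidHom.comp M.subtype).codRestrict M
      fun m => hT g hg m m.2
    obtain ⟨e, he⟩ := equiv_of_char (σ := σ.comp c) h (funext fun m => hi g hg m (c m) rfl)
    have := h.nontrivial
    obtain ⟨z, hz⟩ := IsAlgClosed.exists_pow_nat_eq (LinearMap.det (e : End ℂ W))⁻¹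
      (Module.finrank_pos (R := ℂ) (M := W))
    have h1 : LinearMap.det (z • (e : End ℂ W)) = 1 := by
      rw [LinearMap.det_smul, hz, inv_mul_cancel₀ e.isUnit_det'.ne_zero]
    have h2 : IsUnit (z • (e : End ℂ W)) := (LinearMap.isUnit_iff_isUnit_det _).mpr (by simp [h1])
    refine ⟨⟨(g, h2.unit), hg, fun m m' hm => ?_, by simp [h1]⟩, rfl⟩
    ext v
    obtain rfl : m' = c m := Subtype.ext hm
    simpa using congrArg (z • ·) (he m v)
  · change x.1.2.1 * σ m * x.1.2⁻¹.1 = σ _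
    rw [x.2.2.1 m ⟨_, hT _ x.2.1 _ m.2⟩ rfl, mul_assoc, Units.mul_inv, mul_one]

namespace Ext

variable {H : Type} [Group H] (E : Ext p T M σ H)

theorem scalar [Finite G] (h : IsIrr σ.character) {x : H} (hx : ∀ m ∈ M, E.π x * m = m * E.π x) :
    ∃ c : ℂ, E.τ x = c • 1 := schur h fun m => by
  obtain ⟨m', h1⟩ := E.conj x m
  have h2 := congrArg E.π h1
  rw [map_mul, map_mul, E.πι, E.πι, hx m m.2, map_inv, mul_inv_cancel_right] at h2
  rw [← Subtype.ext h2, mul_inv_eq_iff_eq_mul] at h1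
  rw [← E.τι, ← map_mul, ← map_mul, h1]

theorem ker [Finite G] (hp : p.Prime) (h : IsIrr σ.character) (hd : ¬ p ∣ finrank ℂ W) :
    ∃ n, ¬ p ∣ n ∧ ∀ x, E.π x = 1 → (∃ c : ℂ, c ^ n = 1 ∧ E.τ x = c • 1) ∧ x ^ n = 1 ∧
      ∀ y, x * y = y * x := by
  obtain ⟨r, h1, h2⟩ := E.det
  refine ⟨finrank ℂ W * r, fun h3 => (hp.dvd_mul.mp h3).elim hd h1, fun x hx => ?_⟩
  obtain ⟨c, hc⟩ := E.scalar h (x := x) (by simp [hx])
  have h3 := h2 x
  rw [hc, LinearMap.det_smul, map_one, mul_one, ← pow_mul] at h3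
  refine ⟨⟨c, h3, hc⟩, E.inj _ (by simp [hx]) (by rw [map_pow, hc, smul_pow, h3, one_pow, one_smul]),
    fun y => ?_⟩
  rw [← mul_inv_eq_one]
  refine E.inj _ (by simp [hx]) ?_
  rw [map_mul, show E.τ (x * y) = E.τ (y * x) by simp [hc], rho_inv]

include E in
theorem finite [Finite G] (hp : p.Prime) (h : IsIrr σ.character) (hd : ¬ p ∣ finrank ℂ W) :
    Finite H := by
  obtain ⟨n, h1, h2⟩ := E.ker hp h hd
  refine E.π.finite_iff_finite_ker_range.mpr ⟨?_, inferInstance⟩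
  choose c h3 h4 using fun x : E.π.ker => (h2 x x.2).1
  refine Finite.of_injective (β := Polynomial.nthRootsFinset n (1 : ℂ))
    (fun x => ⟨c x, (Polynomial.mem_nthRootsFinset (Nat.pos_of_ne_zero
      (by rintro rfl; exact h1 (dvd_zero p))) 1).mpr (h3 x)⟩) fun x y h5 => ?_
  rw [← mul_inv_eq_one]
  refine Subtype.ext (E.inj _ (x * y⁻¹).2 ?_)
  rw [Subgroup.coe_mul, map_mul, h4, show c x = c y from congrArg Subtype.val h5, ← h4,
    Subgroup.coe_inv, rho_inv]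

theorem normal : E.ι.range.Normal := ⟨by
  rintro _ ⟨m, rfl⟩ x
  exact (E.conj x m).imp fun _ h => h.symm⟩

theorem inv [Finite G] [Finite H] (hp : p.Prime) (h : IsIrr σ.character)
    (hd : ¬ p ∣ finrank ℂ W) {e : ℕ} (he : e ≠ 0) (hI : Inv p e σ.character) :
    Inv p e E.τ.character := by
  classical
  obtain ⟨r, h1, h2⟩ := E.det
  obtain ⟨N, n, h3, h4⟩ := exists_card hp H
  have h5 : ¬ p ∣ n * (finrank ℂ W * r) := by simp [hp.dvd_mul, h1, h3, hd]
  refine inv_of hp h5 fun t ht x => ?_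
  obtain ⟨κ, hκ⟩ := exists_acts (n := p ^ N * (n * (finrank ℂ W * r))) (m := t)
    (mul_ne_zero (pow_ne_zero _ hp.ne_zero) fun h6 => h5 (h6 ▸ dvd_zero p))
    (((coprime_of_modEq (ht.of_dvd ((dvd_pow_self p he).mul_right _))).pow_right N).mul_right
      (coprime_of_modEq (ht.of_mul_left _)))
  have a1 : ∀ y : H, κ (E.τ.character y) = E.τ.character (y ^ t) := fun y =>
    (isChar_rep E.τ).acts hκ (by rw [← mul_assoc, pow_mul, ← h4, pow_card_eq_one', one_pow])
  have a2 : ∀ ξ : ℂ, ξ ^ (finrank ℂ W * r) = 1 → κ ξ = ξ := fun ξ hξ => by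
    rw [hκ ξ (by rw [← mul_assoc, mul_comm, pow_mul, hξ, one_pow]), pow_eq_pow_mod t hξ,
      (ht.of_mul_left _).of_mul_left _, ← pow_eq_pow_mod 1 hξ, pow_one]
  let b := Module.Free.chooseBasis ℂ W
  let τ' : Representation ℂ H W :=
    (LinearMap.toMatrixAlgEquiv b).symm.toMulEquiv.toMonoidHom.comp
      ((κ.toRingHom.mapMatrix).toMonoidHom.comp
        ((LinearMap.toMatrixAlgEquiv b).toMulEquiv.toMonoidHom.comp E.τ))
  have b0 : ∀ y, LinearMap.toMatrix b b (τ' y) = (LinearMap.toMatrix b b (E.τ y)).map κ :=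
    fun y => (LinearMap.toMatrixAlgEquiv b).apply_symm_apply _
  have b1 : ∀ y, τ'.character y = κ (E.τ.character y) := fun y => by
    rw [Representation.character, Representation.character, LinearMap.trace_eq_matrix_trace ℂ b,
      LinearMap.trace_eq_matrix_trace ℂ b, b0, AddMonoidHom.map_trace κ]
  have b2 : LinearMap.det (τ' x) = LinearMap.det (E.τ x) := by
    rw [← a2 (LinearMap.det (E.τ x)) (by rw [mul_comm, pow_mul, h2, one_pow]),
      ← LinearMap.det_toMatrix b, ← LinearMap.det_toMatrix b, b0]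
    exact (κ.toRingHom.map_det _).symm
  obtain ⟨B, hB⟩ := equiv_of_char (σ := τ'.comp E.ι) h (funext fun m => by
    change τ'.character (E.ι m) = _
    rw [b1, a1, ← map_pow, Representation.character, E.τι]
    refine hI m N n t h3 (Subtype.ext ?_) (ht.of_dvd (mul_dvd_mul_left _ (dvd_mul_right _ _)))
    rw [Subgroup.coe_pow, ← E.πι, ← map_pow, ← h4, pow_card_eq_one', map_one, Subgroup.coe_one])
  have b3 : ∀ m, B.symm.conj (τ' (E.ι m)) = σ m := fun m => by
    ext v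
    rw [LinearEquiv.conj_apply_apply, LinearEquiv.symm_symm, LinearEquiv.symm_apply_eq]
    exact (hB m v).symm
  have b4 : ∀ a a' : End ℂ W, B.symm.conj (a * a') = B.symm.conj a * B.symm.conj a' :=
    fun a a' => B.symm.conj_comp a' a
  obtain ⟨η, hη⟩ := schur h (T := E.τ x⁻¹ * B.symm.conj (τ' x)) fun m => by
    obtain ⟨m', h6⟩ := E.conj x m
    rw [mul_assoc, ← b3 m, ← b4, ← map_mul, mul_inv_eq_iff_eq_mul.mp h6, map_mul, b4, b3, b3,
      ← mul_assoc, ← mul_assoc, ← E.τι, ← E.τι, ← map_mul, ← map_mul, ← h6]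
    congr 2
    group
  have b5 : B.symm.conj (τ' x) = η • E.τ x := by
    rw [← mul_one (E.τ x), ← mul_smul_comm, ← hη, ← mul_assoc, rho_inv, one_mul]
  have b6 : η ^ finrank ℂ W = 1 := by
    have h6 := congrArg LinearMap.det b5
    rw [LinearMap.det_smul, LinearEquiv.conj_apply, LinearMap.comp_assoc, LinearMap.det_conj,
      b2] at h6
    exact (mul_eq_right₀ (LinearMap.isUnit_det _ (E.τ.toHomUnits x).isUnit).ne_zero).mp h6.symm
  have b7 : κ (E.τ.character x) = η * E.τ.character x := by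
    rw [← b1, Representation.character, ← LinearMap.trace_conj' _ B.symm, b5, map_smul]
    rfl
  have b8 : ∀ k, E.τ.character (x ^ t ^ k) = η ^ k * E.τ.character x := fun k => by
    induction k with
    | zero => simp
    | succ k ih =>
      rw [pow_succ t, pow_mul, ← a1, ih, map_mul, map_pow, b7,
        a2 η (by rw [pow_mul, b6, one_pow]), pow_succ, mul_assoc]
  have b9 : t ^ p ^ N ≡ 1 [MOD Nat.card H] := by
    rw [h4]
    refine (Nat.modEq_and_modEq_iff_modEq_mul (co_pow hp h3 N)).mp ⟨?_, by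
      simpa using ((ht.of_mul_left _).of_mul_right _).pow _⟩
    have h5 := dvd_sub_pow_of_dvd_sub (R := ℤ)
      (ht.of_dvd ((dvd_pow_self p he).mul_right _)).dvd N
    rw [Nat.modEq_iff_dvd]
    push_cast
    rw [Nat.cast_one, one_pow] at h5
    exact (pow_dvd_pow _ N.le_succ).trans h5
  have b10 := b8 (p ^ N)
  rw [pow_congr b9, pow_one] at b10
  rw [← a1, b7]
  by_cases h6 : E.τ.character x = 0
  · rw [h6, mul_zero]
  · rw [(pow_eq_one_iff_of_coprime (co_pow hp hd N)).mp ⟨(mul_eq_right₀ h6).mp b10.symm, b6⟩,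
      one_mul]

theorem lift_eq [Finite G] (hp : p.Prime) (h : IsIrr σ.character) (hd : ¬ p ∣ finrank ℂ W)
    {x : H} {k : ℕ} (hx : x ^ p ^ k = 1) (hm : E.π x ∈ M) : x = E.ι ⟨_, hm⟩ := by
  obtain ⟨n, h1, h2⟩ := E.ker hp h hd
  obtain ⟨-, h3, h4⟩ := h2 (x * (E.ι ⟨_, hm⟩)⁻¹) (by simp [E.πι])
  rw [← mul_inv_eq_one]
  refine (pow_eq_one_iff_of_coprime (co_pow hp h1 k)).mp ⟨?_, h3⟩
  have h5 := (show Commute _ _ from h4 (E.ι ⟨_, hm⟩)).mul_pow (p ^ k)
  rw [inv_mul_cancel_right, hx, ← map_pow, show (⟨_, hm⟩ : M) ^ p ^ k = 1 from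
    Subtype.ext (by rw [Subgroup.coe_pow, ← map_pow, hx, map_one, Subgroup.coe_one]),
    map_one, mul_one] at h5
  exact h5.symm

theorem exists_sec [Finite G] [Finite H] (hp : p.Prime) (h : IsIrr σ.character)
    (hd : ¬ p ∣ finrank ℂ W) {Y : Type} [Group Y] [Finite Y] (hY : IsPGroup p Y) (φ : Y →* G)
    (hφ : ∀ y, φ y ∈ T) : ∃ s : Y →* H, ∀ y, E.π (s y) = φ y := by
  have := Fact.mk hp
  obtain ⟨n, h1, h2⟩ := E.ker hp h hd
  let K := (φ.comp (MonoidHom.fst Y H)).eqLocus (E.π.comp (MonoidHom.snd Y H))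
  let f : K →* Y := (MonoidHom.fst Y H).comp K.subtype
  have hf : Function.Surjective f := fun y => by
    obtain ⟨x, hx⟩ := E.range.ge (hφ y)
    exact ⟨⟨(y, x), hx.symm⟩, rfl⟩
  obtain ⟨S⟩ : Nonempty (Sylow p K) := inferInstance
  have h3 : (S : Subgroup K).map f = ⊤ :=
    ((S.mapSurjective hf).3 (hY.to_subgroup ⊤) le_top).symm
  have h4 : Function.Bijective (f.comp (S : Subgroup K).subtype) := by
    refine ⟨(injective_iff_map_eq_one _).mpr fun x hx => ?_, fun y => ?_⟩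
    · obtain ⟨k, hk⟩ := S.2 x
      have h5 : x.1.1.1 = 1 := hx
      have h6 : φ x.1.1.1 = E.π x.1.1.2 := x.1.2
      refine Subtype.ext (Subtype.ext (Prod.ext h5 ((pow_eq_one_iff_of_coprime
        (co_pow hp h1 k)).mp ⟨congrArg (fun x => x.1.1.2) hk, (h2 _ ?_).2.1⟩)))
      rw [← h6, h5, map_one]
    · obtain ⟨x, hx, rfl⟩ := h3.ge (Subgroup.mem_top y)
      exact ⟨⟨x, hx⟩, rfl⟩
  let e := MulEquiv.ofBijective _ h4
  refine ⟨(MonoidHom.snd Y H).comp (K.subtype.comp ((S : Subgroup K).subtype.comp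
    e.symm.toMonoidHom)), fun y => ?_⟩
  exact (e.symm y).1.2.symm.trans (congrArg φ (e.apply_symm_apply y))

end Ext

theorem eq_of_ip {X : Type} [Group X] [Fintype X] {f θ : X → ℂ} (hf : IsChar f) (h : IsIrr θ)
    (h1 : ip θ f ≠ 0) (h2 : f 1 = θ 1) : f = θ := by
  classical
  obtain ⟨s, hs, rfl⟩ := hf.decomp
  rw [ip_count hs h, Nat.cast_ne_zero, Multiset.count_ne_zero] at h1
  obtain ⟨s, rfl⟩ := Multiset.exists_cons_of_mem h1
  rw [Multiset.sum_cons] at h2 ⊢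
  rcases s.empty_or_exists_mem with rfl | ⟨ψ, hψ⟩
  · simp
  obtain ⟨s, rfl⟩ := Multiset.exists_cons_of_mem hψ
  have h3 := hs ψ (by simp)
  obtain ⟨a, ha⟩ := h3.isChar.one
  obtain ⟨b, hb⟩ := (isChar_sum (s := s) fun ψ hψ => (hs ψ (by simp [hψ])).isChar).one
  rw [Multiset.sum_cons, Pi.add_apply, Pi.add_apply, add_eq_left, ha, hb] at h2
  have h4 : a + b = 0 := by exact_mod_cast h2
  exact absurd (by rw [ha, show a = 0 by omega, Nat.cast_zero]) h3.one_ne

theorem avg_char {X : Type} [Group X] [Fintype X] {Ψ : X → ℂ} (h : IsChar Ψ) (Q : Subgroup X)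
    [Q.Normal] [Fintype Q] : IsChar fun x => (Nat.card Q : ℂ)⁻¹ * ∑ q : Q, Ψ (q * x) := by
  obtain ⟨s, hs, rfl⟩ := h.decomp
  clear h
  induction s using Multiset.induction_on with
  | empty => simpa [Pi.zero_def] using isChar_sum (s := (0 : Multiset (X → ℂ))) (by simp)
  | cons a s ih =>
    have h1 : IsChar fun x => (Nat.card Q : ℂ)⁻¹ * ∑ q : Q, a (q * x) := by
      rcases (hs a (by simp)).dich Q with h1 | h1
      · simpa [h1, Pi.zero_def] using isChar_sum (s := (0 : Multiset (X → ℂ))) (by simp)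
      · simpa [h1 _ (Subtype.prop _), ← Nat.card_eq_fintype_card, cardX_ne (X := Q)]
          using (hs a (by simp)).isChar
    simpa [mul_add, sum_add_distrib, Pi.add_def] using h1.add (ih fun ψ hψ => hs ψ (by simp [hψ]))

theorem Ext.factor {H : Type} [Group H] [Finite G] [Finite H] (E : Ext p T M σ H)
    (h : IsIrr σ.character) {χ : G → ℂ} (hχ : IsIrr fun x => χ (E.π x)) {m : ℕ}
    (hm : ∀ x : M, χ x = m * σ.character x) : ∃ β : H → ℂ, IsIrr β ∧
      (∀ x, χ (E.π x) = E.τ.character x * β x) ∧ (∀ a x, β (E.ι a * x) = β x) ∧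
        ∀ x, E.π x ∈ Zc χ → x ∈ Zc E.τ.character → x ∈ Zc β := by
  classical
  have := Fintype.ofFinite H
  have := Fintype.ofFinite M
  have := E.normal
  let Ψ : H → ℂ := fun x => χ (E.π x) * E.τ.character x⁻¹
  let β : H → ℂ := fun x => (Nat.card E.ι.range : ℂ)⁻¹ * ∑ q : E.ι.range, Ψ (q * x)
  have h0 : IsChar Ψ := hχ.isChar.mul (isChar_rep E.τ).inv
  have h1 : IsChar β := avg_char h0 _
  have h2 : ∀ q : E.ι.range, ∀ x, β (q * x) = β x := fun q x =>
    congrArg ((Nat.card E.ι.range : ℂ)⁻¹ * ·) (Fintype.sum_equiv (Equiv.mulRight q)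
      (fun y => Ψ (y * (q * x))) (fun y => Ψ (y * x)) fun y => by simp [mul_assoc])
  have h3 : β 1 = m := by
    simp only [β, mul_one]
    rw [← avg_surj _ E.ι.rangeRestrict_surjective fun q => Ψ q, ← mul_one (m : ℂ),
      ← (isIrr_iff.mp h).2, ip, mul_left_comm, mul_sum (a := (m : ℂ))]
    congr 1
    refine sum_congr rfl fun a _ => ?_
    simp only [Ψ, MonoidHom.coe_rangeRestrict, ← map_inv, E.πι, hm, Representation.character, E.τι,
      mul_assoc]
  have h4 : ip (fun x => χ (E.π x)) (fun x => E.τ.character x * β x) = ip β β := by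
    have h5 : ∀ q : E.ι.range, ∑ x, Ψ (q * x) * β x⁻¹ = ∑ x, Ψ x * β x⁻¹ := fun q =>
      Fintype.sum_equiv (Equiv.mulLeft (q : H)) _ _ fun x => by
        rw [Equiv.coe_mulLeft, mul_inv_rev, h1.comm]
        exact congrArg _ (h2 q⁻¹ x⁻¹).symm
    rw [ip, ip]
    congr 1
    have h6 : ∀ x, β x * β x⁻¹ = (Nat.card E.ι.range : ℂ)⁻¹ * ∑ q : E.ι.range, Ψ (q * x) * β x⁻¹ :=
      fun x => by rw [← sum_mul]; exact mul_assoc _ _ _
    simp only [h6, ← mul_sum]
    rw [sum_comm, sum_congr rfl fun q _ => h5 q, sum_const, card_univ, ← Nat.card_eq_fintype_card,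
      nsmul_eq_mul, inv_mul_cancel_left₀ cardX_ne]
    exact sum_congr rfl fun x _ => (mul_assoc _ _ _).symm
  have h5 : χ (E.π 1) = E.τ.character 1 * β 1 := by
    rw [h3, map_one, ← Subgroup.coe_one M, hm, mul_comm]
    simp
  have h6 := eq_of_ip ((isChar_rep E.τ).mul h1) hχ (h4 ▸ ip_self_ne h1 fun h6 =>
    hχ.one_ne (by rw [h5, h6, mul_zero])) h5.symm
  refine ⟨β, isIrr_iff.mpr ⟨h1, by rw [← h4, h6, (isIrr_iff.mp hχ).2]⟩,
    fun x => (congrFun h6 x).symm, fun a => h2 ⟨_, a, rfl⟩, fun x ⟨c, h7, h8⟩ h9 => ?_⟩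
  obtain ⟨d, h10, h11⟩ := inv_mem h9
  refine ⟨c * d, mul_ne_zero h7 h10, fun y => ?_⟩
  simp only [β]
  rw [mul_left_comm, mul_sum (a := c * d)]
  refine congrArg _ (sum_congr rfl fun q _ => ?_)
  rw [h0.comm, h0.comm q, mul_assoc]
  simp only [Ψ]
  rw [map_mul, h8, mul_inv_rev, (isChar_rep E.τ).comm, h11, mul_mul_mul_comm]

theorem index_eq_comap {K A : Type} [Group K] [Group A] (ι : A →* K) (R : Subgroup K)
    (h : ∀ k, ∃ a, ∃ r ∈ R, ι a * r = k) : R.index = (R.comap ι).index := by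
  refine (Nat.card_congr (Equiv.ofBijective (Quotient.map' ι fun a b hab => ?_ :
    A ⧸ R.comap ι → K ⧸ R) ⟨fun a b => Quotient.inductionOn₂' a b fun a b hab => ?_,
      fun k => Quotient.inductionOn' k fun k => ?_⟩)).symm
  · simpa [QuotientGroup.leftRel_apply] using hab
  · exact QuotientGroup.eq.mpr (by simpa using QuotientGroup.eq.mp hab)
  · obtain ⟨a, r, hr, rfl⟩ := h k
    exact ⟨Quotient.mk'' a, QuotientGroup.eq.mpr (by simpa using hr)⟩

theorem inv_hom {X : Type} [Group X] (ν : X →* ℂ) {e : ℕ} (h : ∀ x, ν x ^ p ^ e = 1) :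
    Inv p e ν := fun g _ n t _ _ h5 => by
  rw [map_pow, pow_eq_pow_mod t (h g), h5.of_mul_right n, ← pow_eq_pow_mod 1 (h g), pow_one]

theorem Ext.step {H : Type} [Group H] [Finite G] [Finite H] (E : Ext p T M σ H) (hp : p.Prime)
    (h : IsIrr σ.character) (hd : ¬ p ∣ finrank ℂ W) {Y : Type} [Group Y] [Fintype Y]
    (hY : IsPGroup p Y) (s : Y →* H) (ν : Y →* ℂ) {j : ℕ} (hj : j ≠ 0)
    (hν : ∀ y, E.π (s y) ∈ M → ν y ^ p ^ j = 1)
    (hi : ¬ p ∣ (E.π.comp s).range.relIndex M)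
    (hD : dq (p ^ j) (fun y => E.τ.character (s y) * ν y) 1 ∉ pInt p)
    (IH : ∀ (K : Type) [Group K] [Finite K] (ψ : K → ℂ) (φ : K →* G), IsIrr ψ → ψ 1 ∉ pInt p →
      φ.range ≤ M ⊔ (E.π.comp s).range → (∀ k, (∀ m ∈ M, φ k * m = m * φ k) → k ∈ Zc ψ) →
      M ≤ φ.range → (∀ x ∈ φ.range, ∃ k, x ^ p ^ k ∈ M) → Good p ψ)
    (hI : Inv p (j + 1) σ.character) : Inv p j σ.character := by
  have := Fact.mk hp
  have h1 := E.inv hp h hd (by omega) hI
  have h2 : ∀ y, ν y ^ p ^ (j + 1) = 1 := by_contra fun h2 =>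
    hD (dq_twist hp hY ((isChar_rep E.τ).comp s) ν hj j.le_succ (h1.comp s) h2)
  let U := rootsOfUnity (p ^ (j + 1)) ℂ
  let U0 : Subgroup U := (powMonoidHom (p ^ j)).ker
  let c : U →* ℂ := (Units.coeHom ℂ).comp U.subtype
  let ν' : Y →* U := ν.toHomUnits.codRestrict U fun y => (mem_rootsOfUnity' _ _).mpr (h2 y)
  let φ : Y × U0 →* H × U := (s.comp (MonoidHom.fst _ _)).prod (ν'.coprod U0.subtype)
  let ι : M →* H × U := (MonoidHom.inl _ _).comp E.ι
  have : ι.range.Normal := ⟨by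
    rintro _ ⟨m, rfl⟩ x
    obtain ⟨m', hm⟩ := E.conj x.1 m
    exact ⟨m', Prod.ext hm.symm (by simp [ι])⟩⟩
  let K := ι.range ⊔ φ.range
  let ι' : M →* K := ι.codRestrict K fun m => (le_sup_left : _ ≤ K) ⟨m, rfl⟩
  let φ' : Y × U0 →* K := φ.codRestrict K fun m => (le_sup_right : _ ≤ K) ⟨m, rfl⟩
  let f : K →* H := (MonoidHom.fst _ _).comp K.subtype
  let c' : K →* ℂ := c.comp ((MonoidHom.snd _ _).comp K.subtype)
  have h3 : ∀ m, E.τ.character (f (ι' m)) * c' (ι' m) = σ.character m := fun m => by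
    rw [show c' (ι' m) = 1 from map_one c, mul_one, Representation.character]
    exact congrArg _ (E.τι m)
  have h4 : IsChar fun k => E.τ.character (f k) * c' k :=
    ((isChar_rep E.τ).comp f).mul (isChar_hom c')
  have := Fintype.ofFinite U0
  have hYU : IsPGroup p (Y × U0) := fun y => by
    obtain ⟨k, hk⟩ := hY y.1
    refine ⟨k + j, Prod.ext ?_ (Subtype.ext ?_)⟩
    · rw [Prod.pow_fst, pow_add, pow_mul, hk, one_pow, Prod.fst_one]
    · rw [Prod.pow_snd, add_comm, pow_add, pow_mul, Subgroup.coe_pow, Subgroup.coe_pow,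
        show y.2.1 ^ p ^ j = 1 from y.2.2, one_pow]
      rfl
  have h5 := IH K _ (E.π.comp f) (IsIrr.of_res h4 (ι := ι') (by simpa only [h3] using h))
    (by simpa [nat_pInt] using hd) (by
      rintro _ ⟨⟨k, hk⟩, rfl⟩
      obtain ⟨_, ⟨m, rfl⟩, _, ⟨y, rfl⟩, rfl⟩ := Subgroup.mem_sup_of_normal_left.mp hk
      refine (map_mul E.π (E.ι m) (s y.1)).symm ▸ Subgroup.mul_mem_sup ?_ ⟨y.1, rfl⟩
      exact E.πι m ▸ m.2) (fun k hk => by
      obtain ⟨a, ha⟩ := E.scalar h hk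
      have := h.nontrivial
      obtain ⟨b, h5, h6⟩ := mem_Zc_of ha
      exact ⟨b * c' k, mul_ne_zero h5 (c'.toHomUnits k).ne_zero, fun x => by
        simp only [map_mul, h6]; ring⟩) (fun m hm => ⟨ι' ⟨m, hm⟩, E.πι _⟩) (by
      rintro _ ⟨⟨k, hk⟩, rfl⟩
      obtain ⟨_, ⟨m, rfl⟩, _, ⟨y, rfl⟩, rfl⟩ := Subgroup.mem_sup_of_normal_left.mp hk
      refine (hYU y).imp fun k hk => ?_
      obtain ⟨m', h5⟩ := (QuotientGroup.eq_one_iff (N := ι.range) ((ι m * φ y) ^ p ^ k)).mp (by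
        rw [QuotientGroup.mk_pow, QuotientGroup.mk_mul,
          (QuotientGroup.eq_one_iff (N := ι.range) (ι m)).mpr ⟨m, rfl⟩, one_mul, ← QuotientGroup.mk_pow,
          ← map_pow, hk, map_one, QuotientGroup.mk_one])
      have h6 := congrArg (E.π.comp (MonoidHom.fst H U)) h5
      rw [map_pow] at h6
      exact h6 ▸ (E.πι m').symm ▸ m'.2) (Y × U0) φ' ⟨hYU, ?_⟩ j hj ?_
      ((h1.comp f).mul (inv_hom c' fun k => (mem_rootsOfUnity' _ _).mp k.1.2.2))
  · simpa only [h3] using h5.comp ι'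
  · rw [index_eq_comap ι' φ'.range fun ⟨k, hk⟩ => by
      obtain ⟨_, ⟨m, rfl⟩, _, ⟨y, rfl⟩, rfl⟩ := Subgroup.mem_sup_of_normal_left.mp hk
      exact ⟨m, _, ⟨y, rfl⟩, rfl⟩]
    refine fun h5 => hi (h5.trans (Subgroup.index_dvd_of_le ?_))
    rintro m ⟨y, hy⟩
    obtain ⟨k, hk⟩ := hY y
    have h6 : E.π (s y) ∈ M := (show E.π (s y) = m from hy) ▸ m.2
    refine ⟨(y, ⟨(ν' y)⁻¹, ?_⟩), Subtype.ext (Prod.ext ?_ (mul_inv_cancel (ν' y)))⟩
    · exact U0.inv_mem (show ν' y ∈ U0 from Subtype.ext (Units.ext (hν y h6)))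
    · exact (E.lift_eq hp h hd (k := k) (by rw [← map_pow, hk, map_one]) h6).trans
        (congrArg E.ι (Subtype.ext hy))
  · have h5 := dq_mul_triv (W := fun y : Y × U0 => E.τ.character (s y.1) * ν y.1)
      (c.comp (U0.subtype.comp (MonoidHom.snd _ _))) (k := p ^ j) fun y => by
        rw [← map_pow]
        exact (congrArg c y.2.2).trans (map_one c)
    rw [← dq_surj (MonoidHom.fst Y U0) Prod.fst_surjective] at hD
    erw [← h5] at hD
    convert hD using 3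
    funext y
    rw [mul_assoc]
    rfl

end Pool.Agent.MP_3e257e_al
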