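import Pool.Agent.MP_3e257e_al.NonZ

/-!
Invariance under power maps and its relation with the level, for every prime.
-/

set_option autoImplicit false

namespace Pool.Agent.MP_3e257e_al

variable {X : Type} [Group X] {p : ℕ}

/-- Invariance under the power maps that fix the part prime to `p` and are trivial
modulo `p ^ e`. -/
def Inv (p e : ℕ) {X : Type} [Group X] (f : X → ℂ) : Prop :=
  ∀ (g : X) (N n t : ℕ), ¬ p ∣ n → g ^ (p ^ N * n) = 1 → t ≡ 1 [MOD p ^ e * n] → f (g ^ t) = f g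

theorem Inv.mono {e e' : ℕ} {f : X → ℂ} (h : Inv p e f) (he : e ≤ e') : Inv p e' f :=
  fun g N n t h1 h2 h3 => h g N n t h1 h2 (h3.of_dvd (Nat.mul_dvd_mul_right (pow_dvd_pow p he) n))

theorem Inv.comp {e : ℕ} {f : X → ℂ} (h : Inv p e f) {Y : Type} [Group Y] (φ : Y →* X) :
    Inv p e fun y => f (φ y) := fun g N n t h1 h2 h3 => by
  simp only [map_pow]
  exact h _ N n t h1 (by rw [← map_pow, h2, map_one]) h3

theorem Inv.mul {e : ℕ} {f f' : X → ℂ} (h : Inv p e f) (h' : Inv p e f') :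
    Inv p e fun x => f x * f' x := fun g N n t h1 h2 h3 => by
  simp only [h g N n t h1 h2 h3, h' g N n t h1 h2 h3]

theorem Inv.of_mul {e : ℕ} {f f' : X → ℂ} {c : ℂ} (hc : c ≠ 0) (h : Inv p e f')
    (hf : ∀ x, f' x = c * f x) : Inv p e f := fun g N n t h1 h2 h3 =>
  mul_left_cancel₀ hc (by rw [← hf, ← hf, h g N n t h1 h2 h3])

theorem co_pow (hp : p.Prime) {n : ℕ} (hn : ¬ p ∣ n) (k : ℕ) : (p ^ k).Coprime n :=
  ((hp.coprime_iff_not_dvd).mpr hn).pow_left k

theorem inv_of (hp : p.Prime) {e n0 : ℕ} (h0 : ¬ p ∣ n0) {f : X → ℂ}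
    (h : ∀ t, t ≡ 1 [MOD p ^ e * n0] → ∀ g, f (g ^ t) = f g) : Inv p e f := by
  intro g N n t h1 h2 h3
  have hn : ¬ p ∣ n * n0 := fun h4 => (hp.dvd_mul.mp h4).elim h1 h0
  obtain ⟨s, h4, h5⟩ := Nat.chineseRemainder (co_pow hp hn (N + e)) t 1
  have h6 : s ≡ t [MOD p ^ N * n] := (Nat.modEq_and_modEq_iff_modEq_mul (co_pow hp h1 N)).mp
    ⟨h4.of_dvd (pow_dvd_pow p (by omega)),
      (h5.of_mul_right n0).trans (h3.of_mul_left _).symm⟩
  rw [← pow_eq_pow_iff_modEq.mpr (h6.of_dvd (orderOf_dvd_of_pow_eq_one h2))]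
  exact h s ((Nat.modEq_and_modEq_iff_modEq_mul (co_pow hp h0 e)).mp
    ⟨(h4.of_dvd (pow_dvd_pow p (by omega))).trans (h3.of_mul_right n), h5.of_mul_left n⟩) g

theorem exists_card (hp : p.Prime) (X : Type) [Finite X] [Nonempty X] :
    ∃ N n, ¬ p ∣ n ∧ Nat.card X = p ^ N * n :=
  Nat.exists_eq_pow_mul_and_not_dvd Nat.card_pos.ne' p hp.one_lt.ne'

theorem Inv.of_surj (hp : p.Prime) {e : ℕ} {f : X → ℂ} {Y : Type} [Group Y] [Finite Y]
    {φ : Y →* X} (hφ : Function.Surjective φ) (h : Inv p e fun y => f (φ y)) : Inv p e f := by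
  obtain ⟨N, n, h1, h2⟩ := exists_card hp Y
  refine inv_of hp h1 fun t ht g => ?_
  obtain ⟨y, rfl⟩ := hφ g
  rw [← map_pow]
  exact h y N n t h1 (h2 ▸ pow_card_eq_one') ht

theorem Inv.down (hp : p.Prime) [Finite X] {e : ℕ} {f : X → ℂ}
    (h : ∀ j, e ≤ j → Inv p (j + 1) f → Inv p j f) : Inv p e f := by
  obtain ⟨N, n, h1, h2⟩ := exists_card hp X
  have h3 : Inv p (e + N) f := inv_of hp h1 fun t ht g => by
    rw [pow_congr (ht.of_dvd (h2 ▸ Nat.mul_dvd_mul_right (pow_dvd_pow p (by omega)) n)), pow_one]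
  clear h2
  induction N with
  | zero => exact h3
  | succ N ih => exact ih (h _ (by omega) h3)

theorem inv_iff_lev (hp : p.Prime) [Finite X] {θ : X → ℂ} (h : IsChar θ) {e : ℕ} (he : e ≠ 0) :
    Inv p e θ ↔ lev p θ ≤ e := by
  have := Fact.mk hp
  obtain ⟨N, n, h1, h2⟩ := exists_card hp X
  have h0 : cond θ ≠ 0 := by have := (cond_spec h).1; omega
  obtain ⟨c, hc⟩ : p ^ lev p θ ∣ cond θ := pow_padicValNat_dvd
  have hpc : ¬ p ∣ c := by
    rintro ⟨u, rfl⟩
    exact pow_succ_padicValNat_not_dvd (p := p) h0 ⟨u, hc.trans (by rw [lev]; ring)⟩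
  have hn : ¬ p ∣ n * c := fun h4 => (hp.dvd_mul.mp h4).elim h1 hpc
  constructor
  · intro h3
    by_contra h4
    obtain ⟨a, ha⟩ : ∃ a, lev p θ = a + 1 := ⟨lev p θ - 1, by omega⟩
    have hc0 : c ≠ 0 := by rintro rfl; exact hpc (dvd_zero p)
    have h5 := cond_le h (d := p ^ a * c) (mul_ne_zero (pow_ne_zero _ hp.ne_zero) hc0)
      fun m hm hm1 g => by
        obtain ⟨s, h6, h7⟩ := Nat.chineseRemainder (co_pow hp hn (N + a + 1)) m 1
        obtain ⟨u, h8, h9⟩ := Nat.chineseRemainder (co_pow hp hn (N + a + 1)) 1 m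
        have h10 : m ≡ s * u [MOD Nat.card X] := by
          rw [h2]
          refine (Nat.modEq_and_modEq_iff_modEq_mul (co_pow hp h1 N)).mp ⟨?_, ?_⟩
          · simpa using ((h6.mul h8).of_dvd (pow_dvd_pow p (by omega))).symm
          · simpa using ((h7.mul h9).of_mul_right c).symm
        have h11 : u.Coprime (Nat.card X) := by
          have h12 := h10.gcd_eq
          rw [hm] at h12
          exact Nat.Coprime.coprime_mul_left h12.symm
        rw [pow_congr h10, pow_mul, fix_of_cond h h11 (by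
          rw [hc]
          exact (Nat.modEq_and_modEq_iff_modEq_mul (co_pow hp hpc _)).mp
            ⟨h8.of_dvd (pow_dvd_pow p (by omega)),
              (h9.of_mul_left n).trans (hm1.of_mul_left _)⟩)]
        exact h3 g N n s h1 (h2 ▸ pow_card_eq_one')
          ((Nat.modEq_and_modEq_iff_modEq_mul (co_pow hp h1 e)).mp
            ⟨(h6.of_dvd (pow_dvd_pow p (by omega))).trans
              ((hm1.of_mul_right c).of_dvd (pow_dvd_pow p (by omega))), h7.of_mul_right c⟩)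
    rw [hc, ha] at h5
    exact absurd (Nat.le_of_mul_le_mul_right h5 (Nat.pos_of_ne_zero hc0))
      (not_le.mpr (Nat.pow_lt_pow_right hp.one_lt (by omega)))
  · intro h3
    refine inv_of hp hn fun t ht => fix_of_cond h
      (coprime_card (p := p) (N := N) (n := n) h2.dvd (ht.of_dvd
        (Nat.mul_dvd_mul (dvd_pow_self p he) (dvd_mul_right n c)))) ?_
    rw [hc]
    exact ht.of_dvd (Nat.mul_dvd_mul (pow_dvd_pow p h3) (dvd_mul_left c n))

end Pool.Agent.MP_3e257e_al
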