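import Pool.Agent.MP_3e257e_al.RLin
import Pool.Agent.MP_3e257e_al.CDefs

/-!
Isometry groups of non-degenerate forms in odd characteristic: generation by Eichler
transformations and rationality of unipotent parts.
-/

set_option autoImplicit false
set_option linter.unusedSectionVars false

namespace Pool.Agent.MP_3e257e_al

open Module Function Subgroup

variable {F V : Type} [Field F] [AddCommGroup V] [Module F V] [Finite V] {p : ℕ} {σ : F →+* F}
  {B : V →ₗ[F] V →ₛₗ[σ] F} {ε : F}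

/-- A non-degenerate hermitian or skew-hermitian form in characteristic not two. -/
structure Herm (B : V →ₗ[F] V →ₛₗ[σ] F) (ε : F) : Prop where
  two : (2 : F) ≠ 0
  eps : ε * ε = 1
  seps : σ ε = ε
  invol : ∀ a, σ (σ a) = a
  symm : ∀ v w, B w v = ε * σ (B v w)
  nd : ∀ v, (∀ w, B w v = 0) → v = 0

/-- `g` is the Eichler transformation with parameters `x`, `y`, `c`. -/
def IsR (ε : F) (g : isom B) (x y : V) (c : F) : Prop :=
  B x x = 0 ∧ B y x = 0 ∧ σ c + ε * c + B y y = 0 ∧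
    ∀ v, g.1 v = v + B v y • x - (ε * B v x) • y + (c * B v x) • x

/-- The group generated by the Eichler transformations. -/
def Ei (B : V →ₗ[F] V →ₛₗ[σ] F) (ε : F) : Subgroup (isom B) :=
  Subgroup.closure {g | ∃ x y c, IsR ε g x y c}

/-- The orthogonal complement. -/
def perp (B : V →ₗ[F] V →ₛₗ[σ] F) (W : Submodule F V) : Submodule F V :=
  ⨅ w ∈ W, LinearMap.ker (B.flip w)

theorem mem_perp {W : Submodule F V} {v : V} : v ∈ perp B W ↔ ∀ w ∈ W, B v w = 0 := by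
  simp [perp]

theorem IsR.mem {g : isom B} {x y : V} {c : F} (h : IsR ε g x y c) : g ∈ Ei B ε :=
  subset_closure ⟨x, y, c, h⟩

theorem IsR.conj {g : isom B} {x y : V} {c : F} (h : IsR ε g x y c) (a : isom B) :
    IsR ε (a * g * a⁻¹) (a.1 x) (a.1 y) c := by
  refine ⟨(a.2 _ _).trans h.1, (a.2 _ _).trans h.2.1, by rw [a.2]; exact h.2.2.1, fun v => ?_⟩
  obtain ⟨v, rfl⟩ := a.1.surjective v
  simp [h.2.2.2, a.2 v]

instance : (Ei B ε).Normal := ⟨fun a ha g => by
  refine (closure_le ((Ei B ε).comap (MulAut.conj g).toMonoidHom)).mpr ?_ ha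
  rintro _ ⟨x, y, c, h⟩
  exact (h.conj g).mem⟩

theorem IsR.fix {g : isom B} {x y v : V} {c : F} (h : IsR ε g x y c) (h1 : B v x = 0)
    (h2 : B v y = 0) : g.1 v = v := by simp [h.2.2.2, h1, h2]

theorem IsR.stab {g : isom B} {x y : V} {c : F} (h : IsR ε g x y c) {W : Submodule F V}
    (h1 : x ∈ W) (h2 : y ∈ W) (v : V) : g.1 v - v ∈ W := by
  convert add_mem (sub_mem (W.smul_mem (B v y) h1) (W.smul_mem (ε * B v x) h2))
    (W.smul_mem (c * B v x) h1) using 1
  rw [h.2.2.2]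
  abel

namespace Herm

variable (h : Herm B ε)
include h

theorem zero {v w : V} (h1 : B v w = 0) : B w v = 0 := by rw [h.symm, h1, map_zero, mul_zero]

theorem one {v w : V} (h1 : B v w = 1) : B w v = ε := by rw [h.symm, h1, map_one, mul_one]

theorem ne : ε ≠ 0 := left_ne_zero_of_mul_eq_one h.eps

theorem rep (f : Dual F V) : ∃ w, ∀ v, B v w = f v := by
  obtain ⟨w, hw⟩ := (Finite.injective_iff_surjective_of_equiv (f := B.flip)
    (Module.Free.chooseBasis F V).toDualEquiv.toEquiv).mp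
    ((injective_iff_map_eq_zero _).mpr fun v hv => h.nd v (LinearMap.congr_fun hv)) f
  exact ⟨w, LinearMap.congr_fun hw⟩

theorem exists_c (y : V) : ∃ c, σ c + ε * c + B y y = 0 := by
  refine ⟨-(ε * B y y / 2), mul_left_cancel₀ h.two ?_⟩
  have h1 := h.two
  rw [map_neg, map_div₀, map_mul, h.seps, ← h.symm, map_ofNat]
  field_simp
  linear_combination -B y y * h.eps

theorem exists_R {x y : V} {c : F} (h1 : B x x = 0) (h2 : B y x = 0)
    (h3 : σ c + ε * c + B y y = 0) : ∃ g : isom B, IsR ε g x y c := by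
  let r : End F V := 1 + (B.flip y).smulRight x - (ε • B.flip x).smulRight y +
    (c • B.flip x).smulRight x
  have h4 : ∀ v, r v = v + B v y • x - (ε * B v x) • y + (c * B v x) • x := fun v => rfl
  have h5 : ∀ v w, B (r v) (r w) = B v w := fun v w => by
    simp only [h4, map_add, map_sub, map_smul, map_smulₛₗ, LinearMap.add_apply, LinearMap.sub_apply,
      LinearMap.smul_apply, smul_eq_mul, h1, h2, h.zero h2, map_mul, h.seps, h.symm w x, h.symm w y]
    linear_combination (σ (B w x) * B v x) * h3 +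
      (σ (B w x) * B v x * B y y - σ (B w y) * B v x) * h.eps
  exact ⟨⟨LinearEquiv.ofInjectiveEndo r ((injective_iff_map_eq_zero r).mpr fun v hv =>
    h.nd v fun w => by rw [← h5, hv, map_zero]), h5⟩, h1, h2, h3, h4⟩

theorem partner {U : Submodule F V} {x y : V} (hx : x ∈ U) (hy : y ∈ U) (h1 : B x x = 0)
    (h2 : B y x ≠ 0) : ∃ y ∈ U, B y x = 1 ∧ B y y = 0 := by
  obtain ⟨c, hc⟩ := h.exists_c ((B y x)⁻¹ • y)
  have h3 : B ((B y x)⁻¹ • y) x = 1 := by simp [h2]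
  have h4 := U.smul_mem (B y x)⁻¹ hy
  generalize (B y x)⁻¹ • y = z at hc h3 h4
  refine ⟨z + c • x, add_mem h4 (U.smul_mem c hx), by simp [h1, h3], ?_⟩
  simp only [map_add, map_smul, map_smulₛₗ, LinearMap.add_apply, LinearMap.smul_apply,
    smul_eq_mul, h1, h3, h.one h3]
  linear_combination hc

theorem trans {x a b : V} (h1 : B x x = 0) (h2 : B a a = 0) (h3 : B b b = 0) (h4 : B a x = 1)
    (h5 : B b x = 1) : ∃ (g : isom B) (c : F), IsR ε g x (ε • (a - b)) c ∧ g.1 a = b := by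
  obtain ⟨g, hg⟩ := h.exists_R (y := ε • (a - b)) (c := ε * B a b) h1 (by simp [h4, h5]) (by
    simp only [map_sub, map_smul, map_smulₛₗ, LinearMap.sub_apply, LinearMap.smul_apply,
      smul_eq_mul, h2, h3, map_mul, h.seps, h.symm a b]
    linear_combination (-ε * σ (B a b)) * h.eps)
  refine ⟨g, _, hg, ?_⟩
  simp only [hg.2.2.2, map_sub, map_smulₛₗ, smul_eq_mul, h2, h4, h.seps, smul_smul, mul_one, h.eps]
  module

theorem uni {g : isom B} {x y : V} {c : F} (hg : IsR ε g x y c) :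
    g.1 ∈ Uni (fl (LinearMap.ker (B.flip x)) (F ∙ x)) :=
  mem_fl ((Submodule.span_singleton_le_iff_mem _ _).mpr hg.1) (hg.stab hg.1 hg.2.1)
    (fun v hv => Submodule.mem_span_singleton.mpr ⟨B v y, by
      simp [hg.2.2.2, show B v x = 0 from hv]⟩) fun v hv => by
    obtain ⟨s, rfl⟩ := Submodule.mem_span_singleton.mp hv
    rw [map_smul, hg.fix hg.1 (h.zero hg.2.1)]

theorem fix_stab {u : isom B} {x : V} (hx : u.1 x = x) :
    ∀ i, u.1 ∈ Stab (fl (LinearMap.ker (B.flip x)) (F ∙ x) i) :=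
  fl_stab (fun v hv => by
    change B _ x = 0
    rw [← hx, u.2]
    exact hv) fun v hv => by
    obtain ⟨s, rfl⟩ := Submodule.mem_span_singleton.mp hv
    rwa [map_smul, hx]

theorem exists_fix (hp : p.Prime) [CharP F p] {u : isom B} {k : ℕ} (hk : u ^ p ^ k = 1)
    (h1 : u ≠ 1) : ∃ v, u.1 v - v ≠ 0 ∧ u.1 (u.1 v - v) = u.1 v - v ∧
      B (u.1 v - v) (u.1 v - v) = 0 := by
  obtain ⟨v, hv⟩ : ∃ v, nl u.1 v ∉ (⊥ : Submodule F V) := not_forall.mp fun h2 =>
    h1 (Subtype.ext (nl_eq.mp (LinearMap.ext h2)))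
  obtain ⟨i, h2, h3⟩ := exists_last (N := nl u.1) (n := p ^ k)
    (by rw [nl_pow hp, nl_eq]; exact congrArg Subtype.val hk) hv
  rw [← End.mul_apply (nl u.1 ^ i), ← pow_succ, pow_succ', End.mul_apply] at h2 h3
  have h4 := sub_eq_zero.mp h3
  refine ⟨_, h2, h4, ?_⟩
  rw [LinearMap.map_sub₂, sub_eq_zero, ← u.2 ((nl u.1 ^ i) v)]
  exact congrArg _ h4.symm

theorem pel_mem (hp : p.Prime) [CharP F p] (U : Submodule F V) :
    (∀ x ∈ U, (∀ y ∈ U, B y x = 0) → x = 0) → ∀ (u : isom B) (k : ℕ), u ^ p ^ k = 1 →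
      (∀ v, u.1 v - v ∈ U) → u ∈ Ei B ε := by
  induction U using WellFoundedLT.induction with
  | ind U ih =>
  intro hU u k hk hu
  by_cases h1 : u = 1
  · exact h1 ▸ one_mem _
  obtain ⟨v, h2, h3, h4⟩ := h.exists_fix hp hk h1
  have h5 := hu v
  generalize u.1 v - v = x at h2 h3 h4 h5
  obtain ⟨y, h6, h7⟩ : ∃ y ∈ U, B y x ≠ 0 := by
    by_contra h6
    push Not at h6
    exact h2 (hU x h5 h6)
  obtain ⟨y, h6, h7, h8⟩ := h.partner h5 h6 h4 h7
  obtain ⟨g, c, hg, h9⟩ := h.trans h4 ((u.2 y y).trans h8) h8 (by rw [← h3, u.2, h7]) h7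
  obtain ⟨l, hl⟩ := pel_mul hp rfl (n := 3) rfl (h.uni hg) (h.fix_stab h3)
    (congrArg Subtype.val hk)
  have h10 : (g * u).1 x = x := (congrArg g.1 h3).trans (hg.fix h4 (h.zero hg.2.1))
  refine (mul_mem_cancel_left hg.mem).mp (ih (U ⊓ (LinearMap.ker (B.flip x) ⊓
    LinearMap.ker (B.flip y))) (inf_lt_left.mpr fun h11 => one_ne_zero (h7.symm.trans (h11 h6).1))
    (fun z hz h11 => hU z hz.1 fun w hw => ?_) _ l (Subtype.ext hl) fun v => ⟨?_, ?_, ?_⟩)
  · have h12 := h11 (w - B w x • y - (ε * B w y) • x)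
      ⟨sub_mem (sub_mem hw (U.smul_mem _ h6)) (U.smul_mem _ h5), by simp [h4, h7], by
        simp [h8, h.one h7]
        linear_combination (-B w y) * h.eps⟩
    simpa [h.zero (show B z x = 0 from hz.2.1), h.zero (show B z y = 0 from hz.2.2)] using h12
  · simpa using add_mem (hg.stab h5 (U.smul_mem _ (hu y)) (u.1 v)) (hu v)
  · change B _ x = 0
    rw [LinearMap.map_sub₂, ← (g * u).2 v x, h10, sub_self]
  · change B _ y = 0
    rw [LinearMap.map_sub₂, ← (g * u).2 v y, show (g * u).1 y = y from h9, sub_self]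

theorem full (hp : p.Prime) [CharP F p] (u : isom B) (k : ℕ) (hk : u ^ p ^ k = 1) : u ∈ Ei B ε :=
  h.pel_mem hp ⊤ (fun x _ h1 => h.nd x fun w => h1 w trivial) u k hk fun _ => trivial

theorem adj (φ : V ≃ₗ[F] V) : ∃ ψ : V ≃ₗ[F] V, ∀ v w, B (φ v) (ψ w) = B v w := by
  choose ψ hψ using fun w => h.rep (B.flip w ∘ₗ φ.symm.toLinearMap)
  let ψ' : End F V :=
    { toFun := ψ
      map_add' := fun a b => sub_eq_zero.mp (h.nd _ fun w => by simp [hψ])
      map_smul' := fun a b => sub_eq_zero.mp (h.nd _ fun w => by simp [hψ]) }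
  have h1 : ∀ v w, B (φ v) (ψ' w) = B v w := fun v w => (hψ w _).trans (by simp)
  exact ⟨LinearEquiv.ofInjectiveEndo ψ' ((injective_iff_map_eq_zero ψ').mpr fun v hv =>
    h.nd v fun w => by rw [← h1, hv, map_zero]), h1⟩

theorem tame (hp : p.Prime) [CharP F p] : Tame p (isom B) := by
  obtain ⟨N, n, h1, h2⟩ := exists_card hp (isom B)
  refine tame_of hp h1 fun t ht g => ?_
  have h3 : g.1 ^ (p ^ N * n) = 1 := congrArg Subtype.val (h2 ▸ pow_card_eq_one' : g ^ _ = 1)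
  obtain ⟨φ, h4, h5⟩ := gl_conj hp h3 ht (by
    rintro rfl
    exact hp.one_lt.ne' (Nat.dvd_one.mp ((Nat.modEq_zero_iff_dvd).mp (ht.of_mul_right n).symm)))
  obtain ⟨ψ, h6⟩ := h.adj φ
  have a0 : ∀ {a b : V ≃ₗ[F] V}, (∀ v w, B (φ v) (a w) = B (φ v) (b w)) → a = b := fun h7 =>
    LinearEquiv.ext fun w => sub_eq_zero.mp (h.nd _ fun v => by
      obtain ⟨v, rfl⟩ := φ.surjective v
      rw [map_sub, h7, sub_self])
  have a1 : ψ * g * ψ⁻¹ = g.1 ^ t := mul_inv_eq_iff_eq_mul.mpr (a0 fun v w => by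
    obtain ⟨v, rfl⟩ := g.1.surjective v
    rw [LinearEquiv.mul_apply, h6, g.2, ← LinearEquiv.mul_apply φ, mul_inv_eq_iff_eq_mul.mp h5,
      ← h6]
    exact ((g ^ t).2 _ _).symm)
  have a2 : nl (g.1 ^ n) ^ p ^ N = 0 := by rw [nl_pow hp, ← pow_mul, mul_comm, h3, nl_eq]
  have a3 : LinearMap.range (nl (g.1 ^ n) ^ p ^ N) = ⊥ := by rw [a2, LinearMap.range_zero]
  have a9 : LinearMap.range (nl (g.1 ^ n) ^ 0) = ⊤ := LinearMap.range_id
  have a4 : ∀ (k : ℕ) v w, B ((φ ^ k) v) ((ψ ^ k) w) = B v w := fun k => by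
    induction k with
    | zero => simp
    | succ k ih => exact fun v w => by rw [pow_succ', pow_succ']; exact (h6 _ _).trans (ih v w)
  have a5 : ψ ^ p ^ N = 1 := LinearEquiv.ext fun w => sub_eq_zero.mp (h.nd _ fun v => by
    have h7 := a4 (p ^ N) v w
    rw [pel_of hp (uni_pel a9 a3 h4) le_rfl] at h7
    rw [map_sub]
    exact sub_eq_zero.mpr h7)
  obtain ⟨k, hk⟩ := pel_mul hp a9 a3 (inv_mem h4) (u := ψ) (fun i => by
    rintro _ ⟨v, rfl⟩
    have h7 : (ψ : End F V) * nl (g.1 ^ n) = nl ((g.1 ^ n) ^ t) * ψ := by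
      rw [pow_right_comm, ← a1, conj_pow]
      ext w
      simp [nl_apply]
    obtain ⟨s, hs⟩ := pow_dvd_pow_of_dvd (sub_one_dvd_pow_sub_one (Polynomial.X : Polynomial F) t) i
    have h8 := congrArg (Polynomial.aeval ((g.1 ^ n : V ≃ₗ[F] V) : End F V)) hs
    simp only [map_pow, map_mul, map_sub, Polynomial.aeval_X, map_one, ← coe_pow'] at h8
    have h9 := LinearMap.congr_fun ((show SemiconjBy _ _ _ from h7).pow_right i) v
    rw [nl, nl, h8] at h9
    exact ⟨_, h9.symm⟩) a5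
  have a6 : ∀ v w, B ((φ⁻¹ * ψ) v) w = B (ψ v) (ψ w) := fun v w => by simp [← h6 _ w]
  have a7 : ∀ (j : ℕ) v w, B (((φ⁻¹ * ψ) ^ j) v) w = B v (((φ⁻¹ * ψ) ^ j) w) := fun j => by
    induction j with
    | zero => simp
    | succ j ih =>
      intro v w
      rw [pow_succ', LinearEquiv.mul_apply, a6, h.symm, ← a6, ← h.symm, ih, ← pow_succ', pow_succ]
      rfl
  obtain ⟨j, hj⟩ := (hp.odd_of_ne_two fun h7 => h.two (by
    rw [← Nat.cast_ofNat, ← h7, CharP.cast_eq_zero])).pow (n := k)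
  have a8 : Commute (φ⁻¹ * ψ) g := by
    rw [Commute, SemiconjBy, mul_assoc, mul_inv_eq_iff_eq_mul.mp a1, ← h5]
    group
  refine isConj_iff.mpr ⟨⟨φ * (φ⁻¹ * ψ) ^ (j + 1), fun v w => ?_⟩, Subtype.ext ?_⟩
  · have h7 : φ * (φ⁻¹ * ψ) ^ (j + 1) = ψ * (φ⁻¹ * ψ) ^ j := by
      rw [pow_succ', mul_assoc, mul_inv_cancel_left]
    conv_lhs => rw [LinearEquiv.mul_apply, h7, LinearEquiv.mul_apply, h6, a7,
      ← LinearEquiv.mul_apply, ← pow_add, show j + 1 + j = p ^ k by omega, hk]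
    rfl
  · change _ * g.1 * _ = g.1 ^ t
    rw [mul_assoc φ, (a8.pow_left _).eq, ← h5]
    simp [mul_assoc]

end Herm

end Pool.Agent.MP_3e257e_al
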