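import Pool.Agent.MP_3e257e_al.RUni

/-!
The general linear groups in the defining characteristic.
-/

set_option autoImplicit false
set_option linter.unusedSectionVars false

namespace Pool.Agent.MP_3e257e_al

open Module Function LinearEquiv Subgroup

variable {F V : Type} [Field F] [AddCommGroup V] [Module F V] [Finite V] {p : ℕ}

theorem tv_conj (g : V ≃ₗ[F] V) {f : Dual F V} {x : V} (h : f x = 0) :
    g * transvection h * g⁻¹ = transvection (f := f ∘ₗ g.symm.toLinearMap) (v := g x)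
      (by simpa using h) := by
  ext v
  simp [LinearMap.transvection.apply]

/-- The group generated by the transvections. -/
abbrev TV (F V : Type) [Field F] [AddCommGroup V] [Module F V] : Subgroup (V ≃ₗ[F] V) :=
  Subgroup.closure (transvections F V)

instance : (TV F V).Normal := ⟨fun a ha g => by
  refine (closure_le ((TV F V).comap (MulAut.conj g).toMonoidHom)).mpr ?_ ha
  rintro _ ⟨f, x, h, rfl⟩
  exact subset_closure ⟨_, _, _, tv_conj g h⟩⟩

theorem exists_dual {W : Submodule F V} {v : V} (hv : v ∉ W) :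
    ∃ f : Dual F V, (∀ w ∈ W, f w = 0) ∧ f v = 1 := by
  obtain ⟨f, h1, h2⟩ := LinearMap.exists_extend_of_notMem (0 : W →ₗ[F] F) hv 1
  exact ⟨f, fun w hw => LinearMap.congr_fun h1 ⟨w, hw⟩, h2⟩

theorem tv_uni {W : Submodule F V} {f : Dual F V} {x : V} (h : f x = 0) (hx : x ∈ W)
    (hf : ∀ w ∈ W, f w = 0) : transvection h ∈ Uni (fl W ⊥) :=
  mem_fl bot_le (fun v => by simpa [LinearMap.transvection.apply] using W.smul_mem _ hx)
    (fun v hv => by simp [LinearMap.transvection.apply, hf v hv]) (by simp)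

theorem pel_mem (hp : p.Prime) [CharP F p] (W : Submodule F V) : ∀ (u : V ≃ₗ[F] V) (k : ℕ),
    u ^ p ^ k = 1 → W ≤ LinearMap.ker (nl u) → u ∈ TV F V := by
  induction W using WellFoundedGT.induction with
  | ind W ih =>
  intro u k hk hW
  by_cases h : W = ⊤
  · exact nl_eq.mp (LinearMap.ker_eq_top.mp (top_le_iff.mp (h ▸ hW))) ▸ one_mem _
  obtain ⟨v, -, hv⟩ := SetLike.exists_of_lt (lt_top_iff_ne_top.mpr h)
  obtain ⟨i, h1, h2⟩ := exists_last (N := nl u) (n := p ^ k) (by rw [nl_pow hp, hk, nl_eq]) hv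
  generalize (nl u ^ i) v = v at h1 h2
  obtain ⟨f, h3, h4⟩ := exists_dual h1
  have h5 : ∀ w ∈ W, u w = w := fun w hw => sub_eq_zero.mp (hW hw)
  have h6 := h3 _ (neg_mem h2)
  obtain ⟨l, hl⟩ := pel_mul hp rfl (n := 3) rfl (tv_uni h6 (neg_mem h2) h3)
    (fl_stab (fun w hw => by rwa [h5 w hw]) (fl_stab (A := ⊤) (B := ⊤) (fun _ _ => trivial)
      (fun _ _ => trivial) 3)) hk
  refine (mul_mem_cancel_left (subset_closure transvection_mem_transvections)).mp
    (ih (W ⊔ F ∙ v) (left_lt_sup.mpr (mt (Submodule.span_singleton_le_iff_mem v W).mp h1)) _ l hl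
      (sup_le (fun w hw => ?_) ((Submodule.span_singleton_le_iff_mem _ _).mpr ?_)))
  · simp [nl_apply, LinearMap.transvection.apply, h5 w hw, h3 w hw]
  · have h7 := h3 _ h2
    rw [nl_apply, map_sub, h4, sub_eq_zero] at h7
    simp [nl_apply, LinearMap.transvection.apply, h7]

theorem cl_tv (hp : p.Prime) [CharP F p] {Γ : Subgroup (V ≃ₗ[F] V)} {U K : Submodule F V}
    (hU : Γ ≤ Stab U) (hK : Γ ≤ Stab K)
    (h : Cl p (Tame p) (⊥ : Subgroup (Sq U K ≃ₗ[F] Sq U K)))
    (h1 : ∀ (f : Dual F V) (x : V), x ∈ U → f x = 0 → (∀ v ∈ U, v ∈ K → f v = 0) →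
      ∃ g ∈ Γ, ∀ v ∈ U, g v = v + f v • x) : Cl p (Tame p) (sq hU hK).ker := by
  refine h.push _ (rch_of_full hp fun g k hg => (closure_le _).mpr ?_
    (pel_mem hp ⊥ g k hg bot_le)) le_rfl
  rintro _ ⟨f, x, h2, rfl⟩
  obtain ⟨x, rfl⟩ := Submodule.Quotient.mk_surjective _ x
  obtain ⟨f', h3⟩ := LinearMap.exists_extend (f ∘ₗ (K.submoduleOf U).mkQ)
  have h4 : ∀ v : U, f' v = f (Submodule.Quotient.mk v) := LinearMap.congr_fun h3
  obtain ⟨g, h5, h6⟩ := h1 f' x x.2 ((h4 x).trans h2) fun v hv h5 => (h4 ⟨v, hv⟩).trans (by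
    rw [(Submodule.Quotient.mk_eq_zero _).mpr (show (⟨v, hv⟩ : U) ∈ K.submoduleOf U from h5),
      map_zero])
  refine ⟨⟨g, h5⟩, LinearEquiv.ext fun v => ?_⟩
  obtain ⟨v, rfl⟩ := Submodule.Quotient.mk_surjective _ v
  rw [sq_mk, transvection.apply, ← h4]
  exact congrArg Submodule.Quotient.mk (Subtype.ext (h6 v v.2) : _ = v + f' v • x)

theorem tame_gl (hp : p.Prime) [CharP F p] : Tame p (V ≃ₗ[F] V) := by
  obtain ⟨N, n, h1, h2⟩ := exists_card hp (V ≃ₗ[F] V)
  refine tame_of hp h1 fun t ht g => ?_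
  obtain ⟨φ, -, h3⟩ := gl_conj hp (g := g) (h2 ▸ pow_card_eq_one') ht
    (by rintro rfl; exact hp.one_lt.ne' (Nat.dvd_one.mp ((Nat.modEq_zero_iff_dvd).mp
      (ht.of_mul_right n).symm)))
  exact isConj_iff.mpr ⟨φ, h3⟩

theorem Tame.full {G : Type} [Group G] [Finite G] (hp : p.Prime) (h : Tame p G) {D : Subgroup G}
    (hD : ∀ (g : G) k, g ^ p ^ k = 1 → g ∈ D) : Tame p D := by
  obtain ⟨N, n, h1, h2⟩ := exists_card hp G
  exact h.sub hp D h1 fun a => hD _ N (by rw [← pow_mul, mul_comm, ← h2, pow_card_eq_one'])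

theorem cl_gl (hp : p.Prime) [CharP F p] (n : ℕ) : ∀ (V : Type) [AddCommGroup V] [Module F V]
    [Finite V], finrank F V = n → Cl p (Tame p) (⊥ : Subgroup (V ≃ₗ[F] V)) := by
  induction n using Nat.strong_induction_on with
  | h n ih =>
  intro V _ _ _ hn
  rcases le_or_gt (finrank F V) 2 with h | h
  · refine cl_of_exp hp fun g k hg => mem_bot.mpr ?_
    rw [← pow_one p]
    refine pel_of hp (n := finrank F V) (LinearMap.ker_eq_top.mp (top_le_iff.mp (le_trans ?_
      (End.ker_pow_le_ker_pow_finrank _ (p ^ k))))) (h.trans (by simpa using hp.two_le))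
    rw [nl_pow hp, hg, nl_eq.mpr rfl, LinearMap.ker_zero]
  have a1 := fun g k hg => pel_mem hp (⊥ : Submodule F V) g k hg bot_le
  refine cl_of_core hp (TV F V) ((closure_le _).mpr ?_)
    ((tame_gl hp).full hp a1) (fun g k hg => pow_mem (a1 g k hg) p) fun H _ hH => ?_
  · rintro _ ⟨f, x, h1, rfl⟩
    obtain ⟨y, h2, h3⟩ : ∃ y ∈ LinearMap.ker f, y ∉ F ∙ x := SetLike.not_le_iff_exists.mp fun h2 => by
      have h3 := LinearMap.finrank_range_add_finrank_ker f
      have h4 := (LinearMap.range f).finrank_le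
      have h5 := (Submodule.finrank_mono h2).trans (finrank_span_le_card _)
      simp at h4 h5
      omega
    obtain ⟨g, h4, h5⟩ := exists_dual h3
    have h6 := h4 x (Submodule.mem_span_singleton_self x)
    replace h2 : f y = 0 := h2
    refine Set.mem_of_eq_of_mem ?_ (commutator_mem_commutator
      (subset_closure (transvection_mem_transvections (hfv := h6)))
      (subset_closure (transvection_mem_transvections (hfv := h2))))
    rw [commutatorElement_def, eq_mul_inv_iff_mul_eq, eq_mul_inv_iff_mul_eq]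
    ext v
    simp [LinearMap.transvection.apply, h1, h5, h2]
    module
  let P : V → Prop := fun x => ∀ (f : Dual F V) (h : f x = 0), transvection h ∈ H
  have b1 : ∀ g x, (∀ (f : Dual F V) (h : f x = 0), g * transvection h * g⁻¹ ∈ H) → P (g x) :=
    fun g x hx f h => by
      have h1 := hx (f ∘ₗ g.toLinearMap) h
      rw [tv_conj] at h1
      convert h1 using 2
      ext v
      simp
  have b2 : ∀ g ∈ H, ∀ x, P x → P (g x) := fun g hg x hx =>
    b1 g x fun f h => mul_mem (mul_mem hg (hx f h)) (inv_mem hg)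
  have b3 : ∀ (a : F) x, P x → P (a • x) := fun a x hx f h => by
    by_cases h1 : a = 0
    · convert one_mem H using 1
      ext v
      simp [h1]
    · convert hx (a • f) (by simpa using h) using 1
      ext v
      simp [LinearMap.transvection.apply, smul_smul, mul_comm]
  let S : Submodule F V :=
    { carrier := {x | P x}
      zero_mem' := fun f h => by
        convert one_mem H using 1
        ext v
        simp
      smul_mem' := b3
      add_mem' := fun {x y} hx hy => by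
        by_cases h1 : y ∈ F ∙ x
        · obtain ⟨c, rfl⟩ := Submodule.mem_span_singleton.mp h1
          simpa [add_smul] using b3 (1 + c) x hx
        obtain ⟨g, h2, h3⟩ := exists_dual h1
        simpa [LinearMap.transvection.apply, h3, add_comm] using
          b2 _ (hx g (h2 x (Submodule.mem_span_singleton_self x))) y hy }
  by_cases h1 : S = ⊤
  · refine .inl ((closure_le _).mpr ?_)
    rintro _ ⟨f, x, h2, rfl⟩
    exact h1.ge Submodule.mem_top f h2
  have h2 : S ≠ ⊥ := by
    have := Module.nontrivial_of_finrank_pos (R := F) (M := V) (by omega)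
    obtain ⟨x, hx⟩ := exists_ne (0 : V)
    obtain ⟨g, -, h2⟩ := conj_into hp hH (Q := Uni (fl (F ∙ x) ⊥) ⊓ TV F V) inf_le_right
      fun q => ⟨3, Subtype.ext (fl_pel hp q.2.1)⟩
    exact S.ne_bot_iff.mpr ⟨g x, b1 g x fun f h => h2 _ ⟨tv_uni h
      (Submodule.mem_span_singleton_self x) fun w hw => by
        obtain ⟨c, rfl⟩ := Submodule.mem_span_singleton.mp hw
        simp [h], subset_closure transvection_mem_transvections⟩, by simpa using hx⟩
  have c0 : Stab S ≤ Stab ⊥ := fun g _ v hv => by simpa using hv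
  have c1 : Stab S ≤ Stab ⊤ := fun _ _ _ _ => trivial
  have c2 : ∀ (f : Dual F V) x (h : f x = 0), (x ∈ S ∨ ∀ v ∈ S, f v = 0) →
      ∃ g ∈ Stab S, ∀ v, g v = v + f v • x := fun f x h h3 =>
    ⟨transvection h, fun v hv => add_mem hv (h3.elim (S.smul_mem _) fun h3 => by simp [h3 v hv]),
      fun _ => rfl⟩
  refine .inr ⟨Stab S, fun g hg => b2 g hg, Cl.ext ((sq le_rfl c0).ker ⊓ (sq c1 le_rfl).ker)
    (cl_of_pq hp fun g => ⟨3, Subtype.ext (fl_pel hp (g := g.1.1) (mem_fl (A := S) bot_le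
      (fun v => sq_ker g.2.2 v trivial) (sq_ker g.2.1) (by simp)))⟩)
    ((cl_tv hp _ _ (ih _ (hn ▸ sq_lt (.inl h1)) _ rfl) fun f x h3 h4 _ => ?_).inf
      (cl_tv hp _ _ (ih _ (hn ▸ sq_lt (.inr ⟨rfl, h2⟩)) _ rfl) fun f x _ h4 h5 => ?_))⟩
  · exact (c2 f x h4 (.inl h3)).imp fun g h => ⟨h.1, fun v _ => h.2 v⟩
  · exact (c2 f x h4 (.inr fun v => h5 v trivial)).imp fun g h => ⟨h.1, fun v _ => h.2 v⟩

end Pool.Agent.MP_3e257e_al
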