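import Pool.Agent.MP_3e257e_al.RRep

/-!
Counting linear constituents of characters of `p`-groups modulo `p`.
-/

set_option autoImplicit false
set_option linter.unusedSectionVars false

namespace Pool.Agent.MP_3e257e_al

open Module Finset

variable {X Y : Type} [Group X] [Group Y] {p : ℕ}

theorem pInt_mul {a : ℂ} (ha : a ∈ pInt p) {b : ℂ} (hb : ∃ z : ℤ, b = z) : a * b ∈ pInt p := by
  obtain ⟨w, rfl⟩ := ha
  obtain ⟨z, rfl⟩ := hb
  exact ⟨w * z, by push_cast; ring⟩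

theorem nat_pInt {d : ℕ} : (d : ℂ) ∈ pInt p ↔ p ∣ d :=
  ⟨fun ⟨z, hz⟩ => Int.natCast_dvd_natCast.mp ⟨z, by exact_mod_cast hz⟩,
    fun ⟨t, ht⟩ => ⟨t, by rw [ht]; push_cast; rfl⟩⟩

theorem mul_not_pInt (hp : p.Prime) {a b : ℂ} (ha : ∃ z : ℤ, a = z) (hb : ∃ z : ℤ, b = z)
    (h1 : a ∉ pInt p) (h2 : b ∉ pInt p) : a * b ∉ pInt p := by
  obtain ⟨w, rfl⟩ := ha
  obtain ⟨z, rfl⟩ := hb
  rintro ⟨t, ht⟩
  rcases (Nat.prime_iff_prime_int.mp hp).dvd_or_dvd (⟨t, by exact_mod_cast ht⟩ : (p : ℤ) ∣ w * z)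
    with ⟨u, rfl⟩ | ⟨u, rfl⟩
  · exact h1 ⟨u, by push_cast; rfl⟩
  · exact h2 ⟨u, by push_cast; rfl⟩

/-- A character of degree one as a homomorphism. -/
def IsChar.hom {θ : X → ℂ} (h : IsChar θ) (h1 : θ 1 = 1) : X →* ℂ :=
  ⟨⟨θ, h1⟩, h.mul_of_one h1⟩

theorem hom_Qs (ν : Y →* ℂ) {k : ℕ} (h : ∀ a, ν a ^ k = 1) {q : Y} (hq : q ∈ Qs Y k) :
    ν q = 1 := by
  have h1 : Qs Y k ≤ ν.toHomUnits.ker := (Subgroup.closure_le _).mpr (by
    rintro x (⟨a, b, rfl⟩ | ⟨a, rfl⟩)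
    · change ν.toHomUnits _ = 1
      rw [map_mul, map_mul, map_mul, map_inv, map_inv, mul_comm (ν.toHomUnits a)]
      group
    · exact Units.ext (by simpa using h a))
  exact congrArg Units.val (h1 hq)

theorem trace_van [Finite X] (hp : p.Prime) {θ : X → ℂ} (h : IsChar θ) {g : X} {N : ℕ}
    (hg : g ^ p ^ N = 1) (h0 : θ g = 0) : θ 1 ∈ pInt p := by
  obtain ⟨s, h1, h2⟩ := h.roots g
  have hN : p ^ N ≠ 0 := pow_ne_zero _ hp.ne_zero
  have h3 := h1 0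
  have h4 := h1 1
  rw [pow_one, h0] at h4
  rw [pow_zero] at h3
  obtain ⟨w, hw, h5⟩ : (s.map fun ξ => ξ ^ 0 - ξ ^ 1).sum ∈ mulInt (1 - zt (p ^ N)) :=
    multiset_sum_mem _ fun x hx => by
      obtain ⟨ξ, hξ, rfl⟩ := Multiset.mem_map.mp hx
      obtain ⟨i, rfl⟩ := exists_zt_pow hN (h2 ξ hξ _ hg)
      exact ⟨∑ l ∈ range i, zt (p ^ N) ^ l, IsIntegral.sum _ fun l _ =>
        (isIntegral_root hN (zt_prim hN).pow_eq_one).pow l, by simp [mul_neg_geom_sum]⟩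
  rw [Multiset.sum_map_sub, ← h3, ← h4, sub_zero] at h5
  obtain ⟨d, hd⟩ := h.one
  obtain ⟨z, hz⟩ := dvd_of_comb hp (A := d) (zt_prim hN).pow_eq_one isIntegral_zero hw
    (by rw [← h5, hd]; simp)
  exact ⟨z, by rw [hd]; exact_mod_cast hz⟩

theorem exists_z [Finite X] (hp : p.Prime) {Z : Subgroup X} [Z.Normal] (hZ : Z ≠ ⊤)
    (h : IsPGroup p (X ⧸ Z)) : ∃ z ∉ Z, ∀ g, z * g * z⁻¹ * g⁻¹ ∈ Z := by
  have := Fact.mk hp
  have := QuotientGroup.nontrivial_iff.mpr hZ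
  have := h.center_nontrivial
  obtain ⟨⟨z, hz⟩, h1⟩ := exists_ne (1 : Subgroup.center (X ⧸ Z))
  obtain ⟨z, rfl⟩ := QuotientGroup.mk_surjective z
  refine ⟨z, fun h2 => h1 (Subtype.ext ((QuotientGroup.eq_one_iff z).mpr h2)), fun g => ?_⟩
  rw [← QuotientGroup.eq_one_iff]
  simp only [QuotientGroup.mk_mul, QuotientGroup.mk_inv]
  rw [← Subgroup.mem_center_iff.mp hz (g : X ⧸ Z)]
  group

theorem vanish [Finite X] (hp : p.Prime) {θ : X → ℂ} (h : IsIrr θ) (hY : IsPGroup p Y)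
    (φ : Y →* X) (hφ : ∀ x, ∃ y, ∃ z ∈ Zc θ, x = φ y * z) :
    θ 1 = 1 ∨ ∃ R : Subgroup Y, R ≠ ⊤ ∧ ∀ y ∉ R, θ (φ y) = 0 := by
  have := Fintype.ofFinite X
  have := h.isChar.zc_normal
  obtain ⟨U, rfl⟩ := h.isChar
  have h' : IsIrr (Representation.character U.ρ) := h
  have := h'.nontrivial
  by_cases hZ : Zc U.character = ⊤
  · refine Or.inl (h.one_eq_of_comm fun g a y => ?_)
    obtain ⟨c, -, hc⟩ := (mem_Zc (ρ := U.ρ)).mp (hZ ▸ Subgroup.mem_top a : a ∈ Zc U.character)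
    simp only [FDRep.character, map_mul, hc, mul_smul_comm, mul_one, smul_mul_assoc, rho_inv]
  obtain ⟨z, h1, h2⟩ := exists_z hp hZ (hY.of_surjective ((QuotientGroup.mk' _).comp φ) fun x => by
    obtain ⟨x, rfl⟩ := QuotientGroup.mk_surjective x
    obtain ⟨y, z, hz, rfl⟩ := hφ x
    exact ⟨y, by simp [(QuotientGroup.eq_one_iff z).mpr hz]⟩)
  refine Or.inr ⟨((Submonoid.centralizer {U.ρ z}).comap (U.ρ.comp φ)).units.map
    (toUnits (G := Y)).symm.toMonoidHom, fun h3 => h1 ?_, fun y hy => ?_⟩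
  · obtain ⟨c, hc⟩ := schur h' (T := U.ρ z) fun x => by
      obtain ⟨y, u, hu, rfl⟩ := hφ x
      obtain ⟨c, -, hc⟩ := (mem_Zc (ρ := U.ρ)).mp hu
      obtain ⟨y', h4, rfl⟩ : y ∈ _ := h3 ▸ Subgroup.mem_top y
      have h5 : U.ρ z * U.ρ (φ y') = U.ρ (φ y') * U.ρ z := h4.1 _ rfl
      simp [hc, h5]
    exact mem_Zc_of (ρ := U.ρ) hc
  · by_contra h3
    obtain ⟨c, -, hc⟩ := (mem_Zc (ρ := U.ρ)).mp (h2 (φ y))
    have h4 : U.character (φ y) = c * U.character (φ y) := by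
      conv_lhs => rw [← h.isChar.conj z, ← inv_mul_cancel_right (z * φ y * z⁻¹) (φ y)]
      rw [FDRep.character, map_mul, hc]
      simp [FDRep.character]
    have h5 : ∀ y, U.ρ (z * φ y * z⁻¹ * (φ y)⁻¹) = 1 → U.ρ z * U.ρ (φ y) = U.ρ (φ y) * U.ρ z :=
      fun y h6 => by
        rw [← map_mul, show z * φ y = z * φ y * z⁻¹ * (φ y)⁻¹ * (φ y * z) by group, map_mul, h6,
          one_mul, map_mul]
    rw [(mul_eq_right₀ h3).mp h4.symm, one_smul] at hc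
    have h6 := h5 y hc
    refine hy ⟨toUnits y, ⟨?_, ?_⟩, rfl⟩
    · rintro _ rfl
      exact h6
    · rintro _ rfl
      change U.ρ z * U.ρ (φ y⁻¹) = U.ρ (φ y⁻¹) * U.ρ z
      rw [map_inv, ← one_mul (U.ρ z * _), ← inv_rho U.ρ (φ y), mul_assoc, ← mul_assoc (U.ρ (φ y)),
        ← h6, mul_assoc (U.ρ z), rho_inv, mul_one]

theorem linear_of [Finite X] [Finite Y] (hp : p.Prime) {θ : X → ℂ} (h : IsIrr θ)
    (hY : IsPGroup p Y) (φ : Y →* X) (hφ : ∀ x, ∃ y, ∃ z ∈ Zc θ, x = φ y * z)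
    (hd : θ 1 ∉ pInt p) : θ 1 = 1 := by
  refine (vanish hp h hY φ hφ).resolve_right fun ⟨R, h1, h2⟩ => hd ?_
  obtain ⟨y, hy⟩ : ∃ y, y ∉ R := not_forall.mp fun h3 => h1 ((Subgroup.eq_top_iff' R).mpr h3)
  obtain ⟨N, hN⟩ := hY y
  exact trace_van hp h.isChar (N := N) (by rw [← map_pow, hN, map_one]) (h2 y hy)

variable [Fintype Y]

open Classical in
theorem IsIrr.dq_eq {θ : Y → ℂ} (h : IsIrr θ) (k : ℕ) :
    dq k θ 1 = if θ 1 = 1 ∧ ∀ v, θ v ^ k = 1 then 1 else 0 := by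
  split_ifs with h1
  · rw [dq_of_triv, h1.1]
    intro q hq y
    rw [h.isChar.mul_of_one h1.1, show θ q = 1 from hom_Qs (h.isChar.hom h1.1) h1.2 hq, one_mul]
  · exact (h.tri k).elim (fun h2 => h2 1) fun h2 => absurd ⟨h2.1, fun v => (h2.2 v).2⟩ h1

theorem IsChar.dq_int {Ψ : Y → ℂ} (h : IsChar Ψ) (k : ℕ) : ∃ z : ℤ, dq k Ψ 1 = z := by
  obtain ⟨s, hs, rfl⟩ := h.decomp
  rw [dq_sum]
  refine (Int.castAddHom ℂ).range.multiset_sum_mem _ (fun x hx => ?_) |>.imp fun z hz => hz.symm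
  obtain ⟨θ, hθ, rfl⟩ := Multiset.mem_map.mp hx
  rw [(hs θ hθ).dq_eq]
  split_ifs
  exacts [⟨1, by simp⟩, ⟨0, by simp⟩]

theorem dq_van (hp : p.Prime) {Ψ : Y → ℂ} (h : IsChar Ψ) {j : ℕ} {x : Y}
    (h0 : dq (p ^ j) Ψ x = 0) : dq (p ^ j) Ψ 1 ∈ pInt p := by
  have hk : p ^ j ≠ 0 := pow_ne_zero _ hp.ne_zero
  obtain ⟨w, hw, h1⟩ := (dq_prop h hk x).2
  obtain ⟨z, hz⟩ := h.dq_int (p ^ j)
  obtain ⟨t, ht⟩ := dvd_of_comb hp (A := z) (zt_prim hk).pow_eq_one isIntegral_zero hw.neg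
    (by rw [h0, hz] at h1; linear_combination -h1)
  exact ⟨t, by rw [hz]; exact_mod_cast ht⟩

theorem dq_off (hp : p.Prime) (hY : IsPGroup p Y) {Ψ : Y → ℂ} (h : IsChar Ψ) {j : ℕ} (hj : j ≠ 0)
    {R : Subgroup Y} (hR : R ≠ ⊤) (h0 : ∀ y, (∀ g, g * y * g⁻¹ ∉ R) → Ψ y = 0) :
    dq (p ^ j) Ψ 1 ∈ pInt p := by
  obtain ⟨x, hx⟩ : ∃ x, x ∉ R ⊔ Qs Y (p ^ j) := not_forall.mp fun h3 =>
    sup_Qs_ne hp hY hR (dvd_pow_self p hj) ((Subgroup.eq_top_iff' _).mpr h3)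
  refine dq_van hp h (x := x) ?_
  rw [dq, sum_eq_zero, mul_zero]
  refine fun q _ => h0 _ fun g h1 => hx ?_
  have h2 := (R ⊔ Qs Y (p ^ j)).mul_mem ((le_sup_right : _ ≤ R ⊔ Qs Y (p ^ j))
    (mul_mem (inv_mem q.2) (inv_mem (comm_mem _ g (q * x))))) (le_sup_left (b := Qs Y (p ^ j)) h1)
  convert h2 using 1
  group

theorem dq_twist (hp : p.Prime) (hY : IsPGroup p Y) {W : Y → ℂ} (hW : IsChar W) (ν : Y →* ℂ)
    {i j : ℕ} (hj : j ≠ 0) (hij : j ≤ i) (hI : Inv p i W) (hν : ¬ ∀ y, ν y ^ p ^ i = 1) :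
    dq (p ^ j) (fun y => W y * ν y) 1 ∈ pInt p := by
  classical
  have := Fact.mk hp
  obtain ⟨N, hN⟩ := IsPGroup.iff_card.mp hY
  have h1 : ∀ y, ν y ^ p ^ (i + N) = 1 := fun y => by
    rw [← map_pow, add_comm, pow_add, pow_mul, ← hN, pow_card_eq_one', one_pow, map_one]
  have hex : ∃ n, ∀ y, ν y ^ p ^ (i + n) = 1 := ⟨N, h1⟩
  obtain ⟨n, hn⟩ : ∃ n, Nat.find hex = n + 1 := Nat.exists_eq_succ_of_ne_zero fun h2 =>
    hν (by simpa [h2] using Nat.find_spec hex)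
  have h2 := Nat.find_spec hex
  rw [hn] at h2
  obtain ⟨x, hx⟩ := not_forall.mp (Nat.find_min hex (by omega : n < Nat.find hex))
  refine dq_van hp (hW.mul (isChar_hom ν)) (x := x) ?_
  have h3 : 1 + p ^ (i + n) ≡ 1 [MOD p ^ i * 1] :=
    ((Nat.modEq_iff_dvd' (Nat.le_add_right _ _)).mpr (by simpa using pow_dvd_pow p (by omega))).symm
  have h4 : (1 + p ^ (i + n)).Coprime (Nat.card Y) := coprime_card (p := p) (N := N) (n := 1)
    (by rw [hN, mul_one]) (h3.of_dvd (by simpa using dvd_pow_self p (by omega)))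
  let S := univ.filter fun z : Y => z * x⁻¹ ∈ Qs Y (p ^ j)
  have h5 : ∑ q : Qs Y (p ^ j), W (q * x) * ν (q * x) = ∑ z ∈ S, W z * ν z := by
    rw [← sum_subtype (univ.filter (· ∈ Qs Y (p ^ j))) (by simp) fun q => W (q * x) * ν (q * x)]
    exact sum_bijective _ (Group.mulRight_bijective x) (by simp [S]) fun _ _ => rfl
  have h6 : ∑ z ∈ S, W z * ν z * ν x ^ p ^ (i + n) = ∑ z ∈ S, W z * ν z := by
    refine sum_bijective _ (pow_bij h4) (fun z => ?_) fun z hz => ?_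
    · have h7 : z ^ p ^ (i + n) ∈ Qs Y (p ^ j) := by
        rw [show i + n = (i + n - j) + j by omega, pow_add, pow_mul]
        exact pow_mem_Qs _ _
      simp only [S, mem_filter, mem_univ, true_and]
      rw [add_comm 1, pow_succ, mul_assoc, mul_mem_cancel_left h7]
    · have h7 := hom_Qs ((powMonoidHom (p ^ (i + n))).comp ν) (k := p ^ j) (fun a => by
        obtain ⟨j, rfl⟩ := Nat.exists_eq_succ_of_ne_zero hj
        change (ν a ^ _) ^ _ = 1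
        rw [← pow_mul, ← pow_add, show i + n + j.succ = i + (n + 1) + j by omega, pow_add, pow_mul,
          h2, one_pow]) (mem_filter.mp hz).2
      rw [hI z N 1 _ (by simpa using hp.one_lt.ne') (by rw [mul_one, ← hN, pow_card_eq_one']) h3,
        map_pow, pow_add (ν z), pow_one, mul_assoc]
      congr 2
      conv_rhs => rw [← inv_mul_cancel_right z x, map_mul, mul_pow]
      rw [show ν (z * x⁻¹) ^ p ^ (i + n) = 1 from h7, one_mul]
  rw [← sum_mul] at h6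
  rw [dq, h5, show ∑ z ∈ S, W z * ν z = 0 from
    by_contra fun h7 => hx ((mul_eq_left₀ h7).mp h6), mul_zero]

theorem dq_mul_sum (k : ℕ) (W : Y → ℂ) (s : Multiset (Y → ℂ)) :
    dq k (fun y => W y * s.sum y) 1 = (s.map fun θ => dq k (fun y => W y * θ y) 1).sum := by
  have h := dq_sum k (s.map fun θ y => W y * θ y) 1
  rw [Multiset.map_map] at h
  refine Eq.trans ?_ h
  congr 1
  funext y
  rw [Pi.multiset_sum_apply, Pi.multiset_sum_apply, Multiset.map_map, ← Multiset.sum_map_mul_left]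
  rfl

theorem dq_nonlin (hp : p.Prime) (hY : IsPGroup p Y) {W θ : Y → ℂ} (hW : IsChar W) (h : IsIrr θ)
    (h1 : θ 1 ≠ 1) {j : ℕ} (hj : j ≠ 0) : dq (p ^ j) (fun y => W y * θ y) 1 ∈ pInt p := by
  obtain ⟨R, h2, h3⟩ := (vanish hp h hY (MonoidHom.id Y)
    fun x => ⟨x, 1, one_mem _, by simp⟩).resolve_left h1
  exact dq_off hp hY (hW.mul h.isChar) hj h2 fun y hy => by
    rw [show θ y = 0 from h3 y (by simpa using hy 1), mul_zero]

theorem dq_mul_triv {W : Y → ℂ} (ν : Y →* ℂ) {k : ℕ} (h : ∀ y, ν y ^ k = 1) :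
    dq k (fun y => W y * ν y) 1 = dq k W 1 := by
  simp only [dq, mul_one]
  congr 1
  exact sum_congr rfl fun q _ => by rw [hom_Qs ν h q.2, mul_one]

theorem dq_mul (hp : p.Prime) (hY : IsPGroup p Y) {W Φ : Y → ℂ} (hW : IsChar W) (hΦ : IsChar Φ)
    {j : ℕ} (hj : j ≠ 0) (hI : Inv p j W) :
    dq (p ^ j) (fun y => W y * Φ y) 1 - dq (p ^ j) W 1 * dq (p ^ j) Φ 1 ∈ pInt p := by
  obtain ⟨s, hs, rfl⟩ := hΦ.decomp
  rw [dq_mul_sum, dq_sum, ← Multiset.sum_map_mul_left, ← Multiset.sum_map_sub]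
  refine multiset_sum_mem _ fun x hx => ?_
  obtain ⟨θ, hθ, rfl⟩ := Multiset.mem_map.mp hx
  rw [(hs θ hθ).dq_eq]
  split_ifs with h1
  · rw [show dq (p ^ j) (fun y => W y * θ y) 1 = _ from
      dq_mul_triv ((hs θ hθ).isChar.hom h1.1) h1.2, mul_one, sub_self]
    exact zero_mem _
  rw [mul_zero, sub_zero]
  by_cases h2 : θ 1 = 1
  · exact dq_twist hp hY hW ((hs θ hθ).isChar.hom h2) hj le_rfl hI fun h3 => h1 ⟨h2, h3⟩
  · exact dq_nonlin hp hY hW (hs θ hθ) h2 hj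

theorem exists_lin (hp : p.Prime) (hY : IsPGroup p Y) {W Φ : Y → ℂ} (hW : IsChar W)
    (hΦ : IsChar Φ) {j : ℕ} (hj : j ≠ 0) (h : dq (p ^ j) (fun y => W y * Φ y) 1 ∉ pInt p) :
    ∃ ν : Y →* ℂ, (∀ y, (∀ x, Φ (y * x) = Φ x) → ν y = 1) ∧
      dq (p ^ j) (fun y => W y * ν y) 1 ∉ pInt p := by
  classical
  obtain ⟨s, hs, rfl⟩ := hΦ.decomp
  rw [dq_mul_sum] at h
  by_contra h1
  refine h (multiset_sum_mem _ fun x hx => ?_)
  obtain ⟨θ, hθ, rfl⟩ := Multiset.mem_map.mp hx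
  by_cases h2 : θ 1 = 1
  · by_contra h3
    refine h1 ⟨(hs θ hθ).isChar.hom h2, fun y hy => ?_, h3⟩
    have h4 : ip θ s.sum ≠ 0 := by
      rw [ip_count hs (hs θ hθ), Nat.cast_ne_zero, Multiset.count_ne_zero]
      exact hθ
    refine (mul_eq_left₀ h4).mp ?_
    rw [ip, mul_assoc, sum_mul]
    congr 1
    refine Fintype.sum_equiv (Equiv.mulRight y) _ _ fun g => ?_
    rw [Equiv.coe_mulRight, (hs θ hθ).isChar.mul_of_one h2, ← hy (g * y)⁻¹, mul_right_comm]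
    simp [IsChar.hom]
  · exact dq_nonlin hp hY hW (hs θ hθ) h2 hj

theorem IsIrr.lin_or (hp : p.Prime) (hY : IsPGroup p Y) {θ : Y → ℂ} (h : IsIrr θ) :
    θ 1 = 1 ∨ θ 1 ∈ pInt p :=
  or_iff_not_imp_right.mpr (linear_of hp h hY (MonoidHom.id Y) fun x => ⟨x, 1, one_mem _, by simp⟩)

theorem IsIrr.twist {θ : Y → ℂ} (h : IsIrr θ) (ν : Y →* ℂ) : IsIrr fun y => ν y * θ y := by
  rw [isIrr_iff] at h ⊢
  refine ⟨(isChar_hom ν).mul h.1, h.2 ▸ congrArg _ (sum_congr rfl fun x _ => ?_)⟩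
  rw [mul_mul_mul_comm, ← map_mul, mul_inv_cancel, map_one, one_mul]

theorem one_not_pInt (hp : p.Prime) : (1 : ℂ) ∉ pInt p := fun h =>
  hp.one_lt.ne' (Nat.dvd_one.mp (nat_pInt.mp (by exact_mod_cast h)))

theorem dq_inv (hp : p.Prime) (hY : IsPGroup p Y) {Ψ : Y → ℂ} (h : IsChar Ψ) {j : ℕ} (hj : j ≠ 0)
    (hI : Inv p j Ψ) : dq (p ^ j) Ψ 1 - Ψ 1 ∈ pInt p := by
  classical
  have hc := h
  obtain ⟨s, hs, rfl⟩ := h.decomp
  let κ : (Y → ℂ) → Y → ℂ := fun θ y => θ y ^ p ^ j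
  let L := s.toFinset.filter fun θ => θ 1 = 1 ∧ ¬ ∀ v, θ v ^ p ^ j = 1
  have h1 : ∑ θ ∈ L, (s.count θ : ℂ) ∈ pInt p := by
    rw [← sum_fiberwise_of_maps_to (g := κ) (t := L.image κ) fun θ hθ => mem_image_of_mem _ hθ]
    refine sum_mem fun a ha => ?_
    obtain ⟨θ0, h0, rfl⟩ := mem_image.mp ha
    obtain ⟨h2, h3, h4⟩ := mem_filter.mp h0
    have h5 := (hs θ0 (Multiset.mem_toFinset.mp h2)).isChar
    let ν := h5.inv.hom (by simpa using h3)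
    have hν : ∀ y, θ0 y * ν y = 1 := fun y => by
      rw [← h3, ← mul_inv_cancel y, h5.mul_of_one h3]; rfl
    have h6 := dq_twist hp hY hc ν hj le_rfl hI fun h7 => h4 fun v => by
      have h8 := mul_pow (θ0 v) (ν v) (p ^ j)
      rwa [hν, h7, one_pow, mul_one, eq_comm] at h8
    simp only [mul_comm (s.sum _)] at h6
    rw [dq_mul_sum, sum_multiset_map_count] at h6
    convert h6 using 1
    rw [filter_filter, sum_filter]
    refine sum_congr rfl fun θ hθ => ?_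
    have h7 := hs θ (Multiset.mem_toFinset.mp hθ)
    have h8 := h7.twist ν
    rw [h8.dq_eq, map_one, one_mul, nsmul_eq_mul, mul_ite, mul_one, mul_zero]
    have h9 : ∀ v, (ν v * θ v) ^ p ^ j = 1 ↔ θ v ^ p ^ j = θ0 v ^ p ^ j := fun v => by
      have h10 : θ0 v ^ p ^ j * ν v ^ p ^ j = 1 := by rw [← mul_pow, hν, one_pow]
      rw [mul_pow]
      exact ⟨fun h => by linear_combination θ0 v ^ p ^ j * h - θ v ^ p ^ j * h10,
        fun h => by rw [h, mul_comm, h10]⟩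
    refine if_congr ⟨fun h => ⟨h.1.1, fun v => (h9 v).mpr (congrFun h.2 v)⟩, fun h =>
      ⟨⟨h.1, fun h10 => h4 fun v => by rw [← (h9 v).mp (h.2 v), h10]⟩,
        funext fun v => (h9 v).mp (h.2 v)⟩⟩ rfl rfl
  have h2 : ∑ θ ∈ s.toFinset, s.count θ • (dq (p ^ j) θ 1 - θ 1 +
      if θ 1 = 1 ∧ ¬ ∀ v, θ v ^ p ^ j = 1 then 1 else 0) ∈ pInt p := by
    refine sum_mem fun θ hθ => nsmul_mem ?_ _
    have h3 := hs θ (Multiset.mem_toFinset.mp hθ)
    rw [h3.dq_eq]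
    by_cases h4 : θ 1 = 1
    · by_cases h5 : ∀ v, θ v ^ p ^ j = 1 <;> simp [h4, h5, zero_mem]
    · simpa [h4] using (h3.lin_or hp hY).resolve_left h4
  have h3 := sub_mem h2 h1
  rw [sum_filter, ← sum_sub_distrib] at h3
  rw [dq_sum, Pi.multiset_sum_apply, sum_multiset_map_count, sum_multiset_map_count,
    ← sum_sub_distrib]
  convert h3 using 2 with θ _
  split_ifs <;> simp [mul_sub]

theorem delta_dq (hp : p.Prime) (hY : IsPGroup p Y) {Ψ : Y → ℂ} (h : IsChar Ψ) {j : ℕ}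
    (hj : j ≠ 0) :
    deltaDeg p (j + 1) Ψ - (dq (p ^ (j + 1)) Ψ 1 - dq (p ^ j) Ψ 1) ∈ pInt p := by
  classical
  have := Fact.mk hp
  obtain ⟨N, hN⟩ := IsPGroup.iff_card.mp hY
  have hc := h
  obtain ⟨s, hs, rfl⟩ := h.decomp
  rw [delta_eq p _ hs hc, dq_sum, dq_sum, sum_multiset_map_count, sum_multiset_map_count,
    sum_filter, ← sum_sub_distrib, ← sum_sub_distrib]
  refine sum_mem fun θ hθ => ?_
  have h1 := hs θ (Multiset.mem_toFinset.mp hθ)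
  rw [h1.dq_eq, h1.dq_eq]
  by_cases h2 : θ 1 = 1
  · have h3 : ∀ i, i ≠ 0 → ((∀ v, θ v ^ p ^ i = 1) ↔ lev p θ ≤ i) := fun i hi => by
      rw [← inv_iff_lev hp h1.isChar hi]
      refine ⟨fun h4 g M n t _ _ h5 => ?_, fun h4 v => ?_⟩
      · rw [h1.isChar.map_pow h2, pow_eq_pow_mod t (h4 g), h5.of_mul_right n,
          ← pow_eq_pow_mod 1 (h4 g), pow_one]
      · have h5 := h4 v N 1 (1 + p ^ i) (by simpa using hp.one_lt.ne')
          (by rw [mul_one, ← hN, pow_card_eq_one'])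
          ((Nat.modEq_iff_dvd' (Nat.le_add_right _ _)).mpr (by simp)).symm
        have h6 : θ v ≠ 0 := fun h7 => by
          have := h1.isChar.mul_of_one h2 v v⁻¹
          rw [mul_inv_cancel, h2, h7, zero_mul] at this
          exact one_ne_zero this
        rwa [h1.isChar.map_pow h2, pow_add, pow_one, mul_eq_left₀ h6] at h5
    simp only [h2, true_and, h3 j hj, h3 (j + 1) (by omega)]
    split_ifs <;> first | omega | simp [zero_mem]
  · simp only [h2, false_and, if_false, smul_zero, sub_zero]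
    split_ifs
    · exact mul_comm (θ 1) _ ▸ pInt_mul ((h1.lin_or hp hY).resolve_left h2) ⟨s.count θ, by simp⟩
    · exact zero_mem _

theorem avg_surj {A B : Type} [Group A] [Group B] [Fintype A] [Fintype B] (φ : A →* B)
    (hφ : Function.Surjective φ) (f : B → ℂ) :
    (Nat.card A : ℂ)⁻¹ * ∑ a, f (φ a) = (Nat.card B : ℂ)⁻¹ * ∑ b, f b := by
  classical
  have h1 : ∀ f : B → ℂ, ∑ a, f (φ a) = (univ.filter fun a => φ a = 1).card * ∑ b, f b := by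
    intro f
    rw [← sum_fiberwise_of_maps_to (g := φ) (t := univ) fun _ _ => mem_univ _, mul_sum]
    refine sum_congr rfl fun b _ => ?_
    rw [sum_congr rfl fun a ha => congrArg f (mem_filter.mp ha).2, sum_const, nsmul_eq_mul,
      MonoidHom.card_fiber_eq_of_mem_range φ (hφ b) (hφ 1)]
  have h2 := h1 fun _ => 1
  simp only [sum_const, card_univ, nsmul_eq_mul, mul_one, ← Nat.card_eq_fintype_card] at h2
  have h3 := cardX_ne (X := A)
  rw [h2, mul_ne_zero_iff] at h3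
  rw [h1, h2]
  field_simp [h3.1, h3.2]

theorem dq_surj {Y' : Type} [Group Y'] [Fintype Y'] (ψ : Y →* Y') (hψ : Function.Surjective ψ)
    (k : ℕ) (f : Y' → ℂ) : dq k (fun y => f (ψ y)) 1 = dq k f 1 := by
  classical
  have h1 : (Qs Y k).map ψ = Qs Y' k := by
    rw [Qs, MonoidHom.map_closure, Qs]
    congr 1
    ext x
    constructor
    · rintro ⟨_, ⟨a, b, rfl⟩ | ⟨a, rfl⟩, rfl⟩
      exacts [Or.inl ⟨ψ a, ψ b, by simp⟩, Or.inr ⟨ψ a, by simp⟩]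
    · rintro (⟨a, b, rfl⟩ | ⟨a, rfl⟩)
      · obtain ⟨a, rfl⟩ := hψ a
        obtain ⟨b, rfl⟩ := hψ b
        exact ⟨_, Or.inl ⟨a, b, rfl⟩, by simp⟩
      · obtain ⟨a, rfl⟩ := hψ a
        exact ⟨_, Or.inr ⟨a, rfl⟩, by simp⟩
  have h2 := avg_surj ((ψ.comp (Qs Y k).subtype).codRestrict (Qs Y' k)
    fun q => h1 ▸ Subgroup.mem_map_of_mem ψ q.2) (by
      rintro ⟨q, hq⟩
      obtain ⟨a, ha, rfl⟩ := h1.ge hq
      exact ⟨⟨a, ha⟩, rfl⟩) fun q => f q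
  simp only [dq, mul_one]
  convert h2
  rfl

/-- A homomorphism from a `p`-group onto a Sylow subgroup. -/
def Cov (p : ℕ) (φ : Y →* X) : Prop := IsPGroup p Y ∧ ¬ p ∣ φ.range.index

theorem dq_cover [Finite X] (hp : p.Prime) {φ : Y →* X} (hφ : Cov p φ) {Y' : Type} [Group Y']
    [Fintype Y'] {φ' : Y' →* X} (hφ' : Cov p φ') {χ : X → ℂ} (h : IsChar χ) (k : ℕ) :
    dq k (fun y => χ (φ y)) 1 = dq k (fun y => χ (φ' y)) 1 := by
  have := Fact.mk hp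
  have := Fintype.ofFinite φ'.range
  obtain ⟨g, hg⟩ := MulAction.exists_smul_eq X
    ((hφ.1.of_surjective _ φ.rangeRestrict_surjective).toSylow hφ.2)
    ((hφ'.1.of_surjective _ φ'.rangeRestrict_surjective).toSylow hφ'.2)
  have h1 : φ.range.map (MulAut.conj g).toMonoidHom = φ'.range := congrArg Sylow.toSubgroup hg
  have h2 := dq_surj (((MulAut.conj g).toMonoidHom.comp φ).codRestrict φ'.range
    fun y => h1 ▸ Subgroup.mem_map_of_mem _ ⟨y, rfl⟩) (by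
      rintro ⟨q, hq⟩
      obtain ⟨_, ⟨a, rfl⟩, rfl⟩ := h1.ge hq
      exact ⟨a, rfl⟩) k fun v => χ v
  rw [← dq_surj _ φ'.rangeRestrict_surjective] at h2
  refine Eq.trans ?_ h2
  congr 1
  funext y
  exact (h.conj g _).symm

end Pool.Agent.MP_3e257e_al
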