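import Pool.Agent.MP_3e257e_al.RStep

/-!
The reduction to almost quasi-simple groups.
-/

set_option autoImplicit false
set_option linter.unusedSectionVars false

namespace Pool.Agent.MP_3e257e_al

open Module Finset Subgroup
open scoped commutatorElement

variable {G : Type} [Group G] [Finite G] {p : ℕ}

theorem perf_comm {A B : Subgroup G} (h : A ≤ ⁅A, A⁆) (hz : ⁅A, B⁆ ≤ center G) :
    ∀ a ∈ A, ∀ b ∈ B, Commute a b := by
  have h1 : ⁅⁅A, B⁆, A⁆ = ⊥ :=
    commutator_eq_bot_iff_le_centralizer.mpr (hz.trans (center_le_centralizer _))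
  have h2 := commutator_commutator_eq_bot_of_rotate h1 (commutator_comm A B ▸ h1)
  exact fun a ha b hb => (commutator_eq_bot_iff_le_centralizer.mp h2 (h ha) b hb).symm

theorem comm_quot {a b : G} : Commute (a : G ⧸ center G) b ↔ ⁅a, b⁆ ∈ center G := by
  rw [← QuotientGroup.eq_one_iff, ← commutatorElement_eq_one_iff_commute]
  rfl

theorem struct {M L : Subgroup G} (hM : Minimal (fun N : Subgroup G => N.Normal ∧ ¬ N ≤ center G) M)
    (h1 : ¬ ⁅M, M⁆ ≤ center G)
    (hL : Minimal (fun L : Subgroup G => L ≤ M ∧ M ≤ normalizer L ∧ ¬ L ≤ center G) L) :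
    L ≤ ⁅L, L⁆ ∧ M ≤ normalClosure L ∧
      ∀ g ∉ normalizer (L : Set G), ∀ a ∈ L, ∀ b ∈ L, Commute a (g * b * g⁻¹) := by
  have := hM.1.1
  obtain ⟨l1, l2, l3⟩ := hL.1
  have a1 : M ≤ normalClosure L := hM.2 ⟨inferInstance, fun h => l3 (le_normalClosure.trans h)⟩
    (normalClosure_le_normal l1)
  have a2 : ∀ g ∉ normalizer (L : Set G), ⁅L, L.map (MulAut.conj g).toMonoidHom⁆ ≤ center G := by
    intro g hg
    have h2 : L.map (MulAut.conj g).toMonoidHom ≤ M := by
      rintro _ ⟨b, hb, rfl⟩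
      exact this.conj_mem b (l1 hb) g
    have h3 : M ≤ normalizer (L.map (MulAut.conj g).toMonoidHom) := fun m hm =>
      le_normalizer_map _ ⟨_, l2 (this.conj_mem m hm g⁻¹), by simp [mul_assoc]⟩
    refine le_trans (le_inf (le_normalizer_iff_commutator_le_left.mp (h2.trans l2))
      (le_normalizer_iff_commutator_le_right.mp (l1.trans h3))) (by_contra fun h4 => hg ?_)
    refine mem_normalizer_iff_map_conj_eq.mpr (eq_of_le_of_card_ge ((hL.2 ⟨inf_le_left.trans l1,
      (le_inf l2 h3).trans inf_normalizer_le_normalizer_inf, h4⟩ inf_le_left).trans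
        inf_le_right) (card_map_of_injective (MulAut.conj g).injective).le).symm
  have a3 : L ≤ ⁅L, L⁆ := hL.2 ⟨(commutator_le_self L).trans l1, fun m hm => by
    have h2 := mem_normalizer_iff_map_conj_eq.mp (l2 hm)
    rw [mem_normalizer_iff_map_conj_eq, map_commutator, h2], fun h2 => h1 ?_⟩ (commutator_le_self L)
  · exact ⟨a3, a1, fun g hg a ha b hb => perf_comm a3 (a2 g hg) a ha _ ⟨b, hb, rfl⟩⟩
  have h3 : ∀ u ∈ Group.conjugatesOfSet (L : Set G), ∀ v ∈ Group.conjugatesOfSet (L : Set G),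
      Commute (u : G ⧸ center G) v := fun u hu v hv => by
    obtain ⟨a, ha, hu⟩ := Group.mem_conjugatesOfSet_iff.mp hu
    obtain ⟨g, rfl⟩ := isConj_iff.mp hu
    obtain ⟨b, hb, hv⟩ := Group.mem_conjugatesOfSet_iff.mp hv
    obtain ⟨k, rfl⟩ := isConj_iff.mp hv
    have h4 : ⁅a, g⁻¹ * k * b * (g⁻¹ * k)⁻¹⁆ ∈ center G := by
      by_cases h4 : g⁻¹ * k ∈ normalizer (L : Set G)
      · exact h2 (commutator_mem_commutator ha ((mem_normalizer_iff.mp h4 b).mp hb))
      · exact a2 _ h4 (commutator_mem_commutator ha ⟨b, hb, rfl⟩)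
    have h5 := Normal.conj_mem inferInstance _ h4 g
    rw [conjugate_commutatorElement] at h5
    exact comm_quot.mpr (by simpa [mul_assoc] using h5)
  have h4 : ∀ u : G, (∀ v ∈ Group.conjugatesOfSet (L : Set G), Commute (u : G ⧸ center G) v) →
      ∀ v ∈ M, Commute (u : G ⧸ center G) v := fun u h v hv =>
    (closure_le ((centralizer {(u : G ⧸ center G)}).comap (QuotientGroup.mk' _))).mpr
      (fun w hw _ h5 => h5 ▸ h w hw) (a1 hv) _ rfl
  exact commutator_le.mpr fun u hu v hv => comm_quot.mp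
    (h4 u (fun w hw => (h4 w (h3 w hw) u hu).symm) v hv)

theorem good_lin (hp : p.Prime) {χ : G → ℂ} (h : IsIrr χ) (hZ : center G = ⊤) : Good p χ := by
  intro Y _ _ φ hφ j _ hD _
  have := Fintype.ofFinite G
  have h1 : ∀ a b : G, a * b = b * a := fun a b => mem_center_iff.mp (hZ ▸ mem_top b) a
  have h2 := h.one_eq_of_comm fun g a y => by rw [h1 g a, mul_inv_cancel_right]
  have : φ.range.Normal := ⟨fun a ha g => by rwa [h1 g a, mul_inv_cancel_right]⟩
  have h3 := (isIrr_hom ((h.isChar.hom h2).comp φ)).dq_eq (p ^ j)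
  split_ifs at h3 with h4
  · refine inv_of hp hφ.2 fun t ht g => ?_
    obtain ⟨y, hy⟩ := φ.range.pow_index_mem g
    have h5 : χ g ^ (p ^ j * φ.range.index) = 1 := by
      rw [mul_comm, pow_mul, ← h.isChar.map_pow h2, ← hy]
      exact h4.2 y
    rw [h.isChar.map_pow h2, pow_eq_pow_mod t h5, ht, ← pow_eq_pow_mod 1 h5, pow_one]
  · exact absurd (h3 ▸ zero_mem _) hD

theorem zc_eq {V : FDRep ℂ G} (h : IsIrr V.character) (hf : Function.Injective V.ρ) :
    Zc V.character = center G := by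
  have := IsIrr.nontrivial (ρ := V.ρ) h
  refine le_antisymm (fun z hz => mem_center_iff.mpr fun g => hf ?_) fun z hz => ?_
  · obtain ⟨c, -, hc⟩ := (mem_Zc (ρ := V.ρ)).mp hz
    simp [hc]
  · obtain ⟨c, hc⟩ := schur (ρ := V.ρ) h (T := V.ρ z) fun g => by
      rw [← map_mul, ← map_mul, mem_center_iff.mp hz g]
    exact mem_Zc_of (ρ := V.ρ) hc

theorem faithful (hp : p.Prime) {V : FDRep ℂ G} (h : IsIrr V.character) (hd : ¬ p ∣ finrank ℂ V)
    (hf : Function.Injective V.ρ) (IH : IHyp p V.character) (hA : ∀ M, ¬ AlmostQS p V M) :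
    Good p V.character := by
  classical
  have := Fact.mk hp
  have := Fintype.ofFinite G
  have hZ := zc_eq h hf
  let ρ : Representation ℂ G V := V.ρ
  change IsIrr ρ.character at h
  by_cases hS : ∃ S, Sys ρ S ∧ 1 ∉ S
  · obtain ⟨S, h1, h2⟩ := hS
    exact stepA hp h hd IH h1 h2
  have a1 : ∀ (N : Subgroup G) [N.Normal], ∃ (m : ℕ) (U : FDRep ℂ N),
      IsIrr (Representation.character U.ρ) ∧ m ≠ 0 ∧ ¬ p ∣ finrank ℂ U ∧
        ∀ x : N, ρ.character x = m * Representation.character U.ρ x := fun N _ => by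
    have h1 : ∀ (g : G) (a : N), cj ρ g (∑ u : N, ρ (u * a * u⁻¹)) =
        ∑ u : N, ρ (u * MulAut.conjNormal g a * u⁻¹) := fun g a => by
      rw [map_sum]
      refine Fintype.sum_equiv (MulAut.conjNormal g).toEquiv _ _ fun u => ?_
      rw [cj_rho]
      simp [mul_assoc]
    refine homog_sc N hd fun a => (scalar_or_sys h
      (C := univ.image fun a : N => ∑ u : N, ρ (u * a * u⁻¹)) (forall_mem_image.mpr fun a _ g =>
        h1 g a ▸ mem_image_of_mem _ (mem_univ _)) (forall_mem_image.mpr fun a _ =>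
          forall_mem_image.mpr fun b _ => ?_)).resolve_right hS _ (mem_image_of_mem _ (mem_univ a))
    rw [sum_mul, mul_sum]
    refine sum_congr rfl fun u _ => cj_eq_iff.mp ?_
    rw [map_sum]
    refine Fintype.sum_equiv (Equiv.mulLeft (u * a * u⁻¹)) _ _ fun v => ?_
    rw [cj_rho]
    simp [mul_assoc]
  by_cases h0 : center G = ⊤
  · exact good_lin hp h h0
  obtain ⟨M, hM⟩ := exists_minimal_of_wellFoundedLT
    (fun N : Subgroup G => N.Normal ∧ ¬ N ≤ center G) ⟨⊤, inferInstance, mt top_le_iff.mp h0⟩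
  have := hM.1.1
  have := Fintype.ofFinite M
  obtain ⟨m, U, hσ, hm0, hW, hm⟩ := a1 M
  have hm1 : (m : ℂ) ≠ 0 := Nat.cast_ne_zero.mpr hm0
  obtain ⟨N, r, hr, hG⟩ := exists_card hp G
  have a2 : ∀ K : Subgroup G, (∀ x ∈ M, x ^ r = 1 → x ∈ K) → M ≤ K := fun K hK => by
    refine (hM.2 (y := normalClosure {x ∈ M | x ^ r = 1}) ⟨inferInstance, fun h1 => hM.1.2 ?_⟩
      (normalClosure_le_normal fun x hx => hx.1)).trans ((closure_le K).mpr fun y hy => ?_)
    swap
    · obtain ⟨b, hb, hy⟩ := Group.mem_conjugatesOfSet_iff.mp hy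
      obtain ⟨g, rfl⟩ := isConj_iff.mp hy
      exact hK _ (Normal.conj_mem inferInstance b hb.1 g) (by rw [conj_pow, hb.2]; simp)
    have := hσ.isChar.zc_normal
    obtain ⟨P, -⟩ := cov_syl hp M
    have h2 := linear_of hp hσ P.2 (P : Subgroup M).subtype (cover_of hp _ (fun x => ⟨N, ?_⟩) P)
      (by simpa [nat_pInt] using hW)
    · intro x hx
      have := h.nontrivial
      refine hZ ▸ mem_Zc_of (ρ := ρ) (scalar_of_char (c := hσ.isChar.hom h2 ⟨x, hx⟩)
        ((hσ.isChar.hom h2).toHomUnits _).ne_zero fun k => ?_)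
      rw [← M.coe_one, hm 1, h2, ← map_pow, mul_one, mul_comm]
      exact hm (⟨x, hx⟩ ^ k)
    · obtain ⟨x, rfl⟩ := QuotientGroup.mk_surjective x
      obtain ⟨c, h2, h3⟩ := hZ.ge (h1 (subset_normalClosure ⟨pow_mem x.2 (p ^ N), by
        rw [← pow_mul, ← hG, pow_card_eq_one']⟩))
      exact (QuotientGroup.eq_one_iff (x ^ p ^ N)).mpr ⟨c, h2, fun y => mul_left_cancel₀ hm1 (by
        rw [mul_left_comm, ← hm, ← hm]; exact h3 y)⟩
  have hdet : ∀ x, LinearMap.det (U.ρ x) ^ r = 1 := fun x => by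
    obtain ⟨y, h1, h2⟩ := a2 (((powMonoidHom r).comp (LinearMap.det.comp U.ρ)).ker.map M.subtype)
      (fun x hx h1 => ⟨⟨x, hx⟩, by
        rw [SetLike.mem_coe, MonoidHom.mem_ker, MonoidHom.comp_apply, powMonoidHom_apply,
          ← map_pow, show (⟨x, hx⟩ : M) ^ r = 1 from Subtype.ext h1, map_one], rfl⟩) x.2
    exact (show y = x from Subtype.ext h2) ▸ h1
  obtain ⟨P, hφ⟩ := cov_syl hp G
  have := Fintype.ofFinite P
  refine stepC hp h (by simpa [nat_pInt] using hd) IH hZ.le (hZ ▸ hM.1.2) hσ hW hm0 hm hr hdet hφ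
    fun hT h1 j hj hD hI => ?_
  by_cases hL : Inv p 1 (Representation.character U.ρ)
  · exact hL.mono (Nat.one_le_iff_ne_zero.mpr hj)
  by_cases h2 : ∀ x ∈ M, ∀ k, x ^ p ^ k = 1 → x ^ p ∈ center G
  · refine absurd (fun g k n t h3 h4 h5 => ?_) hL
    have h6 : (g ^ n) ^ p ^ k = 1 := by rw [← pow_mul, mul_comm, h4]
    obtain ⟨c, hc⟩ := schur hσ (T := U.ρ ((g ^ n) ^ p)) fun x => by
      rw [← map_mul, ← map_mul]
      exact congrArg _ (Subtype.ext (mem_center_iff.mp
        (h2 _ (g ^ n).2 k (congrArg Subtype.val h6)) x))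
    have := hσ.nontrivial
    have h7 := hdet ((g ^ n) ^ p)
    rw [hc, LinearMap.det_smul, map_one, mul_one, ← pow_mul] at h7
    have h8 : c ^ p ^ k = 1 := smul_left_injective ℂ (one_ne_zero (α := End ℂ U)) (by
      simp only [one_smul]
      rw [← one_pow (p ^ k), ← smul_pow, ← hc, ← map_pow, pow_right_comm, h6, one_pow, map_one,
        one_pow])
    rw [(pow_eq_one_iff_of_coprime (co_pow hp (fun h9 => (hp.dvd_mul.mp h9).elim hW hr) k)).mp
      ⟨h8, h7⟩, one_smul, ← pow_mul, mul_comm, ← pow_one p, map_pow] at hc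
    rw [Representation.character, map_pow, pow_eq_pow_mod t hc, h5, ← pow_eq_pow_mod 1 hc, pow_one]
    rfl
  push Not at h2
  obtain ⟨x, x1, k, x2, x3⟩ := h2
  have a3 : ¬ ⁅M, M⁆ ≤ center G := fun h2 => x3 (pow_mem ?_ p)
  swap
  · have h3 := a2 ⟨⟨⟨{a | a ∈ M ∧ (a : G ⧸ center G) ^ r = 1}, fun ⟨h3, h4⟩ ⟨h5, h6⟩ =>
      ⟨mul_mem h3 h5, by rw [QuotientGroup.mk_mul, (comm_quot.mpr
        (h2 (commutator_mem_commutator h3 h5))).mul_pow, h4, h6, one_mul]⟩⟩, one_mem _, by simp⟩,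
      fun ⟨h3, h4⟩ => ⟨inv_mem h3, by rw [QuotientGroup.mk_inv, inv_pow, h4, inv_one]⟩⟩
      (fun a h3 h4 => ⟨h3, by rw [← QuotientGroup.mk_pow, h4, QuotientGroup.mk_one]⟩) x1
    exact (QuotientGroup.eq_one_iff x).mp ((pow_eq_one_iff_of_coprime (co_pow hp hr k)).mp
      ⟨by rw [← QuotientGroup.mk_pow, x2, QuotientGroup.mk_one], h3.2⟩)
  have hl := hL
  clear hL
  obtain ⟨L, hL⟩ := exists_minimal_of_wellFoundedLT
    (fun L : Subgroup G => L ≤ M ∧ M ≤ normalizer L ∧ ¬ L ≤ center G)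
    ⟨M, le_rfl, le_normalizer, hM.1.2⟩
  obtain ⟨s1, s2, s3⟩ := struct hM a3 hL
  have h2 : Representation.character U.ρ = fun x : M => ρ.character x :=
    funext fun x => by rw [hm, h1, Nat.cast_one, one_mul]
  rw [h2] at hI hσ hl ⊢
  by_cases h3 : normalizer (L : Set G) ≠ ⊤
  · exact stepD hp hd IH hZ.le hσ hL.1.1 hL.1.2.1 h3 s1 s3 s2 hφ hj hD hI
  obtain rfl : M = L := le_antisymm (hM.2 ⟨normalizer_eq_top_iff.mp (not_not.mp h3), hL.1.2.2⟩
    hL.1.1) hL.1.1
  have c1 : centralizer (M : Set G) = center G := le_antisymm (fun c hc => by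
    obtain ⟨z, hz⟩ := schur (ρ := ρ.comp M.subtype) hσ (T := ρ c) fun a => by
      rw [MonoidHom.comp_apply, ← map_mul, ← map_mul]
      exact congrArg ρ (hc a a.2)
    have := h.nontrivial
    exact hZ ▸ mem_Zc_of (ρ := ρ) hz) (center_le_centralizer _)
  have c2 : ∀ a : M, a ∈ center M ↔ (a : G) ∈ center G := fun a => by
    rw [← c1, mem_center_iff]
    exact ⟨fun h4 b hb => congrArg Subtype.val (h4 ⟨b, hb⟩), fun h4 b => Subtype.ext (h4 b b.2)⟩
  refine absurd ⟨hf, hd, hM.1.1, Group.isPerfect_def.mp (isPerfect_iff.mpr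
    (le_antisymm (commutator_le_self M) s1)), ?_, c1, IsPGroup.iff_card.mp (hφ.1.of_surjective
      ((QuotientGroup.mk' (M ⊔ center G)).comp (P : Subgroup G).subtype) fun c => ?_), hσ,
    not_le.mp fun h4 => hl ((inv_iff_lev hp hσ.isChar one_ne_zero).mpr h4)⟩ (hA M)
  · have := QuotientGroup.nontrivial_iff.mpr fun h4 : center M = ⊤ =>
      hM.1.2 fun a ha => (c2 ⟨a, ha⟩).mp (h4.ge (mem_top _))
    refine ⟨fun K hK => or_iff_not_imp_left.mpr fun h4 => eq_top_iff.mpr fun a _ => ?_⟩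
    obtain ⟨a, rfl⟩ := QuotientGroup.mk_surjective a
    obtain ⟨b, h5, h6⟩ := hL.2 (y := (K.comap (QuotientGroup.mk' _)).map M.subtype)
      ⟨map_subtype_le _, (normal_subgroupOf_iff_le_normalizer (map_subtype_le _)).mp (by
        rw [subgroupOf, comap_map_eq_self_of_injective M.subtype_injective]
        infer_instance), fun h5 => h4 (eq_bot_iff.mpr fun b hb => by
        obtain ⟨b, rfl⟩ := QuotientGroup.mk_surjective b
        exact (QuotientGroup.eq_one_iff b).mpr ((c2 b).mpr (h5 ⟨b, hb, rfl⟩)))⟩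
      (map_subtype_le _) a.2
    exact (show b = a from Subtype.ext h6) ▸ h5
  · obtain ⟨c, rfl⟩ := QuotientGroup.mk_surjective c
    obtain ⟨_, h4, z, hz, rfl⟩ := mem_sup_of_normal_right.mp ((hZ ▸ hT).ge (mem_top c))
    rw [sup_comm] at h4
    obtain ⟨_, ⟨y, rfl⟩, a, ha, rfl⟩ := mem_sup_of_normal_right.mp h4
    exact ⟨y, QuotientGroup.eq.mpr (by simpa [mul_assoc] using mul_mem_sup ha hz)⟩

theorem reduction (hp : p.Prime) (𝒯 : ∀ (T : Type) [Group T], Prop)
    (H : ∀ (X : Type) [Group X] [Finite X] (V : FDRep ℂ X) (M : Subgroup X), AlmostQS p V M →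
      Cl p 𝒯 (⊥ : Subgroup X) → Good p V.character) (n : ℕ) : ∀ (G : Type) [Group G] [Finite G]
      (χ : G → ℂ), IsIrr χ → χ 1 ∉ pInt p → (Zc χ).index = n → Cl p 𝒯 (Zc χ) → Good p χ := by
  induction n using Nat.strong_induction_on with
  | h n ih =>
  intro G _ _ χ h hd hn hR
  obtain ⟨V, rfl⟩ := h.isChar
  let f := QuotientGroup.mk' (MonoidHom.ker V.ρ)
  have hf : Function.Surjective f := QuotientGroup.mk'_surjective _
  let V' : FDRep ℂ (G ⧸ MonoidHom.ker V.ρ) := FDRep.of (V := V) (QuotientGroup.lift _ V.ρ le_rfl)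
  have h1 : ∀ g, V.character g = V'.character (f g) := fun g => rfl
  have h2 : IsIrr V'.character := IsIrr.of_res ⟨V', rfl⟩ (ι := f) h
  have h3 : (Zc V'.character).comap f = Zc V.character := Subgroup.ext fun g =>
    exists_congr fun c => and_congr_right fun _ => ⟨fun h3 x => h3 (f x), fun h3 x => by
      obtain ⟨x, rfl⟩ := hf x
      exact h3 x⟩
  have h4 : Function.Injective V'.ρ := fun a b hab => by
    obtain ⟨a, rfl⟩ := hf a
    obtain ⟨b, rfl⟩ := hf b
    refine QuotientGroup.eq.mpr ?_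
    rw [MonoidHom.mem_ker, map_mul, ← show V.ρ a = V.ρ b from hab, inv_rho]
  have h5 : Cl p 𝒯 (Zc V'.character) := Cl.pull hf (h3 ▸ hR)
  have h6 : Good p V'.character := by
    by_cases hA : ∃ M, AlmostQS p V' M
    · exact hA.elim fun M hA => H _ V' M hA (Cl.of_center (zc_eq h2 h4 ▸ h5))
    refine faithful hp h2 (fun h6 => hd (by rw [FDRep.char_one]; exact nat_pInt.mpr h6)) h4
      (fun K _ _ ψ φ k1 k2 k3 k4 k5 => ih _ ?_ K ψ k1 k2 rfl (h5.comp hp φ k5 k3)) (not_exists.mp hA)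
    have := h2.isChar.zc_normal
    rw [← hn, ← h3, index_comap_of_surjective _ hf, rel_eq _ ⊤, sup_top_eq, index_top, mul_one,
      relIndex_top_right, ← relIndex_mul_index (le_sup_right (a := φ.range)), relIndex_sup_right,
      ← index_comap]
    rcases k4 with k4 | k4
    · exact (index_antitone k3).trans_lt ((Nat.lt_mul_iff_one_lt_right
        (Nat.pos_of_ne_zero index_ne_zero_of_finite)).mpr (one_lt_index_of_ne_top k4))
    · exact (index_strictAnti (lt_of_le_not_ge k3 k4)).trans_le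
        (Nat.le_mul_of_pos_right _ (Nat.pos_of_ne_zero index_ne_zero_of_finite))
  intro Y _ _ φ hφ j hj hD hI
  exact (h6 Y (f.comp φ) ⟨hφ.1, fun h7 => hφ.2 (h7.trans (MonoidHom.range_comp f φ ▸
    index_map_dvd _ hf))⟩ j hj hD (Inv.of_surj hp hf hI)).comp f

end Pool.Agent.MP_3e257e_al
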