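import Pool.Agent.MP_3e257e_al.RInv

/-!
Basic facts on representations: Schur, Burnside, centre of a character, idempotents.
-/

set_option autoImplicit false
set_option linter.unusedSectionVars false

namespace Pool.Agent.MP_3e257e_al

open Module Finset

variable {X : Type} [Group X] {V W : Type} [AddCommGroup V] [Module ℂ V] [FiniteDimensional ℂ V]
  [AddCommGroup W] [Module ℂ W] [FiniteDimensional ℂ W] {ρ : Representation ℂ X V}
  {σ : Representation ℂ X W}

theorem rho_inv (ρ : Representation ℂ X V) (g : X) : ρ g * ρ g⁻¹ = 1 := by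
  rw [← map_mul, mul_inv_cancel, map_one]

theorem inv_rho (ρ : Representation ℂ X V) (g : X) : ρ g⁻¹ * ρ g = 1 := by
  rw [← map_mul, inv_mul_cancel, map_one]

theorem exists_proj [Finite X] (S : Submodule ℂ V) (hS : ∀ g, ∀ v ∈ S, ρ g v ∈ S) :
    ∃ q : End ℂ V, q * q = q ∧ (∀ g, ρ g * q = q * ρ g) ∧ (∀ v, q v ∈ S) ∧ ∀ v ∈ S, q v = v := by
  have : NeZero (Nat.card X : ℂ) := ⟨Nat.cast_ne_zero.mpr Nat.card_pos.ne'⟩
  obtain ⟨W', hc⟩ := exists_isCompl (⟨S, fun g v hv => hS g v hv⟩ : Subrepresentation ρ)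
  have hc' : IsCompl S W'.toSubmodule :=
    ⟨disjoint_iff.mpr (congrArg Subrepresentation.toSubmodule hc.inf_eq_bot),
      codisjoint_iff.mpr (congrArg Subrepresentation.toSubmodule hc.sup_eq_top)⟩
  refine ⟨S.projection _ hc', Submodule.isIdempotentElem_projection hc', fun g => ?_,
    Submodule.projection_apply_mem hc', fun v hv => Submodule.projection_apply_of_mem_left hc' hv⟩
  ext v
  obtain ⟨a, b, rfl, -⟩ := Submodule.existsUnique_add_of_isCompl hc' v
  have h1 := (Submodule.projection_apply_eq_zero_iff hc').mpr (W'.apply_mem_toSubmodule g b.2)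
  simp [h1, Submodule.projection_apply_of_mem_left hc' (hS g a a.2)]

theorem schur [Finite X] (h : IsIrr ρ.character) {T : End ℂ V} (hT : ∀ g, ρ g * T = T * ρ g) :
    ∃ c : ℂ, T = c • 1 := by
  have := Fintype.ofFinite X
  have h1 := (isIrr_iff.mp h).2
  have := invertibleOfNonzero (cardX_ne (X := X))
  have h2 : finrank ℂ (Representation.IntertwiningMap ρ ρ) = 1 := by
    have h3 := Representation.card_inv_mul_sum_char_mul_char_eq_finrank ρ ρ
    exact_mod_cast h3.symm.trans h1
  let J : Representation.IntertwiningMap ρ ρ := ⟨LinearMap.id, fun _ => rfl⟩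
  have hJ : J ≠ 0 := fun hJ => h.one_ne (by
    have h6 : (LinearMap.id : V →ₗ[ℂ] V) = 0 :=
      congrArg Representation.IntertwiningMap.toLinearMap hJ
    rw [Representation.character, map_one, End.one_eq_id, h6, map_zero])
  obtain ⟨c, hc⟩ := (finrank_eq_one_iff_of_nonzero' J hJ).mp h2 ⟨T, fun g => (hT g).symm⟩
  exact ⟨c, (congrArg Representation.IntertwiningMap.toLinearMap hc).symm⟩

theorem IsIrr.nontrivial [Finite X] (h : IsIrr ρ.character) : Nontrivial V := by
  have := Fintype.ofFinite X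
  refine Module.nontrivial_of_finrank_pos (R := ℂ) (Nat.pos_of_ne_zero fun h0 => h.one_ne ?_)
  rw [Representation.char_one, h0, Nat.cast_zero]

theorem inv_top [Finite X] (h : IsIrr ρ.character) {S : Submodule ℂ V}
    (hS : ∀ g, ∀ v ∈ S, ρ g v ∈ S) (h0 : S ≠ ⊥) : S = ⊤ := by
  obtain ⟨q, -, h1, h2, h3⟩ := exists_proj S hS
  obtain ⟨c, rfl⟩ := schur h h1
  obtain ⟨v, hv, hv0⟩ := (Submodule.ne_bot_iff S).mp h0
  have h4 : c = 1 := smul_left_injective ℂ hv0 (by simpa using h3 v hv)
  exact eq_top_iff.mpr fun w _ => by simpa [h4] using h2 w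

theorem irr_of [Finite X] [Nontrivial V]
    (h : ∀ S : Submodule ℂ V, (∀ g, ∀ v ∈ S, ρ g v ∈ S) → S ≠ ⊥ → S = ⊤) : ρ.IsIrreducible :=
  haveI : Nontrivial (Subrepresentation ρ) :=
    ⟨⊥, ⊤, fun h => bot_ne_top (congrArg Subrepresentation.toSubmodule h)⟩
  ⟨fun a => or_iff_not_imp_left.mpr fun h1 => Subrepresentation.toSubmodule_injective
    (h _ (fun g _ hv => a.apply_mem_toSubmodule g hv) fun h2 =>
      h1 (Subrepresentation.toSubmodule_injective h2))⟩

theorem isIrr_of [Finite X] [Nontrivial V]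
    (h : ∀ S : Submodule ℂ V, (∀ g, ∀ v ∈ S, ρ g v ∈ S) → S ≠ ⊥ → S = ⊤) :
    IsIrr ρ.character := by
  have := Fintype.ofFinite X
  have := invertibleOfNonzero (cardX_ne (X := X))
  have := irr_of h
  rw [isIrr_iff]
  exact ⟨isChar_rep ρ, by
    rw [ip, Representation.char_orthonormal, if_pos ⟨Representation.Equiv.refl ρ⟩]⟩

theorem IsIrr.irr [Finite X] (h : IsIrr ρ.character) : ρ.IsIrreducible :=
  haveI := h.nontrivial
  irr_of fun _ => inv_top h

theorem IsIrr.of_res [Finite X] {M : Type} [Group M] [Finite M] {f : X → ℂ} (hf : IsChar f)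
    {ι : M →* X} (h : IsIrr fun m => f (ι m)) : IsIrr f := by
  obtain ⟨U, rfl⟩ := hf
  have h1 : IsIrr (Representation.character (U.ρ.comp ι)) := h
  have := h1.nontrivial
  exact isIrr_of (ρ := U.ρ) fun S hS => inv_top h1 fun m => hS (ι m)

theorem equiv_of_char [Finite X] (h : IsIrr ρ.character) (he : σ.character = ρ.character) :
    ∃ e : V ≃ₗ[ℂ] W, ∀ g v, e (ρ g v) = σ g (e v) := by
  have := Fintype.ofFinite X
  have := invertibleOfNonzero (cardX_ne (X := X))
  have := h.irr
  have := (he ▸ h : IsIrr σ.character).irr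
  have h1 := Representation.char_orthonormal σ ρ
  rw [he] at h1
  have h2 := (isIrr_iff.mp h).2
  rw [ip, h1] at h2
  obtain ⟨e⟩ : Nonempty (Representation.Equiv ρ σ) := by
    by_contra h3
    rw [if_neg h3] at h2
    exact zero_ne_one h2
  exact ⟨e.toLinearEquiv, fun g v => e.toIntertwiningMap.isIntertwining _ _ g v⟩

theorem burnside [Finite X] (h : IsIrr ρ.character) (a : End ℂ V) :
    a ∈ Submodule.span ℂ (Set.range ρ) := by
  have := h.irr
  let R := MonoidAlgebra ℂ X
  have h1 : Function.Bijective (algebraMap ℂ (End R ρ.asModule)) :=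
    IsSimpleModule.algebraMap_end_bijective_of_isAlgClosed ℂ
  let f : End (End R ρ.asModule) ρ.asModule :=
    { toFun := fun v => ρ.asModuleEquiv.symm (a (ρ.asModuleEquiv v))
      map_add' := fun v w => by simp
      map_smul' := fun t v => by
        obtain ⟨c, rfl⟩ := h1.2 t
        simp }
  obtain ⟨s, hs⟩ := Module.Finite.fg_top (R := ℂ) (M := ρ.asModule)
  obtain ⟨r, hr⟩ := jacobson_density f s
  have h2 : a = ρ.asAlgebraHom r := by
    ext v
    obtain ⟨v, rfl⟩ := ρ.asModuleEquiv.surjective v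
    induction hs.ge (trivial : v ∈ ⊤) using Submodule.span_induction with
    | mem m hm =>
      rw [← Representation.asModuleEquiv_map_smul, ← hr m hm]
      exact (ρ.asModuleEquiv.apply_symm_apply _).symm
    | zero => simp
    | add _ _ _ _ h₁ h₂ => simp only [map_add, h₁, h₂]
    | smul g _ _ h => simp only [map_smul, h]
  rw [h2]
  clear hr h2
  induction r using MonoidAlgebra.induction_on with
  | of g => exact Submodule.subset_span ⟨g, by simp⟩
  | add f g hf hg => rw [map_add]; exact add_mem hf hg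
  | smul c f hf => rw [map_smul]; exact Submodule.smul_mem _ c hf

theorem scalar_of_char [Finite X] {g : X} {c : ℂ} (hc : c ≠ 0)
    (h : ∀ k : ℕ, ρ.character (g ^ k) = c ^ k * ρ.character 1) : ρ g = c • 1 := by
  by_cases hV : finrank ℂ V = 0
  · have : Subsingleton V := Module.finrank_zero_iff.mp hV
    exact Subsingleton.elim _ _
  have hn : orderOf g ≠ 0 := (orderOf_pos g).ne'
  have hn' : (orderOf g : ℂ) ≠ 0 := Nat.cast_ne_zero.mpr hn
  have h1 : c ^ orderOf g = 1 := by
    have := h (orderOf g)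
    rw [pow_orderOf_eq_one, Representation.char_one] at this
    exact (mul_eq_right₀ (Nat.cast_ne_zero.mpr hV)).mp this.symm
  let B : End ℂ V := c⁻¹ • ρ g
  have hB : B ^ orderOf g = 1 := by
    rw [smul_pow, ← map_pow, pow_orderOf_eq_one, inv_pow, h1, map_one, inv_one, one_smul]
  let e : End ℂ V := (orderOf g : ℂ)⁻¹ • ∑ i ∈ range (orderOf g), B ^ i
  have h2 : B * e = e := by
    have h3 := mul_geom_sum B (orderOf g)
    rw [hB, sub_self, sub_mul, one_mul, sub_eq_zero] at h3
    simp only [e, mul_smul_comm, h3]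
  have h3 : ∀ k : ℕ, B ^ k * e = e := fun k => by
    induction k with
    | zero => simp
    | succ k ih => rw [pow_succ, mul_assoc, h2, ih]
  have h4 : IsIdempotentElem e := by
    change e * e = e
    conv_lhs => enter [1]; simp only [e]
    rw [smul_mul_assoc, sum_mul, sum_congr rfl fun i _ => h3 i, sum_const, card_range,
      ← Nat.cast_smul_eq_nsmul ℂ, smul_smul, inv_mul_cancel₀ hn', one_smul]
  have h5 : 1 - e = 0 := LinearMap.IsIdempotentElem.eq_zero_of_trace_eq_zero h4.one_sub (by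
    have h6 : ∀ i, LinearMap.trace ℂ V (B ^ i) = finrank ℂ V := fun i => by
      have h7 := h i
      rw [Representation.char_one, Representation.character, map_pow] at h7
      rw [smul_pow, map_smul, h7, smul_eq_mul, inv_pow, inv_mul_cancel_left₀ (pow_ne_zero i hc)]
    simp only [e, map_sub, map_smul, map_sum, h6, LinearMap.trace_one, sum_const, card_range,
      nsmul_eq_mul, smul_eq_mul, inv_mul_cancel_left₀ hn', sub_self])
  rw [← sub_eq_zero.mp h5, mul_one] at h2
  rw [← h2, smul_smul, mul_inv_cancel₀ hc, one_smul]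

/-- The centre of a character. -/
def Zc (χ : X → ℂ) : Subgroup X where
  carrier := {g | ∃ c : ℂ, c ≠ 0 ∧ ∀ x, χ (g * x) = c * χ x}
  one_mem' := ⟨1, one_ne_zero, by simp⟩
  mul_mem' := by
    rintro a b ⟨c, h1, h2⟩ ⟨d, h3, h4⟩
    exact ⟨c * d, mul_ne_zero h1 h3, fun x => by rw [mul_assoc, h2, h4, mul_assoc]⟩
  inv_mem' := by
    rintro a ⟨c, h1, h2⟩
    exact ⟨c⁻¹, inv_ne_zero h1, fun x => by
      rw [eq_inv_mul_iff_mul_eq₀ h1, ← h2, mul_inv_cancel_left]⟩

theorem IsChar.zc_normal {χ : X → ℂ} (h : IsChar χ) : (Zc χ).Normal := ⟨by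
  rintro a ⟨c, h1, h2⟩ g
  refine ⟨c, h1, fun x => ?_⟩
  rw [← h.conj g⁻¹, ← h.conj g⁻¹ x, ← h2]
  congr 1
  group⟩

theorem mem_Zc [Finite X] {g : X} : g ∈ Zc ρ.character ↔ ∃ c : ℂ, c ≠ 0 ∧ ρ g = c • 1 := by
  refine exists_congr fun c => and_congr_right fun hc => ⟨fun h => scalar_of_char hc fun k => ?_,
    fun h x => by simp [Representation.character, h]⟩
  induction k with
  | zero => simp
  | succ k ih => rw [pow_succ', h, ih, pow_succ', mul_assoc]

theorem mem_Zc_of [Finite X] [Nontrivial V] {g : X} {c : ℂ} (h : ρ g = c • 1) :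
    g ∈ Zc ρ.character := by
  refine mem_Zc.mpr ⟨c, fun h0 => ?_, h⟩
  have := rho_inv ρ g
  rw [h, h0, zero_smul, zero_mul] at this
  exact zero_ne_one this

/-- The restriction of a representation to the range of a commuting operator. -/
def rng (ρ : Representation ℂ X V) (q : End ℂ V) (hq : ∀ g, ρ g * q = q * ρ g) :
    Representation ℂ X (LinearMap.range q) :=
  Subrepresentation.toRepresentation (ρ := ρ) ⟨LinearMap.range q, by
    rintro g _ ⟨v, rfl⟩
    exact ⟨ρ g v, (LinearMap.congr_fun (hq g) v).symm⟩⟩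

/-- Extension by zero of an operator on the range of `q`. -/
def ex0 (q : End ℂ V) (a : End ℂ (LinearMap.range q)) : End ℂ V :=
  (LinearMap.range q).subtype ∘ₗ a ∘ₗ q.rangeRestrict

theorem rr_coe {q : End ℂ V} (h : q * q = q) (v : LinearMap.range q) :
    q.rangeRestrict v = v := by
  obtain ⟨_, v, rfl⟩ := v
  exact Subtype.ext (LinearMap.congr_fun h v)

theorem trace_ex0 {q : End ℂ V} (h : q * q = q) (a : End ℂ (LinearMap.range q)) :
    LinearMap.trace ℂ V (ex0 q a) = LinearMap.trace ℂ _ a := by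
  rw [ex0, LinearMap.trace_comp_comm']
  congr 1
  ext v
  simp [rr_coe h]

theorem trace_rng {q : End ℂ V} (h : q * q = q) (hq : ∀ g, ρ g * q = q * ρ g) (g : X) :
    LinearMap.trace ℂ V (ρ g * q) = (rng ρ q hq).character g := by
  rw [Representation.character, ← trace_ex0 h]
  rfl

theorem isChar_idem {q : End ℂ V} (h : q * q = q) (hq : ∀ g, ρ g * q = q * ρ g) :
    IsChar fun g => LinearMap.trace ℂ V (ρ g * q) := by
  simp only [trace_rng h hq]
  exact isChar_rep _

theorem IsChar.add {θ θ' : X → ℂ} (h : IsChar θ) (h' : IsChar θ') : IsChar (θ + θ') := by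
  obtain ⟨U, rfl⟩ := h
  obtain ⟨U', rfl⟩ := h'
  convert isChar_rep (Representation.prod U.ρ U'.ρ) using 1
  funext g
  exact (LinearMap.trace_prodMap' _ _).symm

theorem isChar_one : IsChar fun _ : X => (1 : ℂ) := by
  convert isChar_rep (Representation.trivial ℂ X ℂ) using 1
  funext g
  simp [Representation.character]

theorem isChar_sum {s : Multiset (X → ℂ)} (h : ∀ ψ ∈ s, IsChar ψ) : IsChar s.sum := by
  induction s using Multiset.induction_on with
  | empty =>
    convert isChar_rep (Representation.trivial ℂ X PUnit) using 1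
    funext g
    simp [Representation.character]
  | cons a s ih =>
    rw [Multiset.sum_cons]
    exact (h a (Multiset.mem_cons_self a s)).add (ih fun ψ hψ => h ψ (Multiset.mem_cons_of_mem hψ))

theorem isChar_hom (ν : X →* ℂ) : IsChar ν := by
  let τ : Representation ℂ X ℂ := (Algebra.lsmul ℂ ℂ ℂ).toMonoidHom.comp ν
  convert isChar_rep τ using 1
  funext g
  have : τ g = ν g • 1 := by ext; simp [τ]
  simp [Representation.character, this]

theorem ip_nat [Fintype X] {f h : X → ℂ} (hf : IsChar f) (hh : IsChar h) :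
    ∃ n : ℕ, ip f h = n := by
  obtain ⟨U, rfl⟩ := hf
  obtain ⟨U', rfl⟩ := hh
  have := invertibleOfNonzero (cardX_ne (X := X))
  exact ⟨_, Representation.card_inv_mul_sum_char_mul_char_eq_finrank U'.ρ U.ρ⟩

theorem ip_self_ne [Fintype X] {f : X → ℂ} (hf : IsChar f) (h1 : f 1 ≠ 0) : ip f f ≠ 0 := by
  obtain ⟨U, rfl⟩ := hf
  have := invertibleOfNonzero (cardX_ne (X := X))
  intro h
  have h2 := (Representation.card_inv_mul_sum_char_mul_char_eq_finrank U.ρ U.ρ).symm.trans h
  have h3 : Subsingleton (Representation.IntertwiningMap U.ρ U.ρ) :=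
    Module.finrank_zero_iff.mp (Nat.cast_eq_zero.mp h2)
  have h4 : (LinearMap.id : U →ₗ[ℂ] U) = 0 := congrArg Representation.IntertwiningMap.toLinearMap
    (h3.elim ⟨LinearMap.id, fun _ => rfl⟩ 0)
  exact h1 (by rw [FDRep.character, map_one, End.one_eq_id, h4, map_zero])

theorem homog [Fintype X] {f : X → ℂ} (hf : IsChar f) (h1 : f 1 ≠ 0)
    (h : ∀ a, ∃ c, ∀ y, ∑ g, f (g * a * g⁻¹ * y) = c * f y) :
    ∃ (m : ℕ) (θ : X → ℂ), IsIrr θ ∧ ∀ x, f x = m * θ x := by
  classical
  have hc := hf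
  obtain ⟨s, hs, rfl⟩ := hf.decomp
  have h2 : ∀ θ ∈ s, ∀ a, θ a * s.sum 1 = θ 1 * s.sum a := by
    intro θ hθ a
    obtain ⟨c, h3⟩ := h a
    choose d hd using fun ψ : s.toFinset => (hs ψ (Multiset.mem_toFinset.mp ψ.2)).conv_class a
    have h4 : ∀ y, s.sum y = ∑ ψ : s.toFinset, s.count ψ.1 * ψ.1 y := fun y => by
      rw [Pi.multiset_sum_apply, sum_multiset_map_count, ← sum_coe_sort]
      simp
    have h5 : ∀ y, ∑ ψ : s.toFinset, (s.count ψ.1 * (d ψ - c)) * ψ.1 y = 0 := fun y => by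
      have h6 := h3 y
      simp only [h4, mul_sum] at h6
      rw [sum_comm] at h6
      simp only [← mul_sum, hd] at h6
      rw [mul_sum, ← sub_eq_zero, ← sum_sub_distrib] at h6
      rw [← h6]
      exact sum_congr rfl fun ψ _ => by ring
    let θ' : s.toFinset := ⟨θ, Multiset.mem_toFinset.mpr hθ⟩
    have h6 : ∑ ψ : s.toFinset, (s.count ψ.1 * (d ψ - c)) * ip θ ψ.1 = 0 := by
      simp only [ip, mul_sum]
      rw [sum_comm]
      refine sum_eq_zero fun y _ => ?_
      rw [← mul_zero ((Nat.card X : ℂ)⁻¹ * θ y), ← h5 y⁻¹, mul_sum]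
      exact sum_congr rfl fun ψ _ => by ring
    rw [sum_eq_single θ' (fun ψ _ h7 => by
      rw [ip_ne (hs θ hθ) (hs ψ (Multiset.mem_toFinset.mp ψ.2)) fun h8 => h7 (Subtype.ext h8.symm),
        mul_zero]) (by simp), (isIrr_iff.mp (hs θ hθ)).2, mul_one, mul_eq_zero,
      Nat.cast_eq_zero, Multiset.count_eq_zero, sub_eq_zero] at h6
    have h7 := hd θ' 1
    have h8 := h3 1
    simp only [mul_one, (hs θ hθ).isChar.conj, hc.conj, sum_const, card_univ, nsmul_eq_mul,
      ← Nat.card_eq_fintype_card, h6.resolve_left fun h9 => h9 hθ, θ'] at h7 h8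
    apply mul_left_cancel₀ (cardX_ne (X := X))
    linear_combination s.sum 1 * h7 - θ 1 * h8
  obtain ⟨θ, hθ⟩ := Multiset.exists_mem_of_ne_zero (s := s) (by rintro rfl; exact h1 rfl)
  have h3 : ∀ ψ ∈ s, ψ = θ := by
    intro ψ hψ
    by_contra h4
    have h5 := ip_ne (hs ψ hψ) (hs θ hθ) h4
    have h6 : ∀ x, ψ x = ψ 1 / θ 1 * θ x := fun x => by
      have := (hs θ hθ).one_ne
      field_simp
      apply mul_right_cancel₀ h1
      linear_combination θ 1 * h2 ψ hψ x - ψ 1 * h2 θ hθ x
    have h7 : ip ψ θ = ψ 1 / θ 1 * ip θ θ := by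
      rw [ip, ip, mul_left_comm, mul_sum (a := ψ 1 / θ 1)]
      congr 1
      exact sum_congr rfl fun x _ => by rw [h6 x, mul_assoc]
    rw [h5, (isIrr_iff.mp (hs θ hθ)).2, mul_one] at h7
    exact div_ne_zero (hs ψ hψ).one_ne (hs θ hθ).one_ne h7.symm
  refine ⟨s.card, θ, hs θ hθ, fun x => ?_⟩
  rw [Multiset.eq_replicate_card.mpr h3, Multiset.sum_replicate, Multiset.card_replicate]
  simp

end Pool.Agent.MP_3e257e_al
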