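import Pool.Agent.MP_3e257e_al.RTen
import Pool.Agent.MP_3e257e_al.RCl

/-!
The steps of the reduction.
-/

set_option autoImplicit false
set_option linter.unusedSectionVars false

namespace Pool.Agent.MP_3e257e_al

open Module Finset

variable {G : Type} [Group G] [Finite G] {V W : Type} [AddCommGroup V] [Module ℂ V]
  [FiniteDimensional ℂ V] [AddCommGroup W] [Module ℂ W] [FiniteDimensional ℂ W] {p : ℕ}
  {ρ : Representation ℂ G V}

/-- The inductive hypothesis. -/
def IHyp (p : ℕ) (χ : G → ℂ) : Prop :=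
  ∀ (K : Type) [Group K] [Finite K] (ψ : K → ℂ) (φ : K →* G), IsIrr ψ → ψ 1 ∉ pInt p →
    (Zc χ).comap φ ≤ Zc ψ → (φ.range ⊔ Zc χ ≠ ⊤ ∨ ¬ Zc ψ ≤ (Zc χ).comap φ) → Gd p φ.range →
      Good p ψ

theorem cj_comp {Y : Type} [Group Y] (φ : Y →* G) (y : Y) (E : End ℂ V) :
    cj (ρ.comp φ) y E = cj ρ (φ y) E := by simp [cj_def]

theorem cov_syl (hp : p.Prime) (G : Type) [Group G] [Finite G] :
    ∃ P : Sylow p G, Cov p (P : Subgroup G).subtype := by
  have := Fact.mk hp
  obtain ⟨P⟩ : Nonempty (Sylow p G) := inferInstance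
  exact ⟨P, P.2, by simpa using P.not_dvd_index⟩

theorem stepA (hp : p.Prime) (h : IsIrr ρ.character) (hd : ¬ p ∣ finrank ℂ V)
    (IH : IHyp p ρ.character) {S : Finset (End ℂ V)} (hS : Sys ρ S) (h1 : 1 ∉ S) :
    Good p ρ.character := by
  classical
  have := Fintype.ofFinite G
  have a1 : ∀ F ∈ S, ∀ F' ∈ S, ∃ g, cj ρ g F = F' := fun F hF F' hF' => by_contra fun h2 => by
    obtain ⟨h3, h4⟩ := hS.orbit hF
    obtain ⟨c, hc⟩ := schur h h4.sum_comm
    have h5 : F' * ∑ E ∈ univ.image fun g => cj ρ g F, E = 0 := by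
      rw [mul_sum]
      exact sum_eq_zero fun E hE => hS.orth _ hF' _ (h3 hE) fun h5 =>
        h2 ((mem_image.mp hE).imp fun g hg => hg.2.trans h5.symm)
    have h6 := h4.mul_sum (mem_image.mpr ⟨1, mem_univ _, cj_one F⟩)
    rw [hc, mul_smul_comm, mul_one] at h5 h6
    rw [(smul_eq_zero.mp h5).resolve_right (hS.ne _ hF'), zero_smul] at h6
    exact hS.ne F hF h6.symm
  let f : End ℂ V → G → ℂ := fun F g => LinearMap.trace ℂ V (ρ g * F)
  have a2 : ∀ g, ρ.character g = ∑ F ∈ S, f F g := fun g => by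
    rw [← map_sum, ← mul_sum, hS.sum, mul_one, Representation.character]
  have a3 : ∀ F a g, f (cj ρ a F) g = f F ((MulAut.conj a⁻¹).toMonoidHom g) := fun F a g => by
    simp only [f]
    rw [← trace_cj (ρ := ρ) a (_ * F), map_mul (cj ρ a), cj_rho]
    simp [mul_assoc]
  have a4 : ∀ F ∈ S, ∀ g ∉ stab ρ F, F * cj ρ g F = 0 := fun F hF g hg =>
    hS.orth F hF _ (hS.conj F hF g) (Ne.symm hg)
  have a5 : ∀ F ∈ S, ∀ i, i ≠ 0 → (Inv p i fun g : stab ρ F => f F g) → Inv p i (f F) := by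
    intro F hF i hi h2 g N n t h3 h4 h5
    by_cases h6 : g ∈ stab ρ F
    · exact h2 ⟨g, h6⟩ N n t h3 (Subtype.ext h4) h5
    obtain ⟨m, hm⟩ := exists_pow_eq_self_of_coprime (x := g) (n := t)
      ((((coprime_of_modEq (h5.of_dvd ((dvd_pow_self p hi).mul_right _))).pow_right N).mul_right
        (coprime_of_modEq (h5.of_mul_left _))).coprime_dvd_right (orderOf_dvd_of_pow_eq_one h4))
    exact (tr_zero (hS.idem F hF) (a4 F hF _ fun h7 => h6 (hm ▸ pow_mem h7 m))).trans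
      (tr_zero (hS.idem F hF) (a4 F hF _ h6)).symm
  have a6 : ∀ F ∈ S, ¬ p ∣ (stab ρ F).index → Good p fun g : stab ρ F => f F g := fun F hF hi => by
    have h2 := hS.idem F hF
    have h3 : ∀ g : stab ρ F, (ρ.comp (stab ρ F).subtype) g * F =
        F * (ρ.comp (stab ρ F).subtype) g := fun g => cj_eq_iff.mp g.2
    have h4 : ∀ z ∈ Zc ρ.character, z ∈ stab ρ F := fun z hz => by
      obtain ⟨c, -, hc⟩ := mem_Zc.mp hz
      exact cj_eq_iff.mpr (by simp [hc])
    refine IH _ _ (stab ρ F).subtype ?_ (fun h5 => hd (nat_pInt.mp ?_)) (fun z hz => ?_)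
      (Or.inl (ne_top_of_le_ne_top (fun h5 => h1 ?_) (sup_le (Subgroup.range_subtype _).le h4)))
      (Rch.gd (.of_index (by rwa [Subgroup.range_subtype])))
    · have := Submodule.nontrivial_iff_ne_bot.mpr (mt LinearMap.range_eq_bot.mp (hS.ne F hF))
      rw [show (fun g : stab ρ F => f F g) = _ from funext (trace_rng h2 h3)]
      refine isIrr_of fun U hU h0 => eq_top_iff.mpr fun v _ => ?_
      obtain ⟨u, h5, h6⟩ := (Submodule.ne_bot_iff U).mp h0
      have h7 := inv_top h (S := ⨅ g, U.comap (F.rangeRestrict ∘ₗ ρ g)) (fun g w hw => by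
        simp only [Submodule.mem_iInf, Submodule.mem_comap] at hw ⊢
        exact fun a => by have := hw (a * g); rwa [map_mul] at this) ((Submodule.ne_bot_iff _).mpr ⟨u,
          (Submodule.mem_iInf _).mpr fun g => ?_, fun h7 => h6 (Subtype.ext h7)⟩)
      · have h8 := (Submodule.mem_iInf _).mp (h7.ge (Submodule.mem_top (x := (v : V)))) 1
        rw [map_one] at h8
        exact rr_coe h2 v ▸ h8
      change F.rangeRestrict (ρ g u) ∈ U
      by_cases h8 : g ∈ stab ρ F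
      · have h9 := hU ⟨g, h8⟩ u h5
        rwa [← rr_coe h2 (rng _ _ _ _ u)] at h9
      · obtain ⟨_, u, rfl⟩ := u
        rw [show F.rangeRestrict (ρ g (F u)) = 0 from Subtype.ext ?_]
        · exact U.zero_mem
        change (F * (ρ g * F)) u = 0
        rw [← cj_mul_rho, ← mul_assoc, a4 F hF g h8, zero_mul, LinearMap.zero_apply]
    · rw [← ρ.char_one, a2, sum_congr rfl (g := fun _ => f F 1) fun F' hF' => by
        obtain ⟨g, rfl⟩ := a1 F hF F' hF'
        rw [a3, map_one], sum_const]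
      exact nsmul_mem h5 _
    · obtain ⟨c, h5, hc⟩ := mem_Zc.mp hz
      exact ⟨c, h5, fun x => by simp [f, show ρ z = _ from hc]⟩
    · obtain ⟨c, hc⟩ := schur h fun g => cj_eq_iff.mp (h5 ▸ Subgroup.mem_top g : g ∈ stab ρ F)
      have h6 : c • F = (1 : ℂ) • F := by rw [one_smul, ← one_mul F, ← smul_mul_assoc, ← hc, h2, one_mul]
      rw [smul_left_injective ℂ (hS.ne F hF) h6, one_smul] at hc
      exact hc ▸ hF
  obtain ⟨P, hφ⟩ := cov_syl hp G
  have := Fintype.ofFinite P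
  generalize (P : Subgroup G).subtype = φ at hφ
  refine good_of_nz hp h.isChar (by simpa [nat_pInt] using hd) hφ fun e he hD => ?_
  have a7 : ∀ E ∈ S, Inv p e (f E) := fun E hE => Inv.down hp fun j hj h2 => by
    have h3 := Sys.fix (ρ := ρ.comp φ) hp hφ.1 (by omega : j ≠ 0) ⟨⟨hS.idem, hS.orth, fun E hE g =>
      (cj_comp φ g E).symm ▸ hS.conj E hE _⟩, hS.ne, hS.sum⟩
    obtain ⟨F, hF, h4⟩ : ∃ F ∈ S.filter fun F => stab (ρ.comp φ) F = ⊤,
        dE (p ^ j) (ρ.comp φ) F ∉ pInt p := by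
      by_contra h4
      push Not at h4
      have h5 := add_mem h3 (sum_mem h4)
      rw [sub_add_cancel] at h5
      exact hD j hj h5
    obtain ⟨hF, h5⟩ := mem_filter.mp hF
    have h6 : ∀ y, φ y ∈ stab ρ F := fun y => (cj_comp φ y F).symm.trans
      (h5 ▸ Subgroup.mem_top y : y ∈ stab (ρ.comp φ) F)
    obtain ⟨a, ha⟩ := a1 E hE F hF
    obtain ⟨b, hb⟩ := a1 F hF E hE
    have h7 := a5 F hF j (by omega) (a6 F hF (fun h7 => hφ.2 (h7.trans (Subgroup.index_dvd_of_le
      (by rintro _ ⟨y, rfl⟩; exact h6 y)))) _ (φ.codRestrict _ h6) ⟨hφ.1, fun h7 => hφ.2 (h7.trans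
      ?_)⟩ j (by omega) h4 ?_)
    · simpa only [← hb, funext (a3 F b)] using h7.comp _
    · rw [show (φ.codRestrict _ h6).range = φ.range.subgroupOf (stab ρ F) from
        Subgroup.ext fun x => exists_congr fun y => Subtype.ext_iff]
      exact Subgroup.relIndex_dvd_index_of_le (by rintro _ ⟨y, rfl⟩; exact h6 y)
    · subst ha
      simp only [a3]
      exact (h2.comp _).comp (stab ρ _).subtype
  intro g N n t h2 h3 h4
  rw [a2, a2]
  exact sum_congr rfl fun F hF => a7 F hF g N n t h2 h3 h4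

theorem homog_sc (N : Subgroup G) [Fintype N] (hd : ¬ p ∣ finrank ℂ V)
    (h : ∀ a : N, ∃ c : ℂ, ∑ g : N, ρ (g * a * g⁻¹) = c • 1) :
    ∃ (m : ℕ) (U : FDRep ℂ N), IsIrr (Representation.character U.ρ) ∧ m ≠ 0 ∧
      ¬ p ∣ finrank ℂ U ∧ ∀ x : N, ρ.character x = m * Representation.character U.ρ x := by
  obtain ⟨m, θ, h1, h2⟩ := homog ((isChar_rep ρ).comp N.subtype)
    (fun h1 => hd (nat_pInt.mp (by rw [← ρ.char_one, show ρ.character 1 = 0 from h1]; simp)))
    fun a => (h a).imp fun c hc y => by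
      have := congrArg (fun b => LinearMap.trace ℂ V (b * ρ y)) hc
      simpa [sum_mul, Representation.character] using this
  obtain ⟨U, rfl⟩ := h1.isChar
  have h3 : finrank ℂ V = m * finrank ℂ U := by
    have := h2 1
    rw [map_one, ρ.char_one, U.char_one] at this
    exact_mod_cast this
  exact ⟨m, U, h1, by rintro rfl; simp [h3] at hd, fun h4 => hd (h3 ▸ h4.mul_left m), h2⟩

theorem cover_of (hp : p.Prime) (Z : Subgroup G) [Z.Normal] (h : IsPGroup p (G ⧸ Z))
    (P : Sylow p G) (x : G) : ∃ y : P, ∃ z ∈ Z, x = y * z := by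
  have := Fact.mk hp
  have h3 : (P : Subgroup G).map (QuotientGroup.mk' Z) = ⊤ :=
    ((P.mapSurjective (QuotientGroup.mk'_surjective Z)).3 (h.to_subgroup ⊤) le_top).symm
  obtain ⟨y, hy, h4⟩ := h3.ge (Subgroup.mem_top (x : G ⧸ Z))
  exact ⟨⟨y, hy⟩, _, QuotientGroup.eq.mp h4, by simp⟩

theorem stepC (hp : p.Prime) {χ : G → ℂ} (h : IsIrr χ) (hd : χ 1 ∉ pInt p) (IH : IHyp p χ)
    (hZ : Zc χ ≤ Subgroup.center G) {M : Subgroup G} [M.Normal] (hM : ¬ M ≤ Zc χ)
    {σ : Representation ℂ M W} (hσ : IsIrr σ.character) (hW : ¬ p ∣ finrank ℂ W) {m : ℕ}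
    (hm0 : m ≠ 0) (hm : ∀ x : M, χ x = m * σ.character x) {r : ℕ} (hr : ¬ p ∣ r)
    (hdet : ∀ x, LinearMap.det (σ x) ^ r = 1) {Y : Type} [Group Y] [Fintype Y] {φ : Y →* G}
    (hφ : Cov p φ) (hB : M ⊔ φ.range ⊔ Zc χ = ⊤ → m = 1 → ∀ j, j ≠ 0 →
      dq (p ^ j) (fun y => χ (φ y)) 1 ∉ pInt p → Inv p (j + 1) σ.character → Inv p j σ.character) :
    Good p χ := by
  have hm1 : (m : ℂ) ≠ 0 := Nat.cast_ne_zero.mpr hm0
  obtain ⟨H, _, ⟨E⟩⟩ := exists_ext (T := ⊤) hσ le_top (fun g _ x hx => ‹M.Normal›.conj_mem x hx g)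
    (fun g _ x x' hx => mul_left_cancel₀ hm1 (by rw [← hm, ← hm, hx, h.isChar.conj])) hr hdet
  have := E.finite hp hσ hW
  have := Fintype.ofFinite G
  have := Fintype.ofFinite H
  have := Fintype.ofFinite M
  have hπ : Function.Surjective E.π := MonoidHom.range_eq_top.mp E.range
  obtain ⟨β, b1, b2, b3, b4⟩ := E.factor hσ (χ := χ) (isIrr_iff.mpr ⟨h.isChar.comp _,
    (avg_surj _ hπ fun g => χ g * χ g⁻¹).trans (isIrr_iff.mp h).2 ▸ by simp [ip]⟩) hm
  obtain ⟨s, hs⟩ := E.exists_sec hp hσ hW hφ.1 φ fun _ => trivial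
  have hs' : E.π.comp s = φ := MonoidHom.ext hs
  have c1 : (Zc χ).comap E.π ≤ Zc β := fun x hx => b4 x hx (by
    obtain ⟨c, hc⟩ := E.scalar hσ fun m _ => (Subgroup.mem_center_iff.mp (hZ hx) m).symm
    have := hσ.nontrivial
    exact mem_Zc_of hc)
  have c2 : ∀ a, E.ι a ∈ Zc β := fun a => ⟨1, one_ne_zero, fun x => by rw [b3, one_mul]⟩
  have c3 : β 1 ∉ pInt p := fun h1 => hd (by
    rw [← map_one E.π, b2, mul_comm]; exact pInt_mul h1 ⟨finrank ℂ W, by simp⟩)
  have c4 := IH H β E.π b1 c3 c1 (Or.inr fun h1 => hM fun x hx => by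
    simpa [E.πι] using h1 (c2 ⟨x, hx⟩)) (E.range.symm ▸ Rch.top.gd)
  have c5 : Cov p s := ⟨hφ.1, fun h1 => ?_⟩
  swap
  · obtain ⟨n, h2, h3⟩ := E.ker hp hσ hW
    have := Fact.mk hp
    rw [rel_eq _ E.π.ker] at h1
    refine (hp.dvd_mul.mp h1).elim (fun h4 => h2 ?_) fun h4 => hφ.2 ?_
    · obtain ⟨x, hx⟩ := exists_prime_orderOf_dvd_card' p (h4.trans (Subgroup.relIndex_dvd_card _ _))
      exact hx ▸ orderOf_dvd_of_pow_eq_one (Subtype.ext (h3 x x.2).2.1)
    · rwa [← hs', MonoidHom.range_comp, Subgroup.index_map, E.range, Subgroup.index_top, mul_one]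
  have c6 : ∀ y, χ (φ y) = E.τ.character (s y) * β (s y) := fun y => by rw [← b2, hs]
  refine good_of_nz hp h.isChar hd hφ fun e he hD => ?_
  have d1 : Inv p e σ.character := Inv.down hp fun j hj h1 => by
    by_cases h2 : M ⊔ φ.range ⊔ Zc χ = ⊤
    · refine hB h2 ?_ j (by omega) (hD j hj) h1
      have h3 := linear_of hp b1 hφ.1 s (fun x => ?_) c3
      · have h4 := b2 1
        rw [h3, map_one, ← M.coe_one, hm, σ.char_one, E.τ.char_one, mul_comm] at h4
        exact_mod_cast mul_left_cancel₀ (σ.char_one ▸ hσ.one_ne) h4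
      have := h.isChar.zc_normal
      obtain ⟨_, h4, z, hz, h5⟩ := Subgroup.mem_sup_of_normal_right.mp
        (h2.ge (Subgroup.mem_top (E.π x)))
      rw [sup_comm] at h4
      obtain ⟨_, ⟨y, rfl⟩, a, ha, rfl⟩ := Subgroup.mem_sup_of_normal_right.mp h4
      refine ⟨y, _, mul_mem (c2 ⟨a, ha⟩) (c1 (?_ : E.π ((s y * E.ι ⟨a, ha⟩)⁻¹ * x) ∈ Zc χ)),
        by group⟩
      rwa [map_mul, map_inv, map_mul, hs, E.πι, ← h5, inv_mul_cancel_left]
    obtain ⟨ν, h3, h4⟩ := exists_lin hp hφ.1 ((isChar_rep E.τ).comp s) (b1.isChar.comp s)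
      (by omega : j ≠ 0) (by simpa only [c6] using hD j hj)
    refine E.step hp hσ hW hφ.1 s ν (by omega) (fun y hy => ?_)
      (fun h5 => hφ.2 (h5.trans (hs' ▸ rel_dvd _ _))) h4 (fun K _ _ ψ φ' k1 k2 k3 k4 k5 k6 =>
        IH K ψ φ' k1 k2 (fun k hk => k4 k fun m _ => (Subgroup.mem_center_iff.mp (hZ hk) m).symm)
          (Or.inl (ne_top_of_le_ne_top h2 (sup_le_sup_right (hs' ▸ k3) _)))
          ⟨M, .of_normal M, k5, Subgroup.le_normalizer_of_normal, k6⟩) h1
    obtain ⟨k, hk⟩ := hφ.1 y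
    rw [h3 y fun x => by
      rw [map_mul, E.lift_eq hp hσ hW (k := k) (by rw [← map_pow, hk, map_one]) hy, b3], one_pow]
  have d2 := E.inv hp hσ hW he d1
  refine Inv.of_surj hp hπ (funext b2 ▸ d2.mul (Inv.down hp fun j hj =>
    c4 Y s c5 j (by omega) fun h1 => hD j hj ?_))
  have h2 := add_mem (dq_mul hp hφ.1 ((isChar_rep E.τ).comp s) (b1.isChar.comp s)
    (by omega : j ≠ 0) ((d2.mono hj).comp s))
      (pInt_mul h1 (((isChar_rep E.τ).comp s).dq_int (p ^ j)))
  rw [mul_comm] at h2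
  simpa only [c6, sub_add_cancel] using h2

theorem Ext.exists_Phi {T L : Subgroup G} {σ : Representation ℂ L W} {H : Type} [Group H]
    [Finite H] (E : Ext p T L σ H) (hσ : IsIrr σ.character)
    (h : IsIrr fun x => ρ.character (E.π x)) {m : ℕ}
    (hm : ∀ x : L, ρ.character x = m * σ.character x) :
    ∃ Φ : End ℂ W →ₐ[ℂ] End ℂ V, (∀ l, Φ (σ l) = ρ l) ∧
      ∀ x a, Φ (cj E.τ x a) = cj ρ (E.π x) (Φ a) := by
  obtain ⟨β, b1, b2, b3, -⟩ := E.factor hσ h hm
  obtain ⟨U, rfl⟩ := b1.isChar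
  obtain ⟨e, he⟩ := equiv_of_char (ρ := ρ.comp E.π) (σ := E.τ.tprod U.ρ) h
    (by rw [Representation.char_tensor]; exact funext fun x => (b2 x).symm)
  have h1 : ∀ l, ((e.symm.conjAlgEquiv ℂ).toAlgHom.comp (End.rTensorAlgHom ℂ W U)) (σ l) = ρ l := by
    intro l
    ext v
    have h2 : U.ρ (E.ι l) = (1 : ℂ) • 1 := scalar_of_char (ρ := U.ρ) one_ne_zero fun k => by
      rw [← map_pow, ← mul_one (E.ι _), one_pow, one_mul]
      exact b3 _ 1
    have h3 := he (E.ι l) v
    rw [Representation.tprod_apply, h2, one_smul, E.τι, MonoidHom.comp_apply, E.πι] at h3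
    exact e.symm_apply_eq.mpr h3.symm
  refine ⟨_, h1, fun x a => ?_⟩
  induction burnside hσ a using Submodule.span_induction with
  | mem _ h2 =>
    obtain ⟨l, rfl⟩ := h2
    obtain ⟨l', h2⟩ := E.conj x l
    rw [h1, cj_rho, ← E.τι, cj_rho, h2, E.τι, h1, ← E.πι, ← h2]
    simp [E.πι]
  | zero => simp only [map_zero]
  | add _ _ _ _ h2 h3 => simp only [map_add, h2, h3]
  | smul c _ _ h2 => simp only [map_smul, h2]

theorem stepD (hp : p.Prime) (hd : ¬ p ∣ finrank ℂ V) (IH : IHyp p ρ.character)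
    (hZ : Zc ρ.character ≤ Subgroup.center G) {M L : Subgroup G} [M.Normal]
    (hM : IsIrr fun x : M => ρ.character x) (hLM : L ≤ M) (hN : M ≤ Subgroup.normalizer L)
    (hne : Subgroup.normalizer (L : Set G) ≠ ⊤) (hperf : L ≤ ⁅L, L⁆)
    (hc : ∀ g ∉ Subgroup.normalizer (L : Set G), ∀ a ∈ L, ∀ b ∈ L, Commute a (g * b * g⁻¹))
    (hgen : M ≤ Subgroup.normalClosure L) {Y : Type} [Group Y] [Fintype Y] {φ : Y →* G}
    (hφ : Cov p φ) {j : ℕ} (hj : j ≠ 0) (hD : dq (p ^ j) (fun y => ρ.character (φ y)) 1 ∉ pInt p)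
    (hI : Inv p (j + 1) fun x : M => ρ.character x) : Inv p j fun x : M => ρ.character x := by
  classical
  have := Fintype.ofFinite G
  have := Fintype.ofFinite L
  have hχ := isChar_rep ρ
  have n1 : ∀ g ∈ Subgroup.normalizer (L : Set G), ∀ b ∈ L, g * b * g⁻¹ ∈ L := fun g hg b =>
    (Subgroup.mem_normalizer_iff.mp hg b).mp
  have a1 : ∀ a : L, ∃ c : ℂ, ∑ g : L, ρ (g * a * g⁻¹) = c • 1 := fun a => by
    refine schur (ρ := ρ.comp M.subtype) hM fun x => cj_eq_iff.mp ((Subgroup.closure_le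
      (stab ρ _)).mpr (fun y hy => ?_) (hgen x.2))
    obtain ⟨b, hb, hy⟩ := Group.mem_conjugatesOfSet_iff.mp hy
    obtain ⟨g, rfl⟩ := isConj_iff.mp hy
    change cj ρ _ _ = _
    rw [map_sum]
    by_cases h1 : g ∈ Subgroup.normalizer (L : Set G)
    · refine Fintype.sum_equiv (Equiv.mulLeft ⟨_, n1 g h1 b hb⟩) _ _ fun u => ?_
      rw [cj_rho]
      simp [mul_assoc]
    · refine sum_congr rfl fun u _ => ?_
      rw [cj_rho, ← (hc g h1 _ (mul_mem (mul_mem u.2 a.2) u⁻¹.2) b hb).eq, mul_inv_cancel_right]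
  obtain ⟨m, U, hσ, hm0, hW, hm⟩ := homog_sc L hd a1
  have hm1 : (m : ℂ) ≠ 0 := Nat.cast_ne_zero.mpr hm0
  obtain ⟨H, _, ⟨E⟩⟩ := exists_ext (p := p) hσ Subgroup.le_normalizer n1
    (fun g _ x x' hx => mul_left_cancel₀ hm1 (by rw [← hm, ← hm, hx, hχ.conj])) (r := 1)
    (by simpa using hp.one_lt.ne') fun x => by
      obtain ⟨y, h1, h2⟩ := (Subgroup.commutator_le (H₃ := (MonoidHom.toHomUnits
        (LinearMap.det.comp U.ρ)).ker.map L.subtype)).mpr (fun a ha b hb =>
          ⟨⟨a, ha⟩ * ⟨b, hb⟩ * ⟨a, ha⟩⁻¹ * ⟨b, hb⟩⁻¹, by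
            rw [SetLike.mem_coe, MonoidHom.mem_ker, map_mul, map_mul, map_mul, map_inv, map_inv,
              mul_inv_cancel_comm, mul_inv_cancel], rfl⟩) (hperf x.2)
      rw [pow_one, ← show y = x from Subtype.ext h2]
      exact congrArg Units.val h1
  have := E.finite hp hσ hW
  obtain ⟨Φ, p1, p2⟩ := E.exists_Phi (ρ := ρ) hσ (by
    have := IsIrr.nontrivial (ρ := ρ.comp M.subtype) hM
    refine isIrr_of (ρ := ρ.comp E.π) fun S hS => inv_top (ρ := ρ.comp M.subtype) hM fun x => ?_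
    obtain ⟨y, hy⟩ := E.range.ge (hN x.2)
    simpa only [MonoidHom.comp_apply, hy, Subgroup.subtype_apply] using hS y) hm
  let Y0 := (Subgroup.normalizer (L : Set G)).comap φ
  have := Fintype.ofFinite Y0
  have hY0 := hφ.1.to_subgroup Y0
  obtain ⟨s, hs⟩ := E.exists_sec hp hσ hW hY0 (φ.comp Y0.subtype) fun y => y.2
  obtain ⟨ν, h1, h2⟩ := tensor hp hφ.1 (ρ.comp φ) Y0 (E.τ.comp s) Φ
    (fun y a => by rw [cj_comp, cj_comp, p2, hs]; rfl) (fun y hy a b => by
      rw [cj_comp]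
      induction burnside hσ a using Submodule.span_induction with
      | mem _ h2 =>
        obtain ⟨l, rfl⟩ := h2
        induction burnside hσ b using Submodule.span_induction with
        | mem _ h2 =>
          obtain ⟨l', rfl⟩ := h2
          rw [p1, p1, cj_rho, ← map_mul, ← map_mul, (hc _ hy _ l.2 _ l'.2).eq]
        | zero => simp
        | add _ _ _ _ h2 h3 => simp only [map_add, h2, h3, mul_add, add_mul]
        | smul c _ _ h2 => simp only [map_smul, h2, mul_smul_comm, smul_mul_assoc]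
      | zero => simp
      | add _ _ _ _ h2 h3 => simp only [map_add, h2, h3, mul_add, add_mul]
      | smul c _ _ h2 => simp only [map_smul, h2, mul_smul_comm, smul_mul_assoc]) hj hD
  have r1 : (E.π.comp s).range = φ.range ⊓ Subgroup.normalizer (L : Set G) := by
    rw [show E.π.comp s = φ.comp Y0.subtype from MonoidHom.ext hs, MonoidHom.range_comp,
      Subgroup.range_subtype, Subgroup.map_comap_eq]
  have h3 := E.step hp hσ hW hY0 s ν hj (fun y hy => h1 y ?_) (fun h3 => hφ.2 (h3.trans ?_)) h2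
    (fun K _ _ ψ φ' k1 k2 k3 k4 k5 k6 =>
      IH K ψ φ' k1 k2 (fun k hk => k4 k fun m _ => (Subgroup.mem_center_iff.mp (hZ hk) m).symm)
        (Or.inl (ne_top_of_le_ne_top hne (sup_le (k3.trans (sup_le Subgroup.le_normalizer
          (r1.trans_le inf_le_right))) (hZ.trans (Subgroup.center_le_normalizer _)))))
        ⟨L, .step L M (.of_normal M) hLM (.inl
          ((Subgroup.normal_subgroupOf_iff_le_normalizer hLM).mpr hN)), k5, k3.trans
          (sup_le Subgroup.le_normalizer (r1.trans_le inf_le_right)), k6⟩)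
    ((hI.comp (Subgroup.inclusion hLM)).of_mul hm1 hm)
  rotate_left
  · obtain ⟨k, hk⟩ := hY0 y
    rw [MonoidHom.comp_apply, E.lift_eq hp hσ hW (k := k) (by rw [← map_pow, hk, map_one]) hy,
      E.τι, p1]
    exact congrArg ρ (hs y)
  · have := (Subgroup.normal_subgroupOf_iff_le_normalizer hLM).mpr hN
    rw [r1, ← Subgroup.inf_relIndex_right, inf_assoc, inf_eq_right.mpr Subgroup.le_normalizer,
      Subgroup.inf_relIndex_right, ← Subgroup.relIndex_subgroupOf hLM]
    exact (rel_dvd _ _).trans (rel_dvd φ.range M)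
  have b1 : ∀ a : L, ∀ y, (∀ c ∈ L, Commute c y) →
      ρ.character (a * y) * ρ.character 1 = ρ.character a * ρ.character y := fun a y hy => by
    obtain ⟨c, hc⟩ := a1 a
    have h4 : ∀ y, (∀ c ∈ L, Commute c y) →
        Nat.card L * ρ.character (a * y) = c * ρ.character y := fun y hy => by
      have h5 := congrArg (fun b => LinearMap.trace ℂ V (b * ρ y)) hc
      simp only [sum_mul, map_sum, smul_mul_assoc, one_mul, map_smul, ← map_mul ρ] at h5
      rw [sum_congr rfl (g := fun _ => ρ.character (a * y)) fun g _ => by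
        rw [← hχ.conj g, mul_assoc _ _ y, (hy _ g⁻¹.2).eq, ← mul_assoc, ← mul_assoc]; rfl,
        sum_const, card_univ, ← Nat.card_eq_fintype_card, nsmul_eq_mul] at h5
      exact h5
    have h5 := h4 1 fun c _ => Commute.one_right c
    rw [mul_one] at h5
    apply mul_left_cancel₀ (cardX_ne (X := L))
    linear_combination ρ.character 1 * h4 y hy - ρ.character y * h5
  obtain ⟨N, n, h4, h5⟩ := exists_card hp G
  let Lc : G → Subgroup G := fun g => L.map (MulAut.conj g).toMonoidHom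
  refine inv_of hp h4 fun t ht x => ?_
  have h6 : ∀ s : Finset G, ∀ x ∈ s.sup Lc, ρ.character (x ^ t) = ρ.character x := by
    intro s
    induction s using Finset.induction_on with
    | empty => simp
    | insert g s _ ih =>
      rw [sup_insert]
      by_cases h7 : ∃ g' ∈ s, g⁻¹ * g' ∈ Subgroup.normalizer (L : Set G)
      · obtain ⟨g', h7, h8⟩ := h7
        rwa [sup_eq_right.mpr (le_trans ?_ (le_sup h7))]
        rintro _ ⟨b, hb, rfl⟩
        exact ⟨_, n1 _ (inv_mem h8) b hb, by simp [mul_assoc]⟩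
      push Not at h7
      have h8 : s.sup Lc ≤ Subgroup.centralizer (Lc g) := Finset.sup_le fun g' hg' => by
        rintro _ ⟨b, hb, rfl⟩ _ ⟨a, ha, rfl⟩
        simpa [mul_assoc] using ((hc _ (h7 g' hg') a ha b hb).map (MulAut.conj g)).eq
      intro x hx
      obtain ⟨_, ⟨a, ha, rfl⟩, y, hy, rfl⟩ := (Subgroup.coe_mul_of_right_le_normalizer_left _ _
        (h8.trans (Subgroup.centralizer_le_normalizer _))).le hx
      have h9 : ∀ y ∈ s.sup Lc, ∀ a : L, ρ.character ((MulAut.conj g).toMonoidHom a * y) *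
          ρ.character 1 = ρ.character a * ρ.character y := fun y hy a => by
        rw [← hχ.conj g⁻¹ y, ← b1 a _ fun c hc => ?_, ← hχ.conj g⁻¹]
        · simp [mul_assoc]
        · simpa [mul_assoc] using (Commute.map (h8 hy _ ⟨c, hc, rfl⟩) (MulAut.conj g⁻¹))
      refine mul_right_cancel₀ (b := ρ.character 1) (fun h10 => hd (nat_pInt.mp
        (by rw [← ρ.char_one, h10]; simp))) ?_
      beta_reduce
      lift a to L using ha with a ha'
      rw [Commute.mul_pow (h8 hy _ ⟨a, a.2, rfl⟩), ← map_pow, h9 y hy, ← Subgroup.coe_pow,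
        h9 _ (pow_mem hy t), ih y hy, hm, hm,
        h3 _ N n t h4 (Subtype.ext (h5 ▸ pow_card_eq_one')) ht]
  refine h6 univ x ((Subgroup.closure_le _).mpr (fun y hy => ?_) (hgen x.2))
  obtain ⟨b, hb, hy⟩ := Group.mem_conjugatesOfSet_iff.mp hy
  obtain ⟨g, rfl⟩ := isConj_iff.mp hy
  exact le_sup (f := Lc) (mem_univ g) ⟨b, hb, rfl⟩

end Pool.Agent.MP_3e257e_al
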