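import Pool.Agent.MP_3e257e_al.RPG

/-!
Systems of orthogonal idempotents permuted by a group.
-/

set_option autoImplicit false
set_option linter.unusedSectionVars false

namespace Pool.Agent.MP_3e257e_al

open Module Finset

variable {X : Type} [Group X] {V : Type} [AddCommGroup V] [Module ℂ V] [FiniteDimensional ℂ V]
  {ρ : Representation ℂ X V} {p : ℕ}

/-- Conjugation by a group element. -/
def cj (ρ : Representation ℂ X V) (g : X) : End ℂ V →ₐ[ℂ] End ℂ V where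
  toFun E := ρ g * E * ρ g⁻¹
  map_one' := by rw [mul_one, rho_inv]
  map_mul' E F := by
    simp only [mul_assoc]
    rw [← mul_assoc (ρ g⁻¹), inv_rho, one_mul]
  map_zero' := by simp
  map_add' E F := by rw [mul_add, add_mul]
  commutes' c := by rw [← Algebra.commutes, mul_assoc, rho_inv, mul_one]

theorem cj_def (g : X) (E : End ℂ V) : cj ρ g E = ρ g * E * ρ g⁻¹ := rfl

theorem cj_cj (g h : X) (E : End ℂ V) : cj ρ g (cj ρ h E) = cj ρ (g * h) E := by
  rw [cj_def, cj_def, cj_def, mul_inv_rev, map_mul ρ, map_mul ρ]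
  simp only [mul_assoc]

theorem cj_one (E : End ℂ V) : cj ρ 1 E = E := by simp [cj_def]

theorem cj_mul_rho (g : X) (E : End ℂ V) : cj ρ g E * ρ g = ρ g * E := by
  rw [cj_def, mul_assoc, inv_rho, mul_one]

theorem cj_eq_iff {g : X} {E F : End ℂ V} : cj ρ g E = F ↔ ρ g * E = F * ρ g :=
  ⟨fun h => by rw [← h, cj_mul_rho], fun h => by rw [cj_def, h, mul_assoc, rho_inv, mul_one]⟩

theorem cj_inj (g : X) : Function.Injective (cj ρ g) := fun E F h => by
  rw [← cj_one (ρ := ρ) E, ← inv_mul_cancel g, ← cj_cj, h, cj_cj, inv_mul_cancel, cj_one]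

theorem cj_rho (g h : X) : cj ρ g (ρ h) = ρ (g * h * g⁻¹) := by simp [cj_def]

theorem trace_cj (g : X) (E : End ℂ V) :
    LinearMap.trace ℂ V (cj ρ g E) = LinearMap.trace ℂ V E := by
  rw [cj_def, LinearMap.trace_mul_comm, ← mul_assoc, inv_rho, one_mul]

/-- The stabiliser of an operator. -/
def stab (ρ : Representation ℂ X V) (E : End ℂ V) : Subgroup X where
  carrier := {g | cj ρ g E = E}
  one_mem' := cj_one E
  mul_mem' := fun {a b} (ha : cj ρ a E = E) (hb : cj ρ b E = E) => by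
    change cj ρ _ E = E
    rw [← cj_cj, hb, ha]
  inv_mem' := fun {a} (ha : cj ρ a E = E) => cj_inj a (by rw [cj_cj, mul_inv_cancel, cj_one, ha])

theorem tr_zero {E : End ℂ V} (h : E * E = E) {g : X} (h0 : E * cj ρ g E = 0) :
    LinearMap.trace ℂ V (ρ g * E) = 0 := by
  rw [← h, ← mul_assoc, LinearMap.trace_mul_comm, ← cj_mul_rho, ← mul_assoc, h0, zero_mul, map_zero]

/-- A family of orthogonal idempotents stable under conjugation. -/
structure PSys (ρ : Representation ℂ X V) (S : Finset (End ℂ V)) : Prop where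
  idem : ∀ E ∈ S, E * E = E
  orth : ∀ E ∈ S, ∀ F ∈ S, E ≠ F → E * F = 0
  conj : ∀ E ∈ S, ∀ g, cj ρ g E ∈ S

/-- A complete family of nonzero orthogonal idempotents stable under conjugation. -/
structure Sys (ρ : Representation ℂ X V) (S : Finset (End ℂ V)) : Prop extends PSys ρ S where
  ne : ∀ E ∈ S, E ≠ 0
  sum : ∑ E ∈ S, E = 1

theorem PSys.mul_sum {S : Finset (End ℂ V)} (h : PSys ρ S) {E : End ℂ V} (hE : E ∈ S) :
    E * ∑ F ∈ S, F = E := by
  rw [Finset.mul_sum, sum_eq_single E (fun F hF h1 => h.orth E hE F hF h1.symm) (by simp [hE]),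
    h.idem E hE]

theorem PSys.sum_idem {S : Finset (End ℂ V)} (h : PSys ρ S) :
    (∑ F ∈ S, F) * ∑ F ∈ S, F = ∑ F ∈ S, F := by
  rw [sum_mul]
  exact sum_congr rfl fun E hE => h.mul_sum hE

theorem PSys.sum_comm {S : Finset (End ℂ V)} (h : PSys ρ S) (g : X) :
    ρ g * ∑ F ∈ S, F = (∑ F ∈ S, F) * ρ g := by
  rw [← cj_eq_iff, map_sum]
  exact sum_bij' (fun E _ => cj ρ g E) (fun E _ => cj ρ g⁻¹ E) (fun E hE => h.conj E hE g)
    (fun E hE => h.conj E hE _) (fun E _ => by rw [cj_cj, inv_mul_cancel, cj_one])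
    (fun E _ => by rw [cj_cj, mul_inv_cancel, cj_one]) fun _ _ => rfl

open Classical in
theorem PSys.orbit [Fintype X] {S : Finset (End ℂ V)} (h : PSys ρ S) {E : End ℂ V} (hE : E ∈ S) :
    (univ.image fun g => cj ρ g E) ⊆ S ∧ PSys ρ (univ.image fun g => cj ρ g E) := by
  have h1 : (univ.image fun g => cj ρ g E) ⊆ S := fun F hF => by
    obtain ⟨g, -, rfl⟩ := mem_image.mp hF
    exact h.conj E hE g
  refine ⟨h1, fun F hF => h.idem F (h1 hF), fun F hF F' hF' => h.orth F (h1 hF) F' (h1 hF'),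
    fun F hF g => ?_⟩
  obtain ⟨a, -, rfl⟩ := mem_image.mp hF
  exact mem_image.mpr ⟨g * a, mem_univ _, (cj_cj g a E).symm⟩

/-- The invariant of an operator. -/
noncomputable def dE [Fintype X] (k : ℕ) (ρ : Representation ℂ X V) : End ℂ V →ₗ[ℂ] ℂ where
  toFun E := dq k (fun y => LinearMap.trace ℂ V (ρ y * E)) 1
  map_add' E F := by simp [dq, mul_add, sum_add_distrib]
  map_smul' c E := by simp [dq, ← Finset.mul_sum, mul_left_comm]

theorem PSys.nofix [Fintype X] (hp : p.Prime) (hX : IsPGroup p X) {j : ℕ} (hj : j ≠ 0)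
    (S : Finset (End ℂ V)) : PSys ρ S → (∀ E ∈ S, stab ρ E ≠ ⊤) →
      dE (p ^ j) ρ (∑ E ∈ S, E) ∈ pInt p := by
  classical
  induction S using Finset.strongInduction with
  | H S ih =>
  intro h h1
  rcases S.eq_empty_or_nonempty with rfl | ⟨E, hE⟩
  · simp [zero_mem]
  obtain ⟨h2, h3⟩ := h.orbit hE
  rw [← sum_sdiff h2, map_add]
  refine add_mem (ih _ (sdiff_ssubset h2 ⟨_, mem_image_of_mem _ (mem_univ 1)⟩)
    ⟨fun F hF => h.idem F (sdiff_subset hF),
      fun F hF F' hF' => h.orth F (sdiff_subset hF) F' (sdiff_subset hF'), fun F hF g => ?_⟩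
    fun F hF => h1 F (sdiff_subset hF)) ?_
  · refine mem_sdiff.mpr ⟨h.conj F (sdiff_subset hF) g, fun h4 => (mem_sdiff.mp hF).2 ?_⟩
    have := h3.conj _ h4 g⁻¹
    rwa [cj_cj, inv_mul_cancel, cj_one] at this
  · refine dq_off hp hX (isChar_idem h3.sum_idem h3.sum_comm) hj (h1 E hE) fun y hy => ?_
    rw [Finset.mul_sum, map_sum]
    refine sum_eq_zero fun F hF => tr_zero (h3.idem F hF) (h3.orth F hF _ (h3.conj F hF y) ?_)
    obtain ⟨g, -, rfl⟩ := mem_image.mp hF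
    refine fun h4 => hy g⁻¹ (cj_inj (ρ := ρ) g ?_)
    rw [cj_cj, h4, cj_cj]
    congr 1
    group

/-- Joint eigenspaces. -/
def JE {ι : Type} (c : ι → End ℂ V) (s : Set ι) (ω : ι → ℂ) : Submodule ℂ V where
  carrier := {v | ∀ i ∈ s, c i v = ω i • v}
  add_mem' ha hb i hi := by rw [map_add, ha i hi, hb i hi, smul_add]
  zero_mem' i _ := by simp
  smul_mem' a v hv i hi := by rw [map_smul, hv i hi, smul_comm]

theorem exists_pr {ι : Type} (c : ι → End ℂ V) (ω : ι → ℂ) (S : Finset (ι → ℂ)) : ω ∉ S →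
    ∃ π : End ℂ V, (∀ ω', ∃ a : ℂ, ∀ v ∈ JE c Set.univ ω', π v = a • v) ∧
      (∀ v ∈ JE c Set.univ ω, π v = v) ∧ ∀ ω' ∈ S, ∀ v ∈ JE c Set.univ ω', π v = 0 := by
  classical
  induction S using Finset.induction_on with
  | empty => exact fun _ => ⟨1, fun _ => ⟨1, by simp⟩, by simp, by simp⟩
  | insert ω0 S _ ih =>
    intro h
    obtain ⟨π, h1, h2, h3⟩ := ih fun h4 => h (mem_insert_of_mem h4)
    obtain ⟨i, hi⟩ : ∃ i, ω i ≠ ω0 i := Function.ne_iff.mp fun h4 => h (h4 ▸ mem_insert_self _ _)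
    have h4 := sub_ne_zero.mpr hi
    have h5 : ∀ ω' a, ∀ v ∈ JE c Set.univ ω', π v = a • v →
        (((ω i - ω0 i)⁻¹ • (c i - ω0 i • 1)) * π) v = ((ω i - ω0 i)⁻¹ * (ω' i - ω0 i) * a) • v := by
      intro ω' a v hv h6
      simp only [End.mul_apply, h6, map_smul, LinearMap.smul_apply, LinearMap.sub_apply,
        hv i trivial, End.one_apply, ← sub_smul, smul_smul]
      congr 1
      ring
    refine ⟨((ω i - ω0 i)⁻¹ • (c i - ω0 i • 1)) * π, fun ω' => ?_, fun v hv => ?_,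
      fun ω' h6 v hv => ?_⟩
    · obtain ⟨a, ha⟩ := h1 ω'
      exact ⟨_, fun v hv => h5 ω' a v hv (ha v hv)⟩
    · rw [h5 ω 1 v hv (by rw [h2 v hv, one_smul]), inv_mul_cancel₀ h4, one_mul, one_smul]
    · rcases mem_insert.mp h6 with rfl | h6
      · obtain ⟨a, ha⟩ := h1 ω'
        rw [h5 ω' a v hv (ha v hv), sub_self, mul_zero, zero_mul, zero_smul]
      · rw [End.mul_apply, h3 ω' h6 v hv, map_zero]

/-- The action on eigenvalue systems. -/
def actE {C : Finset (End ℂ V)} (hC : ∀ c ∈ C, ∀ g, cj ρ g c ∈ C) (g : X) (ω : C → ℂ) : C → ℂ :=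
  fun c => ω ⟨cj ρ g⁻¹ c, hC _ c.2 _⟩

theorem actE_mem {C : Finset (End ℂ V)} (hC : ∀ c ∈ C, ∀ g, cj ρ g c ∈ C) (g : X) {ω : C → ℂ}
    {v : V} (hv : v ∈ JE Subtype.val Set.univ ω) :
    ρ g v ∈ JE Subtype.val Set.univ (actE hC g ω) := fun c _ => by
  have h1 := hv ⟨cj ρ g⁻¹ c, hC _ c.2 _⟩ trivial
  rw [actE, ← map_smul, ← h1, ← End.mul_apply, ← End.mul_apply, ← cj_mul_rho, cj_cj,
    mul_inv_cancel, cj_one]

theorem actE_inv {C : Finset (End ℂ V)} (hC : ∀ c ∈ C, ∀ g, cj ρ g c ∈ C) {g h : X}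
    (hg : h * g = 1) (ω : C → ℂ) : actE hC h (actE hC g ω) = ω := by
  funext c
  simp only [actE, cj_cj, ← mul_inv_rev, hg, inv_one, cj_one]

theorem exists_sys {C : Finset (End ℂ V)} (hC : ∀ c ∈ C, ∀ g, cj ρ g c ∈ C)
    (h : ⨆ ω : C → ℂ, JE Subtype.val Set.univ ω = ⊤) :
    ∃ S, Sys ρ S ∧ ∀ E ∈ S, ∀ c ∈ C, ∃ a : ℂ, c * E = a • E := by
  classical
  have hfin : {ω : C → ℂ | JE Subtype.val Set.univ ω ≠ ⊥}.Finite := by
    refine (Set.Finite.pi' fun c : C => End.finite_hasEigenvalue c.1).subset fun ω hω c => ?_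
    obtain ⟨v, h1, h2⟩ := (Submodule.ne_bot_iff _).mp hω
    exact End.hasEigenvalue_of_hasEigenvector ⟨End.mem_eigenspace_iff.mpr (h1 c trivial), h2⟩
  choose π h1 h2 h3 using fun ω : C → ℂ =>
    exists_pr Subtype.val ω (hfin.toFinset.erase ω) (notMem_erase _ _)
  have h4 : ∀ ω ω', ∀ v ∈ JE Subtype.val Set.univ ω', π ω v = if ω' = ω then v else 0 := by
    intro ω ω' v hv
    split_ifs with h5
    · exact h2 ω v (h5 ▸ hv)
    by_cases h6 : JE Subtype.val Set.univ ω' = ⊥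
    · rw [h6] at hv
      rw [(Submodule.mem_bot ℂ).mp hv, map_zero]
    · exact h3 ω ω' (mem_erase.mpr ⟨h5, hfin.mem_toFinset.mpr h6⟩) v hv
  have ext : ∀ f g : End ℂ V, (∀ ω : C → ℂ, ∀ v ∈ JE Subtype.val Set.univ ω, f v = g v) →
      f = g := fun f g h5 => LinearMap.eqLocus_eq_top.mp
    (eq_top_iff.mpr (h ▸ iSup_le fun ω v hv => h5 ω v hv))
  have h5 : ∀ ω ∈ hfin.toFinset, ∃ v ∈ JE Subtype.val Set.univ ω, v ≠ 0 := fun ω hω =>
    (Submodule.ne_bot_iff _).mp (hfin.mem_toFinset.mp hω)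
  refine ⟨hfin.toFinset.image π, ⟨⟨forall_mem_image.mpr fun ω _ => ext _ _ fun ω' v hv => ?_,
    forall_mem_image.mpr fun ω _ => forall_mem_image.mpr fun ω' _ h6 => ext _ _ fun ω'' v hv => ?_,
    forall_mem_image.mpr fun ω hω g => mem_image.mpr ⟨actE hC g ω, ?_, ext _ _ fun ω' v hv => ?_⟩⟩,
    forall_mem_image.mpr fun ω hω h6 => ?_, ?_⟩,
    forall_mem_image.mpr fun ω _ c hc => ⟨ω ⟨c, hc⟩, ext _ _ fun ω' v hv => ?_⟩⟩
  · rw [End.mul_apply, h4 ω ω' v hv]
    split_ifs with h6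
    · exact h2 ω v (h6 ▸ hv)
    · exact map_zero _
  · rw [End.mul_apply, h4 ω' ω'' v hv]
    split_ifs with h7
    · rw [h4 ω ω'' v hv, if_neg fun h8 => h6 (by rw [← h7, h8]), LinearMap.zero_apply]
    · exact map_zero _
  · obtain ⟨v, h6, h7⟩ := h5 ω hω
    refine hfin.mem_toFinset.mpr ((Submodule.ne_bot_iff _).mpr ⟨_, actE_mem hC g h6, fun h8 => h7 ?_⟩)
    rw [← End.one_apply (R := ℂ) v, ← inv_rho ρ g, End.mul_apply, h8, map_zero]
  · rw [cj_def, End.mul_apply, End.mul_apply, h4 ω _ _ (actE_mem hC g⁻¹ hv), h4 _ ω' v hv,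
      if_congr (Q := actE hC g⁻¹ ω' = ω) ⟨fun h6 => by rw [h6, actE_inv hC (inv_mul_cancel g)],
        fun h6 => by rw [← h6, actE_inv hC (mul_inv_cancel g)]⟩ rfl rfl]
    split_ifs
    · rw [← End.mul_apply, rho_inv, End.one_apply]
    · exact (map_zero _).symm
  · obtain ⟨v, h7, h8⟩ := h5 ω hω
    exact h8 (by rw [← h2 ω v h7, h6, LinearMap.zero_apply])
  · rw [sum_image fun ω hω ω' _ h6 => ?_]
    · refine ext _ _ fun ω v hv => ?_
      rw [LinearMap.sum_apply, sum_congr rfl fun ω' _ => h4 ω' ω v hv, sum_ite_eq, End.one_apply]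
      split_ifs with h6
      · rfl
      · by_contra h7
        exact h6 (hfin.mem_toFinset.mpr ((Submodule.ne_bot_iff _).mpr ⟨v, hv, Ne.symm h7⟩))
    · by_contra h7
      obtain ⟨v, h8, h9⟩ := h5 ω hω
      exact h9 (by rw [← h2 ω v h8, h6, h4 ω' ω v h8, if_neg h7])
  · rw [End.mul_apply, LinearMap.smul_apply, h4 ω ω' v hv]
    split_ifs with h6
    · exact h6 ▸ hv ⟨c, hc⟩ trivial
    · simp

theorem JE_le (C : Finset (End ℂ V)) (ω : End ℂ V → ℂ) :
    JE id (C : Set (End ℂ V)) ω ≤ ⨆ ω : C → ℂ, JE Subtype.val Set.univ ω :=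
  le_iSup_of_le (fun c => ω c) fun _ hv c _ => hv c.1 c.2

theorem common_eig [Nontrivial V] (C : Finset (End ℂ V)) :
    (∀ a ∈ C, ∀ b ∈ C, a * b = b * a) → ∃ ω, JE id (C : Set (End ℂ V)) ω ≠ ⊥ := by
  classical
  induction C using Finset.induction_on with
  | empty =>
    obtain ⟨v, hv⟩ := exists_ne (0 : V)
    exact fun _ => ⟨0, (Submodule.ne_bot_iff _).mpr ⟨v, fun _ h => by simp at h, hv⟩⟩
  | insert c C hc ih =>
    intro h
    obtain ⟨ω, hω⟩ := ih fun a ha b hb => h a (mem_insert_of_mem ha) b (mem_insert_of_mem hb)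
    have := Submodule.nontrivial_iff_ne_bot.mpr hω
    have h1 : ∀ v ∈ JE id (C : Set (End ℂ V)) ω, c v ∈ JE id (C : Set (End ℂ V)) ω :=
      fun v hv a ha => by
        rw [← map_smul, ← hv a ha, id, ← End.mul_apply, ← End.mul_apply,
          h a (mem_insert_of_mem ha) c (mem_insert_self _ _)]
    obtain ⟨μ, hμ⟩ := End.exists_eigenvalue (c.restrict h1)
    obtain ⟨v, h2, h3⟩ := hμ.exists_hasEigenvector
    refine ⟨Function.update ω c μ, (Submodule.ne_bot_iff _).mpr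
      ⟨v, fun a ha => ?_, fun h4 => h3 (Subtype.ext h4)⟩⟩
    rcases mem_insert.mp ha with rfl | ha
    · rw [Function.update_self]
      exact congrArg Subtype.val (End.mem_eigenspace_iff.mp h2)
    · rw [Function.update_of_ne (ne_of_mem_of_not_mem ha hc)]
      exact v.2 a ha

theorem idem_span (C : Finset (End ℂ V)) : (∀ a ∈ C, ∀ b ∈ C, a * b = b * a) →
    (∀ a ∈ C, a * a = a) → ⨆ ω, JE id (C : Set (End ℂ V)) ω = ⊤ := by
  classical
  induction C using Finset.induction_on with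
  | empty => exact fun _ _ => eq_top_iff.mpr (le_iSup_of_le 0 fun v _ _ h => by simp at h)
  | insert c C hc ih =>
    intro h h'
    refine eq_top_iff.mpr ((ih (fun a ha b hb => h a (mem_insert_of_mem ha) b
      (mem_insert_of_mem hb)) fun a ha => h' a (mem_insert_of_mem ha)) ▸ iSup_le fun ω v hv => ?_)
    have h1 : ∀ a ∈ C, a (c v) = ω a • c v := fun a ha => by
      rw [← map_smul, ← hv a ha, id, ← End.mul_apply, ← End.mul_apply,
        h a (mem_insert_of_mem ha) c (mem_insert_self _ _)]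
    have h2 : c (c v) = c v := LinearMap.congr_fun (h' c (mem_insert_self _ _)) v
    rw [← add_sub_cancel (c v) v]
    refine add_mem (Submodule.mem_iSup_of_mem (Function.update ω c 1) fun a ha => ?_)
      (Submodule.mem_iSup_of_mem (Function.update ω c 0) fun a ha => ?_)
    · rcases mem_insert.mp ha with rfl | ha
      · rw [Function.update_self, one_smul]
        exact h2
      · rw [Function.update_of_ne (ne_of_mem_of_not_mem ha hc)]
        exact h1 a ha
    · rcases mem_insert.mp ha with rfl | ha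
      · simp [h2]
      · rw [Function.update_of_ne (ne_of_mem_of_not_mem ha hc), map_sub, smul_sub, hv a ha]
        exact congrArg _ (h1 a ha)

theorem scalar_or_sys [Finite X] (h : IsIrr ρ.character) {C : Finset (End ℂ V)}
    (hC : ∀ c ∈ C, ∀ g, cj ρ g c ∈ C) (hc : ∀ a ∈ C, ∀ b ∈ C, a * b = b * a) :
    (∀ c ∈ C, ∃ a : ℂ, c = a • 1) ∨ ∃ S, Sys ρ S ∧ 1 ∉ S := by
  have := h.nontrivial
  obtain ⟨ω, hω⟩ := common_eig C hc
  obtain ⟨S, h1, h2⟩ := exists_sys hC (inv_top h (fun g v hv => by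
    induction hv using Submodule.iSup_induction' with
    | mem ω v hv => exact Submodule.mem_iSup_of_mem _ (actE_mem hC g hv)
    | zero => simp
    | add _ _ _ _ h1 h2 => rw [map_add]; exact add_mem h1 h2) (ne_bot_of_le_ne_bot hω (JE_le C ω)))
  refine or_iff_not_imp_right.mpr fun h3 c hc => ?_
  simpa using h2 1 (by_contra fun h4 => h3 ⟨S, h1, h4⟩) c hc

theorem trace_idem {E : End ℂ V} (h : E * E = E) :
    LinearMap.trace ℂ V E = finrank ℂ (LinearMap.range E) :=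
  ((LinearMap.isProj_range_iff_isIdempotentElem E).mpr h).trace

theorem Sys.card_le {S : Finset (End ℂ V)} (h : Sys ρ S) : S.card ≤ finrank ℂ V := by
  have h1 := congrArg (LinearMap.trace ℂ V) h.sum
  rw [map_sum, LinearMap.trace_one, sum_congr rfl fun E hE => trace_idem (h.idem E hE)] at h1
  have h2 : ∑ E ∈ S, finrank ℂ (LinearMap.range E) = finrank ℂ V := by exact_mod_cast h1
  rw [← h2, card_eq_sum_ones]
  exact sum_le_sum fun E hE => Nat.pos_of_ne_zero fun h3 =>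
    h.ne E hE (LinearMap.range_eq_bot.mp (Submodule.finrank_eq_zero.mp h3))

theorem refine_sys [Finite X] (hp : p.Prime) (hX : IsPGroup p X) (h : 1 < finrank ℂ V) :
    ∃ S, Sys ρ S ∧ 1 ∉ S := by
  classical
  have := Fintype.ofFinite X
  have : Nontrivial V := Module.nontrivial_of_finrank_pos (R := ℂ) (by omega)
  by_cases h1 : ∀ S : Submodule ℂ V, (∀ g, ∀ v ∈ S, ρ g v ∈ S) → S ≠ ⊥ → S = ⊤
  · have h2 := isIrr_of h1
    have := h2.isChar.zc_normal
    have h3 : Zc ρ.character ≠ ⊤ := fun h3 => by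
      obtain ⟨v, hv⟩ := exists_ne (0 : V)
      have h5 := h1 (ℂ ∙ v) (fun g w hw => by
        obtain ⟨c, -, hc⟩ := mem_Zc.mp (h3 ▸ Subgroup.mem_top g : g ∈ Zc ρ.character)
        rw [hc]
        exact Submodule.smul_mem _ c hw) (by simpa using hv)
      have h6 := finrank_span_singleton (K := ℂ) hv
      rw [h5, finrank_top] at h6
      omega
    obtain ⟨z, h4, h5⟩ := exists_z hp h3 (hX.to_quotient _)
    have h6 : ∀ g, ∃ c : ℂ, cj ρ g (ρ z) = c • ρ z := fun g => by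
      obtain ⟨c, -, hc⟩ := mem_Zc.mp (inv_mem (h5 g))
      refine ⟨c, ?_⟩
      rw [cj_rho, show g * z * g⁻¹ = (z * g * z⁻¹ * g⁻¹)⁻¹ * z by group, map_mul, hc]
      simp
    refine (scalar_or_sys h2 (C := univ.image fun g => cj ρ g (ρ z)) (forall_mem_image.mpr
      fun a _ g => mem_image.mpr ⟨g * a, mem_univ _, (cj_cj g a _).symm⟩) (forall_mem_image.mpr
        fun a _ => forall_mem_image.mpr fun b _ => ?_)).resolve_left fun h7 => h4 ?_
    · obtain ⟨c, hc⟩ := h6 a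
      obtain ⟨d, hd⟩ := h6 b
      simp [hc, hd, smul_smul, mul_comm]
    · obtain ⟨a, ha⟩ := h7 _ (mem_image_of_mem _ (mem_univ 1))
      exact mem_Zc_of (cj_one (ρ := ρ) _ ▸ ha)
  push Not at h1
  obtain ⟨S, h1, h2, h3⟩ := h1
  obtain ⟨q, h4, h5, h6, h7⟩ := exists_proj S h1
  have h8 : q ≠ 0 := fun h9 => h2 ((Submodule.eq_bot_iff S).mpr fun v hv => by
    rw [← h7 v hv, h9, LinearMap.zero_apply])
  have h9 : q ≠ 1 := fun h9 => h3 (eq_top_iff.mpr fun v _ => by simpa [h9] using h6 v)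
  have h10 : q ≠ 1 - q := fun h10 => h8 (by
    rw [← h4]; nth_rewrite 2 [h10]; rw [mul_sub, h4, mul_one, sub_self])
  have h11 : ∀ g, cj ρ g q = q := fun g => cj_eq_iff.mpr (h5 g)
  refine ⟨{q, 1 - q}, ⟨⟨?_, ?_, ?_⟩, ?_, by rw [sum_pair h10, add_sub_cancel]⟩, ?_⟩
  · simp [h4, mul_sub, sub_mul]
  · simp [h4, mul_sub, sub_mul]
  · simp [h11]
  · simp [h8, sub_eq_zero, h9.symm]
  · simp [h8, h9.symm, eq_sub_iff_add_eq]

theorem monomial [Finite X] (hp : p.Prime) (hX : IsPGroup p X) (ρ : Representation ℂ X V) :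
    ∃ S, Sys ρ S ∧ ∀ E ∈ S, stab ρ E = ⊤ → finrank ℂ (LinearMap.range E) = 1 := by
  classical
  have h1 : BddAbove {n | ∃ S, Sys ρ S ∧ S.card = n} :=
    ⟨finrank ℂ V, fun _ ⟨S, h, hS⟩ => hS ▸ h.card_le⟩
  obtain ⟨S, h2, h3⟩ := Nat.sSup_mem (s := {n | ∃ S, Sys ρ S ∧ S.card = n}) (by
    rcases subsingleton_or_nontrivial V with _ | _
    · exact ⟨_, ∅, ⟨⟨by simp, by simp, by simp⟩, by simp, Subsingleton.elim _ _⟩, rfl⟩
    · exact ⟨_, {1}, ⟨⟨by simp, by simp, by simp⟩, by simp, by simp⟩, rfl⟩) h1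
  refine ⟨S, h2, fun E hE h4 => by_contra fun h5 => ?_⟩
  have h6 : ∀ g, cj ρ g E = E := fun g => (h4 ▸ Subgroup.mem_top g : g ∈ stab ρ E)
  have h7 := h2.idem E hE
  have h8 : 1 < finrank ℂ (LinearMap.range E) := by
    have : finrank ℂ (LinearMap.range E) ≠ 0 := fun h3 =>
      h2.ne E hE (LinearMap.range_eq_bot.mp (Submodule.finrank_eq_zero.mp h3))
    omega
  obtain ⟨T, h9, h10⟩ := refine_sys (ρ := rng ρ E fun g => cj_eq_iff.mp (h6 g)) hp hX h8
  have : Nontrivial (LinearMap.range E) := Module.nontrivial_of_finrank_pos (R := ℂ) (by omega)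
  have e1 : ∀ a b, ex0 E a * ex0 E b = ex0 E (a * b) := fun a b => by
    ext v; simp [ex0, rr_coe h7]
  have e2 : ex0 E 1 = E := rfl
  have e3 : Function.Injective (ex0 E) := fun a b h => by
    ext v
    simpa [ex0, rr_coe h7] using LinearMap.congr_fun h v
  have e0 : ex0 E 0 = 0 := by ext; simp [ex0]
  have e4 : ∀ a, ∀ F ∈ S.erase E, F * ex0 E a = 0 ∧ ex0 E a * F = 0 := fun a F hF => by
    obtain ⟨h11, h12⟩ := mem_erase.mp hF
    constructor
    · rw [← one_mul a, ← e1, e2, ← mul_assoc, h2.orth F h12 E hE h11, zero_mul]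
    · rw [← mul_one a, ← e1, e2, mul_assoc, h2.orth E hE F h12 h11.symm, mul_zero]
  have e5 : Disjoint (S.erase E) (T.image (ex0 E)) := disjoint_right.mpr
    (forall_mem_image.mpr fun a ha h11 => h9.ne a ha (e3 (by
      rw [← h9.idem a ha, ← e1, (e4 a _ h11).1, e0])))
  have e6 : ∀ a g, cj ρ g (ex0 E a) = ex0 E (cj (rng ρ E fun g => cj_eq_iff.mp (h6 g)) g a) := by
    intro a g
    ext v
    have h11 : E.rangeRestrict (ρ g⁻¹ v) =
        rng ρ E (fun g => cj_eq_iff.mp (h6 g)) g⁻¹ (E.rangeRestrict v) :=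
      Subtype.ext (LinearMap.congr_fun (cj_eq_iff.mp (h6 g⁻¹)) v).symm
    simp only [cj_def, ex0, End.mul_apply, LinearMap.comp_apply, h11]
    rfl
  have h11 : 1 < T.card := by
    by_contra h11
    obtain ⟨a, ha⟩ := card_le_one_iff_subset_singleton.mp (not_lt.mp h11)
    have h12 := h9.sum
    rcases subset_singleton_iff.mp ha with rfl | rfl
    · exact zero_ne_one h12
    · exact h10 (by simpa using h12.symm)
  have h12 : Sys ρ (S.erase E ∪ T.image (ex0 E)) := by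
    refine ⟨⟨forall_mem_union.mpr ⟨fun F hF => h2.idem F (mem_of_mem_erase hF),
      forall_mem_image.mpr fun a ha => by rw [e1, h9.idem a ha]⟩, forall_mem_union.mpr
        ⟨fun F hF => forall_mem_union.mpr ⟨fun F' hF' => h2.orth F (mem_of_mem_erase hF) F'
          (mem_of_mem_erase hF'), forall_mem_image.mpr fun a _ _ => (e4 a F hF).1⟩,
        forall_mem_image.mpr fun a ha => forall_mem_union.mpr ⟨fun F hF _ => (e4 a F hF).2,
          forall_mem_image.mpr fun b hb h13 => by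
            rw [e1, h9.orth a ha b hb fun h14 => h13 (h14 ▸ rfl), e0]⟩⟩, forall_mem_union.mpr
        ⟨fun F hF g => mem_union_left _ (mem_erase.mpr ⟨fun h13 => (mem_erase.mp hF).1
          (cj_inj g (h13.trans (h6 g).symm)), h2.conj F (mem_of_mem_erase hF) g⟩),
        forall_mem_image.mpr fun a ha g => mem_union_right _
          (e6 a g ▸ mem_image_of_mem _ (h9.conj a ha g))⟩⟩,
      forall_mem_union.mpr ⟨fun F hF => h2.ne F (mem_of_mem_erase hF),
        forall_mem_image.mpr fun a ha h13 => h9.ne a ha (e3 (h13.trans e0.symm))⟩, ?_⟩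
    rw [sum_union e5, sum_image fun a _ b _ h => e3 h, ← h2.sum, ← sum_erase_add S _ hE]
    congr 1
    refine Eq.trans ?_ e2
    rw [← h9.sum]
    ext v
    simp [ex0]
  have h13 := le_csSup h1 ⟨_, h12, rfl⟩
  rw [← h3, card_union_of_disjoint e5, card_image_of_injective _ e3, card_erase_of_mem hE] at h13
  have := card_pos.mpr ⟨E, hE⟩
  omega

end Pool.Agent.MP_3e257e_al
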