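import Pool.Agent.MP_3e257e_al.RExt

/-!
The tensor induction step for a `p`-group.
-/

set_option autoImplicit false
set_option linter.unusedSectionVars false

namespace Pool.Agent.MP_3e257e_al

open Module Finset

variable {Y : Type} [Group Y] {V W : Type} [AddCommGroup V] [Module ℂ V] [FiniteDimensional ℂ V]
  [AddCommGroup W] [Module ℂ W] [FiniteDimensional ℂ W] {p : ℕ}

theorem exists_hom {U : Type} [AddCommGroup U] [Module ℂ U] {b : U} (hb : b ≠ 0)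
    (A : Y → U →ₗ[ℂ] U) (h1 : A 1 b = b) (h2 : ∀ x y, A (x * y) b = A x (A y b))
    (h : ∀ x, ∃ c : ℂ, A x b = c • b) : ∃ μ : Y →* ℂ, ∀ x, A x b = μ x • b := by
  choose c hc using h
  exact ⟨⟨⟨c, smul_left_injective ℂ hb (by simp only [← hc, h1, one_smul])⟩, fun x y =>
    smul_left_injective ℂ hb (by simp only [← hc, h2]; rw [hc y, map_smul, hc, smul_smul, mul_comm])⟩,
    hc⟩

theorem rank_one {ε : End ℂ W} (h : finrank ℂ (LinearMap.range ε) = 1) (a : End ℂ W) :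
    ∃ c : ℂ, ε * a * ε = c • ε := by
  obtain ⟨v, -, hv⟩ := finrank_eq_one_iff'.mp h
  obtain ⟨c, hc⟩ := hv (ε.rangeRestrict (a v))
  refine ⟨c, LinearMap.ext fun u => ?_⟩
  obtain ⟨t, ht⟩ := hv (ε.rangeRestrict u)
  have h1 : t • (v : W) = ε u := congrArg Subtype.val ht
  have h2 : c • (v : W) = ε (a v) := congrArg Subtype.val hc
  rw [End.mul_apply, End.mul_apply, LinearMap.smul_apply, ← h1, map_smul, map_smul, ← h2, smul_comm]

theorem exists_link {ε ε' : End ℂ W} (h : ε * ε = ε) (h' : ε' * ε' = ε')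
    (hr : finrank ℂ (LinearMap.range ε) = finrank ℂ (LinearMap.range ε')) :
    ∃ w w' : End ℂ W, w' * w = ε ∧ w * w' = ε' ∧ w * ε = w ∧ ε' * w = w := by
  let e := LinearEquiv.ofFinrankEq _ _ hr
  refine ⟨(LinearMap.range ε').subtype ∘ₗ e ∘ₗ ε.rangeRestrict,
    (LinearMap.range ε).subtype ∘ₗ e.symm ∘ₗ ε'.rangeRestrict, ?_, ?_, ?_, ?_⟩ <;> ext v
  · simp [rr_coe h']
  · simp [rr_coe h]
  · exact congrArg (fun u => (e u : W)) (rr_coe h (ε.rangeRestrict v))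
  · exact congrArg Subtype.val (rr_coe h' (e (ε.rangeRestrict v)))

open Classical in
theorem dE_def [Fintype Y] (k : ℕ) (ρ : Representation ℂ Y V) (E : End ℂ V) : dE k ρ E =
    (Nat.card (Qs Y k) : ℂ)⁻¹ * ∑ q : Qs Y k, LinearMap.trace ℂ V (ρ q * E) := by
  simp only [dE, dq, mul_one, LinearMap.coe_mk, AddHom.coe_mk]

theorem isIrr_hom [Fintype Y] (ν : Y →* ℂ) : IsIrr ν := isIrr_iff.mpr ⟨isChar_hom ν, by
  simp only [ip, ← map_mul, mul_inv_cancel, map_one, sum_const, card_univ, nsmul_eq_mul, mul_one,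
    ← Nat.card_eq_fintype_card, inv_mul_cancel₀ (cardX_ne (X := Y))]⟩

open Classical in
theorem Sys.fix [Fintype Y] (hp : p.Prime) (hY : IsPGroup p Y) {j : ℕ} (hj : j ≠ 0)
    {ρ : Representation ℂ Y V} {S : Finset (End ℂ V)} (h : Sys ρ S) :
    dq (p ^ j) ρ.character 1 - ∑ E ∈ S with stab ρ E = ⊤, dE (p ^ j) ρ E ∈ pInt p := by
  have h1 := PSys.nofix (ρ := ρ) hp hY hj (S.filter fun E => ¬ stab ρ E = ⊤)
    ⟨fun E hE => h.idem E (filter_subset _ _ hE), fun E hE F hF =>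
      h.orth E (filter_subset _ _ hE) F (filter_subset _ _ hF), fun E hE g => mem_filter.mpr
        ⟨h.conj E (filter_subset _ _ hE) g, fun h2 => (mem_filter.mp hE).2 (eq_top_iff.mpr
          fun y _ => cj_inj (ρ := ρ) g ?_)⟩⟩ fun E hE => (mem_filter.mp hE).2
  · have h2 := (sum_filter_add_sum_filter_not S (stab ρ · = ⊤) fun E => E).trans h.sum
    rwa [eq_sub_of_add_eq' h2, map_sub, map_sum] at h1
  · rw [cj_cj, show g * y = g * y * g⁻¹ * g by group, ← cj_cj]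
    exact (h2 ▸ Subgroup.mem_top _ : g * y * g⁻¹ ∈ stab ρ (cj ρ g E))

open Classical in
theorem dq_count [Fintype Y] (hp : p.Prime) (hY : IsPGroup p Y) {j : ℕ} (hj : j ≠ 0)
    {τ : Representation ℂ Y W} {S : Finset (End ℂ W)} (h : Sys τ S) (μ : End ℂ W → Y →* ℂ)
    (hμ : ∀ ε ∈ S, stab τ ε = ⊤ → finrank ℂ (LinearMap.range ε) = 1 ∧ ∀ y, τ y * ε = μ ε y • ε)
    (ν : Y →* ℂ) : dq (p ^ j) (fun y => τ.character y * ν y) 1 -
      ((S.filter fun ε => stab τ ε = ⊤).filter fun ε => ∀ y, (ν y * μ ε y) ^ p ^ j = 1).card ∈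
        pInt p := by
  let τ' : Representation ℂ Y W :=
    ⟨⟨fun y => ν y • τ y, by simp⟩, fun x y => by simp [smul_smul, mul_comm]⟩
  have h1 : ∀ y, cj τ' y = cj τ y := fun y => AlgHom.ext fun a => by
    change ν y • τ y * a * ν y⁻¹ • τ y⁻¹ = _
    rw [mul_smul_comm, smul_mul_assoc, smul_mul_assoc, smul_smul, ← map_mul, inv_mul_cancel,
      map_one, one_smul, cj_def]
  have h2 : ∀ ε, stab τ' ε = stab τ ε := fun ε => Subgroup.ext fun y => by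
    change cj τ' y ε = ε ↔ _
    rw [h1]
    rfl
  have h3 := Sys.fix (ρ := τ') hp hY hj ⟨⟨h.idem, h.orth, fun E hE g => h1 g ▸ h.conj E hE g⟩,
    h.ne, h.sum⟩
  simp only [h2] at h3
  convert h3 using 2
  · congr 1
    funext y
    exact ((map_smul (LinearMap.trace ℂ W) (ν y) (τ y)).trans (mul_comm _ _)).symm
  · rw [card_filter, Nat.cast_sum]
    refine sum_congr rfl fun ε hε => ?_
    obtain ⟨h4, h5⟩ := hμ ε (mem_filter.mp hε).1 (mem_filter.mp hε).2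
    have h6 : dE (p ^ j) τ' ε = dq (p ^ j) (ν * μ ε) 1 := by
      refine congrArg (fun f : Y → ℂ => dq (p ^ j) f 1) (a₁ := fun y => LinearMap.trace ℂ W (τ' y * ε))
        (funext fun y => ?_)
      change LinearMap.trace ℂ W (ν y • τ y * ε) = _
      rw [smul_mul_assoc, h5, map_smul, map_smul, trace_idem (h.idem ε (mem_filter.mp hε).1), h4]
      simp
    rw [h6, (isIrr_hom _).dq_eq]
    simp

theorem exists_norm [Finite Y] (ρ : Representation ℂ Y V) (Y0 : Subgroup Y)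
    (τ : Representation ℂ Y0 W) (Φ : End ℂ W →ₐ[ℂ] End ℂ V)
    (h1 : ∀ y : Y0, ∀ a, Φ (cj τ y a) = cj ρ y (Φ a))
    (h2 : ∀ y ∉ Y0, ∀ a b, Φ a * cj ρ y (Φ b) = cj ρ y (Φ b) * Φ a) :
    ∃ N : End ℂ W →* End ℂ V, (∀ (R : Submonoid (End ℂ V)) a, (∀ y, cj ρ y (Φ a) ∈ R) → N a ∈ R) ∧
      (∀ a, (∀ y, cj τ y a = a) → ∃ b, N a = Φ a * b) ∧
      ∀ a k, (∀ y, ∃ c : ℂ, c ^ k = 1 ∧ cj τ y a = c • a) →
        ∀ y, ∃ c : ℂ, c ^ k = 1 ∧ cj ρ y (N a) = c • N a := by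
  classical
  have := Fintype.ofFinite (Y ⧸ Y0)
  let ϕ : Y ⧸ Y0 → End ℂ W →* End ℂ V := fun c => ((cj ρ c.out).comp Φ).toMonoidHom
  have hc : Pairwise fun c d => ∀ a b, Commute (ϕ c a) (ϕ d b) := fun c d h a b => by
    have h3 := congrArg (cj ρ c.out) (h2 (c.out⁻¹ * d.out) (fun h3 => h (by
      rw [← c.out_eq', ← d.out_eq']; exact QuotientGroup.eq.mpr h3)) a b)
    rwa [map_mul, map_mul, cj_cj, mul_inv_cancel_left] at h3
  let Ψ := MonoidHom.noncommPiCoprod ϕ hc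
  have h3 : ∀ (R : Submonoid (End ℂ V)) f, (∀ c, ϕ c (f c) ∈ R) → Ψ f ∈ R := fun R f h =>
    R.noncommProd_mem _ _ (fun _ _ _ _ h => hc h _ _) fun c _ => h c
  refine ⟨Ψ.comp (Pi.constMonoidHom _ _), fun R a h => h3 R _ fun c => h _, fun a h => ?_,
    fun a k h y => ?_⟩
  · let o : Y ⧸ Y0 := (1 : Y)
    have h4 : o.out ∈ Y0 := by simpa using inv_mem (QuotientGroup.eq.mp o.out_eq')
    refine ⟨Ψ (Function.update (fun _ => a) o 1), ?_⟩
    rw [← h ⟨_, h4⟩, h1, h ⟨_, h4⟩, show cj ρ o.out (Φ a) = Ψ (Pi.mulSingle o a) from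
      (MonoidHom.noncommPiCoprod_mulSingle ϕ o a).symm, ← map_mul]
    refine congrArg Ψ (funext fun c => ?_)
    by_cases h5 : c = o <;> simp [h5]
  · have h4 : ∀ c : Y ⧸ Y0, c.out⁻¹ * (y * (y⁻¹ • c).out) ∈ Y0 := fun c => QuotientGroup.eq.mp (by
      rw [QuotientGroup.out_eq', ← smul_eq_mul, ← MulAction.Quotient.smul_mk, QuotientGroup.out_eq',
        smul_inv_smul])
    let A : (Y ⧸ Y0 → End ℂ W) →* Y ⧸ Y0 → End ℂ W := MonoidHom.pi fun c =>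
      (cj τ ⟨_, h4 c⟩).toMonoidHom.comp (Pi.evalMonoidHom _ (y⁻¹ • c))
    have h5 : (cj ρ y).toMonoidHom.comp Ψ = Ψ.comp A := MonoidHom.pi_ext fun c b => by
      have h6 : A (Pi.mulSingle c b) = Pi.mulSingle (y • c) (cj τ ⟨_, h4 (y • c)⟩ b) := by
        funext d
        by_cases h7 : d = y • c
        · subst h7
          simp [A]
        · simp [A, h7, show y⁻¹ • d ≠ c from fun h8 => h7 (by rw [← h8, smul_inv_smul])]
      rw [MonoidHom.comp_apply, MonoidHom.comp_apply, h6, MonoidHom.noncommPiCoprod_mulSingle,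
        MonoidHom.noncommPiCoprod_mulSingle]
      change cj ρ y (cj ρ _ (Φ b)) = cj ρ _ (Φ _)
      rw [h1, cj_cj, cj_cj, mul_inv_cancel_left, inv_smul_smul]
    choose l h6 h7 using h
    obtain ⟨κ, h8, h9⟩ := h3 ((MonoidHom.mker (powMonoidHom k : ℂ →* ℂ)).map (algebraMap ℂ (End ℂ V)))
      (fun c => algebraMap ℂ _ (l ⟨_, h4 c⟩)) fun c =>
        ⟨_, h6 _, (((cj ρ c.out).comp Φ).commutes _).symm⟩
    refine ⟨κ, h8, (DFunLike.congr_fun h5 fun _ => a).trans ?_⟩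
    rw [Algebra.smul_def, show algebraMap ℂ (End ℂ V) κ = _ from h9, MonoidHom.comp_apply,
      MonoidHom.comp_apply, ← map_mul]
    exact congrArg Ψ (funext fun c => (h7 _).trans (Algebra.smul_def _ _))

theorem tensor [Fintype Y] (hp : p.Prime) (hY : IsPGroup p Y) (ρ : Representation ℂ Y V)
    (Y0 : Subgroup Y) [Fintype Y0] (τ : Representation ℂ Y0 W) (Φ : End ℂ W →ₐ[ℂ] End ℂ V)
    (h1 : ∀ y : Y0, ∀ a, Φ (cj τ y a) = cj ρ y (Φ a))
    (h2 : ∀ y ∉ Y0, ∀ a b, Φ a * cj ρ y (Φ b) = cj ρ y (Φ b) * Φ a) {j : ℕ} (hj : j ≠ 0)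
    (hD : dq (p ^ j) ρ.character 1 ∉ pInt p) : ∃ ν : Y0 →* ℂ,
      (∀ q : Y0, Φ (τ q) = ρ q → ν q ^ p ^ j = 1) ∧
        dq (p ^ j) (fun y => τ.character y * ν y) 1 ∉ pInt p := by
  classical
  obtain ⟨N, n1, n2, n3⟩ := exists_norm ρ Y0 τ Φ h1 h2
  obtain ⟨S, hS, hr⟩ := monomial hp (hY.to_subgroup Y0) τ
  let Fx := S.filter fun ε => stab τ ε = ⊤
  have f1 : ∀ ε ∈ Fx, ∀ y, cj τ y ε = ε := fun ε h y =>
    ((mem_filter.mp h).2 ▸ Subgroup.mem_top y : y ∈ stab τ ε)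
  have f2 : ∀ ε ∈ Fx, ε * ε = ε := fun ε h => hS.idem ε (mem_filter.mp h).1
  have f3 : ∀ ε ∈ Fx, finrank ℂ (LinearMap.range ε) = 1 := fun ε h =>
    hr ε (mem_filter.mp h).1 (mem_filter.mp h).2
  have f4 : ∀ ε, ∃ μ : Y0 →* ℂ, ε ∈ Fx → ∀ y, τ y * ε = μ y • ε := fun ε => by
    by_cases h : ε ∈ Fx
    · exact (exists_hom (hS.ne ε (mem_filter.mp h).1) (fun y => LinearMap.mulLeft ℂ (τ y))
        (by simp) (by simp) fun y => (rank_one (f3 ε h) (τ y)).imp fun c hc => by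
          rw [← hc, ← cj_eq_iff.mp (f1 ε h y), mul_assoc, f2 ε h]; rfl).imp fun _ h _ => h
    · exact ⟨1, fun h' => absurd h' h⟩
  choose μ hμ using f4
  have e1 : ∀ ε ∈ Fx, ∀ y, cj ρ y (N ε) = N ε := fun ε h y => by
    obtain ⟨c, h3, h4⟩ := n3 ε 1 (fun y => ⟨1, one_pow _, by rw [f1 ε h, one_smul]⟩) y
    rw [h4, ← pow_one c, h3, one_smul]
  have e2 : ∀ ε ∈ Fx, N ε * N ε = N ε := fun ε h => by rw [← map_mul, f2 ε h]
  have e3 : N 0 = 0 := by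
    obtain ⟨b, hb⟩ := n2 0 fun y => map_zero _
    rw [hb, map_zero, zero_mul]
  let C := (univ ×ˢ S).image fun x : Y × End ℂ W => cj ρ x.1 (Φ x.2)
  have c1 : ∀ y, ∀ ε ∈ S, cj ρ y (Φ ε) ∈ C := fun y ε h =>
    mem_image.mpr ⟨(y, ε), mem_product.mpr ⟨mem_univ _, h⟩, rfl⟩
  have c2 : ∀ a ∈ C, ∀ b ∈ C, a * b = b * a := by
    refine forall_mem_image.mpr fun a ha => forall_mem_image.mpr fun b hb => ?_
    rw [← mul_inv_cancel_left a.1 b.1, ← cj_cj, ← map_mul, ← map_mul]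
    congr 1
    by_cases h3 : a.1⁻¹ * b.1 ∈ Y0
    · rw [← h1 ⟨_, h3⟩, ← map_mul, ← map_mul]
      have h4 := hS.conj _ (mem_product.mp hb).2 ⟨_, h3⟩
      by_cases h5 : a.2 = cj τ ⟨_, h3⟩ b.2
      · rw [← h5]
      · rw [hS.orth _ (mem_product.mp ha).2 _ h4 h5, hS.orth _ h4 _ (mem_product.mp ha).2 (Ne.symm h5)]
    · exact h2 _ h3 _ _
  obtain ⟨T, hT, hs⟩ := exists_sys (ρ := ρ) (C := C) (forall_mem_image.mpr fun x hx g => by
    rw [cj_cj]; exact c1 _ _ (mem_product.mp hx).2) (eq_top_iff.mpr ((idem_span C c2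
      (forall_mem_image.mpr fun a ha => by
        rw [← map_mul, ← map_mul, hS.idem _ (mem_product.mp ha).2])).ge.trans (iSup_le (JE_le C))))
  have t1 : ∀ F ∈ T, ∀ b : End ℂ V, b * b = b → (∃ a : ℂ, b * F = a • F) → b * F ≠ 0 →
      b * F = F := by
    rintro F hF b h3 ⟨a, ha⟩ h4
    have h5 : a • (b * F) = b * F := by rw [← mul_smul_comm, ← ha, ← mul_assoc, h3]
    rw [ha, smul_left_injective ℂ h4 (h5.trans (one_smul ℂ _).symm), one_smul]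
  have t2 : ∀ F ∈ T, ∀ ε ∈ Fx, N ε * F ≠ 0 → N ε * F = F := fun F hF ε h => t1 F hF _ (e2 ε h)
    (n1 ⟨⟨{b | ∃ a : ℂ, b * F = a • F}, fun ⟨a, ha⟩ ⟨b, hb⟩ => ⟨b * a, by
      rw [mul_assoc, hb, mul_smul_comm, ha, smul_smul]⟩⟩, 1, by simp⟩ ε
      fun y => hs F hF _ (c1 y ε (mem_filter.mp h).1))
  let T' := T.filter fun F => ∀ ε ∈ Fx, N ε * F = 0
  have t3 : ∑ F ∈ T', F = 1 - ∑ ε ∈ Fx, N ε := by
    rw [eq_sub_iff_add_eq, ← hT.sum, ← mul_one (∑ ε ∈ Fx, N ε), ← hT.sum, mul_sum, sum_filter,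
      ← sum_add_distrib]
    refine sum_congr rfl fun F hF => ?_
    rw [sum_mul]
    split_ifs with h3
    · rw [sum_eq_zero h3, add_zero]
    push Not at h3
    obtain ⟨ε, h3, h4⟩ := h3
    rw [zero_add, sum_eq_single_of_mem ε h3 fun ε' h5 h6 => ?_, t2 F hF ε h3 h4]
    rw [← t2 F hF ε h3 h4, ← mul_assoc, ← map_mul,
      hS.orth _ (mem_filter.mp h5).1 _ (mem_filter.mp h3).1 h6, e3, zero_mul]
  have t4 := PSys.nofix (ρ := ρ) hp hY hj T' ⟨fun E hE => hT.idem E (filter_subset _ _ hE),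
    fun E hE F hF => hT.orth E (filter_subset _ _ hE) F (filter_subset _ _ hF), fun E hE g =>
      mem_filter.mpr ⟨hT.conj E (filter_subset _ _ hE) g, fun ε h => by
        rw [← e1 ε h g, ← map_mul, (mem_filter.mp hE).2 ε h, map_zero]⟩⟩ fun F hF h3 => ?_
  swap
  · obtain ⟨h4, h5⟩ := mem_filter.mp hF
    obtain ⟨ε, h6, h7⟩ : ∃ ε ∈ S, Φ ε * F ≠ 0 := exists_ne_zero_of_sum_ne_zero (by
      rw [← sum_mul, ← map_sum, hS.sum, map_one, one_mul]; exact hT.ne F h4)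
    have h8 := t1 F h4 _ (by rw [← map_mul, hS.idem ε h6])
      (hs F h4 _ (cj_one (ρ := ρ) (Φ ε) ▸ c1 1 ε h6)) h7
    have h9 : ∀ y, cj ρ y (Φ ε) * F = F := fun y => by
      rw [← (h3 ▸ Subgroup.mem_top y : y ∈ stab ρ F), ← map_mul, h8]
    refine hT.ne F h4 ((n1 ⟨⟨{b | b * F = F}, fun {a b} (ha : a * F = F) (hb : b * F = F) =>
      show a * b * F = F by rw [mul_assoc, hb, ha]⟩, one_mul F⟩ ε h9).symm.trans
      (h5 ε (mem_filter.mpr ⟨h6, eq_top_iff.mpr fun y _ => by_contra fun h10 => h7 ?_⟩)))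
    rw [← h9 y, ← h1, ← mul_assoc, ← map_mul, hS.orth ε h6 _ (hS.conj ε h6 y) (Ne.symm h10),
      map_zero, zero_mul]
  rw [t3, map_sub, map_sum] at t4
  let κ : End ℂ W → Y0 → ℂ := fun ε y => μ ε y ^ p ^ j
  have d1 : ∀ ε ∈ Fx, ∀ ε' ∈ Fx, κ ε' = κ ε → dE (p ^ j) ρ (N ε') = dE (p ^ j) ρ (N ε) := by
    intro ε h ε' h' h3
    obtain ⟨w, w', h4, h5, h6, h7⟩ := exists_link (f2 ε h) (f2 ε' h') ((f3 ε h).trans (f3 ε' h').symm)
    have h8 := n3 w (p ^ j) fun y => ⟨μ ε' y * μ ε y⁻¹, by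
      rw [mul_pow, show μ ε' y ^ p ^ j = μ ε y ^ p ^ j from congrFun h3 y, ← mul_pow, ← map_mul,
        mul_inv_cancel, map_one, one_pow], by
      rw [cj_def, ← h7, ← mul_assoc, hμ ε' h', h7, smul_mul_assoc, h7, smul_mul_assoc, mul_smul]
      nth_rewrite 1 [← h6]
      rw [mul_assoc, ← cj_eq_iff.mp (f1 ε h y⁻¹), hμ ε h, mul_smul_comm, h6]⟩
    by_cases h9 : N w = 0
    · rw [← h4, ← h5, map_mul N, map_mul N, h9, zero_mul, mul_zero]
    obtain ⟨Λ, h10⟩ := exists_hom h9 (fun y => (cj ρ y).toLinearMap) (cj_one _)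
      (fun x y => (cj_cj x y _).symm) fun y => (h8 y).imp fun _ h => h.2
    rw [dE_def, dE_def]
    refine congrArg _ (sum_congr rfl fun q _ => ?_)
    have h11 : cj ρ q (N w) = N w := (h10 q).trans (by
      rw [hom_Qs Λ (fun y => ?_) q.2, one_smul]
      obtain ⟨c, h11, h12⟩ := h8 y
      rwa [smul_left_injective ℂ h9 ((h10 y).symm.trans h12)])
    rw [← h4, ← h5, map_mul N, map_mul N, ← mul_assoc, cj_eq_iff.mp h11, mul_assoc,
      LinearMap.trace_mul_comm, mul_assoc]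
  by_contra h3
  push Not at h3
  refine hD ?_
  rw [← sub_add_cancel (dq _ _ _) (∑ ε ∈ Fx, dE (p ^ j) ρ (N ε))]
  refine add_mem t4 ?_
  rw [← sum_fiberwise_of_maps_to (g := κ) (t := Fx.image κ) fun θ hθ => mem_image_of_mem _ hθ]
  refine sum_mem (forall_mem_image.mpr fun ε h => ?_)
  rw [sum_congr rfl fun ε' h' => d1 ε h ε' (mem_filter.mp h').1 (mem_filter.mp h').2, sum_const,
    nsmul_eq_mul]
  by_cases h4 : dE (p ^ j) ρ (N ε) = 0
  · rw [h4, mul_zero]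
    exact zero_mem _
  refine pInt_mul ?_ ((isChar_idem (e2 ε h) fun y => cj_eq_iff.mp (e1 ε h y)).dq_int _)
  have h5 : ∀ y, μ ε y ≠ 0 := fun y => ((μ ε).toHomUnits y).ne_zero
  have h6 := sub_mem (h3 (invMonoidHom.comp (μ ε)) fun q hq => ?_) (dq_count hp (hY.to_subgroup Y0)
    hj hS μ (fun ε h h' => ⟨hr ε h h', hμ ε (mem_filter.mpr ⟨h, h'⟩)⟩) (invMonoidHom.comp (μ ε)))
  · rw [sub_sub_cancel] at h6
    rw [filter_congr_decidable] at h6
    rw [filter_congr (q := fun ε' => ∀ y, (invMonoidHom.comp (μ ε) y * μ ε' y) ^ p ^ j = 1)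
      fun ε' _ => funext_iff.trans (forall_congr' fun y => ?_)]
    · exact h6
    change _ ↔ ((μ ε y)⁻¹ * _) ^ _ = 1
    rw [mul_pow, inv_pow, inv_mul_eq_one₀ (pow_ne_zero _ (h5 y)), eq_comm]
  · obtain ⟨b, hb⟩ := n2 ε (f1 ε h)
    have h7 : ρ (q ^ p ^ j) * N ε = μ ε q ^ p ^ j • N ε := by
      rw [hb, map_pow, ← hq, ← map_pow, ← map_pow, ← mul_assoc, ← map_mul, hμ ε h, map_smul,
        smul_mul_assoc, map_pow]
    change (μ ε q)⁻¹ ^ _ = 1
    rw [inv_pow, inv_eq_one]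
    refine (mul_eq_right₀ h4).mp ?_
    rw [dE_def, mul_left_comm, mul_sum]
    refine congrArg _ (Fintype.sum_equiv (Equiv.mulRight ⟨_, pow_mem_Qs (p ^ j) (q : Y)⟩) _ _
      fun u => ?_)
    simp only [Equiv.coe_mulRight, Subgroup.coe_mul, map_mul, mul_assoc, h7, mul_smul_comm,
      map_smul, smul_eq_mul]

end Pool.Agent.MP_3e257e_al
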