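import Pool.Agent.MP_3e257e_al.RCl

/-!
Unipotent groups of filtrations, subquotient actions and rationality of unipotent parts.
-/

set_option autoImplicit false
set_option linter.unusedSectionVars false

namespace Pool.Agent.MP_3e257e_al

open Module Polynomial Function

variable {F V : Type} [Field F] [AddCommGroup V] [Module F V] [Finite V] {p : ℕ}

instance : Finite (V ≃ₗ[F] V) := DFunLike.finite _

theorem pow_stab {W : Submodule F V} {g : V ≃ₗ[F] V} (h : ∀ v ∈ W, g v ∈ W) (n : ℕ) :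
    ∀ v ∈ W, (g ^ n) v ∈ W := by
  induction n with
  | zero => simp
  | succ n ih => exact fun v hv => by rw [pow_succ]; exact ih _ (h v hv)

/-- The stabiliser of a subspace. -/
def Stab (W : Submodule F V) : Subgroup (V ≃ₗ[F] V) where
  carrier := {g | ∀ v ∈ W, g v ∈ W}
  one_mem' := fun _ h => h
  mul_mem' := fun h h' v hv => h _ (h' v hv)
  inv_mem' := fun {g} h => by
    obtain ⟨n, hn⟩ := mem_powers_iff_mem_zpowers.mpr (inv_mem (Subgroup.mem_zpowers g))
    exact hn ▸ pow_stab h n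

/-- The group acting trivially on the factors of a filtration. -/
def Uni (C : ℕ → Submodule F V) : Subgroup (V ≃ₗ[F] V) where
  carrier := {g | ∀ i, g ∈ Stab (C i) ∧ ∀ v ∈ C i, g v - v ∈ C (i + 1)}
  one_mem' := fun i => ⟨one_mem _, by simp⟩
  mul_mem' := fun {g g'} h h' i => ⟨mul_mem (h i).1 (h' i).1, fun v hv => by
    simpa using add_mem ((h i).2 _ ((h' i).1 v hv)) ((h' i).2 v hv)⟩
  inv_mem' := fun {g} h i => ⟨inv_mem (h i).1, fun v hv => by
    simpa using neg_mem ((h i).2 _ (inv_mem (h i).1 v hv))⟩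

/-- The nilpotent part of a unipotent automorphism. -/
def nl (g : V ≃ₗ[F] V) : End F V := (g : End F V) - 1

theorem nl_apply (g : V ≃ₗ[F] V) (v : V) : nl g v = g v - v := rfl

theorem coe_pow' (g : V ≃ₗ[F] V) (n : ℕ) : ((g ^ n : V ≃ₗ[F] V) : End F V) = (g : End F V) ^ n :=
  map_pow LinearEquiv.automorphismGroup.toLinearMapMonoidHom g n

theorem nl_pow (hp : p.Prime) [CharP F p] (g : V ≃ₗ[F] V) (k : ℕ) :
    nl g ^ p ^ k = nl (g ^ p ^ k) := by
  have := Fact.mk hp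
  have h := congrArg (aeval (g : End F V)) (sub_pow_char_pow (X : F[X]) 1 k)
  simpa [nl, coe_pow'] using h

theorem nl_eq {g : V ≃ₗ[F] V} : nl g = 0 ↔ g = 1 :=
  ⟨fun h => LinearEquiv.ext fun v => sub_eq_zero.mp (LinearMap.congr_fun h v),
    fun h => h ▸ sub_self _⟩

theorem pel_of (hp : p.Prime) [CharP F p] {g : V ≃ₗ[F] V} {n k : ℕ} (h : nl g ^ n = 0)
    (hn : n ≤ p ^ k) : g ^ p ^ k = 1 := by
  rw [← nl_eq, ← nl_pow hp, pow_eq_zero_of_le hn h]

theorem uni_pel {C : ℕ → Submodule F V} (h0 : C 0 = ⊤) {n : ℕ}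
    (hn : C n = ⊥) {g : V ≃ₗ[F] V} (hg : g ∈ Uni C) : nl g ^ n = 0 := by
  have h : ∀ i v, (nl g ^ i) v ∈ C i := fun i v => by
    induction i with
    | zero => simp [h0]
    | succ i ih => rw [pow_succ']; exact (hg i).2 _ ih
  exact LinearMap.ext fun v => (Submodule.mem_bot F).mp (hn ▸ h n v)

theorem pel_mul (hp : p.Prime) [CharP F p] {C : ℕ → Submodule F V} (h0 : C 0 = ⊤) {n : ℕ}
    (hn : C n = ⊥) {T u : V ≃ₗ[F] V} (hT : T ∈ Uni C) (hu : ∀ i, u ∈ Stab (C i)) {k : ℕ}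
    (hk : u ^ p ^ k = 1) : ∃ k, (T * u) ^ p ^ k = 1 := by
  have h : ∀ j, (T * u) ^ j * (u ^ j)⁻¹ ∈ Uni C := fun j => by
    induction j with
    | zero => simp
    | succ j ih =>
      rw [show (T * u) ^ (j + 1) * (u ^ (j + 1))⁻¹ = T * (u * ((T * u) ^ j * (u ^ j)⁻¹) * u⁻¹) by
        rw [pow_succ' (T * u)]; group]
      refine mul_mem hT fun i => ⟨mul_mem (mul_mem (hu i) (ih i).1) (inv_mem (hu i)), fun v hv => ?_⟩
      simpa using hu (i + 1) _ ((ih i).2 _ (inv_mem (hu i) v hv))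
  have h1 := h (p ^ k)
  rw [hk, inv_one, mul_one] at h1
  exact ⟨k + n, by
    rw [pow_add, pow_mul, pel_of hp (uni_pel h0 hn h1) (Nat.lt_pow_self hp.one_lt).le]⟩

/-- A filtration with three steps. -/
def fl (A B : Submodule F V) : ℕ → Submodule F V
  | 0 => ⊤
  | 1 => A
  | 2 => B
  | _ => ⊥

theorem fl_stab {A B : Submodule F V} {g : V ≃ₗ[F] V} (h1 : g ∈ Stab A) (h2 : g ∈ Stab B) :
    ∀ i, g ∈ Stab (fl A B i)
  | 0 => fun _ _ => trivial
  | 1 => h1
  | 2 => h2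
  | _ + 3 => fun _ h => by rw [(Submodule.mem_bot F).mp h, map_zero]; exact zero_mem _

theorem mem_fl {A B : Submodule F V} (h : B ≤ A) {g : V ≃ₗ[F] V} (h0 : ∀ v, g v - v ∈ A)
    (h1 : ∀ v ∈ A, g v - v ∈ B) (h2 : ∀ v ∈ B, g v = v) : g ∈ Uni (fl A B) := fun i =>
  ⟨fl_stab (fun v hv => by simpa using add_mem (h (h1 v hv)) hv) (fun v hv => by rwa [h2 v hv]) i,
    match i with
    | 0 => fun v _ => h0 v
    | 1 => h1
    | 2 => fun v hv => sub_eq_zero.mpr (h2 v hv)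
    | _ + 3 => fun _ h => by rw [(Submodule.mem_bot F).mp h, map_zero, sub_zero]; exact zero_mem _⟩

theorem fl_pel (hp : p.Prime) [CharP F p] {A B : Submodule F V} {g : V ≃ₗ[F] V}
    (h : g ∈ Uni (fl A B)) : g ^ p ^ 3 = 1 :=
  pel_of hp (uni_pel rfl (n := 3) rfl h) (Nat.lt_pow_self hp.one_lt).le

theorem exists_last {N : End F V} {n : ℕ} (h : N ^ n = 0) {W : Submodule F V} {v : V}
    (hv : v ∉ W) : ∃ i, (N ^ i) v ∉ W ∧ N ((N ^ i) v) ∈ W := by
  by_contra h1
  push Not at h1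
  have h2 : ∀ i, (N ^ i) v ∉ W := fun i => by
    induction i with
    | zero => exact hv
    | succ i ih => rw [pow_succ']; exact h1 i ih
  exact h2 n (by simp [h])

/-- A subquotient. -/
abbrev Sq (U K : Submodule F V) : Type := U ⧸ K.submoduleOf U

instance (U K : Submodule F V) : Finite (Sq U K) := Quotient.finite _

/-- The action on a subquotient. -/
noncomputable def sq {Γ : Subgroup (V ≃ₗ[F] V)} {U K : Submodule F V} (hU : Γ ≤ Stab U)
    (hK : Γ ≤ Stab K) : Γ →* (Sq U K ≃ₗ[F] Sq U K) :=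
  (LinearMap.GeneralLinearGroup.generalLinearEquiv F _).toMonoidHom.comp (MonoidHom.toHomUnits
    (Representation.quotient (Representation.subrepresentation
      (LinearEquiv.automorphismGroup.toLinearMapMonoidHom.comp Γ.subtype) U fun g => hU g.2)
      (K.submoduleOf U) fun g v => hK g.2 v))

theorem sq_mk {Γ : Subgroup (V ≃ₗ[F] V)} {U K : Submodule F V} (hU : Γ ≤ Stab U)
    (hK : Γ ≤ Stab K) (g : Γ) (v : U) : sq hU hK g (Submodule.Quotient.mk v) =
      Submodule.Quotient.mk ⟨g.1 v, hU g.2 v v.2⟩ := rfl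

theorem sq_ker {Γ : Subgroup (V ≃ₗ[F] V)} {U K : Submodule F V} {hU : Γ ≤ Stab U}
    {hK : Γ ≤ Stab K} {g : Γ} (h : sq hU hK g = 1) : ∀ v ∈ U, g.1 v - v ∈ K := fun v hv =>
  (Submodule.Quotient.eq (K.submoduleOf U)).mp
    ((sq_mk hU hK g ⟨v, hv⟩).symm.trans (by rw [h]; rfl) : _ = Submodule.Quotient.mk ⟨v, hv⟩)

theorem sq_lt {U K : Submodule F V} (h : U ≠ ⊤ ∨ (U = ⊤ ∧ K ≠ ⊥)) :
    finrank F (Sq U K) < finrank F V := by
  have h1 := (K.submoduleOf U).finrank_quotient_add_finrank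
  rcases h with h | ⟨rfl, h⟩
  · exact (Nat.le.intro h1).trans_lt (Submodule.finrank_lt h)
  · rw [finrank_top, (Submodule.submoduleOfEquivOfLe le_top).finrank_eq] at h1
    exact h1 ▸ Nat.lt_add_of_pos_right (Nat.pos_of_ne_zero (Submodule.finrank_eq_zero.not.mpr h))

theorem rch_of_full {G : Type} [Group G] [Finite G] (hp : p.Prime) {R : Subgroup G}
    (h : ∀ (g : G) k, g ^ p ^ k = 1 → g ∈ R) : Rch p R := by
  have := Fact.mk hp
  obtain ⟨P⟩ : Nonempty (Sylow p G) := inferInstance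
  refine .of_index fun h1 => P.not_dvd_index (h1.trans (Subgroup.index_dvd_of_le fun g hg => ?_))
  obtain ⟨k, hk⟩ := P.2 ⟨g, hg⟩
  exact h g k (congrArg Subtype.val hk)

theorem gl_conj (hp : p.Prime) [CharP F p] {g : V ≃ₗ[F] V} {N m t : ℕ}
    (hg : g ^ (p ^ N * m) = 1) (ht : t ≡ 1 [MOD p * m]) (ht0 : t ≠ 0) :
    ∃ φ ∈ Uni fun i => LinearMap.range (nl (g ^ m) ^ i), φ * g * φ⁻¹ = g ^ t := by
  classical
  have := Fact.mk hp
  let n : F[X] := X ^ m - 1
  let τ := expand F t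
  have a1 : ∀ r, n ∣ τ r - r := fun r => by
    obtain ⟨c, hc⟩ := (Nat.modEq_iff_dvd' (Nat.pos_of_ne_zero ht0)).mp (ht.of_mul_left p).symm
    have h1 : n ∣ X ^ t - X := by
      rw [← Nat.sub_add_cancel (Nat.pos_of_ne_zero ht0), hc, pow_succ, pow_mul, ← sub_one_mul]
      exact (sub_one_dvd_pow_sub_one _ c).mul_right _
    have h2 := sub_dvd_eval_sub (X ^ t) X (r.map C)
    rw [eval_map, eval_map, eval₂_C_X] at h2
    exact h1.trans h2
  have a2 : n ^ 2 ∣ τ n - n := by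
    have h1 := sq_dvd_add_pow_sub_sub n 1 t
    rw [(CharP.natCast_eq_natCast F[X] p).mpr (ht.of_mul_right m)] at h1
    convert h1 using 1
    simp [n, τ, ← pow_mul, mul_comm, sub_sub]
  let M := AEval' (g : End F V)
  let o : V ≃ₗ[F] M := AEval'.of (g : End F V)
  have a3 : ∀ i v, o ((nl (g ^ m) ^ i) v) = n ^ i • o v := fun i v => by
    rw [← AEval.of_aeval_smul]
    simp [n, nl, coe_pow']
    rfl
  have a4 : nl (g ^ m) ^ p ^ N = 0 := by rw [nl_pow hp, ← pow_mul, mul_comm, hg, nl_eq]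
  obtain ⟨ι, _, f, hf, e, ⟨E⟩⟩ := equiv_directSum_of_isTorsion
    (AEval.isTorsion_of_finiteDimensional F V (g : End F V))
  replace E := E.trans (DirectSum.linearEquivFunOnFintype _ _ _)
  have a5 : ∀ i, Ideal.span {f i ^ e i} ≤ (Ideal.span {f i ^ e i}).comap τ := fun i => by
    rw [Ideal.span_singleton_le_iff_mem, Ideal.mem_comap, Ideal.mem_span_singleton, map_pow]
    by_cases h1 : e i = 0
    · simp [h1]
    refine pow_dvd_pow_of_dvd ((dvd_sub_left dvd_rfl).mp (Dvd.dvd.trans ?_ (a1 _))) _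
    obtain ⟨v, hv⟩ := o.surjective (E.symm (Pi.single i (Submodule.Quotient.mk 1)))
    have h2 := congrFun (congrArg E (a3 (p ^ N) v)) i
    rw [a4, hv, map_smul, E.apply_symm_apply, LinearMap.zero_apply, map_zero, map_zero,
      Pi.smul_apply, Pi.single_eq_same, ← Submodule.Quotient.mk_smul, smul_eq_mul, mul_one] at h2
    exact (hf i).prime.dvd_of_dvd_pow ((dvd_pow_self _ h1).trans
      (Ideal.mem_span_singleton.mp ((Submodule.Quotient.mk_eq_zero _).mp h2.symm)))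
  let ψ : M →ₗ[F] M := (E.symm.restrictScalars F).toLinearMap ∘ₗ
    (LinearMap.piMap fun i => (Ideal.quotientMapₐ _ τ (a5 i)).toLinearMap) ∘ₗ
      (E.restrictScalars F).toLinearMap
  have b0 : ∀ a i, E (ψ a) i = Ideal.quotientMapₐ _ τ (a5 i) (E a i) := fun a i =>
    congrFun (E.apply_symm_apply _) i
  have b1 : ∀ (r : F[X]) a, ψ (r • a) = τ r • ψ a := fun r a => E.injective (funext fun i => by
    rw [b0, map_smul, map_smul, Pi.smul_apply, Pi.smul_apply, b0]
    obtain ⟨s, hs⟩ := Ideal.Quotient.mk_surjective (E a i)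
    rw [← hs]
    exact congrArg (Ideal.Quotient.mk _) (map_mul τ r s))
  have b2 : ∀ a, ∃ b, ψ a = a + n • b := fun a => by
    choose s hs using fun i => Ideal.Quotient.mk_surjective (E a i)
    choose c hc using fun i => a1 (s i)
    refine ⟨E.symm fun i => Ideal.Quotient.mk _ (c i), E.injective (funext fun i => ?_)⟩
    rw [b0, map_add, map_smul, E.apply_symm_apply, Pi.add_apply, ← hs]
    exact congrArg (Ideal.Quotient.mk _) (eq_add_of_sub_eq' (hc i))
  let φ : End F V := o.symm.toLinearMap ∘ₗ ψ ∘ₗ o.toLinearMap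
  have b3 : ∀ v, o (φ v) = ψ (o v) := fun v => o.apply_symm_apply _
  have b4 : ∀ i, ∀ v ∈ LinearMap.range (nl (g ^ m) ^ i),
      φ v - v ∈ LinearMap.range (nl (g ^ m) ^ (i + 1)) := by
    rintro i _ ⟨v, rfl⟩
    obtain ⟨c, hc⟩ := a2
    obtain ⟨d, hd⟩ := sub_one_dvd_pow_sub_one (1 + n * c) i
    obtain ⟨b, hb⟩ := b2 (o v)
    refine ⟨o.symm ((c * d) • o v + (1 + n * c * d) • b), o.injective ?_⟩
    rw [a3, map_sub, b3, a3, b1, hb, o.apply_symm_apply, map_pow,
      show τ n = n * (1 + n * c) by linear_combination hc, mul_pow, eq_add_of_sub_eq hd]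
    module
  have b5 : ∀ i, LinearMap.range (nl (g ^ m) ^ (i + 1)) ≤ LinearMap.range (nl (g ^ m) ^ i) :=
    fun i => by rw [pow_succ]; exact LinearMap.range_comp_le_range _ _
  have b6 : Injective φ := (injective_iff_map_eq_zero φ).mpr fun v hv => by
    have h1 : ∀ i, v ∈ LinearMap.range (nl (g ^ m) ^ i) := fun i => by
      induction i with
      | zero => exact ⟨v, rfl⟩
      | succ i ih => simpa [hv] using b4 i v ih
    simpa [a4] using h1 (p ^ N)
  refine ⟨LinearEquiv.ofInjectiveEndo φ b6, fun i => ⟨fun v hv => ?_, b4 i⟩,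
    mul_inv_eq_iff_eq_mul.mpr (LinearEquiv.ext fun v => o.injective ?_)⟩
  · simpa using add_mem (b5 i (b4 i v hv)) hv
  · refine (b3 _).trans ((congrArg ψ (AEval'.X_smul_of _ v).symm).trans ((b1 _ _).trans ?_))
    rw [expand_X, ← b3, AEval'.X_pow_smul_of, ← coe_pow']
    rfl

end Pool.Agent.MP_3e257e_al
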