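import Pool.Agent.MP_3e257e_al.Lev

/-!
Sums over orbits; sums of characters over sections.
-/

set_option autoImplicit false

namespace Pool.Agent.MP_3e257e_al

open Finset MulAction

theorem orb {H α : Type} [Group H] [MulAction H α] (S : Finset α)
    (hS : ∀ x ∈ S, ∀ h : H, h • x ∈ S) (f : α → ℂ) (hf : ∀ x ∈ S, ∀ h : H, f (h • x) = f x)
    (I : AddSubgroup ℂ) (hI : ∀ x ∈ S, ((stabilizer H x).index : ℂ) * f x ∈ I) :
    ∑ x ∈ S, f x ∈ I := by
  classical
  rw [← sum_fiberwise_of_maps_to (g := Quotient.mk (orbitRel H α)) (t := S.image _)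
    fun x hx => mem_image_of_mem _ hx]
  refine I.sum_mem fun j hj => ?_
  obtain ⟨x, hx, rfl⟩ := mem_image.mp hj
  have h1 : ((S.filter fun y => Quotient.mk (orbitRel H α) y = Quotient.mk _ x : Finset α) : Set α)
      = orbit H x := by
    ext y
    simp only [coe_filter, Quotient.eq, orbitRel_apply, Set.mem_ofPred_eq]
    exact ⟨fun h => h.2, fun h => ⟨by obtain ⟨g, rfl⟩ := h; exact hS x hx g, h⟩⟩
  rw [sum_congr rfl (g := fun _ => f x), sum_const, nsmul_eq_mul, ← Set.ncard_coe_finset, h1,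
    ← index_stabilizer]
  · exact hI x hx
  · intro y hy
    have h2 : y ∈ orbit H x := h1 ▸ mem_coe.mpr hy
    obtain ⟨g, rfl⟩ := h2
    exact hf x hx g

variable {G : Type} [Group G]

theorem brauer [Fintype G] {Θ : G → ℂ} (hΘ : IsChar Θ) (n : ℕ) : ∀ (T : Subgroup G)
    (S : Finset G), Nat.card T = n → (∀ x ∈ S, ∀ t ∈ T, t * x * t⁻¹ ∈ S) →
    (∀ x ∈ S, ∀ F ≤ T, (∀ f ∈ F, x⁻¹ * f * x ∈ F) → ∀ f ∈ F, x * f ∈ S) →
    ∑ x ∈ S, Θ x ∈ mulInt n := by
  classical
  induction n using Nat.strong_induction_on with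
  | _ n ih =>
  intro T S hn h1 h2
  rw [← sum_fiberwise S (QuotientGroup.mk (s := T))]
  have hs : ∀ (t : T) (y : G), t • (y : G ⧸ T) = ((t * y * (t : G)⁻¹ : G) : G ⧸ T) := fun t y =>
    (QuotientGroup.mk_mul_of_mem _ (T.inv_mem t.2)).symm
  refine orb (H := T) univ (fun _ _ _ => mem_univ _) _ (fun c _ t => ?_) _ fun c _ => ?_
  · refine (sum_nbij' (fun y => t * y * (t : G)⁻¹) (fun y => (t : G)⁻¹ * y * t) ?_ ?_ ?_ ?_ ?_).symm
    · intro y hy
      obtain ⟨h3, h4⟩ := mem_filter.mp hy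
      exact mem_filter.mpr ⟨h1 y h3 t t.2, by rw [← hs, h4]⟩
    · intro y hy
      obtain ⟨h3, h4⟩ := mem_filter.mp hy
      refine mem_filter.mpr ⟨by simpa using h1 y h3 _ (T.inv_mem t.2), ?_⟩
      have := hs t⁻¹ y
      rw [h4, inv_smul_smul] at this
      simpa using this.symm
    · intro y _; group
    · intro y _; group
    · intro y _; exact (hΘ.conj _ _).symm
  have hc : (stabilizer T c).index * Nat.card (T ⊓ stabilizer G c : Subgroup G) = n := by
    rw [← hn, ← (stabilizer T c).index_mul_card,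
      ← Nat.card_congr (Subgroup.subgroupOfEquivOfLe (inf_le_left (a := T)
        (b := stabilizer G c))).toEquiv, Subgroup.inf_subgroupOf_left]
    rfl
  suffices h : ∑ y ∈ S.filter fun y : G => (y : G ⧸ T) = c, Θ y ∈
      mulInt (Nat.card (T ⊓ stabilizer G c : Subgroup G)) by
    obtain ⟨w, hw, h⟩ := h
    exact ⟨w, hw, by rw [h, ← hc]; push_cast; ring⟩
  by_cases hT : T ⊓ stabilizer G c = T
  · rcases (S.filter fun y : G => (y : G ⧸ T) = c).eq_empty_or_nonempty with h | ⟨x, hx⟩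
    · rw [h, sum_empty]; exact zero_mem _
    obtain ⟨h3, rfl⟩ := mem_filter.mp hx
    have h4 : ∀ t ∈ T, x⁻¹ * t * x ∈ T := by
      intro t ht
      have h5 : t • (x : G ⧸ T) = x := (inf_eq_left.mp hT) ht
      rw [mul_assoc]
      exact QuotientGroup.eq.mp h5.symm
    have h5 : ∑ y ∈ S.filter fun y : G => (y : G ⧸ T) = x, Θ y = ∑ t : T, Θ (t * x) := by
      refine (sum_bij (fun (t : T) _ => x * t) ?_ ?_ ?_ ?_).symm
      · intro t _
        exact mem_filter.mpr ⟨h2 x h3 T le_rfl h4 t t.2, QuotientGroup.mk_mul_of_mem _ t.2⟩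
      · intro t _ t' _ h
        exact Subtype.ext (mul_left_cancel h)
      · intro y hy
        exact ⟨⟨x⁻¹ * y, QuotientGroup.eq.mp (mem_filter.mp hy).2.symm⟩, mem_univ _, by simp⟩
      · intro t _
        exact hΘ.comm _ _
    refine ⟨_, hΘ.hecke T.subtype ⊤ x fun r _ => ⟨⟨_, h4 r r.2⟩, by simp [mul_assoc]⟩, ?_⟩
    rw [h5, hT, Subgroup.card_top, mul_inv_cancel_left₀ (Nat.cast_ne_zero.mpr Nat.card_pos.ne')]
    rfl
  · refine ih _ ?_ _ _ rfl ?_ ?_
    · rw [← hn]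
      exact lt_of_le_of_ne (Subgroup.card_le_of_le inf_le_left) fun h =>
        hT (Subgroup.eq_of_le_of_card_ge inf_le_left h.ge)
    · intro y hy t ht
      obtain ⟨h3, h4⟩ := mem_filter.mp hy
      refine mem_filter.mpr ⟨h1 y h3 t ht.1, ?_⟩
      rw [← hs ⟨t, ht.1⟩, h4]
      exact ht.2
    · intro y hy F hF h3 f hf
      obtain ⟨h4, h5⟩ := mem_filter.mp hy
      exact mem_filter.mpr ⟨h2 y h4 F (hF.trans inf_le_left) h3 f hf,
        (QuotientGroup.mk_mul_of_mem _ (hF hf).1).trans h5⟩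

theorem conj_of_coset [Finite G] {p N e : ℕ} (hp : p.Prime) (he : ∀ g : G, (g ^ e) ^ p ^ N = 1)
    {x : G} {F : Subgroup G} (hF : ∀ f ∈ F, x⁻¹ * f * x ∈ F) (hc : ¬ p ∣ Nat.card F) {f0 : G}
    (h0 : f0 ∈ F) : IsConj ((x * f0) ^ e) (x ^ e) := by
  classical
  have := Fact.mk hp
  have := Fintype.ofFinite F
  have h1 : ∀ k : ℕ, ∀ f ∈ F, (x ^ k)⁻¹ * f * (x * f0) ^ k ∈ F := by
    intro k f hf
    induction k with
    | zero => simpa using hf
    | succ k ih =>
      have := F.mul_mem (hF _ ih) h0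
      rwa [show x⁻¹ * ((x ^ k)⁻¹ * f * (x * f0) ^ k) * x * f0 =
        (x ^ (k + 1))⁻¹ * f * (x * f0) ^ (k + 1) by rw [pow_succ', pow_succ]; group] at this
  let σ : Equiv.Perm F := Equiv.ofBijective
    (fun f => ⟨(x ^ e)⁻¹ * f * (x * f0) ^ e, h1 e f f.2⟩)
    (Finite.injective_iff_bijective.mp fun f f' h => Subtype.ext (by simpa using h))
  have h2 : ∀ (k : ℕ) (f : F), ((σ ^ k) f : G) = ((x ^ e) ^ k)⁻¹ * f * ((x * f0) ^ e) ^ k := by
    intro k f
    induction k with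
    | zero => simp
    | succ k ih =>
      rw [pow_succ', Equiv.Perm.mul_apply]
      change (x ^ e)⁻¹ * ((σ ^ k) f : G) * (x * f0) ^ e = _
      rw [ih, pow_succ (x ^ e), pow_succ ((x * f0) ^ e)]
      group
  obtain ⟨f, hf⟩ := Equiv.Perm.exists_fixed_point_of_prime (p := p) (n := N) (σ := σ)
    (by rwa [← Nat.card_eq_fintype_card]) (by
      ext f
      rw [h2, he, he]
      simp)
  have h3 : (x ^ e)⁻¹ * f * (x * f0) ^ e = f := congrArg Subtype.val hf
  refine isConj_iff.mpr ⟨f, ?_⟩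
  rw [mul_inv_eq_iff_eq_mul]
  rw [mul_assoc, inv_mul_eq_iff_eq_mul] at h3
  exact h3

theorem mulInt_mul {a b : ℕ} (h : a.Coprime b) {z : ℂ} (ha : z ∈ mulInt a) (hb : z ∈ mulInt b) :
    z ∈ mulInt ((a * b : ℕ) : ℂ) := by
  obtain ⟨w, hw, h1⟩ := ha
  obtain ⟨w', hw', h2⟩ := hb
  obtain ⟨u, v, h3⟩ := Nat.isCoprime_iff_coprime.mpr h
  have h4 : (u : ℂ) * a + v * b = 1 := by exact_mod_cast h3
  refine ⟨u * w' + v * w, by simpa using (hw'.smul u).add (hw.smul v), ?_⟩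
  push_cast
  linear_combination (-z) * h4 + (u : ℂ) * a * h2 + (v : ℂ) * b * h1

theorem mulInt_of_prime_pow {z : ℂ} (hz : IsIntegral ℤ z) (m : ℕ) : m ≠ 0 →
    (∀ q k : ℕ, q.Prime → q ^ k ∣ m → z ∈ mulInt ((q ^ k : ℕ) : ℂ)) → z ∈ mulInt m := by
  induction m using Nat.recOnPosPrimePosCoprime with
  | prime_pow q k hq _ => exact fun _ h => h q k hq dvd_rfl
  | zero => exact fun h => absurd rfl h
  | one => exact fun _ _ => ⟨z, hz, by simp⟩
  | coprime a b ha hb hab iha ihb =>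
    exact fun _ h => mulInt_mul hab (iha (by omega) fun q k hq h1 => h q k hq (h1.mul_right b))
      (ihb (by omega) fun q k hq h1 => h q k hq (h1.mul_left a))

open Classical in
theorem sec_int [Fintype G] {Θ : G → ℂ} (hΘ : IsChar Θ) {p N e m : ℕ} (hp : p.Prime)
    (he : ∀ g : G, (g ^ e) ^ p ^ N = 1) (hm : m ∣ Nat.card G) (hpm : ¬ p ∣ m)
    (c : ConjClasses G) :
    ∑ g ∈ univ.filter fun g : G => ConjClasses.mk (g ^ e) = c, Θ g ∈ mulInt m := by
  refine mulInt_of_prime_pow (IsIntegral.sum _ fun g _ => hΘ.integral g) m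
    (by rintro rfl; exact hpm (dvd_zero p)) fun q k hq hk => ?_
  have := Fact.mk hq
  obtain ⟨T, hT⟩ := Sylow.exists_subgroup_card_pow_prime q (hk.trans hm)
  refine brauer hΘ _ T _ hT ?_ ?_
  · intro x hx t _
    refine mem_filter.mpr ⟨mem_univ _, Eq.trans ?_ (mem_filter.mp hx).2⟩
    rw [conj_pow, ConjClasses.mk_eq_mk_iff_isConj]
    exact (isConj_iff.mpr ⟨t, rfl⟩).symm
  · intro x hx F hF h1 f hf
    refine mem_filter.mpr ⟨mem_univ _, Eq.trans ?_ (mem_filter.mp hx).2⟩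
    rw [ConjClasses.mk_eq_mk_iff_isConj]
    exact conj_of_coset hp he h1
      (fun h => hpm (h.trans ((hT ▸ Subgroup.card_dvd_of_le hF).trans hk))) hf

end Pool.Agent.MP_3e257e_al
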